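import Pool.Agent.MP_ea99c2_gt.Cycles

/-!
# Exhaustive search for diagrams on a board

Tables are packed into natural numbers; `g5` and `g7` read entries of 5 and 7 bits.
-/

set_option linter.unusedVariables false

namespace Pool.Agent.MP_ea99c2_gt

open Equiv Equiv.Perm

def g5 (t i : ℕ) : ℕ := Nat.mod (Nat.shiftRight t (Nat.mul 5 i)) 32

def g7 (t i : ℕ) : ℕ := Nat.mod (Nat.shiftRight t (Nat.mul 7 i)) 128

/-- Bit mask of the cycle of `b` (all bits set if the cycle is too long). -/
noncomputable def mask (R b fuel : ℕ) : ℕ → ℕ → ℕ :=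
  Nat.rec (motive := fun _ => ℕ → ℕ → ℕ) (fun _ _ => 1048575)
    (fun _ ih x M => (fun y => cond (Nat.beq y b) M (ih y (Nat.lor M (Nat.shiftLeft 1 y))))
      (g5 R x)) fuel

/-- The words starting with `l`, without this letter. -/
noncomputable def flt (l : ℕ) (ws : List (List ℕ)) : List (List ℕ) :=
  List.rec (motive := fun _ => List (List ℕ)) []
    (fun w _ ih => List.rec (motive := fun _ => List (List ℕ)) ih
      (fun a w' _ => cond (Nat.beq a l) (w' :: ih) ih) w) ws

/-- Is one of the words empty? -/
noncomputable def complete (ws : List (List ℕ)) : Bool :=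
  List.rec (motive := fun _ => Bool) false
    (fun w _ ih => List.rec (motive := fun _ => Bool) true (fun _ _ _ => ih) w) ws

noncomputable def rm (b b2 : ℕ) (fr : List ℕ) : List ℕ :=
  List.rec (motive := fun _ => List ℕ) []
    (fun x _ ih => cond (Nat.beq x b) ih (cond (Nat.beq x b2) ih (x :: ih))) fr

noncomputable def allL (f : ℕ → Bool) (l : List ℕ) : Bool :=
  List.rec (motive := fun _ => Bool) true (fun x _ ih => cond (f x) ih false) l

/-- Leave the current cell through the cell side `e`. -/
noncomputable def leave (R0 nx ent lim : ℕ)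
    (ih : ℕ → List (List ℕ) → ℕ → ℕ → ℕ → List ℕ → ℕ → Bool)
    (e : ℕ) (R : ℕ) (fr : List ℕ) (mg : ℕ) (ws : List (List ℕ)) (Q nl : ℕ) : Bool :=
  (fun v => cond (Nat.ble 64 v)
    ((fun b => (fun t => cond (Nat.beq t (g5 R0 b))
        ((fun M => allL (fun b2 => cond (Nat.beq b2 b) true
            ((fun mg' => cond (Nat.ble lim mg') true
              (ih (g7 ent b2) ws Q nl
                ((fun df => Nat.xor (Nat.xor R (Nat.shiftLeft df (Nat.mul 5 b)))
                  (Nat.shiftLeft df (Nat.mul 5 b2))) (Nat.xor t (g5 R b2)))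
                (rm b b2 fr) mg'))
              (cond (Nat.beq (Nat.mod (Nat.shiftRight M b2) 2) 0) (Nat.succ mg) mg))) fr)
          (mask R b 20 b 0))
        (ih (g7 ent (Nat.add 32 t)) ws Q nl R fr mg)) (g5 R b)) (Nat.sub v 64))
    (ih v ws Q nl R fr mg)) (g7 nx e)

/-- One step of the search: enter a cell through the cell side `d`. -/
noncomputable def stepS (R0 out nx ent start hole lim : ℕ)
    (ih : ℕ → List (List ℕ) → ℕ → ℕ → ℕ → List ℕ → ℕ → Bool)
    (d : ℕ) (ws : List (List ℕ)) (Q nl R : ℕ) (fr : List ℕ) (mg : ℕ) : Bool :=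
  cond (cond (Nat.beq d start) (complete ws) false) false
    ((fun c e => cond (Nat.beq e 127) true
      (cond (Nat.beq c hole) (leave R0 nx ent lim ih e R fr mg ws Q nl)
        ((fun q => cond (Nat.beq q 0)
          (List.rec (motive := fun _ => Bool) true
            (fun w t _ => leave R0 nx ent lim ih e R fr mg (w :: t)
              (Nat.xor Q (Nat.shiftLeft (Nat.succ nl) (Nat.mul 5 c))) (Nat.succ nl)) (flt nl ws))
          (List.rec (motive := fun _ => Bool) true
            (fun w t _ => leave R0 nx ent lim ih e R fr mg (w :: t) Q nl)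
              (flt (Nat.sub q 1) ws))) (g5 Q c))))
      (Nat.div d 4) (g7 out d))

/-- The search. The result `true` means that there is no completion. -/
noncomputable def dfs (R0 out nx ent start hole lim fuel : ℕ) :
    ℕ → List (List ℕ) → ℕ → ℕ → ℕ → List ℕ → ℕ → Bool :=
  Nat.rec (motive := fun _ => ℕ → List (List ℕ) → ℕ → ℕ → ℕ → List ℕ → ℕ → Bool)
    (fun _ _ _ _ _ _ _ => false) (fun _ ih => stepS R0 out nx ent start hole lim ih) fuel

/-! ### Simple facts -/

theorem cond_beq {β : Type*} (a b : ℕ) (x y : β) :
    cond (Nat.beq a b) x y = if a = b then x else y := by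
  by_cases h : a = b
  · subst h; simp
  · rw [if_neg h]
    have : Nat.beq a b = false := by
      cases hb : Nat.beq a b
      · rfl
      · exact absurd (Nat.eq_of_beq_eq_true hb) h
    rw [this]; rfl

theorem cond_ble {β : Type*} (a b : ℕ) (x y : β) :
    cond (Nat.ble a b) x y = if a ≤ b then x else y := by
  by_cases h : a ≤ b
  · rw [if_pos h, Nat.ble_eq_true_of_le h]; rfl
  · rw [if_neg h]
    have : Nat.ble a b = false := by
      cases hb : Nat.ble a b
      · rfl
      · exact absurd (Nat.le_of_ble_eq_true hb) h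
    rw [this]; rfl

theorem mem_flt {l : ℕ} {w : List ℕ} {ws : List (List ℕ)} (h : l :: w ∈ ws) : w ∈ flt l ws := by
  induction ws with
  | nil => simp at h
  | cons u ws ih =>
    change w ∈ List.rec (motive := fun _ => List (List ℕ)) (flt l ws)
      (fun a w' _ => cond (Nat.beq a l) (w' :: flt l ws) (flt l ws)) u
    rcases List.mem_cons.1 h with h' | h'
    · subst h'
      simp
    · cases u with
      | nil => exact ih h'
      | cons a w' =>
        change w ∈ cond (Nat.beq a l) (w' :: flt l ws) (flt l ws)
        rw [cond_beq]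
        split_ifs
        · exact List.mem_cons_of_mem _ (ih h')
        · exact ih h'

theorem complete_of_mem {ws : List (List ℕ)} (h : [] ∈ ws) : complete ws = true := by
  induction ws with
  | nil => simp at h
  | cons u ws ih =>
    rcases List.mem_cons.1 h with h' | h'
    · subst h'; rfl
    · cases u with
      | nil => rfl
      | cons a w => exact ih h'

theorem mem_rm {b b2 x : ℕ} {fr : List ℕ} (hx : x ∈ fr) (h1 : x ≠ b) (h2 : x ≠ b2) :
    x ∈ rm b b2 fr := by
  induction fr with
  | nil => simp at hx
  | cons y fr ih =>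
    change x ∈ cond (Nat.beq y b) (rm b b2 fr) (cond (Nat.beq y b2) (rm b b2 fr)
      (y :: rm b b2 fr))
    rw [cond_beq, cond_beq]
    rcases List.mem_cons.1 hx with h | h
    · subst h; simp [h1, h2]
    · split_ifs
      · exact ih h
      · exact ih h
      · exact List.mem_cons_of_mem _ (ih h)

theorem allL_false {f : ℕ → Bool} {l : List ℕ} {x : ℕ} (hx : x ∈ l) (hf : f x = false) :
    allL f l = false := by
  induction l with
  | nil => simp at hx
  | cons y l ih =>
    change cond (f y) (allL f l) false = false
    rcases List.mem_cons.1 hx with h | h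
    · subst h; rw [hf]; rfl
    · rw [ih h]; cases f y <;> rfl

theorem g5_xor {t v b i : ℕ} (hv : v < 32) :
    g5 (Nat.xor t (Nat.shiftLeft v (Nat.mul 5 b))) i =
      if i = b then Nat.xor (g5 t b) v else g5 t i := by
  change ((t ^^^ (v <<< (5 * b))) >>> (5 * i)) % 2 ^ 5 =
    if i = b then ((t >>> (5 * b)) % 2 ^ 5) ^^^ v else (t >>> (5 * i)) % 2 ^ 5
  split_ifs with h
  · subst h
    apply Nat.eq_of_testBit_eq
    intro j
    simp only [Nat.testBit_mod_two_pow, Nat.testBit_xor, Nat.testBit_shiftRight,
      Nat.testBit_shiftLeft]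
    by_cases hj : j < 5
    · simp [hj]
    · have : v.testBit j = false := Nat.testBit_lt_two_pow (lt_of_lt_of_le hv
        (by calc 32 = 2 ^ 5 := by norm_num
          _ ≤ 2 ^ j := Nat.pow_le_pow_right (by norm_num) (by omega)))
      simp [hj, this]
  · apply Nat.eq_of_testBit_eq
    intro j
    simp only [Nat.testBit_mod_two_pow, Nat.testBit_xor, Nat.testBit_shiftRight,
      Nat.testBit_shiftLeft]
    by_cases hj : j < 5
    · by_cases hb : 5 * b ≤ 5 * i + j
      · have hlt : b < i := by omega
        have : v.testBit (5 * i + j - 5 * b) = false := Nat.testBit_lt_two_pow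
          (lt_of_lt_of_le hv
          (by calc 32 = 2 ^ 5 := by norm_num
            _ ≤ 2 ^ (5 * i + j - 5 * b) := Nat.pow_le_pow_right (by norm_num) (by omega)))
        simp [this]
      · simp [hb]
    · simp [hj]

theorem g5_lt (t i : ℕ) : g5 t i < 32 := Nat.mod_lt _ (by norm_num)

/-! ### Canonical form of a word -/

/-- Replace every letter by its number; `lab` gives the numbers (plus one) of the letters that
are already numbered, new letters get the numbers `nl`, `nl + 1`, ... -/
def canF (lab : ℕ → ℕ) (nl : ℕ) : List ℕ → List ℕ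
  | [] => []
  | c :: W => if lab c = 0 then nl :: canF (Function.update lab c (nl + 1)) (nl + 1) W
      else (lab c - 1) :: canF lab nl W

/-- The crossings met along a path. -/
def cellsOf (hole : ℕ) (l : List ℕ) : List ℕ := (l.filter fun d => d / 4 ≠ hole).map (· / 4)

/-! ### The permutation table -/

variable {n : ℕ}

/-- The table of a permutation. -/
def Rep (R : ℕ) (π : Perm (Fin n)) : Prop := ∀ x : Fin n, g5 R x = (π x).val

theorem Rep.swap {R : ℕ} {π : Perm (Fin n)} (h : Rep R π) {x y : Fin n} (hxy : x ≠ y) :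
    Rep ((fun df => Nat.xor (Nat.xor R (Nat.shiftLeft df (Nat.mul 5 x.val)))
      (Nat.shiftLeft df (Nat.mul 5 y.val))) (Nat.xor (g5 R x) (g5 R y))) (π * Equiv.swap x y) := by
  have hlt : Nat.xor (g5 R x) (g5 R y) < 32 := by
    change (g5 R x) ^^^ (g5 R y) < 2 ^ 5
    exact Nat.xor_lt_two_pow (g5_lt _ _) (g5_lt _ _)
  have hv : x.val ≠ y.val := fun e => hxy (Fin.ext e)
  intro z
  change g5 (Nat.xor (Nat.xor R (Nat.shiftLeft (Nat.xor (g5 R x) (g5 R y)) (Nat.mul 5 x.val)))
      (Nat.shiftLeft (Nat.xor (g5 R x) (g5 R y)) (Nat.mul 5 y.val))) z = _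
  rw [g5_xor hlt, g5_xor hlt, g5_xor hlt, Perm.mul_apply]
  have e1 : ∀ p q : ℕ, Nat.xor p (Nat.xor p q) = q := by
    intro p q
    change p ^^^ (p ^^^ q) = q
    rw [← Nat.xor_assoc, Nat.xor_self, Nat.zero_xor]
  have e2 : ∀ p q : ℕ, Nat.xor q (Nat.xor p q) = p := by
    intro p q
    change q ^^^ (p ^^^ q) = p
    rw [Nat.xor_comm p q, ← Nat.xor_assoc, Nat.xor_self, Nat.zero_xor]
  by_cases h1 : z = x
  · subst h1
    rw [if_neg hv, if_pos rfl, e1, Equiv.swap_apply_left, h y]
  · by_cases h2 : z = y
    · subst h2
      rw [if_pos rfl, if_neg (fun e => hv e.symm), e2, Equiv.swap_apply_right, h x]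
    · rw [if_neg (fun e => h2 (Fin.ext e)), if_neg (fun e => h1 (Fin.ext e)),
        Equiv.swap_apply_of_ne_of_ne h1 h2, h z]

theorem mask_spec {R : ℕ} {π : Perm (Fin n)} (h : Rep R π) (hn : n ≤ 20) (b y : Fin n) :
    ∀ (fuel : ℕ) (x : Fin n) (M : ℕ),
      Nat.mod (Nat.shiftRight (mask R b fuel x M) y) 2 = 0 →
      Nat.mod (Nat.shiftRight M y) 2 = 0 ∧
        ∃ m, 1 ≤ m ∧ (π ^ m) x = b ∧ ∀ i, 1 ≤ i → i < m → (π ^ i) x ≠ y := by
  have tb : ∀ M : ℕ, Nat.mod (Nat.shiftRight M y) 2 = 0 ↔ M.testBit y = false := by
    intro M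
    change (M >>> y.val) % 2 = 0 ↔ _
    rw [Nat.testBit_eq_decide_div_mod_eq, Nat.shiftRight_eq_div_pow, decide_eq_false_iff_not]
    omega
  intro fuel
  induction fuel with
  | zero =>
    intro x M hM
    rw [tb] at hM
    change (1048575 : ℕ).testBit y = false at hM
    have h1 : (1048575 : ℕ) = 2 ^ 20 - 1 := by norm_num
    rw [h1, Nat.testBit_two_pow_sub_one, decide_eq_false_iff_not] at hM
    exact absurd (lt_of_lt_of_le y.2 hn) hM
  | succ fuel ih =>
    intro x M hM
    change Nat.mod (Nat.shiftRight (cond (Nat.beq (g5 R x) b) M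
      (mask R b fuel (g5 R x) (Nat.lor M (Nat.shiftLeft 1 (g5 R x))))) y) 2 = 0 at hM
    rw [h x, cond_beq] at hM
    by_cases hb : (π x).val = b.val
    · rw [if_pos hb] at hM
      exact ⟨hM, 1, le_refl 1, by rw [pow_one]; exact Fin.ext hb, fun i h1 h2 => by omega⟩
    · rw [if_neg hb] at hM
      obtain ⟨h1, m, hm1, hm2, hm3⟩ := ih (π x) _ hM
      rw [tb] at h1
      change (M ||| (1 <<< (π x).val)).testBit y = false at h1
      rw [Nat.testBit_or, Bool.or_eq_false_iff] at h1
      refine ⟨(tb M).2 h1.1, m + 1, by omega, by rw [pow_succ, Perm.mul_apply]; exact hm2,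
        fun i hi1 hi2 => ?_⟩
      obtain ⟨j, rfl⟩ : ∃ j, i = j + 1 := ⟨i - 1, by omega⟩
      rw [pow_succ, Perm.mul_apply]
      rcases Nat.eq_zero_or_pos j with rfl | hj
      · rw [pow_zero, Perm.one_apply]
        intro e
        have h2 := h1.2
        rw [e, Nat.shiftLeft_eq, one_mul, Nat.testBit_two_pow_self] at h2
        exact absurd h2 (by simp)
      · exact hm3 j hj (by omega)

theorem not_sameCycle_of_mask {R : ℕ} {π : Perm (Fin n)} (h : Rep R π) (hn : n ≤ 20)
    {b y : Fin n} (hby : b ≠ y)
    (hm : Nat.mod (Nat.shiftRight (mask R b 20 b 0) y) 2 = 0) : ¬ SameCycle π b y := by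
  obtain ⟨-, m, hm1, hm2, hm3⟩ := mask_spec h hn b y 20 b 0 hm
  intro hs
  obtain ⟨k, hk⟩ := hs.exists_nat_pow_eq
  have h1 : (π ^ (k % m)) b = y := by
    rw [← hk]
    conv_rhs => rw [← Nat.mod_add_div k m, pow_add, Perm.mul_apply, pow_mul]
    have : ∀ q : ℕ, ((π ^ m) ^ q) b = b := by
      intro q
      induction q with
      | zero => rfl
      | succ q ih => rw [pow_succ, Perm.mul_apply, hm2, ih]
    rw [this]
  rcases Nat.eq_zero_or_pos (k % m) with h0 | h0
  · rw [h0, pow_zero, Perm.one_apply] at h1
    exact hby h1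
  · exact hm3 _ h0 (Nat.mod_lt _ (by omega)) h1

/-! ### Soundness of the search -/

/-- The cell side `d'` follows `d`, for the gluing `τ` of the boundary. -/
def StepR (τ : Perm (Fin n)) (out nx ent : ℕ) (d d' : ℕ) : Prop :=
  g7 out d ≠ 127 ∧ ((g7 nx (g7 out d) < 64 ∧ d' = g7 nx (g7 out d)) ∨
    ∃ b : Fin n, g7 nx (g7 out d) = 64 + b.val ∧ d' = g7 ent (τ b).val)

structure TabOK (σ : Perm (Fin n)) (R0 ent : ℕ) : Prop where
  le : n ≤ 20
  r0 : Rep R0 σ
  ent : ∀ x : Fin n, g7 ent (Nat.add 32 (σ x).val) = g7 ent x.val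

theorem dfs_false {σ τ : Perm (Fin n)} {R0 out nx ent start hole lim : ℕ} (ht : TabOK σ R0 ent)
    (hτ : ∀ x, τ (τ x) = x) (hn : ∀ x, τ x ≠ x)
    (hlim : n + 2 < 2 * ncyc (σ * τ) + 4 * lim) :
    ∀ (l : List ℕ) (fuel : ℕ) (ws : List (List ℕ)) (Q nl R : ℕ) (fr : List ℕ) (mg : ℕ)
      (π : Perm (Fin n)) (d : ℕ), (l ++ [start]).head? = some d →
      (l ++ [start]).IsChain (StepR τ out nx ent) →
      canF (g5 Q) nl (cellsOf hole l) ∈ ws → nl + l.length < 31 →
      Rep R π → Sub σ τ π → pot σ π + 4 * mg ≤ n + 2 → (∀ x, π x = σ x → x.val ∈ fr) →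
      l.length < fuel →
      dfs R0 out nx ent start hole lim fuel d ws Q nl R fr mg = false := by
  intro l
  induction l with
  | nil =>
    intro fuel ws Q nl R fr mg π d hd _ hw _ _ _ _ _ hf
    obtain ⟨fuel, rfl⟩ : ∃ k, fuel = k + 1 := ⟨fuel - 1, by simp at hf; omega⟩
    simp only [List.nil_append, List.head?_cons, Option.some.injEq] at hd
    subst hd
    change stepS R0 out nx ent start hole lim (dfs R0 out nx ent start hole lim fuel) start ws Q nl R fr
      mg = false
    unfold stepS
    rw [complete_of_mem hw, cond_beq, if_pos rfl]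
    rfl
  | cons d0 l ih =>
    intro fuel ws Q nl R fr mg π d hd hch hw hlen hR hS hpot hfr hf
    obtain ⟨fuel, rfl⟩ : ∃ k, fuel = k + 1 := ⟨fuel - 1, by simp at hf; omega⟩
    simp only [List.cons_append, List.head?_cons, Option.some.injEq] at hd
    subst hd
    change stepS R0 out nx ent start hole lim (dfs R0 out nx ent start hole lim fuel) d0 ws Q nl
      R fr mg = false
    obtain ⟨d', hd'⟩ : ∃ d', (l ++ [start]).head? = some d' := by
      cases l <;> simp
    rw [List.cons_append, List.isChain_cons] at hch
    obtain ⟨hst, hch'⟩ := hch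
    obtain ⟨hout, hnext⟩ := hst d' (by rw [hd']; rfl)
    simp only [List.length_cons] at hlen hf
    -- leaving the cell
    have hleave : ∀ (ws : List (List ℕ)) (Q nl : ℕ), canF (g5 Q) nl (cellsOf hole l) ∈ ws →
        nl + l.length < 31 → leave R0 nx ent lim (dfs R0 out nx ent start hole lim fuel)
          (g7 out d0) R fr mg ws Q nl = false := by
      intro ws Q nl hw hlen
      unfold leave
      beta_reduce
      rw [cond_ble]
      rcases hnext with ⟨h1, h2⟩ | ⟨b, h1, h2⟩
      · rw [if_neg (by omega)]
        exact ih fuel ws Q nl R fr mg π _ (by rw [hd', h2]) hch' hw hlen hR hS hpot hfr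
          (by omega)
      · rw [if_pos (by omega)]
        have hb : Nat.sub (g7 nx (g7 out d0)) 64 = b.val := by
          change g7 nx (g7 out d0) - 64 = b.val
          omega
        rw [hb, cond_beq, hR b, ht.r0 b]
        rcases hS b with h3 | ⟨h3, h4⟩
        · -- the edge is not yet glued
          rw [if_pos (by rw [h3])]
          have h5 : π (τ b) = σ (τ b) := by
            rcases hS (τ b) with h | ⟨k1, k2⟩
            · exact h
            · rw [hτ] at k2
              rw [h3] at k2
              exact absurd (σ.injective k2).symm (hn b)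
          refine allL_false (hfr _ h5) ?_
          beta_reduce
          have hne : (τ b).val ≠ b.val := fun e => hn b (Fin.ext e)
          rw [cond_beq, if_neg hne, cond_beq, cond_ble]
          have hRep := hR.swap (x := b) (y := τ b) (fun e => hn b e.symm)
          have hSub := hS.mul_swap hτ h3 h5
          have hfr' : ∀ x, (π * Equiv.swap b (τ b)) x = σ x → x.val ∈ rm b (τ b) fr := by
            intro x hx
            by_cases e1 : x = b
            · subst e1
              rw [Perm.mul_apply, swap_apply_left, h5] at hx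
              exact absurd (σ.injective hx) (hn x)
            · by_cases e2 : x = τ b
              · subst e2
                rw [Perm.mul_apply, swap_apply_right, h3] at hx
                exact absurd (σ.injective hx).symm (hn b)
              · rw [Perm.mul_apply, swap_apply_of_ne_of_ne e1 e2] at hx
                exact mem_rm (hfr x hx) (fun e => e1 (Fin.ext e)) (fun e => e2 (Fin.ext e))
          have hpot2 := pot_mul_swap_le (σ := σ) (τ := τ) (π := π) hn h3 h5
          have hfin := two_mul_ncyc_le hτ hn _ hSub (le_refl _)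
          rw [hR b] at hRep
          by_cases hm : Nat.mod (Nat.shiftRight (mask R b.val 20 b.val 0) (τ b).val) 2 = 0
          · have hnc := not_sameCycle_of_mask hR ht.le (fun e => hn b e.symm) hm
            have hpot3 := pot_mul_swap_lt (σ := σ) (τ := τ) (π := π) hn h3 h5 hnc
            rw [if_pos hm, if_neg (by change ¬ lim ≤ mg + 1; omega)]
            exact ih fuel ws Q nl _ _ _ _ _ (by rw [hd', h2]) hch' hw hlen hRep hSub
              (by change _ + 4 * (mg + 1) ≤ n + 2; omega) hfr' (by omega)
          · rw [if_neg hm, if_neg (by omega)]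
            exact ih fuel ws Q nl _ _ _ _ _ (by rw [hd', h2]) hch' hw hlen hRep hSub
              (by omega) hfr' (by omega)
        · -- the edge is already glued
          have h5 : (π b).val ≠ (σ b).val := by
            intro e
            have := Fin.ext e
            rw [h3] at this
            exact hn b (σ.injective this)
          rw [if_neg h5, h3, ht.ent]
          exact ih fuel ws Q nl R fr mg π _ (by rw [hd', h2]) hch' hw hlen hR hS hpot hfr
            (by omega)
    unfold stepS
    cases hc : cond (Nat.beq d0 start) (complete ws) false with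
    | true => rfl
    | false =>
      change (cond (Nat.beq (g7 out d0) 127) true _) = false
      rw [cond_beq, if_neg hout, cond_beq]
      by_cases hh : Nat.div d0 4 = hole
      · rw [if_pos hh]
        refine hleave ws Q nl ?_ (by omega)
        have : cellsOf hole (d0 :: l) = cellsOf hole l := by
          unfold cellsOf
          rw [List.filter_cons_of_neg]
          change ¬ (decide (Nat.div d0 4 ≠ hole)) = true
          simp [hh]
        rwa [this] at hw
      · rw [if_neg hh]
        beta_reduce
        rw [cond_beq]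
        have hcell : cellsOf hole (d0 :: l) = (d0 / 4) :: cellsOf hole l := by
          unfold cellsOf
          rw [List.filter_cons_of_pos, List.map_cons]
          change (decide (Nat.div d0 4 ≠ hole)) = true
          simp [hh]
        rw [hcell] at hw
        unfold canF at hw
        change (if g5 Q (Nat.div d0 4) = 0 then _ else _) ∈ ws at hw
        by_cases hq : g5 Q (Nat.div d0 4) = 0
        · rw [if_pos hq] at hw ⊢
          have hfl := mem_flt hw
          have e : Function.update (g5 Q) (d0 / 4) (nl + 1) =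
              g5 (Nat.xor Q (Nat.shiftLeft (Nat.succ nl) (Nat.mul 5 (Nat.div d0 4)))) := by
            funext i
            rw [g5_xor (by change nl + 1 < 32; omega)]
            change _ = if i = d0 / 4 then (g5 Q (Nat.div d0 4)) ^^^ (nl + 1) else g5 Q i
            rw [hq, Nat.zero_xor]
            by_cases hi : i = d0 / 4
            · subst hi
              rw [Function.update_self, if_pos rfl]
            · rw [Function.update_of_ne hi, if_neg hi]
          change canF (Function.update (g5 Q) (d0 / 4) (nl + 1)) (nl + 1) _ ∈ _ at hfl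
          rw [e] at hfl
          cases hws : flt nl ws with
          | nil => rw [hws] at hfl; simp at hfl
          | cons w t =>
            rw [hws] at hfl
            exact hleave (w :: t) _ _ hfl (by change nl + 1 + _ < 31; omega)
        · rw [if_neg hq] at hw ⊢
          have hfl := mem_flt hw
          change _ ∈ flt (Nat.sub (g5 Q (Nat.div d0 4)) 1) ws at hfl
          cases hws : flt (Nat.sub (g5 Q (Nat.div d0 4)) 1) ws with
          | nil => rw [hws] at hfl; simp at hfl
          | cons w t =>
            rw [hws] at hfl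
            exact hleave (w :: t) _ _ hfl (by omega)

end Pool.Agent.MP_ea99c2_gt
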