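import Pool.Agent.MP_ea99c2_gt.Extract
import Pool.Agent.MP_ea99c2_gt.Dfs

/-!
# The double occurrence words whose interlacement graph is the fixed graph
-/

set_option linter.unusedVariables false
set_option linter.unusedSectionVars false

namespace Pool.Agent.MP_ea99c2_gt

/-! ### Insertion of a letter -/

/-- Insert the second letter `k`; the letters in between must have odd multiplicity exactly at
the bits of `m`. -/
def insB (k : ℕ) : ℕ → List ℕ → List (List ℕ)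
  | m, [] => if m = 0 then [[k]] else []
  | m, a :: v => (if m = 0 then [k :: a :: v] else []) ++ (insB k (m ^^^ (1 <<< a)) v).map (a :: ·)

/-- Insert two letters `k`. -/
def insA (k m : ℕ) : List ℕ → List (List ℕ)
  | [] => (insB k m []).map (k :: ·)
  | a :: v => (insB k m (a :: v)).map (k :: ·) ++ (insA k m v).map (a :: ·)

def xmask : List ℕ → ℕ
  | [] => 0
  | a :: l => xmask l ^^^ (1 <<< a)

theorem mem_insB (k : ℕ) (v1 v2 : List ℕ) :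
    v1 ++ k :: v2 ∈ insB k (xmask v1) (v1 ++ v2) := by
  induction v1 with
  | nil => cases v2 <;> simp [insB, xmask]
  | cons a v1 ih =>
    have e : xmask v1 ^^^ (1 <<< a) ^^^ (1 <<< a) = xmask v1 := by
      rw [Nat.xor_assoc, Nat.xor_self, Nat.xor_zero]
    simp only [List.cons_append, insB, xmask, e]
    exact List.mem_append_right _ (List.mem_map_of_mem ih)

theorem mem_insA (k : ℕ) (u v1 v2 : List ℕ) :
    u ++ k :: (v1 ++ k :: v2) ∈ insA k (xmask v1) (u ++ (v1 ++ v2)) := by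
  induction u with
  | nil =>
    simp only [List.nil_append]
    have := mem_insB k v1 v2
    cases h : v1 ++ v2 with
    | nil =>
      rw [h] at this
      exact List.mem_map_of_mem this
    | cons a v =>
      rw [h] at this
      exact List.mem_append_left _ (List.mem_map_of_mem this)
  | cons a u ih =>
    simp only [List.cons_append, insA]
    exact List.mem_append_right _ (List.mem_map_of_mem ih)

theorem testBit_xmask (l : List ℕ) (y : ℕ) : (xmask l).testBit y = true ↔ cnt y l = 1 := by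
  have key : ∀ l : List ℕ, cnt y l = if (xmask l).testBit y then 1 else 0 := by
    intro l
    induction l with
    | nil => simp [xmask]
    | cons a l ih =>
      rw [cnt_cons, ih]
      simp only [xmask, Nat.testBit_xor, Nat.shiftLeft_eq, one_mul, Nat.testBit_two_pow]
      by_cases h : a = y
      · cases (xmask l).testBit y <;> simp [h]
        decide
      · simp [h]
  rw [key]
  cases (xmask l).testBit y <;> simp

/-- The neighbours of the vertex `k` among the smaller vertices. -/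
def nbrs (k : ℕ) : ℕ := [0, 1, 3, 6, 12, 1, 16, 4].getD k 0

def lev : ℕ → List (List ℕ)
  | 0 => [[]]
  | k + 1 => (lev k).flatMap (insA k (nbrs k))

theorem inter_filter {α : Type*} [DecidableEq α] (p : α → Bool) {x y : α} (hx : p x = true)
    (hy : p y = true) (v : List α) : inter x y (v.filter p) = inter x y v := by
  induction v with
  | nil => rfl
  | cons a v ih =>
    by_cases ha : p a = true
    · rw [List.filter_cons_of_pos ha, inter_cons, inter_cons, ih]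
      have : cnt y (v.filter p) = cnt y v := by
        unfold cnt; rw [List.count_filter hy]
      rw [this]
    · rw [List.filter_cons_of_neg ha, inter_cons, ih, if_neg, zero_add]
      rintro rfl
      exact ha hx

theorem split_two {w : List ℕ} {k : ℕ} (h : w.count k = 2) :
    ∃ u v1 v2, w = u ++ k :: (v1 ++ k :: v2) ∧ k ∉ u ∧ k ∉ v1 ∧ k ∉ v2 := by
  have hk : k ∈ w := List.count_pos_iff.1 (by omega)
  obtain ⟨u, t, rfl, hu⟩ := List.eq_append_cons_of_mem hk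
  rw [List.count_append, List.count_cons_self, List.count_eq_zero_of_not_mem hu] at h
  have hk' : k ∈ t := List.count_pos_iff.1 (by omega)
  obtain ⟨v1, v2, rfl, hv1⟩ := List.eq_append_cons_of_mem hk'
  rw [List.count_append, List.count_cons_self, List.count_eq_zero_of_not_mem hv1] at h
  exact ⟨u, v1, v2, rfl, hu, hv1, List.count_eq_zero.1 (by omega)⟩

theorem mem_lev {v : List ℕ} (hc : ∀ x < 8, v.count x = 2)
    (hi : ∀ k < 8, ∀ y < k, (inter k y v = 1 ↔ (nbrs k).testBit y = true)) :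
    ∀ k ≤ 8, v.filter (fun x => decide (x < k)) ∈ lev k := by
  intro k
  induction k with
  | zero => intro _; simp [lev]
  | succ k ih =>
    intro hk
    have ih' := ih (by omega)
    set w := v.filter (fun x => decide (x < k + 1)) with hw
    have hwc : w.count k = 2 := by
      rw [hw, List.count_filter (by simp)]
      exact hc k (by omega)
    obtain ⟨u, v1, v2, hw2, hu, hv1, hv2⟩ := split_two hwc
    have hlt : ∀ x ∈ w, x < k + 1 := by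
      intro x hx
      have := List.of_mem_filter hx
      simpa using this
    have e1 : v.filter (fun x => decide (x < k)) = u ++ (v1 ++ v2) := by
      have : v.filter (fun x => decide (x < k)) = w.filter (fun x => decide (x ≠ k)) := by
        rw [hw, List.filter_filter]
        refine List.filter_congr fun x _ => ?_
        by_cases h1 : x < k
        · simp [h1, Nat.lt_succ_of_lt h1, h1.ne]
        · by_cases h2 : x = k
          · simp [h2]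
          · have : ¬ x < k + 1 := by omega
            simp [h1, this]
      rw [this, hw2, List.filter_append, List.filter_cons_of_neg (by simp), List.filter_append,
        List.filter_cons_of_neg (by simp)]
      have ff : ∀ l : List ℕ, k ∉ l → l.filter (fun x => decide (x ≠ k)) = l := by
        intro l hl
        rw [List.filter_eq_self]
        intro x hx
        have : x ≠ k := by rintro rfl; exact hl hx
        simp [this]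
      rw [ff u hu, ff v1 hv1, ff v2 hv2]
    have e2 : xmask v1 = nbrs k := by
      apply Nat.eq_of_testBit_eq
      intro y
      by_cases hy : y < k
      · have hky : k ≠ y := by omega
        have h1 : inter k y v = cnt y v1 := by
          have h2 : inter k y v = inter k y w := by
            rw [hw, inter_filter _ (by simp) (by simp; omega)]
          rw [h2, hw2, inter_append, inter_cons, inter_append, inter_cons, cnt_append, cnt_cons,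
            inter_eq_zero_left hu, inter_eq_zero_left hv1, inter_eq_zero_left hv2,
            cnt_eq_zero hu, cnt_eq_zero hv1, if_pos rfl, if_pos rfl, if_neg hky]
          have := CharTwo.add_self_eq_zero (cnt y v2)
          linear_combination this
        have h3 := hi k (by omega) y hy
        rw [h1, ← testBit_xmask] at h3
        rw [Bool.eq_iff_iff]
        exact h3
      · have h1 : (nbrs k).testBit y = false := by
          apply Nat.testBit_lt_two_pow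
          have : nbrs k < 2 ^ k := by
            have hk8 : k < 8 := by omega
            interval_cases k <;> decide
          exact lt_of_lt_of_le this (Nat.pow_le_pow_right (by norm_num) (by omega))
        rw [h1]
        have h2 : y ∉ v1 := by
          intro hyv
          have := hlt y (by rw [hw2]; simp [hyv])
          have : y = k := by omega
          exact hv1 (this ▸ hyv)
        by_contra h3
        rw [Bool.not_eq_false, testBit_xmask, cnt_eq_zero h2] at h3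
        exact absurd h3 (by decide)
    rw [hw2, lev, List.mem_flatMap]
    refine ⟨u ++ (v1 ++ v2), ?_, ?_⟩
    · rw [← e1]; exact ih'
    · rw [← e2]; exact mem_insA k u v1 v2

theorem gmat_nbrs : ∀ k : Fin 8, ∀ y : Fin 8, y < k →
    (gmat k y = 1 ↔ (nbrs k).testBit y = true) := by decide

theorem inter_map_of {α β : Type*} [DecidableEq α] [DecidableEq β] {g : α → β} {x y : α}
    {w : List α} (h1 : ∀ a ∈ w, g a = g x → a = x) (h2 : ∀ a ∈ w, g a = g y → a = y) :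
    inter (g x) (g y) (w.map g) = inter x y w := by
  induction w with
  | nil => rfl
  | cons a w ih =>
    rw [List.map_cons, inter_cons, inter_cons,
      ih (fun b hb => h1 b (List.mem_cons_of_mem _ hb))
        (fun b hb => h2 b (List.mem_cons_of_mem _ hb))]
    have hc : cnt (g y) (w.map g) = cnt y w := by
      have : ∀ l : List α, (∀ a ∈ l, g a = g y → a = y) → cnt (g y) (l.map g) = cnt y l := by
        intro l hl
        induction l with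
        | nil => rfl
        | cons b l ihl =>
          rw [List.map_cons, cnt_cons, cnt_cons,
            ihl (fun c hc => hl c (List.mem_cons_of_mem _ hc))]
          have : g b = g y ↔ b = y := ⟨hl b (by simp), fun e => by rw [e]⟩
          simp only [this]
      exact this w (fun b hb => h2 b (List.mem_cons_of_mem _ hb))
    have : g a = g x ↔ a = x := ⟨h1 a (by simp), fun e => by rw [e]⟩
    rw [hc]
    simp only [this]

theorem count_map_of {α β : Type*} [DecidableEq α] [DecidableEq β] {g : α → β} {y : α}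
    (l : List α) (hl : ∀ a ∈ l, g a = g y → a = y) : (l.map g).count (g y) = l.count y := by
  induction l with
  | nil => rfl
  | cons b l ihl =>
    rw [List.map_cons, List.count_cons, List.count_cons,
      ihl (fun c hc => hl c (List.mem_cons_of_mem _ hc))]
    have : g b = g y ↔ b = y := ⟨hl b (by simp), fun e => by rw [e]⟩
    simp only [beq_iff_eq, this]

/-- A word whose interlacement graph is the fixed graph comes from one of the words in `lev 8`. -/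
theorem exists_lev {β : Type*} [DecidableEq β] {w : List β} (hd : Dbl w) {f : Fin 8 → β}
    (hf : Function.Injective f) (hm : ∀ v, v ∈ w ↔ ∃ i, f i = v)
    (hi : ∀ i j, i ≠ j → inter (f i) (f j) w = gmat i j) :
    ∃ v ∈ lev 8, ∃ g : ℕ → β, (∀ i : Fin 8, g i = f i) ∧ (∀ x ∈ v, x < 8) ∧ w = v.map g := by
  classical
  let g : ℕ → β := fun n => if h : n < 8 then f ⟨n, h⟩ else f 0
  let r : β → ℕ := fun x => if h : ∃ i, f i = x then (Classical.choose h).val else 0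
  have hg : ∀ i : Fin 8, g i = f i := by
    intro i; simp [g, i.2]
  have hr : ∀ x ∈ w, r x < 8 ∧ g (r x) = x := by
    intro x hx
    have h := (hm x).1 hx
    have h2 : r x = (Classical.choose h).val := by simp only [r]; rw [dif_pos h]
    rw [h2]
    exact ⟨(Classical.choose h).2, by rw [hg]; exact Classical.choose_spec h⟩
  have hlt : ∀ x ∈ w.map r, x < 8 := by
    intro x hx
    obtain ⟨y, hy, rfl⟩ := List.mem_map.1 hx
    exact (hr y hy).1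
  have hw : w = (w.map r).map g := by
    rw [List.map_map]
    conv_lhs => rw [← List.map_id w]
    refine List.map_congr_left fun x hx => ?_
    exact (hr x hx).2.symm
  have hinj : ∀ y < 8, ∀ a ∈ w.map r, g a = g y → a = y := by
    intro y hy a ha hay
    have ha8 := hlt a ha
    have h1 := hg ⟨a, ha8⟩
    have h2 := hg ⟨y, hy⟩
    simp only at h1 h2
    rw [h1, h2] at hay
    have := hf hay
    simpa using this
  have hcount : ∀ x < 8, (w.map r).count x = 2 := by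
    intro x hx
    rw [← count_map_of (w.map r) (hinj x hx), ← hw]
    apply hd
    rw [hm]
    exact ⟨⟨x, hx⟩, (hg ⟨x, hx⟩).symm⟩
  refine ⟨w.map r, ?_, g, hg, hlt, hw⟩
  have h8 : (w.map r).filter (fun x => decide (x < 8)) = w.map r := by
    rw [List.filter_eq_self]
    intro x hx
    simpa using hlt x hx
  rw [← h8]
  refine mem_lev hcount ?_ 8 (le_refl 8)
  intro k hk y hy
  have hy8 : y < 8 := by omega
  rw [← inter_map_of (g := g) (hinj k hk) (hinj y hy8), ← hw]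
  have h1 := hg ⟨k, hk⟩
  have h2 := hg ⟨y, hy8⟩
  simp only at h1 h2
  rw [h1, h2, hi ⟨k, hk⟩ ⟨y, hy8⟩ (by simp; omega)]
  exact gmat_nbrs ⟨k, hk⟩ ⟨y, hy8⟩ hy

/-! ### Canonical forms -/

def canonWords : List (List ℕ) := [
  [0, 1, 0, 2, 3, 1, 4, 2, 5, 6, 3, 6, 4, 7, 5, 7],
  [0, 1, 0, 2, 3, 1, 4, 2, 5, 6, 5, 7, 3, 7, 4, 6],
  [0, 1, 0, 2, 3, 1, 4, 5, 4, 6, 7, 2, 7, 5, 3, 6],
  [0, 1, 0, 2, 3, 1, 4, 5, 6, 2, 6, 7, 4, 7, 3, 5],
  [0, 1, 0, 2, 3, 2, 4, 1, 5, 6, 3, 7, 5, 7, 4, 6],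
  [0, 1, 0, 2, 3, 2, 4, 1, 5, 6, 5, 7, 3, 6, 4, 7],
  [0, 1, 0, 2, 3, 2, 4, 5, 3, 6, 4, 1, 7, 5, 7, 6],
  [0, 1, 0, 2, 3, 2, 4, 5, 6, 1, 4, 7, 6, 7, 3, 5],
  [0, 1, 0, 2, 3, 2, 4, 5, 6, 5, 3, 7, 4, 1, 6, 7],
  [0, 1, 0, 2, 3, 2, 4, 5, 6, 7, 6, 1, 4, 7, 3, 5],
  [0, 1, 0, 2, 3, 4, 3, 1, 5, 2, 6, 4, 5, 7, 6, 7],
  [0, 1, 0, 2, 3, 4, 3, 1, 5, 2, 6, 7, 6, 4, 5, 7],
  [0, 1, 0, 2, 3, 4, 3, 5, 6, 1, 7, 5, 7, 2, 6, 4],
  [0, 1, 0, 2, 3, 4, 3, 5, 6, 5, 7, 1, 6, 2, 7, 4],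
  [0, 1, 0, 2, 3, 4, 5, 1, 3, 6, 5, 6, 7, 2, 7, 4],
  [0, 1, 0, 2, 3, 4, 5, 1, 6, 4, 6, 2, 5, 7, 3, 7],
  [0, 1, 0, 2, 3, 4, 5, 2, 5, 6, 3, 1, 7, 4, 7, 6],
  [0, 1, 0, 2, 3, 4, 5, 2, 6, 4, 6, 1, 3, 7, 5, 7],
  [0, 1, 0, 2, 3, 4, 5, 4, 6, 1, 5, 2, 6, 7, 3, 7],
  [0, 1, 0, 2, 3, 4, 5, 4, 6, 2, 5, 1, 3, 7, 6, 7],
  [0, 1, 0, 2, 3, 4, 5, 4, 6, 2, 6, 7, 3, 1, 5, 7],
  [0, 1, 0, 2, 3, 4, 5, 4, 6, 7, 6, 2, 5, 1, 3, 7],
  [0, 1, 0, 2, 3, 4, 5, 6, 5, 1, 3, 6, 7, 2, 7, 4],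
  [0, 1, 0, 2, 3, 4, 5, 6, 5, 2, 7, 4, 7, 1, 3, 6],
  [0, 1, 2, 1, 3, 4, 0, 4, 5, 6, 2, 7, 5, 7, 3, 6],
  [0, 1, 2, 1, 3, 4, 0, 4, 5, 6, 5, 7, 2, 6, 3, 7],
  [0, 1, 2, 1, 3, 4, 0, 5, 2, 4, 6, 5, 6, 7, 3, 7],
  [0, 1, 2, 1, 3, 4, 0, 5, 6, 5, 2, 4, 6, 7, 3, 7],
  [0, 1, 2, 1, 3, 4, 2, 5, 0, 6, 3, 6, 7, 5, 7, 4],
  [0, 1, 2, 1, 3, 4, 2, 5, 3, 6, 0, 6, 7, 4, 7, 5],
  [0, 1, 2, 1, 3, 4, 2, 5, 3, 6, 7, 4, 7, 5, 0, 6],
  [0, 1, 2, 1, 3, 4, 2, 5, 6, 5, 0, 7, 3, 7, 6, 4],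
  [0, 1, 2, 1, 3, 4, 3, 5, 0, 6, 2, 5, 7, 6, 7, 4],
  [0, 1, 2, 1, 3, 4, 3, 5, 0, 6, 7, 6, 2, 5, 7, 4],
  [0, 1, 2, 1, 3, 4, 3, 5, 2, 6, 0, 4, 7, 6, 7, 5],
  [0, 1, 2, 1, 3, 4, 3, 5, 2, 6, 7, 6, 0, 4, 7, 5],
  [0, 1, 2, 1, 3, 4, 3, 5, 6, 4, 0, 5, 2, 7, 6, 7],
  [0, 1, 2, 1, 3, 4, 3, 5, 6, 7, 6, 4, 0, 5, 2, 7],
  [0, 1, 2, 1, 3, 4, 5, 4, 2, 6, 3, 7, 0, 7, 5, 6],
  [0, 1, 2, 1, 3, 4, 5, 4, 2, 6, 3, 7, 5, 6, 0, 7],
  [0, 1, 2, 1, 3, 4, 5, 6, 0, 6, 3, 7, 5, 7, 2, 4],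
  [0, 1, 2, 1, 3, 4, 5, 6, 2, 7, 5, 7, 3, 6, 0, 4],
  [0, 1, 2, 1, 3, 4, 5, 6, 3, 6, 0, 4, 2, 7, 5, 7],
  [0, 1, 2, 1, 3, 4, 5, 6, 3, 7, 5, 7, 2, 4, 0, 6],
  [0, 1, 2, 1, 3, 4, 5, 6, 5, 7, 0, 7, 3, 6, 2, 4],
  [0, 1, 2, 1, 3, 4, 5, 6, 5, 7, 2, 6, 3, 7, 0, 4],
  [0, 1, 2, 1, 3, 4, 5, 6, 5, 7, 3, 6, 2, 4, 0, 7],
  [0, 1, 2, 1, 3, 4, 5, 6, 5, 7, 3, 7, 0, 4, 2, 6],
  [0, 1, 2, 3, 0, 3, 4, 1, 5, 6, 2, 6, 4, 7, 5, 7],
  [0, 1, 2, 3, 0, 3, 4, 1, 5, 6, 5, 7, 2, 7, 4, 6],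
  [0, 1, 2, 3, 0, 3, 4, 5, 4, 6, 7, 1, 7, 5, 2, 6],
  [0, 1, 2, 3, 0, 3, 4, 5, 6, 1, 6, 7, 4, 7, 2, 5],
  [0, 1, 2, 3, 0, 4, 2, 4, 5, 1, 6, 3, 6, 7, 5, 7],
  [0, 1, 2, 3, 0, 4, 2, 4, 5, 6, 5, 1, 7, 3, 7, 6],
  [0, 1, 2, 3, 0, 4, 2, 5, 6, 3, 6, 4, 7, 5, 7, 1],
  [0, 1, 2, 3, 0, 4, 2, 5, 6, 5, 7, 3, 7, 4, 6, 1],
  [0, 1, 2, 3, 0, 4, 5, 1, 5, 3, 6, 4, 6, 7, 2, 7],
  [0, 1, 2, 3, 0, 4, 5, 4, 6, 1, 6, 3, 5, 7, 2, 7],
  [0, 1, 2, 3, 0, 4, 5, 4, 6, 7, 2, 7, 5, 3, 6, 1],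
  [0, 1, 2, 3, 0, 4, 5, 6, 2, 6, 7, 4, 7, 3, 5, 1],
  [0, 1, 2, 3, 2, 4, 0, 3, 5, 1, 6, 4, 6, 7, 5, 7],
  [0, 1, 2, 3, 2, 4, 0, 3, 5, 6, 5, 1, 7, 4, 7, 6],
  [0, 1, 2, 3, 2, 4, 0, 4, 5, 1, 6, 3, 5, 7, 6, 7],
  [0, 1, 2, 3, 2, 4, 0, 4, 5, 1, 6, 7, 6, 3, 5, 7],
  [0, 1, 2, 3, 2, 4, 0, 5, 6, 1, 6, 4, 7, 5, 7, 3],
  [0, 1, 2, 3, 2, 4, 0, 5, 6, 3, 7, 5, 7, 4, 6, 1],
  [0, 1, 2, 3, 2, 4, 0, 5, 6, 5, 7, 1, 7, 4, 6, 3],
  [0, 1, 2, 3, 2, 4, 0, 5, 6, 5, 7, 3, 6, 4, 7, 1],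
  [0, 1, 2, 3, 2, 4, 5, 1, 5, 6, 0, 3, 7, 6, 7, 4],
  [0, 1, 2, 3, 2, 4, 5, 1, 5, 6, 7, 6, 0, 3, 7, 4],
  [0, 1, 2, 3, 2, 4, 5, 1, 6, 3, 5, 7, 6, 7, 0, 4],
  [0, 1, 2, 3, 2, 4, 5, 1, 6, 7, 6, 3, 5, 7, 0, 4],
  [0, 1, 2, 3, 2, 4, 5, 3, 0, 4, 6, 1, 6, 7, 5, 7],
  [0, 1, 2, 3, 2, 4, 5, 3, 6, 4, 0, 7, 5, 7, 6, 1],
  [0, 1, 2, 3, 2, 4, 5, 4, 0, 3, 6, 1, 5, 7, 6, 7],
  [0, 1, 2, 3, 2, 4, 5, 4, 0, 3, 6, 7, 6, 1, 5, 7],
  [0, 1, 2, 3, 2, 4, 5, 4, 6, 7, 0, 7, 5, 1, 6, 3],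
  [0, 1, 2, 3, 2, 4, 5, 4, 6, 7, 5, 1, 6, 3, 0, 7],
  [0, 1, 2, 3, 2, 4, 5, 6, 0, 4, 7, 6, 7, 3, 5, 1],
  [0, 1, 2, 3, 2, 4, 5, 6, 0, 6, 7, 4, 7, 1, 5, 3],
  [0, 1, 2, 3, 2, 4, 5, 6, 5, 3, 0, 4, 7, 1, 7, 6],
  [0, 1, 2, 3, 2, 4, 5, 6, 5, 3, 7, 4, 0, 6, 7, 1],
  [0, 1, 2, 3, 2, 4, 5, 6, 7, 4, 7, 1, 5, 3, 0, 6],
  [0, 1, 2, 3, 2, 4, 5, 6, 7, 6, 0, 4, 7, 3, 5, 1],
  [0, 1, 2, 3, 4, 1, 4, 5, 0, 6, 2, 6, 7, 5, 7, 3],
  [0, 1, 2, 3, 4, 1, 4, 5, 2, 6, 0, 6, 7, 3, 7, 5],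
  [0, 1, 2, 3, 4, 1, 4, 5, 2, 6, 7, 3, 7, 5, 0, 6],
  [0, 1, 2, 3, 4, 1, 4, 5, 6, 5, 0, 7, 2, 7, 6, 3],
  [0, 1, 2, 3, 4, 1, 5, 3, 5, 6, 0, 6, 2, 7, 4, 7],
  [0, 1, 2, 3, 4, 1, 5, 3, 5, 6, 2, 7, 4, 7, 0, 6],
  [0, 1, 2, 3, 4, 1, 5, 6, 2, 6, 4, 7, 5, 7, 0, 3],
  [0, 1, 2, 3, 4, 1, 5, 6, 5, 7, 2, 7, 4, 6, 0, 3],
  [0, 1, 2, 3, 4, 3, 0, 5, 2, 5, 6, 1, 4, 7, 6, 7],
  [0, 1, 2, 3, 4, 3, 0, 5, 2, 5, 6, 7, 6, 1, 4, 7],
  [0, 1, 2, 3, 4, 3, 0, 5, 2, 6, 4, 5, 7, 6, 7, 1],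
  [0, 1, 2, 3, 4, 3, 0, 5, 2, 6, 7, 6, 4, 5, 7, 1],
  [0, 1, 2, 3, 4, 3, 5, 1, 4, 6, 0, 6, 2, 7, 5, 7],
  [0, 1, 2, 3, 4, 3, 5, 1, 4, 6, 2, 7, 5, 7, 0, 6],
  [0, 1, 2, 3, 4, 3, 5, 1, 5, 6, 2, 7, 0, 7, 4, 6],
  [0, 1, 2, 3, 4, 3, 5, 1, 5, 6, 2, 7, 4, 6, 0, 7],
  [0, 1, 2, 3, 4, 3, 5, 6, 0, 6, 4, 1, 5, 7, 2, 7],
  [0, 1, 2, 3, 4, 3, 5, 6, 0, 7, 5, 7, 2, 6, 4, 1],
  [0, 1, 2, 3, 4, 3, 5, 6, 4, 1, 5, 7, 2, 7, 0, 6],
  [0, 1, 2, 3, 4, 3, 5, 6, 5, 1, 4, 7, 0, 7, 2, 6],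
  [0, 1, 2, 3, 4, 3, 5, 6, 5, 1, 4, 7, 2, 6, 0, 7],
  [0, 1, 2, 3, 4, 3, 5, 6, 5, 7, 0, 6, 2, 7, 4, 1],
  [0, 1, 2, 3, 4, 5, 0, 3, 6, 5, 6, 7, 2, 7, 4, 1],
  [0, 1, 2, 3, 4, 5, 0, 5, 2, 6, 4, 6, 7, 1, 7, 3],
  [0, 1, 2, 3, 4, 5, 0, 5, 6, 3, 6, 1, 4, 7, 2, 7],
  [0, 1, 2, 3, 4, 5, 0, 6, 4, 6, 2, 5, 7, 3, 7, 1],
  [0, 1, 2, 3, 4, 5, 2, 5, 0, 3, 6, 1, 6, 7, 4, 7],
  [0, 1, 2, 3, 4, 5, 2, 5, 6, 3, 0, 7, 4, 7, 6, 1],
  [0, 1, 2, 3, 4, 5, 2, 6, 4, 6, 0, 3, 7, 5, 7, 1],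
  [0, 1, 2, 3, 4, 5, 2, 6, 4, 6, 7, 1, 7, 3, 0, 5],
  [0, 1, 2, 3, 4, 5, 4, 1, 6, 3, 6, 7, 0, 7, 2, 5],
  [0, 1, 2, 3, 4, 5, 4, 1, 6, 3, 6, 7, 2, 5, 0, 7],
  [0, 1, 2, 3, 4, 5, 4, 6, 0, 5, 2, 6, 7, 3, 7, 1],
  [0, 1, 2, 3, 4, 5, 4, 6, 0, 6, 2, 5, 7, 1, 7, 3],
  [0, 1, 2, 3, 4, 5, 4, 6, 2, 5, 0, 3, 7, 6, 7, 1],
  [0, 1, 2, 3, 4, 5, 4, 6, 2, 5, 7, 1, 7, 3, 0, 6],
  [0, 1, 2, 3, 4, 5, 4, 6, 2, 6, 0, 3, 7, 1, 7, 5],
  [0, 1, 2, 3, 4, 5, 4, 6, 2, 6, 7, 3, 0, 5, 7, 1],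
  [0, 1, 2, 3, 4, 5, 4, 6, 7, 1, 7, 5, 2, 6, 0, 3],
  [0, 1, 2, 3, 4, 5, 4, 6, 7, 6, 2, 5, 0, 3, 7, 1],
  [0, 1, 2, 3, 4, 5, 6, 1, 6, 7, 4, 7, 2, 5, 0, 3],
  [0, 1, 2, 3, 4, 5, 6, 3, 6, 1, 4, 7, 2, 7, 0, 5],
  [0, 1, 2, 3, 4, 5, 6, 5, 0, 3, 6, 7, 2, 7, 4, 1],
  [0, 1, 2, 3, 4, 5, 6, 5, 2, 7, 4, 7, 0, 3, 6, 1]]

def eqL : List ℕ → List ℕ → Bool
  | [], [] => true
  | a :: l, b :: l' => cond (Nat.beq a b) (eqL l l') false
  | _, _ => false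

def memL (w : List ℕ) : List (List ℕ) → Bool
  | [] => false
  | u :: ws => cond (eqL w u) true (memL w ws)

theorem eq_of_eqL : ∀ {l l' : List ℕ}, eqL l l' = true → l = l'
  | [], [], _ => rfl
  | [], _ :: _, h => by simp [eqL] at h
  | _ :: _, [], h => by simp [eqL] at h
  | a :: l, b :: l', h => by
    unfold eqL at h
    rw [cond_beq] at h
    split_ifs at h with h1
    rw [h1, eq_of_eqL h]

theorem mem_of_memL : ∀ {w : List ℕ} {ws : List (List ℕ)}, memL w ws = true → w ∈ ws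
  | w, [], h => by simp [memL] at h
  | w, u :: ws, h => by
    unfold memL at h
    cases h1 : eqL w u with
    | true => rw [eq_of_eqL h1]; simp
    | false =>
      rw [h1] at h
      exact List.mem_cons_of_mem _ (mem_of_memL h)

theorem lev_canon : (lev 8).all (fun v => memL (canF (fun _ => 0) 0 v) canonWords) = true := by
  decide +kernel

theorem canF_congr : ∀ (W : List ℕ) (lab lab' : ℕ → ℕ) (nl : ℕ),
    (∀ x ∈ W, lab x = lab' x) → canF lab nl W = canF lab' nl W := by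
  intro W
  induction W with
  | nil => intros; rfl
  | cons c W ih =>
    intro lab lab' nl h
    unfold canF
    rw [← h c (by simp)]
    rw [ih (Function.update lab c (nl + 1)) (Function.update lab' c (nl + 1)) (nl + 1),
      ih lab lab' nl (fun x hx => h x (List.mem_cons_of_mem _ hx))]
    intro x hx
    by_cases hxc : x = c
    · subst hxc; simp
    · rw [Function.update_of_ne hxc, Function.update_of_ne hxc,
        h x (List.mem_cons_of_mem _ hx)]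

theorem canF_map {g : ℕ → ℕ} : ∀ (W : List ℕ) (lab : ℕ → ℕ) (nl : ℕ),
    (∀ x ∈ W, ∀ y ∈ W, g x = g y → x = y) →
    canF lab nl (W.map g) = canF (lab ∘ g) nl W := by
  intro W
  induction W with
  | nil => intros; rfl
  | cons c W ih =>
    intro lab nl h1
    have h1' : ∀ x ∈ W, ∀ y ∈ W, g x = g y → x = y := fun x hx y hy =>
      h1 x (List.mem_cons_of_mem _ hx) y (List.mem_cons_of_mem _ hy)
    rw [List.map_cons]
    unfold canF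
    rw [ih _ _ h1', ih _ _ h1', canF_congr W (Function.update lab (g c) (nl + 1) ∘ g)
      (Function.update (lab ∘ g) c (nl + 1))]
    · rfl
    · intro x hx
      by_cases hxc : x = c
      · subst hxc; simp
      · have : g x ≠ g c := fun e =>
          hxc (h1 x (List.mem_cons_of_mem _ hx) c (by simp) e)
        simp [Function.comp, Function.update_of_ne this, Function.update_of_ne hxc]

/-- The canonical form of a word whose interlacement graph is the fixed graph. -/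
theorem canF_mem {v : List ℕ} (hv : v ∈ lev 8) {g : ℕ → ℕ}
    (hg : ∀ x ∈ v, ∀ y ∈ v, g x = g y → x = y) :
    canF (fun _ => 0) 0 (v.map g) ∈ canonWords := by
  rw [canF_map v _ 0 hg]
  have := List.all_eq_true.1 lev_canon v hv
  exact mem_of_memL this

end Pool.Agent.MP_ea99c2_gt
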