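import Pool.Agent.MP_ea99c2_gt.Surgery
import Pool.Agent.MP_ea99c2_gt.Dfs
import Pool.Agent.MP_ea99c2_gt.Enum

/-!
# Coding mosaics on a fixed board
-/

set_option linter.unusedVariables false

namespace Pool.Agent.MP_ea99c2_gt

open Equiv Equiv.Perm
open Mosaic (isX isX_conn)

instance : Fintype Side := ⟨{.north, .east, .south, .west}, by intro s; cases s <;> simp⟩

/-- The rotation of the boundary polygon. -/
def rot (N : ℕ) [NeZero N] : Perm (Fin N) := Equiv.addRight 1

theorem sameCycle_rot (N : ℕ) [NeZero N] (x y : Fin N) : SameCycle (rot N) x y := by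
  have key : ∀ (k : ℕ) (z : Fin N), ((rot N) ^ k) z = z + (Fin.ofNat N k) := by
    intro k z
    induction k with
    | zero => simp
    | succ k ih =>
      rw [pow_succ', Perm.mul_apply, ih]
      change z + Fin.ofNat N k + 1 = _
      rw [add_assoc]
      congr 1
      apply Fin.ext
      simp [Fin.val_add]
  refine ⟨((y - x : Fin N).val : ℤ), ?_⟩
  rw [zpow_natCast, key]
  have : Fin.ofNat N (y - x : Fin N).val = y - x := by
    apply Fin.ext
    simp
  rw [this, add_sub_cancel]

theorem pot_rot (N : ℕ) [NeZero N] : pot (rot N) (rot N) + 4 * 0 ≤ N + 2 := by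
  have h1 : ncyc (rot N) ≤ 1 := by
    unfold ncyc
    have : Subsingleton (Quotient (SameCycle.setoid (rot N))) := by
      constructor
      intro a b
      induction a using Quotient.inductionOn
      induction b using Quotient.inductionOn
      exact Quotient.sound (sameCycle_rot N _ _)
    exact Finite.card_le_one_iff_subsingleton.2 this
  unfold pot
  have h2 : (Finset.univ.filter fun x => (rot N) x = (rot N) x).card = N := by simp
  rw [h2]
  omega

/-- The number of a cell side. -/
def enc (idx : ℕ → ℕ → ℕ) (sc : Side → ℕ) (e : CellSide) : ℕ := 4 * idx e.1 e.2.1 + sc e.2.2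

/-- A coding of the cell sides of the `m × n` board by numbers and an enumeration of its boundary
edges in cyclic order. -/
structure Frame (m n N : ℕ) [NeZero N] (idx : ℕ → ℕ → ℕ) (sc : Side → ℕ) (bs : Fin N → CellSide)
    (nx ent : ℕ) : Prop where
  bon : ∀ b, OnBoundary m n (bs b)
  bsurj : ∀ i < m, ∀ j < n, ∀ s, OnBoundary m n (i, j, s) → ∃ b, bs b = (i, j, s)
  binj : ∀ b b', bs b = bs b' → b = b'
  hent : ∀ b, g7 ent b.val = enc idx sc (bs b)
  hnxb : ∀ b, g7 nx (enc idx sc (bs b)) = 64 + b.val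
  hnxi : ∀ i < m, ∀ j < n, ∀ s, ¬ OnBoundary m n (i, j, s) →
    g7 nx (enc idx sc (i, j, s)) = enc idx sc (neighbour (i, j, s))
  idx_lt : ∀ i < m, ∀ j < n, idx i j < m * n
  idx_inj : ∀ i < m, ∀ j < n, ∀ i' < m, ∀ j' < n, idx i j = idx i' j' → i = i' ∧ j = j'
  idx_surj : ∀ c < m * n, ∃ i < m, ∃ j < n, idx i j = c
  sc_lt : ∀ s, sc s < 4
  sc_inj : ∀ s s', sc s = sc s' → s = s'
  sc_surj : ∀ k < 4, ∃ s, sc s = k
  le : m * n < 16
  orient : (∀ b, head (bs b) = tail (bs (rot N b))) ∨ (∀ b, tail (bs b) = head (bs (rot N b)))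

section glueing

variable {D : Mosaic} {N : ℕ} [NeZero N] {idx : ℕ → ℕ → ℕ} {sc : Side → ℕ}
  {bs : Fin N → CellSide} {nx ent : ℕ}

theorem Frame.exists_tau (F : Frame D.rows D.cols N idx sc bs nx ent) :
    ∃ τ : Perm (Fin N), (∀ b, bs (τ b) = D.pair (bs b)) ∧ (∀ b, τ (τ b) = b) ∧
      (∀ b, τ b ≠ b) := by
  have hx : ∀ b, ∃ b', bs b' = D.pair (bs b) := fun b => by
    have h1 := D.pair_boundary _ (F.bon b)
    exact F.bsurj _ h1.1.1 _ h1.1.2 _ h1
  choose t ht using hx
  have htt : ∀ b, t (t b) = b := by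
    intro b
    apply F.binj
    rw [ht, ht, D.pair_pair _ (F.bon b)]
  refine ⟨⟨t, t, htt, htt⟩, ht, htt, ?_⟩
  intro b e
  apply D.pair_ne _ (F.bon b)
  rw [← ht]
  exact congrArg bs e

theorem Frame.vertexCount_le (F : Frame D.rows D.cols N idx sc bs nx ent) {τ : Perm (Fin N)}
    (hτ : ∀ b, bs (τ b) = D.pair (bs b)) (hττ : ∀ b, τ (τ b) = b) :
    D.vertexCount ≤ ncyc (rot N * τ) := by
  -- a map from the cycles onto the vertices
  have key : ∃ f : Fin N → Quot D.Glued, Function.Surjective f ∧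
      ∀ b, f ((rot N * τ) b) = f b := by
    rcases F.orient with ho | ho
    · refine ⟨fun b => Quot.mk _ ⟨tail (bs b), bs b, F.bon b, rfl⟩, ?_, ?_⟩
      · intro q
        induction q using Quot.inductionOn with
        | h v =>
          obtain ⟨v, e, he, rfl⟩ := v
          obtain ⟨i, j, s⟩ := e
          obtain ⟨b, hb⟩ := F.bsurj i he.1.1 j he.1.2 s he
          refine ⟨b, congrArg (Quot.mk D.Glued) (Subtype.ext ?_)⟩
          change tail (bs b) = _
          rw [hb]
      · intro b
        refine (Quot.sound ⟨bs b, F.bon b, rfl, ?_⟩).symm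
        change tail (bs (rot N (τ b))) = _
        rw [← ho, hτ]
    · have hh : ∀ b, ∃ e, OnBoundary D.rows D.cols e ∧ head (bs b) = tail e := by
        intro b
        refine ⟨bs ((rot N).symm b), F.bon _, ?_⟩
        rw [ho, Equiv.apply_symm_apply]
      refine ⟨fun b => Quot.mk _ ⟨head (bs b), hh b⟩, ?_, ?_⟩
      · intro q
        induction q using Quot.inductionOn with
        | h v =>
          obtain ⟨v, e, he, rfl⟩ := v
          obtain ⟨i, j, s⟩ := e
          obtain ⟨b, hb⟩ := F.bsurj i he.1.1 j he.1.2 s he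
          refine ⟨rot N b, congrArg (Quot.mk D.Glued) (Subtype.ext ?_)⟩
          change head (bs (rot N b)) = _
          rw [← ho, hb]
      · intro b
        refine (Quot.sound ⟨bs (τ b), F.bon _, ?_, ?_⟩)
        · change head (bs (rot N (τ b))) = _
          rw [ho]
        · change head (bs b) = _
          rw [← hτ, hττ]
  obtain ⟨f, hf, hfi⟩ := key
  have hpow : ∀ (k : ℕ) (b : Fin N), f (((rot N * τ) ^ k) b) = f b := by
    intro k
    induction k with
    | zero => intro b; rfl
    | succ k ih => intro b; rw [pow_succ', Perm.mul_apply, hfi, ih]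
  unfold Mosaic.vertexCount ncyc
  refine Nat.card_le_card_of_surjective
    (Quotient.lift (s := SameCycle.setoid (rot N * τ)) f ?_) ?_
  · intro a b hab
    obtain ⟨k, hk⟩ := SameCycle.exists_nat_pow_eq (hab : SameCycle (rot N * τ) a b)
    rw [← hk, hpow]
  · intro q
    obtain ⟨b, hb⟩ := hf q
    exact ⟨Quotient.mk _ b, hb⟩

theorem Frame.enc_lt (F : Frame D.rows D.cols N idx sc bs nx ent) {e : CellSide}
    (h : InGrid D.rows D.cols e) : enc idx sc e < 64 := by
  have h1 := F.idx_lt _ h.1 _ h.2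
  have h2 := F.sc_lt e.2.2
  have h3 := F.le
  unfold enc
  omega

theorem Frame.enc_div (F : Frame D.rows D.cols N idx sc bs nx ent) (e : CellSide) :
    enc idx sc e / 4 = idx e.1 e.2.1 := by
  have h2 := F.sc_lt e.2.2
  unfold enc
  omega

theorem Frame.enc_inj (F : Frame D.rows D.cols N idx sc bs nx ent) {e e' : CellSide}
    (h : InGrid D.rows D.cols e) (h' : InGrid D.rows D.cols e')
    (hee : enc idx sc e = enc idx sc e') : e = e' := by
  have h1 : idx e.1 e.2.1 = idx e'.1 e'.2.1 := by rw [← F.enc_div, hee, F.enc_div]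
  have h2 := F.idx_inj _ h.1 _ h.2 _ h'.1 _ h'.2 h1
  unfold enc at hee
  rw [h1] at hee
  have h3 := F.sc_inj _ _ (Nat.add_left_cancel hee)
  obtain ⟨i, j, s⟩ := e
  obtain ⟨i', j', s'⟩ := e'
  simp_all

theorem Frame.enc_surj (F : Frame D.rows D.cols N idx sc bs nx ent) {d : ℕ}
    (hd : d / 4 < D.rows * D.cols) : ∃ e, InGrid D.rows D.cols e ∧ enc idx sc e = d := by
  obtain ⟨i, hi, j, hj, h⟩ := F.idx_surj _ hd
  obtain ⟨s, hs⟩ := F.sc_surj (d % 4) (Nat.mod_lt _ (by norm_num))
  refine ⟨(i, j, s), ⟨hi, hj⟩, ?_⟩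
  unfold enc
  rw [h, hs]
  omega

/-- The coded trace is a closed chain. -/
theorem Frame.chain (F : Frame D.rows D.cols N idx sc bs nx ent) {out : ℕ}
    {τ : Perm (Fin N)} (hτ : ∀ b, bs (τ b) = D.pair (bs b))
    (hout : ∀ e, InGrid D.rows D.cols e → ∀ e', D.exit e = some e' →
      g7 out (enc idx sc e) = enc idx sc e')
    {l : List CellSide} (hl : D.IsTrace l) :
    Loop (StepR τ out nx ent) (l.map (enc idx sc)) := by
  have h1 : Loop (fun e e' => StepR τ out nx ent (enc idx sc e) (enc idx sc e')) l := by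
    refine hl.loop.mono ?_
    intro e he e' he' hn
    have hg := hl.2.2.1 e he
    rw [Mosaic.next_eq] at hn
    obtain ⟨x, hx, hxe⟩ := hn
    have hxg := Mosaic.exit_inGrid hx hg
    have h2 := hout e hg x hx
    obtain ⟨i, j, s⟩ := x
    refine ⟨?_, ?_⟩
    · rw [h2]
      have := F.enc_lt hxg
      omega
    · rw [h2]
      by_cases hb : OnBoundary D.rows D.cols (i, j, s)
      · obtain ⟨b, hb'⟩ := F.bsurj i hxg.1 j hxg.2 s hb
        right
        refine ⟨b, by rw [← hb', F.hnxb], ?_⟩
        rw [F.hent, hτ, hb', ← hxe]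
        unfold glue
        rw [if_pos hb]
      · left
        have h3 := F.hnxi i hxg.1 j hxg.2 s hb
        have h4 := (neighbour_spec hxg hb).1
        have h5 : e' = neighbour (i, j, s) := by
          rw [← hxe]; unfold glue; rw [if_neg hb]
        rw [h3, h5]
        exact ⟨F.enc_lt h4, rfl⟩
  unfold Loop at *
  have h2 := (List.isChain_map (enc idx sc) (R := StepR τ out nx ent)
    (l := l ++ l.take 1)).2 h1
  simpa using h2

/-- The search finds every diagram. -/
theorem Frame.dfs_false (F : Frame D.rows D.cols N idx sc bs nx ent)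
    {R0 out start hole lim : ℕ} (hT : TabOK (rot N) R0 ent)
    (hout : ∀ e, InGrid D.rows D.cols e → ∀ e', D.exit e = some e' →
      g7 out (enc idx sc e) = enc idx sc e')
    (hlim : N + 2 < 2 * D.vertexCount + 4 * lim)
    {e0 : CellSide} {l : List CellSide} (hl : D.IsTrace (e0 :: l)) (h0 : enc idx sc e0 = start)
    {ws : List (List ℕ)} {Q nl : ℕ}
    (hw : canF (g5 Q) nl (cellsOf hole ((e0 :: l).map (enc idx sc))) ∈ ws)
    (hlen : nl + (e0 :: l).length < 31) {fuel : ℕ} (hf : (e0 :: l).length < fuel) :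
    dfs R0 out nx ent start hole lim fuel start ws Q nl R0 (List.range N) 0 = false := by
  obtain ⟨τ, hτ, hττ, hτn⟩ := F.exists_tau
  have hv := F.vertexCount_le hτ hττ
  have h1 := F.chain hτ hout hl
  rw [List.map_cons, loop_cons, h0] at h1
  rw [List.map_cons, h0] at hw
  refine Pool.Agent.MP_ea99c2_gt.dfs_false hT hττ hτn (by omega) (start :: l.map (enc idx sc))
    fuel ws Q nl R0 (List.range N) 0 (rot N) start ?_ h1 hw ?_ hT.r0 ?_ (pot_rot N) ?_ ?_
  · simp
  · simpa using hlen
  · intro x; exact Or.inl rfl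
  · intro x _
    exact List.mem_range.2 x.2
  · simpa using hf

end glueing

/-! ### Labelled traces -/

/-- A trace whose word of crossings has the fixed interlacement graph. -/
structure Lab (D : Mosaic) (l : List CellSide) : Prop where
  tr : D.IsTrace l
  dbl : Dbl (D.cw l)
  ex : ∃ f : Fin 8 → ℕ × ℕ, Function.Injective f ∧ (∀ v, v ∈ D.cw l ↔ ∃ i, f i = v) ∧
    ∀ i j, i ≠ j → inter (f i) (f j) (D.cw l) = gmat i j

theorem Dbl.perm {α : Type*} [DecidableEq α] {w w' : List α} (h : Dbl w) (hp : w.Perm w') :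
    Dbl w' := by
  intro x hx
  rw [← hp.count_eq]
  exact h x (hp.mem_iff.2 hx)

namespace Lab

variable {D : Mosaic}

theorem rotate {u v : List CellSide} (H : Lab D (u ++ v)) : Lab D (v ++ u) := by
  obtain ⟨f, hf, hm, hi⟩ := H.ex
  have hd := H.dbl
  rw [Mosaic.cw_append] at hd hm hi
  refine ⟨H.tr.rotate, ?_, f, hf, ?_, ?_⟩
  · rw [Mosaic.cw_append]
    exact hd.perm List.perm_append_comm
  · intro w
    rw [← hm, Mosaic.cw_append, List.mem_append, List.mem_append, or_comm]
  · intro i j hij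
    have h1 := imat_rotate hd (f i) (f j)
    rw [imat_of_ne _ (fun e => hij (hf e)), imat_of_ne _ (fun e => hij (hf e))] at h1
    rw [Mosaic.cw_append, h1, hi i j hij]

theorem reverse {l : List CellSide} (H : Lab D l) : Lab D (l.map D.ex).reverse := by
  obtain ⟨f, hf, hm, hi⟩ := H.ex
  have hcw : D.cw (l.map D.ex).reverse = (D.cw l).reverse := by
    rw [Mosaic.cw_reverse, Mosaic.cw_map_ex fun e he => (H.tr.exit_mem he).1]
  refine ⟨H.tr.reverse, ?_, f, hf, ?_, ?_⟩
  · rw [hcw]
    exact H.dbl.perm (List.reverse_perm _).symm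
  · intro w
    rw [← hm, hcw, List.mem_reverse]
  · intro i j hij
    have h1 := imat_reverse H.dbl (f i) (f j)
    rw [imat_of_ne _ (fun e => hij (hf e)), imat_of_ne _ (fun e => hij (hf e))] at h1
    rw [hcw, h1, hi i j hij]

theorem start {l : List CellSide} (H : Lab D l) {e e' : CellSide}
    (he : InGrid D.rows D.cols e) (hee : D.exit e = some e') : ∃ l', Lab D (e :: l') := by
  rcases H.tr.2.2.2.2 e he e' hee with ⟨h, -⟩ | ⟨h, -⟩
  · obtain ⟨u, v, rfl⟩ := List.append_of_mem h
    exact ⟨v ++ u, by simpa using H.rotate⟩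
  · have h1 : e ∈ (l.map D.ex).reverse := by
      rw [List.mem_reverse, List.mem_map]
      refine ⟨e', h, ?_⟩
      unfold Mosaic.ex
      rw [Mosaic.exit_symm hee]; rfl
    have H' := H.reverse
    obtain ⟨u, v, h2⟩ := List.append_of_mem h1
    rw [h2] at H'
    exact ⟨v ++ u, by simpa using H'.rotate⟩

theorem word {l : List CellSide} (H : Lab D l) : ∃ v ∈ lev 8, ∃ g : ℕ → ℕ × ℕ,
    (∀ x ∈ v, x < 8) ∧ (∀ x < 8, ∀ y < 8, g x = g y → x = y) ∧ D.cw l = v.map g := by
  obtain ⟨f, hf, hm, hi⟩ := H.ex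
  obtain ⟨v, hv, g, hg, h8, hw⟩ := exists_lev H.dbl hf hm hi
  refine ⟨v, hv, g, h8, ?_, hw⟩
  intro x hx y hy hxy
  have h1 := hg ⟨x, hx⟩
  have h2 := hg ⟨y, hy⟩
  simp only at h1 h2
  rw [h1, h2] at hxy
  simpa using hf hxy

end Lab

theorem lev_length : (lev 8).all (fun v => Nat.beq v.length 16) = true := by decide +kernel

section search

variable {D : Mosaic} {N : ℕ} [NeZero N] {idx : ℕ → ℕ → ℕ} {sc : Side → ℕ}
  {bs : Fin N → CellSide} {nx ent : ℕ}

theorem Frame.cellsOf_eq (F : Frame D.rows D.cols N idx sc bs nx ent) {hole : ℕ}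
    (hhole : ∀ i < D.rows, ∀ j < D.cols, isX (D.tile i j) = true ↔ idx i j ≠ hole)
    {l : List CellSide} (hl : ∀ e ∈ l, InGrid D.rows D.cols e) :
    cellsOf hole (l.map (enc idx sc)) = (D.cw l).map (fun p => idx p.1 p.2) := by
  induction l with
  | nil => rfl
  | cons e l ih =>
    have ih' := ih fun e' he' => hl e' (List.mem_cons_of_mem _ he')
    have hg := hl e (by simp)
    have h1 := hhole _ hg.1 _ hg.2
    unfold cellsOf Mosaic.cw at *
    rw [List.map_cons]
    by_cases hx : isX (D.tile e.1 e.2.1) = true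
    · have h2 := h1.1 hx
      rw [List.filter_cons_of_pos (by rw [F.enc_div]; simpa using h2),
        List.filter_cons_of_pos (p := fun e : CellSide => isX (D.tile e.1 e.2.1)) hx,
        List.map_cons, List.map_cons, List.map_cons, ih', F.enc_div]
    · have h2 : ¬ (idx e.1 e.2.1 ≠ hole) := fun h => hx (h1.2 h)
      rw [List.filter_cons_of_neg (by rw [F.enc_div]; simpa using h2),
        List.filter_cons_of_neg (p := fun e : CellSide => isX (D.tile e.1 e.2.1)) hx, ih']

theorem Frame.length_le (F : Frame D.rows D.cols N idx sc bs nx ent) {hole : ℕ}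
    (hhole : ∀ i < D.rows, ∀ j < D.cols, isX (D.tile i j) = true ↔ idx i j ≠ hole)
    {l : List CellSide} (H : Lab D l) : l.length ≤ 20 := by
  obtain ⟨v, hv, g, -, -, hw⟩ := H.word
  have h16 : (D.cw l).length = 16 := by
    rw [hw, List.length_map]
    exact Nat.eq_of_beq_eq_true (List.all_eq_true.1 lev_length v hv)
  have h1 : l.length = (l.filter fun e => isX (D.tile e.1 e.2.1)).length +
      (l.filter fun e => !isX (D.tile e.1 e.2.1)).length :=
    List.length_eq_length_filter_add _
  have h2 : (l.filter fun e => isX (D.tile e.1 e.2.1)).length = 16 := by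
    rw [← h16]; unfold Mosaic.cw; rw [List.length_map]
  have h3 : (l.filter fun e => !isX (D.tile e.1 e.2.1)).length ≤ 4 := by
    have hnd : ((l.filter fun e => !isX (D.tile e.1 e.2.1)).map (enc idx sc)).Nodup := by
      refine List.Nodup.map_on ?_ (H.tr.2.1.filter _)
      intro x hx y hy hxy
      exact F.enc_inj (H.tr.2.2.1 x (List.mem_filter.1 hx).1)
        (H.tr.2.2.1 y (List.mem_filter.1 hy).1) hxy
    have hsub : ((l.filter fun e => !isX (D.tile e.1 e.2.1)).map (enc idx sc)) ⊆
        [4 * hole, 4 * hole + 1, 4 * hole + 2, 4 * hole + 3] := by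
      intro d hd
      obtain ⟨e, he, rfl⟩ := List.mem_map.1 hd
      rw [List.mem_filter] at he
      have hg := H.tr.2.2.1 e he.1
      have h4 := (hhole _ hg.1 _ hg.2)
      have h5 : idx e.1 e.2.1 = hole := by
        by_contra h6
        have := h4.2 h6
        simp [this] at he
      have h6 := F.sc_lt e.2.2
      have h7 : enc idx sc e = 4 * hole + sc e.2.2 := by unfold enc; rw [h5]
      rw [h7]
      simp only [List.mem_cons, List.not_mem_nil, or_false]
      omega
    have := (List.subperm_of_subset hnd hsub).length_le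
    simpa using this
  omega

/-- The search without prescribed word. -/
theorem Frame.dyn (F : Frame D.rows D.cols N idx sc bs nx ent)
    {R0 out start hole lim : ℕ} (hT : TabOK (rot N) R0 ent)
    (hout : ∀ e, InGrid D.rows D.cols e → ∀ e', D.exit e = some e' →
      g7 out (enc idx sc e) = enc idx sc e')
    (hlim : N + 2 < 2 * D.vertexCount + 4 * lim)
    (hhole : ∀ i < D.rows, ∀ j < D.cols, isX (D.tile i j) = true ↔ idx i j ≠ hole)
    (hs : start / 4 < D.rows * D.cols) (hs' : start / 4 ≠ hole)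
    {l : List CellSide} (H : Lab D l) :
    dfs R0 out nx ent start hole lim 24 start canonWords 0 0 R0 (List.range N) 0 = false := by
  obtain ⟨e, he, hes⟩ := F.enc_surj hs
  have hx : isX (D.tile e.1 e.2.1) = true := by
    rw [hhole _ he.1 _ he.2, ← F.enc_div e, hes]; exact hs'
  obtain ⟨l', H'⟩ := H.start he (e' := (e.1, e.2.1, e.2.2.opp)) (by
    unfold Mosaic.exit
    rw [isX_conn hx]; rfl)
  have hlen := F.length_le hhole H'
  refine F.dfs_false hT hout hlim H'.tr hes ?_ (by omega) (by omega)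
  obtain ⟨v, hv, g, h8, hg, hw⟩ := H'.word
  rw [F.cellsOf_eq hhole H'.tr.2.2.1, hw, List.map_map]
  have h0 : g5 0 = fun _ => 0 := by
    funext i
    unfold g5
    change (0 >>> (5 * i)) % 32 = 0
    rw [Nat.zero_shiftRight]
  rw [h0]
  refine canF_mem hv ?_
  intro x hx y hy hxy
  refine hg x (h8 x hx) y (h8 y hy) ?_
  have hmem : ∀ z ∈ v, (g z).1 < D.rows ∧ (g z).2 < D.cols := by
    intro z hz
    have : g z ∈ D.cw (e :: l') := by rw [hw]; exact List.mem_map_of_mem hz
    rw [Mosaic.mem_cw] at this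
    obtain ⟨-, s, hs⟩ := this
    exact H'.tr.2.2.1 _ hs
  have h2 := F.idx_inj _ (hmem x hx).1 _ (hmem x hx).2 _ (hmem y hy).1 _ (hmem y hy).2 hxy
  exact Prod.ext h2.1 h2.2

end search

end Pool.Agent.MP_ea99c2_gt
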