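import Mathlib

/-!
# Rectangular virtual knot mosaics: definitions

Virtual knots are given by signed Gauss codes modulo the (oriented) Reidemeister moves; a
rectangular virtual knot mosaic is an array of the eleven mosaic tiles together with a pairing of
the boundary edges of the array.
-/

namespace Pool.Agent.MP_ea99c2_gt

/-! ## Virtual knots -/

/-- A letter of a Gauss code: a passage through the crossing `label`; `upper` says whether it is
the upper passage, `sign` whether the crossing is positive. Crossings are named by pairs of
natural numbers. -/
structure Letter where
  label : ℕ × ℕ
  upper : Bool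
  sign : Bool
  deriving DecidableEq

/-- The other passage through the same crossing. -/
def Letter.flip (a : Letter) : Letter := ⟨a.label, !a.upper, a.sign⟩

/-- Change the names of the crossings. -/
def Letter.rename (e : Equiv.Perm (ℕ × ℕ)) (a : Letter) : Letter := ⟨e a.label, a.upper, a.sign⟩

/-- A Gauss code (of a one-component diagram): a word (read cyclically) in which every crossing
that occurs has exactly two passages, one over and one under, with the same sign. -/
structure GaussCode where
  word : List Letter
  wf : ∀ a ∈ word, word.count a = 1 ∧ word.count a.flip = 1 ∧
    ∀ b ∈ word, b.label = a.label → b = a ∨ b = a.flip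

/-- Two consecutive passages, in one of the two orders. -/
def strand (e : Bool) (p q : Letter) : List Letter := if e then [p, q] else [q, p]

/-- The elementary changes of a Gauss code: change of the starting point, change of the names of
the crossings, the three Reidemeister moves (for all orientations and all cyclic orders of the
strands involved) and, if `unoriented` is set, reversal of the orientation.

In `r1` the two passages of `x` are adjacent.

In `r2` and `r2'` one strand passes over `x` and `y`, another one under `x` and `y`, in the same
or in the opposite order; the crossings have opposite signs.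

In `r3` and `r3'` there are three strands: the top strand passes over the crossings `a` and `b`,
the middle one under `a` and over `c`, the bottom one under `b` and under `c`. The Booleans
`eT`, `eM`, `eB` say whether the crossings are met in this order, `sa`, `sb`, `sc` are the signs.
The move reverses the order on each of the three strands. The condition on the signs (the
products `sa * eB`, `sb * eM`, `sc * eT` agree, where `true` is `1` and `false` is `-1`) says
that the three strands bound a triangle in the plane. In `r3` the strands
follow each other in the cyclic order top, middle, bottom, in `r3'` top, bottom, middle. -/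
inductive Move (unoriented : Bool) : List Letter → List Letter → Prop
  | rotate (u v : List Letter) : Move unoriented (u ++ v) (v ++ u)
  | rename (e : Equiv.Perm (ℕ × ℕ)) (w : List Letter) :
      Move unoriented w (w.map (Letter.rename e))
  | r1 (x : ℕ × ℕ) (o s : Bool) (w : List Letter) :
      Move unoriented (⟨x, o, s⟩ :: ⟨x, !o, s⟩ :: w) w
  | r2 (x y : ℕ × ℕ) (s : Bool) (u v : List Letter) :
      Move unoriented
        ([⟨x, true, s⟩, ⟨y, true, !s⟩] ++ u ++ [⟨x, false, s⟩, ⟨y, false, !s⟩] ++ v) (u ++ v)
  | r2' (x y : ℕ × ℕ) (s : Bool) (u v : List Letter) :
      Move unoriented
        ([⟨x, true, s⟩, ⟨y, true, !s⟩] ++ u ++ [⟨y, false, !s⟩, ⟨x, false, s⟩] ++ v) (u ++ v)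
  | r3 (a b c : ℕ × ℕ) (eT eM eB sa sb sc : Bool)
      (h : (sa == eB) = (sb == eM) ∧ (sb == eM) = (sc == eT)) (u v w : List Letter) :
      Move unoriented
        (strand eT ⟨a, true, sa⟩ ⟨b, true, sb⟩ ++ u ++
          strand eM ⟨a, false, sa⟩ ⟨c, true, sc⟩ ++ v ++
          strand eB ⟨b, false, sb⟩ ⟨c, false, sc⟩ ++ w)
        (strand (!eT) ⟨a, true, sa⟩ ⟨b, true, sb⟩ ++ u ++
          strand (!eM) ⟨a, false, sa⟩ ⟨c, true, sc⟩ ++ v ++
          strand (!eB) ⟨b, false, sb⟩ ⟨c, false, sc⟩ ++ w)
  | r3' (a b c : ℕ × ℕ) (eT eM eB sa sb sc : Bool)
      (h : (sa == eB) = (sb == eM) ∧ (sb == eM) = (sc == eT)) (u v w : List Letter) :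
      Move unoriented
        (strand eT ⟨a, true, sa⟩ ⟨b, true, sb⟩ ++ u ++
          strand eB ⟨b, false, sb⟩ ⟨c, false, sc⟩ ++ v ++
          strand eM ⟨a, false, sa⟩ ⟨c, true, sc⟩ ++ w)
        (strand (!eT) ⟨a, true, sa⟩ ⟨b, true, sb⟩ ++ u ++
          strand (!eB) ⟨b, false, sb⟩ ⟨c, false, sc⟩ ++ v ++
          strand (!eM) ⟨a, false, sa⟩ ⟨c, true, sc⟩ ++ w)
  | reverse (w : List Letter) : unoriented = true → Move unoriented w w.reverse

/-- Virtual knots: Gauss codes modulo the equivalence relation generated by the moves. With
`unoriented = false` these are the oriented, with `unoriented = true` the unoriented virtual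
knots. -/
def VirtualKnot (unoriented : Bool) : Type :=
  Quot fun g h : GaussCode => Move unoriented g.word h.word

/-- The virtual knot of a Gauss code. -/
def GaussCode.knot (unoriented : Bool) (g : GaussCode) : VirtualKnot unoriented :=
  Quot.mk _ g

/-! ## Tiles -/

/-- The four sides of a square tile. -/
inductive Side
  | north | east | south | west
  deriving DecidableEq

/-- The opposite side. -/
def Side.opp : Side → Side
  | north => south
  | east => west
  | south => north
  | west => east

/-- The eleven mosaic tiles. -/
inductive Tile
  | t0 | t1 | t2 | t3 | t4 | t5 | t6 | t7 | t8 | t9 | t10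
  deriving DecidableEq

/-- The arcs of the tiles: `conn t s` is the other end of the arc of `t` ending on the side `s`
(`none` if there is no arc). `t0` is blank, `t1`, ..., `t4` are the corner arcs, `t5`, `t6` the
straight arcs, `t7`, `t8` pairs of corner arcs, and `t9`, `t10` the two crossings; in `t9` the
horizontal strand is the upper one, in `t10` the vertical one. -/
def Tile.conn : Tile → Side → Option Side
  | t1, .west => some .south
  | t1, .south => some .west
  | t2, .south => some .east
  | t2, .east => some .south
  | t3, .north => some .east
  | t3, .east => some .north
  | t4, .north => some .west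
  | t4, .west => some .north
  | t5, .east => some .west
  | t5, .west => some .east
  | t6, .north => some .south
  | t6, .south => some .north
  | t7, .west => some .south
  | t7, .south => some .west
  | t7, .north => some .east
  | t7, .east => some .north
  | t8, .south => some .east
  | t8, .east => some .south
  | t8, .north => some .west
  | t8, .west => some .north
  | t9, s => some s.opp
  | t10, s => some s.opp
  | _, _ => none

/-! ## Mosaics -/

/-- A side of a cell of the array: row (counted from the top), column (counted from the left) and
side. A boundary edge of the array is a cell side on its boundary. -/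
abbrev CellSide : Type := ℕ × ℕ × Side

/-- The cell side belongs to the `m × n` array. -/
def InGrid (m n : ℕ) (e : CellSide) : Prop := e.1 < m ∧ e.2.1 < n

/-- The cell side is a boundary edge of the `m × n` array. -/
def OnBoundary (m n : ℕ) (e : CellSide) : Prop :=
  InGrid m n e ∧
    match e.2.2 with
    | .north => e.1 = 0
    | .east => e.2.1 + 1 = n
    | .south => e.1 + 1 = m
    | .west => e.2.1 = 0

instance (m n : ℕ) (e : CellSide) : Decidable (InGrid m n e) := by
  unfold InGrid; infer_instance

instance (m n : ℕ) (e : CellSide) : Decidable (OnBoundary m n e) := by
  unfold OnBoundary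
  rcases e with ⟨i, j, s⟩
  cases s <;> infer_instance

/-- The same edge, seen from the neighbouring cell. -/
def neighbour : CellSide → CellSide
  | (i, j, .north) => (i - 1, j, .south)
  | (i, j, .east) => (i, j + 1, .west)
  | (i, j, .south) => (i + 1, j, .north)
  | (i, j, .west) => (i, j - 1, .east)

/-- The starting point of a cell side, when the boundary of the cell is traversed
counterclockwise. The lattice point `(p, q)` is the upper left corner of the cell in row `p` and
column `q`. -/
def tail : CellSide → ℕ × ℕ
  | (i, j, .north) => (i, j + 1)
  | (i, j, .east) => (i + 1, j + 1)
  | (i, j, .south) => (i + 1, j)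
  | (i, j, .west) => (i, j)

/-- The end point of a cell side, when the boundary of the cell is traversed
counterclockwise. -/
def head : CellSide → ℕ × ℕ
  | (i, j, .north) => (i, j)
  | (i, j, .east) => (i, j + 1)
  | (i, j, .south) => (i + 1, j + 1)
  | (i, j, .west) => (i + 1, j)

/-- The edge to which the edge `e` is glued in the closure: the neighbouring cell side if `e` is
inside the array, the edge `pair e` if `e` is a boundary edge. -/
def glue (m n : ℕ) (pair : CellSide → CellSide) (e : CellSide) : CellSide :=
  if OnBoundary m n e then pair e else neighbour e

/-- A rectangular mosaic: a `rows × cols` array of tiles and a pairing of its boundary edges, such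
that arcs connect across interior edges and across paired boundary edges. (The values of `tile`
and `pair` outside of the array are irrelevant.) -/
structure Mosaic where
  rows : ℕ
  cols : ℕ
  rows_pos : 0 < rows
  cols_pos : 0 < cols
  tile : ℕ → ℕ → Tile
  pair : CellSide → CellSide
  pair_boundary : ∀ e, OnBoundary rows cols e → OnBoundary rows cols (pair e)
  pair_pair : ∀ e, OnBoundary rows cols e → pair (pair e) = e
  pair_ne : ∀ e, OnBoundary rows cols e → pair e ≠ e
  suitably_connected : ∀ e, InGrid rows cols e →
    (((tile e.1 e.2.1).conn e.2.2).isSome ↔
      ((tile (glue rows cols pair e).1 (glue rows cols pair e).2.1).conn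
        (glue rows cols pair e).2.2).isSome)

namespace Mosaic

variable (D : Mosaic)

/-- The vertices on the boundary of the array. -/
def Vertex : Type := {v : ℕ × ℕ // ∃ e, OnBoundary D.rows D.cols e ∧ v = tail e}

/-- The identifications of boundary vertices in the closure: a boundary edge `e` is glued to
`pair e` with reversed direction (so that the closure is orientable). -/
def Glued (v w : D.Vertex) : Prop :=
  ∃ e, OnBoundary D.rows D.cols e ∧ v.1 = tail e ∧ w.1 = head (D.pair e)

/-- The number of distinct vertices after identification. -/
noncomputable def vertexCount : ℕ := Nat.card (Quot D.Glued)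

/-- The genus of the closure: its Euler characteristic is `v - (m + n) + 1`. -/
noncomputable def genus : ℕ := (1 + D.rows + D.cols - D.vertexCount) / 2

/-- The other end of the arc that ends on the cell side `e`. -/
def exit (e : CellSide) : Option CellSide :=
  ((D.tile e.1 e.2.1).conn e.2.2).map fun s => (e.1, e.2.1, s)

/-- A point moving along the diagram on the closure that enters a cell through the cell side `e`
next enters a cell through the cell side `next e`. -/
def next (e : CellSide) : Option CellSide := (D.exit e).map (glue D.rows D.cols D.pair)

/-- `l` lists, in cyclic order, the cell sides through which a point running once along the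
diagram on the closure enters the cells (each entry of `l` is followed by its `next`, and the
last entry is followed by the first one). Every arc of every tile is traversed exactly once, so
the diagram is a knot diagram, that is, it has exactly one component. -/
def IsTrace (l : List CellSide) : Prop :=
  l ≠ [] ∧ l.Nodup ∧ (∀ e ∈ l, InGrid D.rows D.cols e) ∧
    (l ++ l.take 1).IsChain (fun e e' => D.next e = some e') ∧
    ∀ e, InGrid D.rows D.cols e → ∀ e', D.exit e = some e' → Xor (e ∈ l) (e' ∈ l)

/-- The letter of the Gauss code for the passage that enters the cell through `e`, for the diagram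
traversed as in `l`. The crossing in the cell `(i, j)` is named `(i, j)`. Its sign is
positive if and only if the direction of the upper strand, turned counterclockwise by a right
angle, is the direction of the lower strand. -/
def letter (l : List CellSide) (e : CellSide) : Option Letter :=
  match D.tile e.1 e.2.1 with
  | .t9 => some ⟨(e.1, e.2.1), decide (e.2.2 = .west ∨ e.2.2 = .east),
      decide ((e.1, e.2.1, Side.west) ∈ l) == decide ((e.1, e.2.1, Side.south) ∈ l)⟩
  | .t10 => some ⟨(e.1, e.2.1), decide (e.2.2 = .north ∨ e.2.2 = .south),
      decide ((e.1, e.2.1, Side.west) ∈ l) != decide ((e.1, e.2.1, Side.south) ∈ l)⟩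
  | _ => none

/-- The Gauss code of the diagram, traversed as in `l`. -/
def code (l : List CellSide) : List Letter := l.filterMap (D.letter l)

/-- The mosaic represents the virtual knot `K`. -/
def Represents {unoriented : Bool} (K : VirtualKnot unoriented) : Prop :=
  ∃ l, D.IsTrace l ∧ ∃ g : GaussCode, g.word = D.code l ∧ g.knot unoriented = K

end Mosaic

/-- The tile number of a virtual knot. -/
noncomputable def tileNumber {unoriented : Bool} (K : VirtualKnot unoriented) : ℕ :=
  sInf {k | ∃ D : Mosaic, D.Represents K ∧ k = D.rows * D.cols}

/-- The genus of a virtual knot. -/
noncomputable def knotGenus {unoriented : Bool} (K : VirtualKnot unoriented) : ℕ :=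
  sInf {g | ∃ D : Mosaic, D.Represents K ∧ g = D.genus}

end Pool.Agent.MP_ea99c2_gt
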