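import Pool.Agent.MP_ea99c2_gt.Words
import Pool.Agent.MP_ea99c2_gt.Defs

/-!
# Invariance of the parity bracket, and what follows if it does not vanish
-/

set_option linter.unusedSectionVars false
set_option linter.unusedVariables false
set_option linter.unusedSimpArgs false

namespace Pool.Agent.MP_ea99c2_gt

open Finset

/-! ## Gauss codes -/

/-- The crossings of a Gauss code, in the order in which they are met. -/
def labels (w : List Letter) : List (ℕ × ℕ) := w.map Letter.label

theorem labels_append (u v : List Letter) : labels (u ++ v) = labels u ++ labels v :=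
  List.map_append

theorem countP_or_disjoint {β : Type*} (l : List β) (p q : β → Bool)
    (h : ∀ b, ¬ (p b = true ∧ q b = true)) :
    l.countP (fun b => p b || q b) = l.countP p + l.countP q := by
  induction l with
  | nil => rfl
  | cons b l ih =>
    rw [List.countP_cons, List.countP_cons, List.countP_cons, ih]
    have := h b
    cases hp : p b <;> cases hq : q b <;> simp_all <;> omega

theorem count_map_two {α β : Type*} [DecidableEq α] [DecidableEq β] (w : List β) (f : β → α)
    {a a' : β} (hne : a ≠ a') (h1 : w.count a = 1) (h2 : w.count a' = 1)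
    (h3 : ∀ b ∈ w, f b = f a ↔ b = a ∨ b = a') : (w.map f).count (f a) = 2 := by
  have e1 : (w.map f).count (f a) = w.countP (fun b => (b == a) || (b == a')) := by
    rw [List.count, List.countP_map]
    refine List.countP_congr fun b hb => ?_
    simp only [Function.comp, beq_iff_eq, Bool.or_eq_true]
    exact h3 b hb
  rw [e1, countP_or_disjoint]
  · change w.count a + w.count a' = 2
    rw [h1, h2]
  · intro b ⟨hb1, hb2⟩
    rw [beq_iff_eq] at hb1 hb2
    exact hne (hb1.symm.trans hb2)

theorem GaussCode.dbl (g : GaussCode) : Dbl (labels g.word) := by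
  intro x hx
  obtain ⟨a, ha, rfl⟩ := List.mem_map.1 hx
  obtain ⟨h1, h2, h3⟩ := g.wf a ha
  have hne : a ≠ a.flip := by
    intro h
    have := congrArg Letter.upper h
    simp [Letter.flip] at this
  refine count_map_two g.word Letter.label hne h1 h2 fun b hb => ⟨h3 b hb, ?_⟩
  rintro (rfl | rfl)
  · rfl
  · rfl

theorem labels_strand (e : Bool) (p q : Letter) :
    labels (strand e p q) = [p.label, q.label] ∨ labels (strand e p q) = [q.label, p.label] := by
  cases e
  · right; rfl
  · left; rfl

theorem labels_strand_not (e : Bool) (p q : Letter) :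
    labels (strand (!e) p q) = (labels (strand e p q)).reverse := by
  cases e <;> rfl

variable {a : Fin 8 → Fin 8 → ZMod 2}

theorem bw_move (ha : TwinFree a) {o : Bool} {w w' : List Letter} (hm : Move o w w')
    (h : Dbl (labels w)) (h' : Dbl (labels w')) : bw a (labels w) = bw a (labels w') := by
  cases hm with
  | rotate u v =>
    rw [labels_append] at *
    rw [labels_append]
    exact bw_rotate h'
  | rename e =>
    have : labels (w.map (Letter.rename e)) = (labels w).map e := by
      unfold labels; rw [List.map_map, List.map_map]; rfl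
    rw [this, bw_map]
  | r1 x o s => exact bw_r1 (w := labels w') h
  | r2 x y s u v =>
    simp only [labels_append] at *
    exact bw_r2 ha (Or.inl rfl) h
  | r2' x y s u v =>
    simp only [labels_append] at *
    exact bw_r2 ha (Or.inr rfl) h
  | r3 x y z eT eM eB sa sb sc hc u v w =>
    simp only [labels_append, labels_strand_not] at *
    exact bw_r3 ha (labels_strand _ _ _) (labels_strand _ _ _) (labels_strand _ _ _) h
  | r3' x y z eT eM eB sa sb sc hc u v w =>
    simp only [labels_append, labels_strand_not] at *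
    exact bw_r3 (x := y) (y := x) (w := z) ha (labels_strand _ _ _).symm (labels_strand _ _ _)
      (labels_strand _ _ _) h
  | reverse =>
    have : labels w.reverse = (labels w).reverse := by unfold labels; rw [List.map_reverse]
    rw [this, bw_reverse h]

/-- The parity bracket of a virtual knot. -/
noncomputable def bracketK (ha : TwinFree a) {o : Bool} (K : VirtualKnot o) : ZMod 2 :=
  Quot.lift (fun g : GaussCode => bw a (labels g.word))
    (fun g h hm => bw_move ha hm g.dbl h.dbl) K

theorem bw_eq_of_knot_eq (ha : TwinFree a) {o : Bool} {g h : GaussCode}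
    (hgh : g.knot o = h.knot o) : bw a (labels g.word) = bw a (labels h.word) :=
  congrArg (bracketK (o := o) ha) hgh

/-! ## Extraction -/

section extract

variable {α : Type*} [DecidableEq α]

theorem handshake (X : Finset α) (A : α → α → ZMod 2) (hs : ∀ u v, A u v = A v u)
    (hd : ∀ u, A u u = 0) : ∑ v ∈ X, deg X A v = 0 := by
  unfold deg
  induction X using Finset.induction_on with
  | empty => rfl
  | insert x X hx ih =>
    rw [sum_insert hx, sum_insert hx, hd, zero_add]
    have : ∑ v ∈ X, ∑ u ∈ insert x X, A v u = ∑ v ∈ X, A x v + ∑ v ∈ X, ∑ u ∈ X, A v u := by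
      rw [← sum_add_distrib]
      exact sum_congr rfl fun v _ => by rw [sum_insert hx, hs v x]
    rw [this, ih, add_zero]
    exact CharTwo.add_self_eq_zero _

/-- The vertices of the fixed graph, if the bracket does not vanish. -/
theorem exists_good {w : List α} (hw : bw a w ≠ 0) :
    ∃ S T, T ⊆ odds w.toFinset (imat w) ∧
      Good a w.toFinset (imat w) (evens w.toFinset (imat w)) S T := by
  unfold bw bracket at hw
  obtain ⟨S, hS, h1⟩ := exists_ne_zero_of_sum_ne_zero hw
  obtain ⟨T, hT, h2⟩ := exists_ne_zero_of_sum_ne_zero h1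
  refine ⟨S, T, mem_powerset.1 hT, ?_⟩
  by_contra h
  exact h2 (if_neg h)

theorem good_card {X E S T : Finset α} {A : α → α → ZMod 2} (g : Good a X A E S T) :
    T.card = 8 := by
  obtain ⟨f, hf, hfT, -⟩ := g.ex
  have : T = univ.map ⟨f, hf⟩ := by
    ext v; rw [hfT]; simp
  rw [this, card_map]; rfl

theorem card_ge {w : List α} (hw : bw a w ≠ 0) : 8 ≤ w.toFinset.card := by
  obtain ⟨S, T, hT, g⟩ := exists_good hw
  rw [← good_card g]
  exact card_le_card (hT.trans (odds_subset _ _))

theorem mv_single {X : Finset α} {A : α → α → ZMod 2} {z : α → ZMod 2} {x : α} (hx : x ∈ X)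
    (hz : ∀ v, v ≠ x → z v = 0) (v : α) : mv X A z v = A v x * z x := by
  unfold mv
  rw [sum_eq_single x]
  · intro u _ hu; rw [hz u hu, mul_zero]
  · intro h; exact absurd hx h

theorem extract8 {w : List α} (hd : Dbl w) (hw : bw a w ≠ 0) (h8 : w.toFinset.card = 8) :
    ∃ f : Fin 8 → α, Function.Injective f ∧ (∀ v, v ∈ w ↔ ∃ i, f i = v) ∧
      ∀ i j, i ≠ j → inter (f i) (f j) w = a i j := by
  obtain ⟨S, T, hT, g⟩ := exists_good hw
  have hc := good_card g
  have hTX : T = w.toFinset :=
    eq_of_subset_of_card_le (hT.trans (odds_subset _ _)) (by rw [hc, h8])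
  obtain ⟨f, hf, hfT, hz⟩ := g.ex
  refine ⟨f, hf, fun v => ?_, fun i j hij => ?_⟩
  · rw [← hfT, hTX, List.mem_toFinset]
  · obtain ⟨z, z1, z2, z3, z4⟩ := hz i
    have hE : ∀ v, v ∉ evens w.toFinset (imat w) := by
      intro v hv
      have h1 := evens_subset _ _ hv
      rw [← hTX] at h1
      have h2 := hT h1
      simp only [evens, odds, mem_filter] at hv h2
      rw [hv.2] at h2
      exact absurd h2.2 (by decide)
    have hfi : f i ∈ w.toFinset := by rw [← hTX]; exact (hfT _).2 ⟨i, rfl⟩
    rw [← z4 j hij.symm, mv_single hfi (fun v hv => z1 v (hE v) hv), z2, mul_one, imat_symm hd,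
      imat_of_ne _ (fun e => hij (hf e))]

theorem extract9 {w : List α} (hd : Dbl w) (hw : bw a w ≠ 0) (h9 : w.toFinset.card = 9) :
    ∃ f : Fin 8 → α, ∃ e : α, Function.Injective f ∧ e ∈ w ∧ (∀ i, f i ≠ e) ∧
      (∀ v, v ∈ w ↔ v = e ∨ ∃ i, f i = v) ∧
      ∀ i j, i ≠ j → inter (f i) (f j) w + inter (f i) e w * inter (f j) e w = a i j := by
  obtain ⟨S, T, hT, g⟩ := exists_good hw
  have hc := good_card g
  have hTX : T ⊆ w.toFinset := hT.trans (odds_subset _ _)
  obtain ⟨e, he⟩ : ∃ e, w.toFinset \ T = {e} := by
    rw [← card_eq_one, card_sdiff_of_subset hTX, hc, h9]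
  have heX : e ∈ w.toFinset ∧ e ∉ T := by
    rw [← mem_sdiff, he, mem_singleton]
  have hX : w.toFinset = insert e T := by
    rw [← sdiff_union_of_subset hTX, he]; rfl
  have hs := handshake w.toFinset (imat w) (imat_symm hd) (imat_self w)
  have hdT : ∑ v ∈ T, deg w.toFinset (imat w) v = 0 := by
    have : ∀ v ∈ T, deg w.toFinset (imat w) v = 1 := fun v hv => by
      have := hT hv
      simp only [odds, mem_filter] at this
      exact this.2
    rw [sum_congr rfl this, sum_const, hc]; decide
  have hde : deg w.toFinset (imat w) e = 0 := by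
    have h1 : ∑ v ∈ w.toFinset, deg w.toFinset (imat w) v =
        deg w.toFinset (imat w) e + ∑ v ∈ T, deg w.toFinset (imat w) v := by
      conv_lhs => rw [hX]
      rw [sum_insert heX.2, ← hX]
    rw [hs, hdT, add_zero] at h1
    exact h1.symm
  have hE : ∀ v, v ∈ evens w.toFinset (imat w) ↔ v = e := by
    intro v
    constructor
    · intro hv
      by_contra hne
      have h1 := evens_subset _ _ hv
      rw [hX, mem_insert] at h1
      have h2 := hT (h1.resolve_left hne)
      simp only [evens, odds, mem_filter] at hv h2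
      rw [hv.2] at h2
      exact absurd h2.2 (by decide)
    · rintro rfl
      exact mem_filter.2 ⟨heX.1, hde⟩
  have heS : e ∈ S := by
    by_contra hne
    have := g.nd (fun v => if v = e then 1 else 0) ?_ ?_ e
    · simp at this
    · intro v hv
      rw [hE] at hv
      simp [hv]
    · intro v hv
      rw [hE] at hv
      subst hv
      rw [mv_single heX.1 (fun v hv => by simp [hv]), imat_self, if_neg hne, zero_mul]
  obtain ⟨f, hf, hfT, hz⟩ := g.ex
  have hfe : ∀ i, f i ≠ e := fun i h => heX.2 ((hfT e).2 ⟨i, h⟩)
  refine ⟨f, e, hf, List.mem_toFinset.1 heX.1, hfe, fun v => ?_, fun i j hij => ?_⟩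
  · rw [← hfT, ← List.mem_toFinset, hX, mem_insert]
  · obtain ⟨z, z1, z2, z3, z4⟩ := hz i
    have hfi : f i ∈ w.toFinset := hTX ((hfT _).2 ⟨i, rfl⟩)
    have hmv : ∀ v, mv w.toFinset (imat w) z v = imat w v e * z e + imat w v (f i) * z (f i) := by
      intro v
      unfold mv
      rw [hX, sum_insert heX.2]
      congr 1
      refine (sum_eq_single (f i) ?_ ?_)
      · intro u hu hui
        rw [z1 u (fun h => heX.2 (((hE u).1 h) ▸ hu)) hui, mul_zero]
      · intro h; exact absurd ((hfT _).2 ⟨i, rfl⟩) h
    have h5 := z3 e ((hE e).2 rfl)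
    rw [hmv, imat_self, zero_mul, zero_add, z2, mul_one, if_pos heS] at h5
    rw [← z4 j hij.symm, hmv, z2, mul_one, ← h5, imat_symm hd e, imat_symm hd (f j) (f i),
      imat_of_ne _ (fun e => hij (hf e)), imat_of_ne _ (hfe i), imat_of_ne _ (hfe j)]
    ring

end extract

/-! ## The graph -/

/-- Neighbourhoods of the vertices, as bit masks: a strip of three triangles with three pendant
vertices. -/
def nbr : Fin 8 → ℕ := ![38, 13, 155, 22, 76, 1, 16, 4]

def gmat (i j : Fin 8) : ZMod 2 := if (nbr i).testBit j then 1 else 0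

theorem gmat_twinFree : TwinFree gmat := by
  unfold TwinFree
  decide

end Pool.Agent.MP_ea99c2_gt
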