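import Pool.Agent.MP_ea99c2_gt.Checks
import Pool.Agent.MP_ea99c2_gt.Extract

/-!
# Mosaics with at most nine tiles
-/

set_option linter.unusedVariables false

namespace Pool.Agent.MP_ea99c2_gt

open Equiv Equiv.Perm
open Mosaic (isX isX_conn)

/-! ### The boards cover all cases -/

def Fits (tr v h : Bool) (M K i j : ℕ) (T : Tile) (B : Bd) : Prop :=
  B.hole = fidx tr v h M K i j ∧ ∀ s s', T.conn s = some s' →
    g7 B.out (4 * B.hole + fsc tr v h s) = 4 * B.hole + fsc tr v h s'

instance (tr v h : Bool) (M K i j : ℕ) (T : Tile) (B : Bd) :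
    Decidable (Fits tr v h M K i j T B) := by
  unfold Fits; infer_instance

def GoodBd (M K : ℕ) (B : Bd) : Prop :=
  B.start / 4 < M * K ∧ B.start / 4 ≠ B.hole ∧
    ∀ c < M * K, c ≠ B.hole → ∀ k < 4, g7 B.out (4 * c + k) = 4 * c + (k + 2) % 4

instance (M K : ℕ) (B : Bd) : Decidable (GoodBd M K B) := by
  unfold GoodBd; infer_instance

theorem good9 : ∀ B ∈ dyn9, GoodBd 1 9 B := by decide +kernel

theorem goodr : ∀ B ∈ row9, GoodBd 1 9 B := by decide +kernel

theorem good33 : ∀ B ∈ dyn33, GoodBd 3 3 B := by decide +kernel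

theorem good8 : ∀ B ∈ dyn8, GoodBd 1 8 B := by decide +kernel

theorem good24 : ∀ B ∈ dyn24, GoodBd 2 4 B := by decide +kernel

theorem cover9 : ∀ i < 1, ∀ j < 9, ∀ T ∈ [Tile.t5, .t6, .t7, .t8], ∃ v h : Bool,
    (∃ B ∈ dyn9, Fits false v h 1 9 i j T B) ∨ (∃ B ∈ row9, Fits false v h 1 9 i j T B) := by
  decide +kernel

theorem cover9t : ∀ i < 9, ∀ j < 1, ∀ T ∈ [Tile.t5, .t6, .t7, .t8], ∃ v h : Bool,
    (∃ B ∈ dyn9, Fits true v h 1 9 i j T B) ∨ (∃ B ∈ row9, Fits true v h 1 9 i j T B) := by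
  decide +kernel

theorem cover33 : ∀ i < 3, ∀ j < 3, ∀ T ∈ [Tile.t5, .t6, .t7, .t8], ∃ tr v h : Bool,
    ∃ B ∈ dyn33, Fits tr v h 3 3 i j T B := by
  decide +kernel

theorem search9 : ∀ B ∈ dyn9, dfs rt9 B.out nx9 ent9 B.start B.hole 3 24 B.start canonWords 0 0
    rt9 (List.range 20) 0 = true := by
  intro B hB
  simp only [dyn9, List.mem_cons, List.not_mem_nil, or_false] at hB
  rcases hB with rfl | rfl | rfl | rfl | rfl | rfl | rfl | rfl | rfl | rfl | rfl
  exacts [chk9_0, chk9_1, chk9_2, chk9_3, chk9_4, chk9_5, chk9_6, chk9_7, chk9_8, chk9_9, chk9_10]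

theorem search33 : ∀ B ∈ dyn33, dfs rt33 B.out nx33 ent33 B.start B.hole 3 24 B.start canonWords
    0 0 rt33 (List.range 12) 0 = true := by
  intro B hB
  simp only [dyn33, List.mem_cons, List.not_mem_nil, or_false] at hB
  rcases hB with rfl | rfl | rfl | rfl | rfl | rfl | rfl | rfl
  exacts [chk33_0, chk33_1, chk33_2, chk33_3, chk33_4, chk33_5, chk33_6, chk33_7]

theorem search8 : ∀ B ∈ dyn8, dfs rt8 B.out nx8 ent8 B.start B.hole 100 24 B.start canonWords
    0 0 rt8 (List.range 18) 0 = true := by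
  intro B hB
  simp only [dyn8, List.mem_cons, List.not_mem_nil, or_false] at hB
  subst hB
  exact chk8_0

theorem search24 : ∀ B ∈ dyn24, dfs rt24 B.out nx24 ent24 B.start B.hole 100 24 B.start
    canonWords 0 0 rt24 (List.range 12) 0 = true := by
  intro B hB
  simp only [dyn24, List.mem_cons, List.not_mem_nil, or_false] at hB
  subst hB
  exact chk24_0

/-! ### The table of exits -/

theorem hout_of {D : Mosaic} {tr v h : Bool} {M K : ℕ} {B : Bd} (hMK : D.rows * D.cols = M * K)
    (hB : GoodBd M K B)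
    (hidx : ∀ i < D.rows, ∀ j < D.cols, fidx tr v h M K i j < D.rows * D.cols)
    (hx : ∀ i < D.rows, ∀ j < D.cols, fidx tr v h M K i j ≠ B.hole → isX (D.tile i j) = true)
    (hh : ∀ i < D.rows, ∀ j < D.cols, fidx tr v h M K i j = B.hole → ∀ s s',
      (D.tile i j).conn s = some s' →
        g7 B.out (4 * B.hole + fsc tr v h s) = 4 * B.hole + fsc tr v h s') :
    ∀ e, InGrid D.rows D.cols e → ∀ e', D.exit e = some e' →
      g7 B.out (enc (fidx tr v h M K) (fsc tr v h) e) =
        enc (fidx tr v h M K) (fsc tr v h) e' := by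
  rintro ⟨i, j, s⟩ ⟨hi, hj⟩ e' hee
  simp only at hi hj
  unfold Mosaic.exit at hee
  simp only [Option.map_eq_some_iff] at hee
  obtain ⟨s', hs, rfl⟩ := hee
  unfold enc
  simp only
  by_cases hc : fidx tr v h M K i j = B.hole
  · rw [hc]
    exact hh i hi j hj hc s s' hs
  · rw [isX_conn (hx i hi j hj hc)] at hs
    obtain rfl := Option.some.inj hs
    have h1 := hidx i hi j hj
    rw [hMK] at h1
    obtain ⟨g1, g2, g3, g4⟩ := fsc_spec tr v h
    rw [hB.2.2 _ h1 hc _ (g1 s), g4]

/-! ### Nine tiles, one of them without crossing -/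

theorem lim_of_genus {D : Mosaic} {N : ℕ} (hN : N = 2 * (D.rows + D.cols))
    (hg : ¬ 3 ≤ D.genus) : N + 2 < 2 * D.vertexCount + 4 * 3 := by
  unfold Mosaic.genus at hg
  omega

theorem hQ9 : ∀ c < 9, g5 10178205453377 c = c + 1 := by decide +kernel

/-- The search on the row boards. -/
theorem row_false {D : Mosaic} {tr v h : Bool} {bs : Fin 20 → CellSide}
    (F : Frame D.rows D.cols 20 (fidx tr v h 1 9) (fsc tr v h) bs nx9 ent9)
    (h9 : D.rows * D.cols = 9) (hlim : 20 + 2 < 2 * D.vertexCount + 4 * 3)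
    {B : Bd} (hB : B ∈ row9)
    (hout : ∀ e, InGrid D.rows D.cols e → ∀ e', D.exit e = some e' →
      g7 B.out (enc (fidx tr v h 1 9) (fsc tr v h) e) = enc (fidx tr v h 1 9) (fsc tr v h) e')
    (hhole : ∀ i < D.rows, ∀ j < D.cols, isX (D.tile i j) = true ↔
      fidx tr v h 1 9 i j ≠ B.hole)
    {l : List CellSide} (H : Lab D l) : False := by
  simp only [row9, List.mem_cons, List.not_mem_nil, or_false] at hB
  rcases hB with rfl | rfl | rfl | rfl
  · have := F.row h9 tab9 hout hlim hhole (by decide) (by decide) (by decide +kernel)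
      (by decide +kernel) (by decide +kernel) (by decide +kernel) (by decide +kernel)
      (by decide +kernel) rowCheck4 hQ9 H
    exact absurd (this.symm.trans chkr_0) (by decide)
  · have := F.row h9 tab9 hout hlim hhole (by decide) (by decide) (by decide +kernel)
      (by decide +kernel) (by decide +kernel) (by decide +kernel) (by decide +kernel)
      (by decide +kernel) rowCheck5 hQ9 H
    exact absurd (this.symm.trans chkr_1) (by decide)
  · have := F.row h9 tab9 hout hlim hhole (by decide) (by decide) (by decide +kernel)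
      (by decide +kernel) (by decide +kernel) (by decide +kernel) (by decide +kernel)
      (by decide +kernel) rowCheck6 hQ9 H
    exact absurd (this.symm.trans chkr_2) (by decide)
  · have := F.row h9 tab9 hout hlim hhole (by decide) (by decide) (by decide +kernel)
      (by decide +kernel) (by decide +kernel) (by decide +kernel) (by decide +kernel)
      (by decide +kernel) rowCheck7 hQ9 H
    exact absurd (this.symm.trans chkr_3) (by decide)

theorem hole_tile {t : Tile} (ht : ¬ isX t = true) : ∃ T ∈ [Tile.t5, .t6, .t7, .t8],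
    ∀ s s', t.conn s = some s' → T.conn s = some s' := by
  revert ht
  cases t
  · intro _; exact ⟨.t5, by simp, by decide⟩
  · intro _; exact ⟨.t7, by simp, by decide⟩
  · intro _; exact ⟨.t8, by simp, by decide⟩
  · intro _; exact ⟨.t7, by simp, by decide⟩
  · intro _; exact ⟨.t8, by simp, by decide⟩
  · intro _; exact ⟨.t5, by simp, by decide⟩
  · intro _; exact ⟨.t6, by simp, by decide⟩
  · intro _; exact ⟨.t7, by simp, by decide⟩
  · intro _; exact ⟨.t8, by simp, by decide⟩
  · intro h; exact absurd rfl h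
  · intro h; exact absurd rfl h

/-- The hypotheses of the searches for a board with one hole. -/
theorem fits_spec {D : Mosaic} {tr v h : Bool} {M K N : ℕ} [NeZero N] {nx ent : ℕ}
    {bs : Fin N → CellSide} (F : Frame D.rows D.cols N (fidx tr v h M K) (fsc tr v h) bs nx ent)
    (hMK : D.rows * D.cols = M * K) {B : Bd} (hB : GoodBd M K B) {i0 j0 : ℕ} (hi : i0 < D.rows)
    (hj : j0 < D.cols)
    (hh : ∀ i < D.rows, ∀ j < D.cols, isX (D.tile i j) = true ↔ ¬ (i = i0 ∧ j = j0))
    {T : Tile} (hT : ∀ s s', (D.tile i0 j0).conn s = some s' → T.conn s = some s')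
    (hf : Fits tr v h M K i0 j0 T B) :
    (∀ e, InGrid D.rows D.cols e → ∀ e', D.exit e = some e' →
      g7 B.out (enc (fidx tr v h M K) (fsc tr v h) e) =
        enc (fidx tr v h M K) (fsc tr v h) e') ∧
    (∀ i < D.rows, ∀ j < D.cols, isX (D.tile i j) = true ↔ fidx tr v h M K i j ≠ B.hole) := by
  have h1 : ∀ i < D.rows, ∀ j < D.cols, fidx tr v h M K i j = B.hole ↔ (i = i0 ∧ j = j0) := by
    intro i hi' j hj'
    rw [hf.1]
    constructor
    · intro e; exact F.idx_inj _ hi' _ hj' _ hi _ hj e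
    · rintro ⟨rfl, rfl⟩; rfl
  have h2 : ∀ i < D.rows, ∀ j < D.cols, isX (D.tile i j) = true ↔
      fidx tr v h M K i j ≠ B.hole := by
    intro i hi' j hj'
    rw [hh i hi' j hj', ← h1 i hi' j hj']
  refine ⟨hout_of hMK hB F.idx_lt (fun i hi' j hj' => (h2 i hi' j hj').2) ?_, h2⟩
  intro i hi' j hj' hc s s' hs
  obtain ⟨rfl, rfl⟩ := (h1 i hi' j hj').1 hc
  exact hf.2 s s' (hT s s' hs)

theorem nine {D : Mosaic} (h9 : D.rows * D.cols = 9) {l : List CellSide} (H : Lab D l)
    {i0 j0 : ℕ} (hi : i0 < D.rows) (hj : j0 < D.cols)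
    (hh : ∀ i < D.rows, ∀ j < D.cols, isX (D.tile i j) = true ↔ ¬ (i = i0 ∧ j = j0)) :
    3 ≤ D.genus := by
  by_contra hg
  obtain ⟨T, hTm, hT⟩ := hole_tile (t := D.tile i0 j0) (by
    rw [hh i0 hi j0 hj]; simp)
  have hshape : (D.rows = 1 ∧ D.cols = 9) ∨ (D.rows = 9 ∧ D.cols = 1) ∨
      (D.rows = 3 ∧ D.cols = 3) := by
    have h1 : D.rows ≤ 9 := by
      have := D.cols_pos; nlinarith
    have h2 := D.rows_pos
    generalize D.rows = m at *
    generalize D.cols = n at *
    interval_cases m <;> omega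
  rcases hshape with ⟨hm, hn⟩ | ⟨hm, hn⟩ | ⟨hm, hn⟩
  · have hlim := lim_of_genus (N := 20) (by rw [hm, hn]) hg
    obtain ⟨v, h, hc⟩ := cover9 i0 (by omega) j0 (by omega) T hTm
    have F' : Frame D.rows D.cols 20 (fidx false v h 1 9) (fsc false v h)
        (fun b => fdec false v h 1 9 (g7 ent9 b.val)) nx9 ent9 := by
      rw [hm, hn]; exact (frame9 v h).frame
    rcases hc with ⟨B, hB, hf⟩ | ⟨B, hB, hf⟩
    · obtain ⟨f1, f2⟩ := fits_spec F' (by rw [h9]) (good9 B hB) hi hj hh hT hf
      have g1 := (good9 B hB).1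
      have := F'.dyn tab9 f1 hlim f2 (by rw [h9]; exact g1) (good9 B hB).2.1 H
      exact absurd (this.symm.trans (search9 B hB)) (by decide)
    · obtain ⟨f1, f2⟩ := fits_spec F' (by rw [h9]) (goodr B hB) hi hj hh hT hf
      exact row_false F' h9 hlim hB f1 f2 H
  · have hlim := lim_of_genus (N := 20) (by rw [hm, hn]) hg
    obtain ⟨v, h, hc⟩ := cover9t i0 (by omega) j0 (by omega) T hTm
    have F' : Frame D.rows D.cols 20 (fidx true v h 1 9) (fsc true v h)
        (fun b => fdec true v h 1 9 (g7 ent9 b.val)) nx9 ent9 := by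
      rw [hm, hn]; exact (frame9t v h).frame
    rcases hc with ⟨B, hB, hf⟩ | ⟨B, hB, hf⟩
    · obtain ⟨f1, f2⟩ := fits_spec F' (by rw [h9]) (good9 B hB) hi hj hh hT hf
      have g1 := (good9 B hB).1
      have := F'.dyn tab9 f1 hlim f2 (by rw [h9]; exact g1) (good9 B hB).2.1 H
      exact absurd (this.symm.trans (search9 B hB)) (by decide)
    · obtain ⟨f1, f2⟩ := fits_spec F' (by rw [h9]) (goodr B hB) hi hj hh hT hf
      exact row_false F' h9 hlim hB f1 f2 H
  · have hlim := lim_of_genus (N := 12) (by rw [hm, hn]) hg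
    obtain ⟨tr, v, h, B, hB, hf⟩ := cover33 i0 (by omega) j0 (by omega) T hTm
    have F' : Frame D.rows D.cols 12 (fidx tr v h 3 3) (fsc tr v h)
        (fun b => fdec tr v h 3 3 (g7 ent33 b.val)) nx33 ent33 := by
      rw [hm, hn]; exact (frame33 tr v h).frame
    obtain ⟨f1, f2⟩ := fits_spec F' (by rw [h9]) (good33 B hB) hi hj hh hT hf
    have g1 := (good33 B hB).1
    have := F'.dyn tab33 f1 hlim f2 (by rw [h9]; exact g1) (good33 B hB).2.1 H
    exact absurd (this.symm.trans (search33 B hB)) (by decide)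

/-! ### Eight tiles -/

theorem eight {D : Mosaic} (h8 : D.rows * D.cols = 8) {l : List CellSide} (H : Lab D l)
    (hh : ∀ i < D.rows, ∀ j < D.cols, isX (D.tile i j) = true) : False := by
  have key : ∀ {tr v h : Bool} {M K N R0 nx ent : ℕ} [NeZero N] {bs : Fin N → CellSide}
      (F : Frame D.rows D.cols N (fidx tr v h M K) (fsc tr v h) bs nx ent)
      (hMK : D.rows * D.cols = M * K) {B : Bd} (hB : GoodBd M K B) (h31 : B.hole = 31)
      (hT : TabOK (rot N) R0 ent)
      (hs : dfs R0 B.out nx ent B.start B.hole 100 24 B.start canonWords 0 0 R0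
        (List.range N) 0 = true), False := by
    intro tr v h M K N R0 nx ent _ bs F hMK B hB h31 hT hs
    have h2 : ∀ i < D.rows, ∀ j < D.cols, fidx tr v h M K i j ≠ B.hole := by
      intro i hi j hj
      have := F.idx_lt i hi j hj
      omega
    have hout := hout_of hMK hB F.idx_lt (fun i hi j hj _ => hh i hi j hj)
      (fun i hi j hj hc => absurd hc (h2 i hi j hj))
    have g1 := hB.1
    rw [← hMK] at g1
    have := F.dyn (lim := 100) hT hout (by have := hT.le; omega)
      (fun i hi j hj => ⟨fun _ => h2 i hi j hj, fun _ => hh i hi j hj⟩) g1 hB.2.1 H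
    exact absurd (this.symm.trans hs) (by decide)
  have hshape : (D.rows = 1 ∧ D.cols = 8) ∨ (D.rows = 8 ∧ D.cols = 1) ∨
      (D.rows = 2 ∧ D.cols = 4) ∨ (D.rows = 4 ∧ D.cols = 2) := by
    have h1 : D.rows ≤ 8 := by
      have := D.cols_pos; nlinarith
    have h2 := D.rows_pos
    generalize D.rows = m at *
    generalize D.cols = n at *
    interval_cases m <;> omega
  have m8 : (⟨31, (dyn8.headD ⟨0, 0, 0⟩).out, 3⟩ : Bd) ∈ dyn8 := by
    simp [dyn8]
  have m24 : (⟨31, (dyn24.headD ⟨0, 0, 0⟩).out, 3⟩ : Bd) ∈ dyn24 := by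
    simp [dyn24]
  rcases hshape with ⟨hm, hn⟩ | ⟨hm, hn⟩ | ⟨hm, hn⟩ | ⟨hm, hn⟩
  · exact key (by rw [hm, hn]; exact frame8.frame) (by rw [h8]) (good8 _ m8) rfl tab8
      (search8 _ m8)
  · exact key (by rw [hm, hn]; exact frame8t.frame) (by rw [h8]) (good8 _ m8) rfl tab8
      (search8 _ m8)
  · exact key (by rw [hm, hn]; exact frame24.frame) (by rw [h8]) (good24 _ m24) rfl tab24
      (search24 _ m24)
  · exact key (by rw [hm, hn]; exact frame24t.frame) (by rw [h8]) (good24 _ m24) rfl tab24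
      (search24 _ m24)

end Pool.Agent.MP_ea99c2_gt
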