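import Mathlib

/-!
# The number of cycles of a permutation, and gluing the edges of a polygon one pair at a time
-/

namespace Pool.Agent.MP_ea99c2_gt

open Equiv Equiv.Perm

/-! ### Numbers of classes -/

theorem card_quot_le {α : Type*} [Finite α] {r s : Setoid α} (h : r ≤ s) :
    Nat.card (Quotient s) ≤ Nat.card (Quotient r) := by
  refine Nat.card_le_card_of_surjective
    (Quotient.map' id fun a b hab => h hab : Quotient r → Quotient s) ?_
  intro q
  obtain ⟨a, rfl⟩ := Quotient.exists_rep q
  exact ⟨Quotient.mk r a, rfl⟩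

theorem card_quot_lt {α : Type*} [Finite α] {r s : Setoid α} (h : r ≤ s) {x y : α}
    (hs : s x y) (hr : ¬ r x y) : Nat.card (Quotient s) < Nat.card (Quotient r) := by
  rcases (card_quot_le h).lt_or_eq with h1 | h1
  · exact h1
  · exfalso
    set F : Quotient r → Quotient s := Quotient.map' id fun a b hab => h hab with hF
    have hsurj : Function.Surjective F := by
      intro q
      obtain ⟨a, rfl⟩ := Quotient.exists_rep q
      exact ⟨Quotient.mk r a, rfl⟩
    have hinj : Function.Injective F := by
      have := Function.Injective.comp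
        (Function.injective_surjInv hsurj) Function.injective_id
      exact (Function.Bijective.injective
        ((Nat.bijective_iff_surjective_and_card F).2 ⟨hsurj, h1.symm⟩))
    apply hr
    have : F (Quotient.mk r x) = F (Quotient.mk r y) := Quotient.sound hs
    exact Quotient.exact (hinj this)

/-- The equivalence relation generated by `r` and the pair `x`, `y`. -/
def joinSetoid {α : Type*} (r : Setoid α) (x y : α) : Setoid α where
  r a b := r a b ∨ (r a x ∧ r y b) ∨ (r a y ∧ r x b)
  iseqv := by
    have rr := fun a => r.refl' a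
    have rs := @r.symm' 
    have rt := @r.trans'
    refine ⟨fun a => Or.inl (rr a), ?_, ?_⟩
    · rintro a b (h | ⟨h1, h2⟩ | ⟨h1, h2⟩)
      · exact Or.inl (rs h)
      · exact Or.inr (Or.inr ⟨rs h2, rs h1⟩)
      · exact Or.inr (Or.inl ⟨rs h2, rs h1⟩)
    · rintro a b c (h | ⟨h1, h2⟩ | ⟨h1, h2⟩) (k | ⟨k1, k2⟩ | ⟨k1, k2⟩)
      · exact Or.inl (rt h k)
      · exact Or.inr (Or.inl ⟨rt h k1, k2⟩)
      · exact Or.inr (Or.inr ⟨rt h k1, k2⟩)
      · exact Or.inr (Or.inl ⟨h1, rt h2 k⟩)
      · exact Or.inl (rt h1 (rt (rs (rt h2 k1)) k2))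
      · exact Or.inl (rt h1 k2)
      · exact Or.inr (Or.inr ⟨h1, rt h2 k⟩)
      · exact Or.inl (rt h1 k2)
      · exact Or.inl (rt h1 (rt (rs (rt h2 k1)) k2))

theorem card_join {α : Type*} [Finite α] (r : Setoid α) (x y : α) :
    Nat.card (Quotient r) ≤ Nat.card (Quotient (joinSetoid r x y)) + 1 := by
  classical
  rw [← Finite.card_option]
  refine Nat.card_le_card_of_injective (fun q : Quotient r =>
    if q = Quotient.mk r y then (none : Option (Quotient (joinSetoid r x y)))
    else some (Quotient.map' id (fun a b hab => Or.inl hab) q)) ?_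
  intro p q hpq
  obtain ⟨a, rfl⟩ := Quotient.exists_rep p
  obtain ⟨b, rfl⟩ := Quotient.exists_rep q
  by_cases ha : Quotient.mk r a = Quotient.mk r y
  · by_cases hb : Quotient.mk r b = Quotient.mk r y
    · rw [ha, hb]
    · simp [ha, hb] at hpq
  · by_cases hb : Quotient.mk r b = Quotient.mk r y
    · simp [ha, hb] at hpq
    · simp only [ha, hb, if_false, Option.some.injEq] at hpq
      have h1 : joinSetoid r x y a b := Quotient.exact hpq
      rcases h1 with h | ⟨h1, h2⟩ | ⟨h1, h2⟩
      · exact Quotient.sound h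
      · exact absurd (Quotient.sound (r.symm' h2)) hb
      · exact absurd (Quotient.sound h1) ha

/-! ### Cycles of permutations -/

/-- The number of cycles (fixed points included). -/
noncomputable def ncyc {n : ℕ} (π : Perm (Fin n)) : ℕ := Nat.card (Quotient (SameCycle.setoid π))

variable {n : ℕ}

theorem sameCycle_mul_swap {π : Perm (Fin n)} {x y a b : Fin n}
    (h : SameCycle (π * swap x y) a b) : joinSetoid (SameCycle.setoid π) x y a b := by
  set J := joinSetoid (SameCycle.setoid π) x y with hJ
  have step : ∀ a, J a ((π * swap x y) a) := by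
    intro a
    have h1 : ∀ c, SameCycle π c (π c) := fun c => ⟨1, by simp⟩
    rw [Perm.mul_apply]
    by_cases hx : a = x
    · subst hx
      rw [swap_apply_left]
      exact Or.inr (Or.inl ⟨SameCycle.refl _ _, h1 y⟩)
    · by_cases hy : a = y
      · subst hy
        rw [swap_apply_right]
        exact Or.inr (Or.inr ⟨SameCycle.refl _ _, h1 x⟩)
      · rw [swap_apply_of_ne_of_ne hx hy]
        exact Or.inl (h1 a)
  have nat : ∀ (k : ℕ) a, J a (((π * swap x y) ^ k) a) := by
    intro k
    induction k with
    | zero => intro a; exact J.refl' a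
    | succ k ih =>
      intro a
      rw [pow_succ, Perm.mul_apply]
      exact J.trans' (step a) (ih _)
  obtain ⟨k, hk⟩ := h
  obtain ⟨k, rfl | rfl⟩ := k.eq_nat_or_neg
  · rw [zpow_natCast] at hk
    rw [← hk]; exact nat k a
  · rw [zpow_neg, zpow_natCast, Perm.inv_eq_iff_eq] at hk
    rw [hk]; exact J.symm' (nat k b)

theorem ncyc_mul_swap_le (π : Perm (Fin n)) (x y : Fin n) :
    ncyc (π * swap x y) ≤ ncyc π + 1 := by
  have h1 := card_join (SameCycle.setoid (π * swap x y)) x y
  have h2 : Nat.card (Quotient (joinSetoid (SameCycle.setoid (π * swap x y)) x y)) ≤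
      Nat.card (Quotient (SameCycle.setoid π)) := by
    refine card_quot_le fun a b hab => ?_
    have : SameCycle (π * swap x y * swap x y) a b := by
      rw [mul_assoc, swap_mul_self, mul_one]; exact hab
    exact sameCycle_mul_swap this
  exact h1.trans (Nat.add_le_add_right h2 1)

theorem sameCycle_of_not {π : Perm (Fin n)} {x y : Fin n} (h : ¬ SameCycle π x y) :
    SameCycle (π * swap x y) x y := by
  have hpos : ∃ m, 0 < m ∧ (π ^ m) y = y :=
    ⟨orderOf π, orderOf_pos π, by rw [pow_orderOf_eq_one]; rfl⟩
  classical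
  obtain ⟨hm0, hm⟩ := Nat.find_spec hpos
  set m := Nat.find hpos with hmdef
  have hmin : ∀ k, 0 < k → k < m → (π ^ k) y ≠ y := fun k h1 h2 h3 =>
    Nat.find_min hpos h2 ⟨h1, h3⟩
  have hx : ∀ k : ℕ, (π ^ k) y ≠ x := fun k hk => h (by
    have : SameCycle π y x := ⟨k, by rw [zpow_natCast]; exact hk⟩
    exact this.symm)
  have key : ∀ k, k < m → SameCycle (π * swap x y) x ((π ^ (k + 1)) y) := by
    intro k
    induction k with
    | zero =>
      intro _
      refine ⟨1, ?_⟩
      rw [zpow_one, Perm.mul_apply, swap_apply_left]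
      simp
    | succ k ih =>
      intro hk
      refine (ih (by omega)).trans ⟨1, ?_⟩
      rw [zpow_one, Perm.mul_apply, swap_apply_of_ne_of_ne (hx _) (hmin _ (by omega) hk),
        pow_succ' π (k + 1), Perm.mul_apply]
  have := key (m - 1) (by omega)
  rw [Nat.sub_add_cancel hm0, hm] at this
  exact this

theorem ncyc_mul_swap_lt {π : Perm (Fin n)} {x y : Fin n} (h : ¬ SameCycle π x y) :
    ncyc (π * swap x y) + 1 ≤ ncyc π := by
  have hs := sameCycle_of_not h
  refine card_quot_lt (r := SameCycle.setoid π) (s := SameCycle.setoid (π * swap x y)) ?_ hs h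
  intro a b hab
  have h1 : SameCycle (π * swap x y * swap x y) a b := by
    rw [mul_assoc, swap_mul_self, mul_one]; exact hab
  rcases sameCycle_mul_swap h1 with h2 | ⟨h2, h3⟩ | ⟨h2, h3⟩
  · exact h2
  · exact h2.trans (hs.trans h3)
  · exact h2.trans (hs.symm.trans h3)

/-! ### Partial gluings -/

/-- `π` is the permutation of a partial gluing of the polygon with rotation `σ`, part of the
gluing `τ`. -/
def Sub (σ τ π : Perm (Fin n)) : Prop := ∀ x, π x = σ x ∨ (π x = σ (τ x) ∧ π (τ x) = σ x)

/-- Twice the number of cycles plus the number of edges that are not yet glued. -/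
noncomputable def pot (σ π : Perm (Fin n)) : ℕ :=
  2 * ncyc π + (Finset.univ.filter fun x => π x = σ x).card

theorem Sub.mul_swap {σ τ π : Perm (Fin n)} (hτ : ∀ x, τ (τ x) = x) (h : Sub σ τ π)
    {x : Fin n} (hx : π x = σ x) (hx' : π (τ x) = σ (τ x)) : Sub σ τ (π * swap x (τ x)) := by
  intro z
  by_cases h1 : z = x
  · subst h1
    right
    rw [Perm.mul_apply, Perm.mul_apply, swap_apply_left, swap_apply_right]
    exact ⟨hx', hx⟩
  · by_cases h2 : z = τ x
    · subst h2
      right
      rw [hτ, Perm.mul_apply, Perm.mul_apply, swap_apply_left, swap_apply_right]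
      exact ⟨hx, hx'⟩
    · have h3 : τ z ≠ x := fun e => h2 (by rw [← e, hτ])
      have h4 : τ z ≠ τ x := fun e => h1 (τ.injective e)
      rw [Perm.mul_apply, Perm.mul_apply, swap_apply_of_ne_of_ne h1 h2,
        swap_apply_of_ne_of_ne h3 h4]
      exact h z

theorem free_card {σ τ π : Perm (Fin n)} (hn : ∀ x, τ x ≠ x)
    {x : Fin n} (hx : π x = σ x) (hx' : π (τ x) = σ (τ x)) :
    (Finset.univ.filter fun z => (π * swap x (τ x)) z = σ z).card + 2 =
      (Finset.univ.filter fun z => π z = σ z).card := by
  have : (Finset.univ.filter fun z => π z = σ z) =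
      insert x (insert (τ x) (Finset.univ.filter fun z => (π * swap x (τ x)) z = σ z)) := by
    ext z
    simp only [Finset.mem_filter, Finset.mem_univ, true_and, Finset.mem_insert]
    by_cases h1 : z = x
    · subst h1; simp [hx]
    · by_cases h2 : z = τ x
      · subst h2; simp [hx']
      · rw [Perm.mul_apply, swap_apply_of_ne_of_ne h1 h2]; simp [h1, h2]
  rw [this, Finset.card_insert_of_notMem, Finset.card_insert_of_notMem]
  · simp only [Finset.mem_filter, Finset.mem_univ, true_and, Perm.mul_apply, swap_apply_right]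
    intro h
    rw [hx] at h
    exact hn x (σ.injective h).symm
  · simp only [Finset.mem_filter, Finset.mem_univ, true_and, Finset.mem_insert, not_or,
      Perm.mul_apply, swap_apply_left]
    refine ⟨(hn x).symm, fun h => ?_⟩
    rw [hx'] at h
    exact hn x (σ.injective h)

theorem pot_mul_swap_le {σ τ π : Perm (Fin n)} (hn : ∀ x, τ x ≠ x)
    {x : Fin n} (hx : π x = σ x) (hx' : π (τ x) = σ (τ x)) :
    pot σ (π * swap x (τ x)) ≤ pot σ π := by
  have h1 := free_card hn hx hx'
  have h2 := ncyc_mul_swap_le π x (τ x)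
  unfold pot
  omega

theorem pot_mul_swap_lt {σ τ π : Perm (Fin n)} (hn : ∀ x, τ x ≠ x)
    {x : Fin n} (hx : π x = σ x) (hx' : π (τ x) = σ (τ x)) (hc : ¬ SameCycle π x (τ x)) :
    pot σ (π * swap x (τ x)) + 4 ≤ pot σ π := by
  have h1 := free_card hn hx hx'
  have h2 := ncyc_mul_swap_lt hc
  unfold pot
  omega

/-- Completing a partial gluing does not increase the potential. -/
theorem two_mul_ncyc_le {σ τ : Perm (Fin n)} (hτ : ∀ x, τ (τ x) = x) (hn : ∀ x, τ x ≠ x) :
    ∀ (k : ℕ) {π : Perm (Fin n)}, Sub σ τ π →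
      (Finset.univ.filter fun x => π x = σ x).card ≤ k → 2 * ncyc (σ * τ) ≤ pot σ π := by
  intro k
  induction k with
  | zero =>
    intro π hs hk
    have h0 : ∀ x, π x ≠ σ x := by
      intro x hx
      have : x ∈ (Finset.univ.filter fun x => π x = σ x) := by simp [hx]
      rw [Finset.card_eq_zero.1 (Nat.le_zero.1 hk)] at this
      simp at this
    have : π = σ * τ := by
      ext x
      rcases hs x with h | h
      · exact absurd h (h0 x)
      · rw [h.1]; rfl
    unfold pot
    rw [this]; omega
  | succ k ih =>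
    intro π hs hk
    by_cases h0 : ∃ x, π x = σ x
    · obtain ⟨x, hx⟩ := h0
      have hx' : π (τ x) = σ (τ x) := by
        rcases hs (τ x) with h | ⟨h1, h2⟩
        · exact h
        · rw [hτ] at h2
          rw [hx] at h2
          exact absurd (σ.injective h2).symm (hn x)
      have h1 := free_card hn hx hx'
      exact (ih (hs.mul_swap hτ hx hx') (by omega)).trans (pot_mul_swap_le hn hx hx')
    · have : π = σ * τ := by
        ext x
        rcases hs x with h | h
        · exact absurd ⟨x, h⟩ h0
        · rw [h.1]; rfl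
      unfold pot
      rw [this]; omega

end Pool.Agent.MP_ea99c2_gt
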