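import Pool.Agent.MP_ea99c2_gt.Lower

/-!
# A mosaic with nine tiles and a mosaic with ten tiles of the same virtual knot
-/

set_option linter.unusedVariables false

namespace Pool.Agent.MP_ea99c2_gt

open Finset

/-- The pairing given by a table. -/
def tabPair (tbl : List (CellSide × CellSide)) (e : CellSide) : CellSide :=
  ((tbl.find? fun p => decide (p.1 = e)).map Prod.snd).getD e

def pairs9 : List (CellSide × CellSide) := [
  ((0, 0, .south), (0, 6, .north)), ((0, 1, .south), (0, 7, .north)),
  ((0, 2, .south), (0, 8, .north)), ((0, 3, .south), (0, 0, .north)),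
  ((0, 4, .south), (0, 6, .south)), ((0, 5, .south), (0, 1, .north)),
  ((0, 6, .south), (0, 4, .south)), ((0, 7, .south), (0, 5, .north)),
  ((0, 8, .south), (0, 4, .north)), ((0, 8, .east), (0, 2, .north)),
  ((0, 8, .north), (0, 2, .south)), ((0, 7, .north), (0, 1, .south)),
  ((0, 6, .north), (0, 0, .south)), ((0, 5, .north), (0, 7, .south)),
  ((0, 4, .north), (0, 8, .south)), ((0, 3, .north), (0, 0, .west)),
  ((0, 2, .north), (0, 8, .east)), ((0, 1, .north), (0, 5, .south)),
  ((0, 0, .north), (0, 3, .south)), ((0, 0, .west), (0, 3, .north))]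

def trace9 : List CellSide := [
  (0, 0, .west), (0, 1, .west), (0, 2, .west), (0, 3, .west), (0, 4, .west), (0, 5, .west),
  (0, 1, .north), (0, 7, .north), (0, 5, .north), (0, 6, .west), (0, 7, .west), (0, 8, .west),
  (0, 2, .north), (0, 8, .north), (0, 4, .north), (0, 6, .south), (0, 0, .south), (0, 3, .south)]

def word9 : List Letter := [
  ⟨(0, 0), true, true⟩, ⟨(0, 1), true, false⟩, ⟨(0, 2), true, false⟩, ⟨(0, 3), true, true⟩,
  ⟨(0, 4), true, false⟩, ⟨(0, 1), false, false⟩, ⟨(0, 7), false, false⟩, ⟨(0, 6), true, true⟩,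
  ⟨(0, 7), true, false⟩, ⟨(0, 8), true, false⟩, ⟨(0, 2), false, false⟩, ⟨(0, 8), false, false⟩,
  ⟨(0, 4), false, false⟩, ⟨(0, 6), false, true⟩, ⟨(0, 0), false, true⟩, ⟨(0, 3), false, true⟩]

def pairs10 : List (CellSide × CellSide) := [
  ((1, 0, .south), (1, 4, .east)), ((1, 1, .south), (1, 0, .west)),
  ((1, 2, .south), (0, 4, .north)), ((1, 3, .south), (0, 2, .north)),
  ((1, 4, .south), (0, 0, .north)), ((1, 4, .east), (1, 0, .south)),
  ((0, 4, .east), (0, 1, .north)), ((0, 4, .north), (1, 2, .south)),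
  ((0, 3, .north), (0, 0, .west)), ((0, 2, .north), (1, 3, .south)),
  ((0, 1, .north), (0, 4, .east)), ((0, 0, .north), (1, 4, .south)),
  ((0, 0, .west), (0, 3, .north)), ((1, 0, .west), (1, 1, .south))]

def trace10 : List CellSide := [
  (0, 0, .west), (0, 1, .west), (0, 2, .west), (0, 3, .west), (0, 4, .west), (0, 1, .north),
  (1, 1, .north), (1, 0, .west), (1, 1, .west), (1, 2, .west), (1, 3, .west), (0, 2, .north),
  (1, 2, .north), (0, 4, .north), (1, 4, .north), (1, 0, .south), (0, 0, .south), (1, 4, .south),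
  (1, 3, .east), (0, 3, .south)]

def word10 : List Letter := [
  ⟨(0, 0), true, true⟩, ⟨(0, 1), true, false⟩, ⟨(0, 2), true, false⟩, ⟨(0, 3), true, true⟩,
  ⟨(0, 4), true, false⟩, ⟨(0, 1), false, false⟩, ⟨(1, 1), false, false⟩, ⟨(1, 0), true, true⟩,
  ⟨(1, 1), true, false⟩, ⟨(1, 2), true, false⟩, ⟨(0, 2), false, false⟩, ⟨(1, 2), false, false⟩,
  ⟨(0, 4), false, false⟩, ⟨(1, 0), false, true⟩, ⟨(0, 0), false, true⟩, ⟨(0, 3), false, true⟩]

/-- The conditions on a pairing. -/
def pairOK (m n : ℕ) (tbl : List (CellSide × CellSide)) (e : CellSide) : Bool :=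
  decide (OnBoundary m n (tabPair tbl e)) &&
    (decide (tabPair tbl (tabPair tbl e) = e) && decide (tabPair tbl e ≠ e))

theorem pairOK_iff {m n : ℕ} {tbl : List (CellSide × CellSide)} {e : CellSide} :
    pairOK m n tbl e = true ↔ OnBoundary m n (tabPair tbl e) ∧
      tabPair tbl (tabPair tbl e) = e ∧ tabPair tbl e ≠ e := by
  unfold pairOK
  simp only [Bool.and_eq_true, decide_eq_true_eq]

theorem pairs9_OK : ∀ i < 1, ∀ j < 9, ∀ s, OnBoundary 1 9 (i, j, s) →
    pairOK 1 9 pairs9 (i, j, s) = true := by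
  decide +kernel

theorem pairs10_OK : ∀ i < 2, ∀ j < 5, ∀ s, OnBoundary 2 5 (i, j, s) →
    pairOK 2 5 pairs10 (i, j, s) = true := by
  decide +kernel

theorem pair9_spec (e : CellSide) (h : OnBoundary 1 9 e) :
    OnBoundary 1 9 (tabPair pairs9 e) ∧ tabPair pairs9 (tabPair pairs9 e) = e ∧
      tabPair pairs9 e ≠ e :=
  pairOK_iff.1 (pairs9_OK e.1 h.1.1 e.2.1 h.1.2 e.2.2 h)

theorem pair10_spec (e : CellSide) (h : OnBoundary 2 5 e) :
    OnBoundary 2 5 (tabPair pairs10 e) ∧ tabPair pairs10 (tabPair pairs10 e) = e ∧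
      tabPair pairs10 e ≠ e :=
  pairOK_iff.1 (pairs10_OK e.1 h.1.1 e.2.1 h.1.2 e.2.2 h)

/-- The tiles of the mosaic with nine tiles. -/
def tile9 (_ j : ℕ) : Tile := if j = 5 then .t7 else .t9

/-- The tiles of the mosaic with ten tiles. -/
def tile10 (i j : ℕ) : Tile := if i = 1 ∧ 3 ≤ j then .t7 else .t9

theorem conn_isSome_of {t : Tile} (h : t = .t7 ∨ t = .t9) (s : Side) :
    (t.conn s).isSome = true := by
  rcases h with rfl | rfl <;> cases s <;> rfl

theorem tile9_cases (i j : ℕ) : tile9 i j = .t7 ∨ tile9 i j = .t9 := by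
  unfold tile9; split_ifs <;> simp

theorem tile10_cases (i j : ℕ) : tile10 i j = .t7 ∨ tile10 i j = .t9 := by
  unfold tile10; split_ifs <;> simp

/-- A mosaic with nine tiles. -/
def D9 : Mosaic where
  rows := 1
  cols := 9
  rows_pos := by decide
  cols_pos := by decide
  tile := tile9
  pair := tabPair pairs9
  pair_boundary := fun e h => (pair9_spec e h).1
  pair_pair := fun e h => (pair9_spec e h).2.1
  pair_ne := fun e h => (pair9_spec e h).2.2
  suitably_connected := fun e _ => by
    simp only [conn_isSome_of (tile9_cases _ _)]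

/-- A mosaic with ten tiles. -/
def D10 : Mosaic where
  rows := 2
  cols := 5
  rows_pos := by decide
  cols_pos := by decide
  tile := tile10
  pair := tabPair pairs10
  pair_boundary := fun e h => (pair10_spec e h).1
  pair_pair := fun e h => (pair10_spec e h).2.1
  pair_ne := fun e h => (pair10_spec e h).2.2
  suitably_connected := fun e _ => by
    simp only [conn_isSome_of (tile10_cases _ _)]

/-- Exactly one end of every arc is an entry of the trace. -/
def xorOK (D : Mosaic) (l : List CellSide) (e : CellSide) : Bool :=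
  match D.exit e with
  | none => true
  | some e' => (decide (e ∈ l)).xor (decide (e' ∈ l))

theorem xorOK_spec {D : Mosaic} {l : List CellSide} {e e' : CellSide}
    (h : xorOK D l e = true) (hee : D.exit e = some e') : Xor (e ∈ l) (e' ∈ l) := by
  unfold xorOK at h
  rw [hee] at h
  by_cases h1 : e ∈ l <;> by_cases h2 : e' ∈ l <;> simp [h1, h2, Xor] at h ⊢

theorem isTrace9 : D9.IsTrace trace9 := by
  refine ⟨by decide, by decide +kernel, ?_, ?_, ?_⟩
  · intro e he
    have : ∀ e ∈ trace9, InGrid 1 9 e := by decide +kernel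
    exact this e he
  · have : (trace9 ++ trace9.take 1).IsChain
        (fun e e' => decide (D9.next e = some e') = true) := by decide +kernel
    exact this.imp fun _ _ h => of_decide_eq_true h
  · have : ∀ i < 1, ∀ j < 9, ∀ s, xorOK D9 trace9 (i, j, s) = true := by decide +kernel
    rintro ⟨i, j, s⟩ he e' hee
    exact xorOK_spec (this i he.1 j he.2 s) hee

theorem isTrace10 : D10.IsTrace trace10 := by
  refine ⟨by decide, by decide +kernel, ?_, ?_, ?_⟩
  · intro e he
    have : ∀ e ∈ trace10, InGrid 2 5 e := by decide +kernel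
    exact this e he
  · have : (trace10 ++ trace10.take 1).IsChain
        (fun e e' => decide (D10.next e = some e') = true) := by decide +kernel
    exact this.imp fun _ _ h => of_decide_eq_true h
  · have : ∀ i < 2, ∀ j < 5, ∀ s, xorOK D10 trace10 (i, j, s) = true := by decide +kernel
    rintro ⟨i, j, s⟩ he e' hee
    exact xorOK_spec (this i he.1 j he.2 s) hee

theorem code9 : D9.code trace9 = word9 := by decide +kernel

theorem code10 : D10.code trace10 = word10 := by decide +kernel

/-- The Gauss code of the first mosaic. -/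
def gauss9 : GaussCode := ⟨word9, by decide +kernel⟩

/-- The Gauss code of the second mosaic. -/
def gauss10 : GaussCode := ⟨word10, by decide +kernel⟩

theorem move9 (o : Bool) : Move o word9 word10 := by
  have h := Move.rename (unoriented := o)
    (Equiv.swap (0, 8) (1, 2) * Equiv.swap (0, 7) (1, 1) * Equiv.swap (0, 6) (1, 0)) word9
  have e : word9.map (Letter.rename
      (Equiv.swap (0, 8) (1, 2) * Equiv.swap (0, 7) (1, 1) * Equiv.swap (0, 6) (1, 0))) =
      word10 := by decide +kernel
  rwa [e] at h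

theorem knot9_eq (o : Bool) : gauss10.knot o = gauss9.knot o :=
  (Quot.sound (move9 o) : gauss9.knot o = gauss10.knot o).symm

theorem rep9 (o : Bool) : D9.Represents (gauss9.knot o) :=
  ⟨trace9, isTrace9, gauss9, code9.symm, rfl⟩

theorem rep10 (o : Bool) : D10.Represents (gauss9.knot o) :=
  ⟨trace10, isTrace10, gauss10, code10.symm, knot9_eq o⟩

/-! ### The genus of the second mosaic -/

instance (D : Mosaic) : Finite D.Vertex := by
  refine Finite.of_injective (β := Fin (D.rows + 1) × Fin (D.cols + 1)) (fun v =>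
    (⟨v.1.1, ?_⟩, ⟨v.1.2, ?_⟩)) ?_
  · obtain ⟨v, ⟨i, j, s⟩, he, rfl⟩ := v
    have h1 : i < D.rows := he.1.1
    cases s <;> simp only [tail] <;> omega
  · obtain ⟨v, ⟨i, j, s⟩, he, rfl⟩ := v
    have h1 : j < D.cols := he.1.2
    cases s <;> simp only [tail] <;> omega
  · intro v w h
    simp only [Prod.mk.injEq, Fin.mk.injEq] at h
    exact Subtype.ext (Prod.ext h.1 h.2)

/-- The class of a vertex. -/
def cls (v : ℕ × ℕ) : Fin 4 :=
  if v ∈ [(0, 1), (2, 1), (1, 5), (2, 0), (2, 5)] then 0
  else if v ∈ [(2, 4), (0, 0), (0, 3)] then 1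
  else if v ∈ [(0, 4), (2, 2), (1, 0)] then 2 else 3

theorem vertex10 : 4 ≤ D10.vertexCount := by
  have h1 : ∀ i < 2, ∀ j < 5, ∀ s, OnBoundary 2 5 (i, j, s) →
      cls (tail (i, j, s)) = cls (head (tabPair pairs10 (i, j, s))) := by decide +kernel
  have h2 : ∀ c : Fin 4, ∃ i < 2, ∃ j < 5, ∃ s, OnBoundary 2 5 (i, j, s) ∧
      cls (tail (i, j, s)) = c := by decide +kernel
  have h3 : Nat.card (Fin 4) ≤ Nat.card (Quot D10.Glued) := by
    refine Nat.card_le_card_of_surjective
      (Quot.lift (fun v : D10.Vertex => cls v.1) ?_) ?_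
    · rintro v w ⟨⟨i, j, s⟩, he, h4, h5⟩
      rw [h4, h5]
      exact h1 i he.1.1 j he.1.2 s he
    · intro c
      obtain ⟨i, hi, j, hj, s, hs, hc⟩ := h2 c
      exact ⟨Quot.mk _ ⟨tail (i, j, s), (i, j, s), hs, rfl⟩, hc⟩
  simpa [Mosaic.vertexCount] using h3

theorem genus10 : D10.genus ≤ 2 := by
  have h1 := vertex10
  unfold Mosaic.genus
  change (1 + 2 + 5 - _) / 2 ≤ 2
  omega

/-! ### The bracket -/

/-- The crossings of the first mosaic, in the order of the vertices of the fixed graph. -/
def verts9 : Fin 8 → ℕ × ℕ :=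
  ![(0, 3), (0, 1), (0, 2), (0, 4), (0, 6), (0, 0), (0, 7), (0, 8)]

theorem bw9 : bw gmat (labels word9) ≠ 0 := by
  set w := labels word9 with hw
  have hev : evens w.toFinset (imat w) = ∅ := by
    have : ∀ v ∈ w, deg w.toFinset (imat w) v ≠ 0 := by decide +kernel
    unfold evens
    rw [filter_eq_empty_iff]
    intro v hv
    exact this v (List.mem_toFinset.1 hv)
  have hodd : odds w.toFinset (imat w) = w.toFinset := by
    have : ∀ v ∈ w, deg w.toFinset (imat w) v = 1 := by decide +kernel
    unfold odds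
    rw [filter_eq_self]
    intro v hv
    exact this v (List.mem_toFinset.1 hv)
  have hf : Function.Injective verts9 := by
    have : ∀ i j, verts9 i = verts9 j → i = j := by decide +kernel
    exact fun i j => this i j
  have hmem : ∀ v, v ∈ w ↔ ∃ i, verts9 i = v := by
    have h1 : ∀ v ∈ w, ∃ i, verts9 i = v := by decide +kernel
    have h2 : ∀ i, verts9 i ∈ w := by decide +kernel
    exact fun v => ⟨h1 v, by rintro ⟨i, rfl⟩; exact h2 i⟩
  have hmat : ∀ i j, j ≠ i → imat w (verts9 j) (verts9 i) = gmat i j := by decide +kernel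
  have hcard : w.toFinset.card = 8 := by decide +kernel
  have hgood : Good gmat w.toFinset (imat w) ∅ ∅ w.toFinset := by
    refine ⟨fun z hz _ v => hz v (by simp), verts9, hf, fun v => ?_, fun i => ?_⟩
    · rw [List.mem_toFinset, hmem]
    · refine ⟨fun v => if v = verts9 i then 1 else 0, fun v _ hv => if_neg hv, if_pos rfl,
        fun v hv => absurd hv (by simp), fun j hj => ?_⟩
      rw [mv_single (x := verts9 i) (by rw [List.mem_toFinset, hmem]; exact ⟨i, rfl⟩)
        (fun v hv => if_neg hv), if_pos rfl, mul_one]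
      exact hmat i j hj
  unfold bw bracket
  rw [hev, hodd, powerset_empty, sum_singleton, sum_eq_single w.toFinset, if_pos hgood]
  · decide
  · intro T hT hne
    rw [if_neg]
    intro g
    exact hne (eq_of_subset_of_card_le (mem_powerset.1 hT) (by rw [hcard, good_card g]))
  · intro h
    exact absurd (mem_powerset_self _) h

/-! ### The result -/

/-- The virtual knot. -/
def knotK (o : Bool) : VirtualKnot o := gauss9.knot o

theorem lower_bound {o : Bool} {D : Mosaic} (h : D.Represents (knotK o))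
    (h9 : D.rows * D.cols ≤ 9) : D.rows * D.cols = 9 ∧ 3 ≤ D.genus := by
  obtain ⟨l, hl, g, hg, hK⟩ := h
  have h1 : labels g.word = D.cw l := by
    rw [hg]
    exact Mosaic.map_label_letter l l
  have h2 := bw_eq_of_knot_eq gmat_twinFree hK
  have h3 := g.dbl
  rw [h1] at h2 h3
  refine lower hl h3 ?_ h9
  rw [h2]
  exact bw9

theorem tileNumber_knotK (o : Bool) : tileNumber (knotK o) = 9 := by
  have hmem : 9 ∈ {k | ∃ D : Mosaic, D.Represents (knotK o) ∧ k = D.rows * D.cols} :=
    ⟨D9, rep9 o, rfl⟩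
  unfold tileNumber
  apply le_antisymm
  · exact Nat.sInf_le hmem
  · refine le_csInf ⟨9, hmem⟩ ?_
    rintro k ⟨D, hD, rfl⟩
    by_contra hlt
    have := lower_bound hD (by omega)
    omega

theorem knotGenus_knotK (o : Bool) : knotGenus (knotK o) ≤ 2 := by
  have hmem : D10.genus ∈ {g | ∃ D : Mosaic, D.Represents (knotK o) ∧ g = D.genus} :=
    ⟨D10, rep10 o, rfl⟩
  unfold knotGenus
  exact (Nat.sInf_le hmem).trans genus10

theorem main (o : Bool) : ∃ K : VirtualKnot o,
    (∃ D : Mosaic, D.Represents K ∧ D.rows * D.cols = tileNumber K) ∧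
    ∀ D : Mosaic, D.Represents K → D.rows * D.cols = tileNumber K →
      knotGenus K < D.genus := by
  refine ⟨knotK o, ⟨D9, rep9 o, (tileNumber_knotK o).symm⟩, fun D hD h => ?_⟩
  rw [tileNumber_knotK] at h
  have h1 := (lower_bound hD (by omega)).2
  have h2 := knotGenus_knotK o
  omega

end Pool.Agent.MP_ea99c2_gt
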