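import Mathlib

/-!
# The parity bracket of a graph

For a finite graph given by a symmetric matrix over `ZMod 2`, we count (mod 2) the pairs `(S, T)`,
`S` a set of even vertices, `T` a set of odd vertices, such that eliminating all even vertices
(with loops at the vertices of `S`) leaves on `T` a fixed graph on eight vertices without twins.
-/

set_option linter.unusedSectionVars false

namespace Pool.Agent.MP_ea99c2_gt

open Finset

variable {α : Type*} [DecidableEq α]

/-- Row `v` of the matrix `A` times the vector `z`. -/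
def mv (X : Finset α) (A : α → α → ZMod 2) (z : α → ZMod 2) (v : α) : ZMod 2 :=
  ∑ u ∈ X, A v u * z u

def deg (X : Finset α) (A : α → α → ZMod 2) (v : α) : ZMod 2 := ∑ u ∈ X, A v u

def evens (X : Finset α) (A : α → α → ZMod 2) : Finset α := X.filter fun v => deg X A v = 0

def odds (X : Finset α) (A : α → α → ZMod 2) : Finset α := X.filter fun v => deg X A v = 1

/-- `z` solves the equations of the even vertices. -/
def Sol (X : Finset α) (A : α → α → ZMod 2) (E S : Finset α) (z : α → ZMod 2) : Prop :=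
  ∀ v ∈ E, mv X A z v = if v ∈ S then z v else 0

structure Good (a : Fin 8 → Fin 8 → ZMod 2) (X : Finset α) (A : α → α → ZMod 2)
    (E S T : Finset α) : Prop where
  nd : ∀ z : α → ZMod 2, (∀ v, v ∉ E → z v = 0) → Sol X A E S z → ∀ v, z v = 0
  ex : ∃ f : Fin 8 → α, Function.Injective f ∧ (∀ v, v ∈ T ↔ ∃ i, f i = v) ∧
    ∀ i, ∃ z : α → ZMod 2, (∀ v, v ∉ E → v ≠ f i → z v = 0) ∧ z (f i) = 1 ∧ Sol X A E S z ∧
      ∀ j, j ≠ i → mv X A z (f j) = a i j

open Classical in
/-- The parity bracket. -/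
noncomputable def bracket (a : Fin 8 → Fin 8 → ZMod 2) (X : Finset α) (A : α → α → ZMod 2) :
    ZMod 2 :=
  ∑ S ∈ (evens X A).powerset, ∑ T ∈ (odds X A).powerset,
    if Good a X A (evens X A) S T then 1 else 0

theorem mv_congr {X : Finset α} {A A' : α → α → ZMod 2} (h : ∀ u ∈ X, ∀ v ∈ X, A u v = A' u v)
    (z : α → ZMod 2) {v : α} (hv : v ∈ X) : mv X A z v = mv X A' z v := by
  unfold mv
  exact sum_congr rfl fun u hu => by rw [h v hv u hu]

theorem Sol.congr {X : Finset α} {A A' : α → α → ZMod 2} {E S : Finset α}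
    (h : ∀ u ∈ X, ∀ v ∈ X, A u v = A' u v) (hE : E ⊆ X) {z : α → ZMod 2}
    (hz : Sol X A E S z) : Sol X A' E S z := fun v hv => by
  rw [← mv_congr h z (hE hv)]; exact hz v hv

theorem Good.congr {a : Fin 8 → Fin 8 → ZMod 2} {X : Finset α} {A A' : α → α → ZMod 2}
    {E S T : Finset α} (h : ∀ u ∈ X, ∀ v ∈ X, A u v = A' u v) (hE : E ⊆ X) (hT : T ⊆ X)
    (hg : Good a X A E S T) : Good a X A' E S T := by
  have h' : ∀ u ∈ X, ∀ v ∈ X, A' u v = A u v := fun u hu v hv => (h u hu v hv).symm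
  refine ⟨fun z hz hs => hg.nd z hz (hs.congr h' hE), ?_⟩
  obtain ⟨f, hf, hfT, hzz⟩ := hg.ex
  refine ⟨f, hf, hfT, fun i => ?_⟩
  obtain ⟨z, h1, h2, h3, h4⟩ := hzz i
  refine ⟨z, h1, h2, h3.congr h hE, fun j hj => ?_⟩
  rw [← mv_congr h z (hT ((hfT _).2 ⟨j, rfl⟩))]
  exact h4 j hj

theorem deg_congr {X : Finset α} {A A' : α → α → ZMod 2} (h : ∀ u ∈ X, ∀ v ∈ X, A u v = A' u v)
    {v : α} (hv : v ∈ X) : deg X A v = deg X A' v := by
  unfold deg
  exact sum_congr rfl fun u hu => h v hv u hu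

theorem evens_congr {X : Finset α} {A A' : α → α → ZMod 2}
    (h : ∀ u ∈ X, ∀ v ∈ X, A u v = A' u v) : evens X A = evens X A' := by
  unfold evens
  exact filter_congr fun v hv => by rw [deg_congr h hv]

theorem odds_congr {X : Finset α} {A A' : α → α → ZMod 2}
    (h : ∀ u ∈ X, ∀ v ∈ X, A u v = A' u v) : odds X A = odds X A' := by
  unfold odds
  exact filter_congr fun v hv => by rw [deg_congr h hv]

theorem evens_subset (X : Finset α) (A : α → α → ZMod 2) : evens X A ⊆ X := filter_subset _ _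

theorem odds_subset (X : Finset α) (A : α → α → ZMod 2) : odds X A ⊆ X := filter_subset _ _

theorem bracket_congr {a : Fin 8 → Fin 8 → ZMod 2} {X : Finset α} {A A' : α → α → ZMod 2}
    (h : ∀ u ∈ X, ∀ v ∈ X, A u v = A' u v) : bracket a X A = bracket a X A' := by
  classical
  have h' : ∀ u ∈ X, ∀ v ∈ X, A' u v = A u v := fun u hu v hv => (h u hu v hv).symm
  unfold bracket
  rw [evens_congr h, odds_congr h]
  refine sum_congr rfl fun S _ => sum_congr rfl fun T hT => ?_
  have hE := evens_subset X A'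
  have hT' := (mem_powerset.1 hT).trans (odds_subset X A')
  have : Good a X A (evens X A') S T ↔ Good a X A' (evens X A') S T :=
    ⟨fun g => g.congr h hE hT', fun g => g.congr h' hE hT'⟩
  simp only [this]

/-! ### Relabelling -/

theorem mv_map {X : Finset α} {A A' : α → α → ZMod 2} (e : Equiv.Perm α)
    (h : ∀ u ∈ X, ∀ v ∈ X, A' (e u) (e v) = A u v) (z : α → ZMod 2) {v : α} (hv : v ∈ X) :
    mv (X.map e.toEmbedding) A' (z ∘ e.symm) (e v) = mv X A z v := by
  unfold mv
  rw [sum_map]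
  refine sum_congr rfl fun u hu => ?_
  simp [h v hv u hu]

theorem Sol.map {X : Finset α} {A A' : α → α → ZMod 2} {E S : Finset α} (e : Equiv.Perm α)
    (h : ∀ u ∈ X, ∀ v ∈ X, A' (e u) (e v) = A u v) (hE : E ⊆ X) {z : α → ZMod 2}
    (hz : Sol X A E S z) :
    Sol (X.map e.toEmbedding) A' (E.map e.toEmbedding) (S.map e.toEmbedding) (z ∘ e.symm) := by
  intro v hv
  obtain ⟨w, hw, rfl⟩ := mem_map.1 hv
  have := mv_map e h z (hE hw)
  simp only [Equiv.coe_toEmbedding] at *
  rw [this, hz w hw]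
  simp

theorem Good.map {a : Fin 8 → Fin 8 → ZMod 2} {X : Finset α} {A A' : α → α → ZMod 2}
    {E S T : Finset α} (e : Equiv.Perm α) (h : ∀ u ∈ X, ∀ v ∈ X, A' (e u) (e v) = A u v)
    (hE : E ⊆ X) (hT : T ⊆ X) (hg : Good a X A E S T) :
    Good a (X.map e.toEmbedding) A' (E.map e.toEmbedding) (S.map e.toEmbedding)
      (T.map e.toEmbedding) := by
  constructor
  · intro z hz hs v
    have key := hg.nd (z ∘ e) ?_ ?_ (e.symm v)
    · simpa using key
    · intro v hv
      apply hz
      intro hv'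
      obtain ⟨w, hw, hwv⟩ := mem_map.1 hv'
      exact hv (e.injective hwv ▸ hw)
    · intro v hv
      have h1 := hs (e v) (mem_map.2 ⟨v, hv, rfl⟩)
      have h2 := mv_map (A' := A') e h (z ∘ e) (hE hv)
      have h3 : (z ∘ e) ∘ e.symm = z := by ext; simp
      rw [h3] at h2
      rw [← h2, h1]
      simp
  · obtain ⟨f, hf, hfT, hzz⟩ := hg.ex
    refine ⟨e ∘ f, e.injective.comp hf, fun v => ?_, fun i => ?_⟩
    · constructor
      · intro hv
        obtain ⟨w, hw, rfl⟩ := mem_map.1 hv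
        obtain ⟨i, rfl⟩ := (hfT w).1 hw
        exact ⟨i, rfl⟩
      · rintro ⟨i, rfl⟩
        exact mem_map.2 ⟨f i, (hfT _).2 ⟨i, rfl⟩, rfl⟩
    · obtain ⟨z, h1, h2, h3, h4⟩ := hzz i
      refine ⟨z ∘ e.symm, fun v hv hvi => ?_, by simpa using h2, h3.map e h hE, fun j hj => ?_⟩
      · apply h1
        · intro hv'
          exact hv (mem_map.2 ⟨e.symm v, hv', by simp⟩)
        · intro h5
          apply hvi
          simp [← h5]
      · have := mv_map e h z (hT ((hfT _).2 ⟨j, rfl⟩))
        simp only [Function.comp] at *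
        rw [this, h4 j hj]

theorem deg_map {X : Finset α} {A A' : α → α → ZMod 2} (e : Equiv.Perm α)
    (h : ∀ u ∈ X, ∀ v ∈ X, A' (e u) (e v) = A u v) {v : α} (hv : v ∈ X) :
    deg (X.map e.toEmbedding) A' (e v) = deg X A v := by
  unfold deg
  rw [sum_map]
  exact sum_congr rfl fun u hu => h v hv u hu

theorem evens_map {X : Finset α} {A A' : α → α → ZMod 2} (e : Equiv.Perm α)
    (h : ∀ u ∈ X, ∀ v ∈ X, A' (e u) (e v) = A u v) :
    evens (X.map e.toEmbedding) A' = (evens X A).map e.toEmbedding := by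
  ext v
  simp only [evens, mem_filter, mem_map]
  constructor
  · rintro ⟨⟨w, hw, rfl⟩, h2⟩
    exact ⟨w, ⟨hw, by rw [← deg_map e h hw]; exact h2⟩, rfl⟩
  · rintro ⟨w, ⟨hw, h1⟩, rfl⟩
    exact ⟨⟨w, hw, rfl⟩, by rw [← h1]; exact deg_map e h hw⟩

theorem odds_map {X : Finset α} {A A' : α → α → ZMod 2} (e : Equiv.Perm α)
    (h : ∀ u ∈ X, ∀ v ∈ X, A' (e u) (e v) = A u v) :
    odds (X.map e.toEmbedding) A' = (odds X A).map e.toEmbedding := by
  ext v
  simp only [odds, mem_filter, mem_map]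
  constructor
  · rintro ⟨⟨w, hw, rfl⟩, h2⟩
    exact ⟨w, ⟨hw, by rw [← deg_map e h hw]; exact h2⟩, rfl⟩
  · rintro ⟨w, ⟨hw, h1⟩, rfl⟩
    exact ⟨⟨w, hw, rfl⟩, by rw [← h1]; exact deg_map e h hw⟩

theorem sum_powerset_map {β : Type*} [AddCommMonoid β] (e : Equiv.Perm α) (X : Finset α)
    (F : Finset α → β) :
    ∑ S ∈ (X.map e.toEmbedding).powerset, F S = ∑ S ∈ X.powerset, F (S.map e.toEmbedding) := by
  symm
  refine sum_bij (fun S _ => S.map e.toEmbedding) ?_ ?_ ?_ ?_
  · intro S hS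
    rw [mem_powerset] at *
    exact map_subset_map.2 hS
  · intro S _ T _ h
    exact map_injective _ h
  · intro S hS
    rw [mem_powerset] at hS
    refine ⟨S.map e.symm.toEmbedding, ?_, ?_⟩
    · rw [mem_powerset]
      intro v hv
      obtain ⟨w, hw, rfl⟩ := mem_map.1 hv
      obtain ⟨u, hu, rfl⟩ := mem_map.1 (hS hw)
      simpa using hu
    · ext v; simp
  · intro S _; rfl

theorem bracket_map {a : Fin 8 → Fin 8 → ZMod 2} {X : Finset α} {A A' : α → α → ZMod 2}
    (e : Equiv.Perm α) (h : ∀ u ∈ X, ∀ v ∈ X, A' (e u) (e v) = A u v) :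
    bracket a (X.map e.toEmbedding) A' = bracket a X A := by
  classical
  unfold bracket
  rw [evens_map e h, odds_map e h, sum_powerset_map]
  refine sum_congr rfl fun S _ => ?_
  rw [sum_powerset_map]
  refine sum_congr rfl fun T hT => ?_
  have hE := evens_subset X A
  have hT' := (mem_powerset.1 hT).trans (odds_subset X A)
  have key : Good a (X.map e.toEmbedding) A' ((evens X A).map e.toEmbedding)
      (S.map e.toEmbedding) (T.map e.toEmbedding) ↔ Good a X A (evens X A) S T := by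
    constructor
    · intro g
      have h' : ∀ u ∈ X.map e.toEmbedding, ∀ v ∈ X.map e.toEmbedding,
          A (e.symm u) (e.symm v) = A' u v := by
        intro u hu v hv
        obtain ⟨u', hu', rfl⟩ := mem_map.1 hu
        obtain ⟨v', hv', rfl⟩ := mem_map.1 hv
        simp [h u' hu' v' hv']
      have := g.map e.symm h' (map_subset_map.2 hE) (map_subset_map.2 hT')
      have hid : ∀ Y : Finset α, (Y.map e.toEmbedding).map e.symm.toEmbedding = Y := by
        intro Y; ext v; simp
      simpa only [hid] using this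
    · intro g
      exact g.map e h hE hT'
  simp only [key]

end Pool.Agent.MP_ea99c2_gt
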