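import Pool.Agent.MP_ea99c2_gt.Graph

/-!
# The parity bracket: adding an isolated vertex or a pair of twins
-/

set_option linter.unusedSectionVars false

namespace Pool.Agent.MP_ea99c2_gt

open Finset

variable {α : Type*} [DecidableEq α]

theorem zmod2_cases (x : ZMod 2) : x = 0 ∨ x = 1 := by
  revert x; decide

theorem mv_insert {X : Finset α} {x : α} (hx : x ∉ X) (A : α → α → ZMod 2) (z : α → ZMod 2)
    (v : α) : mv (insert x X) A z v = A v x * z x + mv X A z v := by
  unfold mv; rw [sum_insert hx]

theorem deg_insert {X : Finset α} {x : α} (hx : x ∉ X) (A : α → α → ZMod 2)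
    (v : α) : deg (insert x X) A v = A v x + deg X A v := by
  unfold deg; rw [sum_insert hx]

/-! ### Isolated vertex -/

section R1

variable {a : Fin 8 → Fin 8 → ZMod 2} {X : Finset α} {A : α → α → ZMod 2} {x : α}

theorem r1_good_iff (hx : x ∉ X) (h1 : ∀ v ∈ X, A x v = 0) (h2 : ∀ v ∈ X, A v x = 0)
    (h3 : A x x = 0) {E S T : Finset α} (hE : E ⊆ X) (hT : T ⊆ X) :
    Good a (insert x X) A (insert x E) (insert x S) T ↔ Good a X A E S T := by
  have hxE : x ∉ E := fun h => hx (hE h)
  have hxT : x ∉ T := fun h => hx (hT h)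
  have m1 : ∀ z : α → ZMod 2, ∀ v ∈ X, mv (insert x X) A z v = mv X A z v := by
    intro z v hv
    rw [mv_insert hx, h2 v hv]; ring
  have m2 : ∀ z : α → ZMod 2, mv (insert x X) A z x = 0 := by
    intro z
    rw [mv_insert hx, h3]
    unfold mv
    rw [sum_eq_zero fun u hu => by rw [h1 u hu]; ring]
    ring
  have s1 : ∀ z : α → ZMod 2, Sol (insert x X) A (insert x E) (insert x S) z ↔
      z x = 0 ∧ Sol X A E S z := by
    intro z
    constructor
    · intro h
      constructor
      · have := h x (mem_insert_self _ _)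
        rw [m2] at this
        simpa using this.symm
      · intro v hv
        have := h v (mem_insert_of_mem hv)
        have hvx : v ≠ x := fun h => hxE (h ▸ hv)
        rw [m1 z v (hE hv)] at this
        rw [this]
        simp [mem_insert, hvx]
    · rintro ⟨h0, h⟩ v hv
      rcases mem_insert.1 hv with rfl | hv'
      · rw [m2]; simp [h0]
      · have hvx : v ≠ x := fun h => hxE (h ▸ hv')
        rw [m1 z v (hE hv'), h v hv']
        simp [mem_insert, hvx]
  constructor
  · rintro ⟨nd, f, hf, hfT, hz⟩
    refine ⟨fun z h0 hs => ?_, f, hf, hfT, fun i => ?_⟩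
    · exact nd z (fun v hv => h0 v fun h => hv (mem_insert_of_mem h)) ((s1 z).2 ⟨h0 x hxE, hs⟩)
    · obtain ⟨z, z1, z2, z3, z4⟩ := hz i
      rw [s1] at z3
      refine ⟨z, fun v hv hvi => ?_, z2, z3.2, fun j hj => ?_⟩
      · by_cases hvx : v = x
        · rw [hvx]; exact z3.1
        · exact z1 v (fun h => (mem_insert.1 h).elim hvx hv) hvi
      · rw [← m1 z _ (hT ((hfT _).2 ⟨j, rfl⟩))]
        exact z4 j hj
  · rintro ⟨nd, f, hf, hfT, hz⟩
    refine ⟨fun z h0 hs => ?_, f, hf, hfT, fun i => ?_⟩
    · rw [s1] at hs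
      refine nd z (fun v hv => ?_) hs.2
      by_cases hvx : v = x
      · rw [hvx]; exact hs.1
      · exact h0 v fun h => (mem_insert.1 h).elim hvx hv
    · obtain ⟨z, z1, z2, z3, z4⟩ := hz i
      have hfi : x ≠ f i := fun h => hxT ((hfT x).2 ⟨i, h.symm⟩)
      refine ⟨z, fun v hv hvi => z1 v (fun h => hv (mem_insert_of_mem h)) hvi, z2,
        (s1 z).2 ⟨z1 x hxE hfi, z3⟩, fun j hj => ?_⟩
      rw [m1 z _ (hT ((hfT _).2 ⟨j, rfl⟩))]
      exact z4 j hj

theorem r1_not_good (hx : x ∉ X) (h2 : ∀ v ∈ X, A v x = 0)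
    (h3 : A x x = 0) {E S T : Finset α} (hE : E ⊆ X) (hS : x ∉ S) :
    ¬ Good a (insert x X) A (insert x E) S T := by
  intro g
  have := g.nd (fun v => if v = x then 1 else 0) ?_ ?_ x
  · simp at this
  · intro v hv
    have : v ≠ x := fun h => hv (h ▸ mem_insert_self _ _)
    simp [this]
  · intro v hv
    have h4 : mv (insert x X) A (fun v => if v = x then 1 else 0) v = A v x := by
      unfold mv
      simp
    rw [h4]
    rcases mem_insert.1 hv with rfl | hv'
    · simp [h3, hS]
    · rw [h2 v (hE hv')]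
      by_cases hvx : v = x
      · simp [hvx, hS]
      · simp [hvx]

theorem bracket_r1 (hx : x ∉ X) (h1 : ∀ v ∈ X, A x v = 0) (h2 : ∀ v ∈ X, A v x = 0)
    (h3 : A x x = 0) : bracket a (insert x X) A = bracket a X A := by
  classical
  have d1 : ∀ v ∈ X, deg (insert x X) A v = deg X A v := by
    intro v hv; rw [deg_insert hx, h2 v hv]; ring
  have d2 : deg (insert x X) A x = 0 := by
    rw [deg_insert hx, h3]
    unfold deg
    rw [sum_eq_zero fun u hu => h1 u hu]; ring
  have e1 : evens (insert x X) A = insert x (evens X A) := by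
    ext v
    simp only [evens, mem_filter, mem_insert]
    constructor
    · rintro ⟨rfl | hv, h⟩
      · exact Or.inl rfl
      · exact Or.inr ⟨hv, by rw [← d1 v hv]; exact h⟩
    · rintro (rfl | ⟨hv, h⟩)
      · exact ⟨Or.inl rfl, d2⟩
      · exact ⟨Or.inr hv, by rw [d1 v hv]; exact h⟩
  have o1 : odds (insert x X) A = odds X A := by
    ext v
    simp only [odds, mem_filter, mem_insert]
    constructor
    · rintro ⟨rfl | hv, h⟩
      · rw [d2] at h; exact absurd h (by decide)
      · exact ⟨hv, by rw [← d1 v hv]; exact h⟩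
    · rintro ⟨hv, h⟩
      exact ⟨Or.inr hv, by rw [d1 v hv]; exact h⟩
  have hxE : x ∉ evens X A := fun h => hx (evens_subset X A h)
  unfold bracket
  rw [e1, o1, sum_powerset_insert hxE]
  have z1 : (∑ S ∈ (evens X A).powerset, ∑ T ∈ (odds X A).powerset,
      if Good a (insert x X) A (insert x (evens X A)) S T then (1 : ZMod 2) else 0) = 0 := by
    refine sum_eq_zero fun S hS => sum_eq_zero fun T _ => ?_
    rw [if_neg]
    exact r1_not_good hx h2 h3 (evens_subset X A) fun h => hxE (mem_powerset.1 hS h)
  rw [z1, zero_add]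
  refine sum_congr rfl fun S hS => sum_congr rfl fun T hT => ?_
  have := r1_good_iff (a := a) (S := S) hx h1 h2 h3 (evens_subset X A)
    ((mem_powerset.1 hT).trans (odds_subset X A))
  simp only [this]

end R1

/-! ### Twins -/

section R2

variable {a : Fin 8 → Fin 8 → ZMod 2} {X : Finset α} {A : α → α → ZMod 2} {x y : α}

theorem map_swap_self {s : Finset α} (h : x ∈ s ↔ y ∈ s) :
    s.map (Equiv.swap x y).toEmbedding = s := by
  ext v
  rw [mem_map_equiv, Equiv.symm_swap]
  by_cases h1 : v = x
  · subst h1; rw [Equiv.swap_apply_left]; exact h.symm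
  · by_cases h2 : v = y
    · subst h2; rw [Equiv.swap_apply_right]; exact h
    · rw [Equiv.swap_apply_of_ne_of_ne h1 h2]

theorem map_swap_insert {s : Finset α} (hx : x ∉ s) (hy : y ∉ s) :
    (insert x s).map (Equiv.swap x y).toEmbedding = insert y s := by
  rw [map_insert, map_swap_self (by simp [hx, hy])]
  simp

/-- Twins can be exchanged. -/
theorem twin_swap (hs : ∀ u v, A u v = A v u) (hd : ∀ u, A u u = 0)
    (htw : ∀ v ∈ X, A x v = A y v) :
    ∀ u ∈ insert x (insert y X), ∀ v ∈ insert x (insert y X),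
      A (Equiv.swap x y u) (Equiv.swap x y v) = A u v := by
  intro u hu v hv
  rcases eq_or_ne x y with rfl | hxy
  · simp
  by_cases hux : u = x
  · subst hux
    by_cases hvx : v = u
    · subst hvx; simp [hd]
    · by_cases hvy : v = y
      · subst hvy; simp [hs]
      · have hvX : v ∈ X := by simpa [hvx, hvy] using hv
        rw [Equiv.swap_apply_left, Equiv.swap_apply_of_ne_of_ne hvx hvy, htw v hvX]
  · by_cases huy : u = y
    · subst huy
      by_cases hvx : v = x
      · subst hvx; simp [hs]
      · by_cases hvy : v = u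
        · subst hvy; simp [hd]
        · have hvX : v ∈ X := by simpa [hvx, hvy] using hv
          rw [Equiv.swap_apply_right, Equiv.swap_apply_of_ne_of_ne hvx hvy, htw v hvX]
    · have huX : u ∈ X := by simpa [hux, huy] using hu
      rw [Equiv.swap_apply_of_ne_of_ne hux huy]
      by_cases hvx : v = x
      · subst hvx
        rw [Equiv.swap_apply_left, hs, hs u, htw u huX]
      · by_cases hvy : v = y
        · subst hvy
          rw [Equiv.swap_apply_right, hs, hs u, htw u huX]
        · rw [Equiv.swap_apply_of_ne_of_ne hvx hvy]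

theorem good_swap (hs : ∀ u v, A u v = A v u) (hd : ∀ u, A u u = 0)
    (htw : ∀ v ∈ X, A x v = A y v) {E S T S' T' : Finset α}
    (hE : E ⊆ insert x (insert y X)) (hT : T ⊆ insert x (insert y X))
    (hxyE : x ∈ E ↔ y ∈ E)
    (hS' : S.map (Equiv.swap x y).toEmbedding = S')
    (hT' : T.map (Equiv.swap x y).toEmbedding = T')
    (g : Good a (insert x (insert y X)) A E S T) :
    Good a (insert x (insert y X)) A E S' T' := by
  have := g.map (Equiv.swap x y) (twin_swap hs hd htw) hE hT
  rw [map_swap_self hxyE, hS', hT',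
    map_swap_self (s := insert x (insert y X)) (by simp)] at this
  exact this

theorem good_swap_iff (hs : ∀ u v, A u v = A v u) (hd : ∀ u, A u u = 0)
    (htw : ∀ v ∈ X, A x v = A y v) {E S T S' T' : Finset α}
    (hE : E ⊆ insert x (insert y X)) (hT : T ⊆ insert x (insert y X))
    (hxyE : x ∈ E ↔ y ∈ E)
    (hS' : S.map (Equiv.swap x y).toEmbedding = S')
    (hT' : T.map (Equiv.swap x y).toEmbedding = T') :
    Good a (insert x (insert y X)) A E S T ↔ Good a (insert x (insert y X)) A E S' T' := by
  refine ⟨good_swap hs hd htw hE hT hxyE hS' hT', ?_⟩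
  have inv : ∀ s : Finset α, (s.map (Equiv.swap x y).toEmbedding).map
      (Equiv.swap x y).toEmbedding = s := by
    intro s; ext v; simp
  refine good_swap hs hd htw hE ?_ hxyE ?_ ?_
  · rw [← hT']
    intro v hv
    obtain ⟨w, hw, rfl⟩ := mem_map.1 hv
    have := hT hw
    have h2 : (insert x (insert y X)).map (Equiv.swap x y).toEmbedding =
      insert x (insert y X) := map_swap_self (by simp)
    rw [← h2]
    exact mem_map.2 ⟨w, this, rfl⟩
  · rw [← hS', inv]
  · rw [← hT', inv]

/-! #### both twins even -/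

theorem r2_mv (hxX : x ∉ X) (hyX : y ∉ X) (hxy : x ≠ y) (z : α → ZMod 2) (v : α) :
    mv (insert x (insert y X)) A z v = A v x * z x + (A v y * z y + mv X A z v) := by
  rw [mv_insert (by simp [hxX, hxy]), mv_insert hyX]

theorem r2_even_not (hs : ∀ u v, A u v = A v u) (hd : ∀ u, A u u = 0)
    (hxX : x ∉ X) (hyX : y ∉ X) (hxy : x ≠ y)
    (htw : ∀ v ∈ X, A x v = A y v) {E S T : Finset α} (hE : E ⊆ X)
    (h1 : x ∈ S ↔ A x y = 1) (h2 : y ∈ S ↔ A x y = 1) :
    ¬ Good a (insert x (insert y X)) A (insert x (insert y E)) S T := by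
  intro g
  have hyx : y ≠ x := fun h => hxy h.symm
  have := g.nd (fun v => if v = x ∨ v = y then 1 else 0) ?_ ?_ x
  · simp at this
  · intro v hv
    simp only [mem_insert, not_or] at hv
    simp [hv.1, hv.2.1]
  · intro v hv
    have m0 : mv X A (fun v => if v = x ∨ v = y then 1 else 0) v = 0 := by
      unfold mv
      refine sum_eq_zero fun u hu => ?_
      have hux : u ≠ x := fun h => hxX (h ▸ hu)
      have huy : u ≠ y := fun h => hyX (h ▸ hu)
      simp [hux, huy]
    rw [r2_mv hxX hyX hxy, m0]
    simp only [true_or, or_true, if_true, mul_one, add_zero]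
    rcases mem_insert.1 hv with rfl | hv'
    · rw [hd, zero_add]
      rcases zmod2_cases (A v y) with h | h
      · simp [h, h1]
      · simp [h, h1]
    · rcases mem_insert.1 hv' with rfl | hv''
      · rw [hd, add_zero, hs v x]
        rcases zmod2_cases (A x v) with h | h
        · simp [h, h2]
        · simp [h, h2]
      · have hvX := hE hv''
        have hvx : v ≠ x := fun h => hxX (h ▸ hvX)
        have hvy : v ≠ y := fun h => hyX (h ▸ hvX)
        rw [hs v x, hs v y, htw v hvX]
        simp only [hvx, hvy, or_self, if_false, ite_self]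
        exact CharTwo.add_self_eq_zero _

theorem r2_even_iff (hs : ∀ u v, A u v = A v u) (hd : ∀ u, A u u = 0)
    (hxX : x ∉ X) (hyX : y ∉ X) (hxy : x ≠ y)
    (htw : ∀ v ∈ X, A x v = A y v) {E S S' T : Finset α} (hE : E ⊆ X) (hT : T ⊆ X)
    (h1 : x ∈ S ↔ A x y = 0) (h2 : y ∈ S ↔ A x y = 0) (hSS' : ∀ v ∈ X, v ∈ S ↔ v ∈ S') :
    Good a (insert x (insert y X)) A (insert x (insert y E)) S T ↔ Good a X A E S' T := by
  have hyx : y ≠ x := fun h => hxy h.symm
  have hxE : x ∉ E := fun h => hxX (hE h)
  have hyE : y ∉ E := fun h => hyX (hE h)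
  have hxT : x ∉ T := fun h => hxX (hT h)
  have hyT : y ∉ T := fun h => hyX (hT h)
  have mtw : ∀ z : α → ZMod 2, mv X A z x = mv X A z y := by
    intro z; unfold mv
    exact sum_congr rfl fun u hu => by rw [htw u hu]
  -- the equations at `x` and `y`
  have key : ∀ z : α → ZMod 2, Sol (insert x (insert y X)) A (insert x (insert y E)) S z ↔
      (z x = mv X A z x ∧ z y = mv X A z x) ∧ Sol X A E S' z := by
    intro z
    have ex : (mv (insert x (insert y X)) A z x = if x ∈ S then z x else 0) ↔
        (A x y * z y + mv X A z x = if A x y = 0 then z x else 0) := by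
      rw [r2_mv hxX hyX hxy, hd]; simp [h1]
    have ey : (mv (insert x (insert y X)) A z y = if y ∈ S then z y else 0) ↔
        (A x y * z x + mv X A z x = if A x y = 0 then z y else 0) := by
      rw [r2_mv hxX hyX hxy, hd, hs y x, ← mtw]; simp [h2]
    have exy : ((mv (insert x (insert y X)) A z x = if x ∈ S then z x else 0) ∧
        (mv (insert x (insert y X)) A z y = if y ∈ S then z y else 0)) ↔
        (z x = mv X A z x ∧ z y = mv X A z x) := by
      rw [ex, ey]
      generalize A x y = t
      generalize z x = p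
      generalize z y = q
      generalize mv X A z x = r
      revert t p q r
      decide
    have ev : (z x = z y) → ∀ v ∈ E,
        ((mv (insert x (insert y X)) A z v = if v ∈ S then z v else 0) ↔
        (mv X A z v = if v ∈ S' then z v else 0)) := by
      intro hz v hv
      rw [r2_mv hxX hyX hxy, hs v x, hs v y, htw v (hE hv), hz, ← add_assoc,
        CharTwo.add_self_eq_zero, zero_add]
      simp only [hSS' v (hE hv)]
    constructor
    · intro h
      have hxy' := exy.1 ⟨h x (mem_insert_self _ _),
        h y (mem_insert_of_mem (mem_insert_self _ _))⟩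
      refine ⟨hxy', fun v hv => ?_⟩
      exact (ev (hxy'.1.trans hxy'.2.symm) v hv).1
        (h v (mem_insert_of_mem (mem_insert_of_mem hv)))
    · rintro ⟨hxy', h⟩ v hv
      rcases mem_insert.1 hv with rfl | hv'
      · exact (exy.2 hxy').1
      · rcases mem_insert.1 hv' with rfl | hv''
        · exact (exy.2 hxy').2
        · exact (ev (hxy'.1.trans hxy'.2.symm) v hv'').2 (h v hv'')
  have mout : ∀ z : α → ZMod 2, z x = z y → ∀ v ∈ X,
      mv (insert x (insert y X)) A z v = mv X A z v := by
    intro z hz v hv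
    rw [r2_mv hxX hyX hxy, hs v x, hs v y, htw v hv, hz, ← add_assoc,
        CharTwo.add_self_eq_zero, zero_add]
  -- extending a solution
  let up : (α → ZMod 2) → α → ZMod 2 := fun z v => if v = x ∨ v = y then mv X A z x else z v
  have upX : ∀ z : α → ZMod 2, ∀ v, v ≠ x → v ≠ y → up z v = z v := by
    intro z v h1 h2; simp [up, h1, h2]
  have upmv : ∀ z v, mv X A (up z) v = mv X A z v := by
    intro z v
    unfold mv
    refine sum_congr rfl fun u hu => ?_
    rw [upX z u (fun h => hxX (h ▸ hu)) (fun h => hyX (h ▸ hu))]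
  have upx : ∀ z, up z x = mv X A z x := by intro z; simp [up]
  have upy : ∀ z, up z y = mv X A z x := by intro z; simp [up]
  have upS : ∀ z, Sol X A E S' z → Sol (insert x (insert y X)) A (insert x (insert y E)) S
      (up z) := by
    intro z hz
    rw [key]
    refine ⟨⟨by rw [upmv, upx], by rw [upmv, upy]⟩, fun v hv => ?_⟩
    rw [upmv, hz v hv, upX z v (fun h => hxE (h ▸ hv)) (fun h => hyE (h ▸ hv))]
  -- restricting a solution
  let dn : (α → ZMod 2) → α → ZMod 2 := fun z v => if v = x ∨ v = y then 0 else z v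
  have dnX : ∀ z : α → ZMod 2, ∀ v, v ≠ x → v ≠ y → dn z v = z v := by
    intro z v h1 h2; simp [dn, h1, h2]
  have dnmv : ∀ z v, mv X A (dn z) v = mv X A z v := by
    intro z v
    unfold mv
    refine sum_congr rfl fun u hu => ?_
    rw [dnX z u (fun h => hxX (h ▸ hu)) (fun h => hyX (h ▸ hu))]
  have dnS : ∀ z, Sol (insert x (insert y X)) A (insert x (insert y E)) S z →
      Sol X A E S' (dn z) := by
    intro z hz v hv
    rw [dnmv, ((key z).1 hz).2 v hv, dnX z v (fun h => hxE (h ▸ hv)) (fun h => hyE (h ▸ hv))]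
  constructor
  · rintro ⟨nd, f, hf, hfT, hz⟩
    refine ⟨fun z h0 hs => ?_, f, hf, hfT, fun i => ?_⟩
    · have hx0 : z x = 0 := h0 x hxE
      have hy0 : z y = 0 := h0 y hyE
      have h4 := nd (up z) ?_ (upS z hs)
      · intro v
        by_cases hvx : v = x
        · rw [hvx, hx0]
        · by_cases hvy : v = y
          · rw [hvy, hy0]
          · rw [← upX z v hvx hvy]; exact h4 v
      · intro v hv
        simp only [mem_insert, not_or] at hv
        rw [upX z v hv.1 hv.2.1]
        exact h0 v hv.2.2
    · obtain ⟨z, z1, z2, z3, z4⟩ := hz i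
      have hfx : f i ≠ x := fun h => hxT ((hfT x).2 ⟨i, h⟩)
      have hfy : f i ≠ y := fun h => hyT ((hfT y).2 ⟨i, h⟩)
      refine ⟨dn z, fun v hv hvi => ?_, by rw [dnX z _ hfx hfy]; exact z2, dnS z z3,
        fun j hj => ?_⟩
      · by_cases hvx : v = x
        · simp [dn, hvx]
        · by_cases hvy : v = y
          · simp [dn, hvy]
          · rw [dnX z v hvx hvy]
            exact z1 v (by simp [hvx, hvy, hv]) hvi
      · rw [dnmv]
        have h5 := ((key z).1 z3).1
        rw [← mout z (h5.1.trans h5.2.symm) _ (hT ((hfT _).2 ⟨j, rfl⟩))]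
        exact z4 j hj
  · rintro ⟨nd, f, hf, hfT, hz⟩
    refine ⟨fun z h0 hs => ?_, f, hf, hfT, fun i => ?_⟩
    · have h4 := nd (dn z) ?_ (dnS z hs)
      · have hm : mv X A z x = 0 := by
          rw [← dnmv]
          unfold mv
          exact sum_eq_zero fun u _ => by rw [h4 u]; ring
        have h5 := ((key z).1 hs).1
        rw [hm] at h5
        intro v
        by_cases hvx : v = x
        · rw [hvx]; exact h5.1
        · by_cases hvy : v = y
          · rw [hvy]; exact h5.2
          · rw [← dnX z v hvx hvy]; exact h4 v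
      · intro v hv
        by_cases hvx : v = x
        · simp [dn, hvx]
        · by_cases hvy : v = y
          · simp [dn, hvy]
          · rw [dnX z v hvx hvy]
            exact h0 v (by simp [hvx, hvy, hv])
    · obtain ⟨z, z1, z2, z3, z4⟩ := hz i
      have hfx : f i ≠ x := fun h => hxT ((hfT x).2 ⟨i, h⟩)
      have hfy : f i ≠ y := fun h => hyT ((hfT y).2 ⟨i, h⟩)
      refine ⟨up z, fun v hv hvi => ?_, by rw [upX z _ hfx hfy]; exact z2, upS z z3,
        fun j hj => ?_⟩
      · simp only [mem_insert, not_or] at hv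
        rw [upX z v hv.1 hv.2.1]
        exact z1 v hv.2.2 hvi
      · rw [mout (up z) (by rw [upx, upy]) _ (hT ((hfT _).2 ⟨j, rfl⟩)), upmv]
        exact z4 j hj

/-! #### both twins odd -/

theorem r2_odd_iff (hxX : x ∉ X) (hyX : y ∉ X) (hxy : x ≠ y)
    {E S T : Finset α} (hE : E ⊆ X) (hT : T ⊆ X) :
    Good a (insert x (insert y X)) A E S T ↔ Good a X A E S T := by
  have hxE : x ∉ E := fun h => hxX (hE h)
  have hyE : y ∉ E := fun h => hyX (hE h)
  have hxT : x ∉ T := fun h => hxX (hT h)
  have hyT : y ∉ T := fun h => hyX (hT h)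
  have m1 : ∀ z : α → ZMod 2, z x = 0 → z y = 0 → ∀ v,
      mv (insert x (insert y X)) A z v = mv X A z v := by
    intro z h1 h2 v
    rw [r2_mv hxX hyX hxy, h1, h2]; ring
  constructor
  · rintro ⟨nd, f, hf, hfT, hz⟩
    refine ⟨fun z h0 hs => ?_, f, hf, hfT, fun i => ?_⟩
    · refine nd z h0 fun v hv => ?_
      rw [m1 z (h0 x hxE) (h0 y hyE)]
      exact hs v hv
    · obtain ⟨z, z1, z2, z3, z4⟩ := hz i
      have hx0 := z1 x hxE (fun h => hxT ((hfT x).2 ⟨i, h.symm⟩))
      have hy0 := z1 y hyE (fun h => hyT ((hfT y).2 ⟨i, h.symm⟩))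
      refine ⟨z, z1, z2, fun v hv => ?_, fun j hj => ?_⟩
      · rw [← m1 z hx0 hy0]; exact z3 v hv
      · rw [← m1 z hx0 hy0]; exact z4 j hj
  · rintro ⟨nd, f, hf, hfT, hz⟩
    refine ⟨fun z h0 hs => ?_, f, hf, hfT, fun i => ?_⟩
    · refine nd z h0 fun v hv => ?_
      rw [← m1 z (h0 x hxE) (h0 y hyE)]
      exact hs v hv
    · obtain ⟨z, z1, z2, z3, z4⟩ := hz i
      have hx0 := z1 x hxE (fun h => hxT ((hfT x).2 ⟨i, h.symm⟩))
      have hy0 := z1 y hyE (fun h => hyT ((hfT y).2 ⟨i, h.symm⟩))
      refine ⟨z, z1, z2, fun v hv => ?_, fun j hj => ?_⟩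
      · rw [m1 z hx0 hy0]; exact z3 v hv
      · rw [m1 z hx0 hy0]; exact z4 j hj

/-- The columns of `a` have no twins. -/
def TwinFree (a : Fin 8 → Fin 8 → ZMod 2) : Prop :=
  ∀ i j, i ≠ j → ∃ k, k ≠ i ∧ k ≠ j ∧ a k i ≠ a k j

theorem r2_odd_not (ha : TwinFree a) (hs : ∀ u v, A u v = A v u)
    (hxX : x ∉ X) (hyX : y ∉ X) (hxy : x ≠ y)
    (htw : ∀ v ∈ X, A x v = A y v) {E S T : Finset α} (hE : E ⊆ X)
    (hx : x ∈ T) (hy : y ∈ T) : ¬ Good a (insert x (insert y X)) A E S T := by
  rintro ⟨-, f, hf, hfT, hz⟩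
  obtain ⟨i, hi⟩ := (hfT x).1 hx
  obtain ⟨j, hj⟩ := (hfT y).1 hy
  have hij : i ≠ j := fun h => hxy (by rw [← hi, ← hj, h])
  obtain ⟨k, hki, hkj, hk⟩ := ha i j hij
  obtain ⟨z, z1, z2, z3, z4⟩ := hz k
  have hx0 := z1 x (fun h => hxX (hE h)) (fun h => hki (hf (by rw [← h, hi])))
  have hy0 := z1 y (fun h => hyX (hE h)) (fun h => hkj (hf (by rw [← h, hj])))
  apply hk
  rw [← z4 i hki.symm, ← z4 j hkj.symm, hi, hj, r2_mv hxX hyX hxy, r2_mv hxX hyX hxy, hx0, hy0]
  simp only [mul_zero, zero_add]
  unfold mv
  exact sum_congr rfl fun u hu => by rw [htw u hu]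

theorem bracket_r2 (ha : TwinFree a) (hs : ∀ u v, A u v = A v u) (hd : ∀ u, A u u = 0)
    (hxX : x ∉ X) (hyX : y ∉ X) (hxy : x ≠ y) (htw : ∀ v ∈ X, A x v = A y v) :
    bracket a (insert x (insert y X)) A = bracket a X A := by
  classical
  have hxyX : x ∉ insert y X := by simp [hxX, hxy]
  have d1 : ∀ v ∈ X, deg (insert x (insert y X)) A v = deg X A v := by
    intro v hv
    rw [deg_insert hxyX, deg_insert hyX, hs v x, hs v y, htw v hv, ← add_assoc,
        CharTwo.add_self_eq_zero, zero_add]
  have d2 : deg (insert x (insert y X)) A x = deg (insert x (insert y X)) A y := by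
    rw [deg_insert hxyX, deg_insert hyX, deg_insert hxyX, deg_insert hyX, hd, hd, hs y x]
    have : deg X A x = deg X A y := by
      unfold deg; exact sum_congr rfl fun u hu => htw u hu
    rw [this]; ring
  have hEX := evens_subset X A
  have hOX := odds_subset X A
  have hxE : x ∉ evens X A := fun h => hxX (hEX h)
  have hyE : y ∉ evens X A := fun h => hyX (hEX h)
  have hxO : x ∉ odds X A := fun h => hxX (hOX h)
  have hyO : y ∉ odds X A := fun h => hyX (hOX h)
  rcases zmod2_cases (deg (insert x (insert y X)) A x) with h0 | h0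
  · -- both even
    have e1 : evens (insert x (insert y X)) A = insert x (insert y (evens X A)) := by
      ext v
      simp only [evens, mem_filter, mem_insert]
      constructor
      · rintro ⟨rfl | rfl | hv, h⟩
        · exact Or.inl rfl
        · exact Or.inr (Or.inl rfl)
        · exact Or.inr (Or.inr ⟨hv, by rw [← d1 v hv]; exact h⟩)
      · rintro (rfl | rfl | ⟨hv, h⟩)
        · exact ⟨Or.inl rfl, h0⟩
        · exact ⟨Or.inr (Or.inl rfl), by rw [← d2]; exact h0⟩
        · exact ⟨Or.inr (Or.inr hv), by rw [d1 v hv]; exact h⟩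
    have o1 : odds (insert x (insert y X)) A = odds X A := by
      ext v
      simp only [odds, mem_filter, mem_insert]
      constructor
      · rintro ⟨rfl | rfl | hv, h⟩
        · rw [h0] at h; exact absurd h (by decide)
        · rw [← d2, h0] at h; exact absurd h (by decide)
        · exact ⟨hv, by rw [← d1 v hv]; exact h⟩
      · rintro ⟨hv, h⟩
        exact ⟨Or.inr (Or.inr hv), by rw [d1 v hv]; exact h⟩
    have hxyE : x ∉ insert y (evens X A) := by simp [hxE, hxy]
    unfold bracket
    rw [e1, o1, sum_powerset_insert hxyE, sum_powerset_insert hyE, sum_powerset_insert hyE,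
      ← sum_add_distrib, ← sum_add_distrib, ← sum_add_distrib]
    refine sum_congr rfl fun S hS => ?_
    rw [← sum_add_distrib, ← sum_add_distrib, ← sum_add_distrib]
    refine sum_congr rfl fun T hT => ?_
    have hSX := (mem_powerset.1 hS).trans hEX
    have hTX := (mem_powerset.1 hT).trans hOX
    have hxS : x ∉ S := fun h => hxX (hSX h)
    have hyS : y ∉ S := fun h => hyX (hSX h)
    have hxT : x ∉ T := fun h => hxX (hTX h)
    have hyT : y ∉ T := fun h => hyX (hTX h)
    have hyx : y ≠ x := fun h => hxy h.symm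
    have hE2 : insert x (insert y (evens X A)) ⊆ insert x (insert y X) :=
      insert_subset_insert _ (insert_subset_insert _ hEX)
    have hT2 : T ⊆ insert x (insert y X) :=
      hTX.trans ((subset_insert _ _).trans (subset_insert _ _))
    have sw : Good a (insert x (insert y X)) A (insert x (insert y (evens X A))) (insert x S) T ↔
        Good a (insert x (insert y X)) A (insert x (insert y (evens X A))) (insert y S) T :=
      good_swap_iff hs hd htw hE2 hT2 (by simp) (map_swap_insert hxS hyS)
        (map_swap_self (by simp [hxT, hyT]))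
    rcases zmod2_cases (A x y) with ht | ht
    · have n1 := r2_even_not (a := a) (S := S) (T := T) hs hd hxX hyX hxy htw hEX
        (by simp [hxS, ht]) (by simp [hyS, ht])
      have n2 := r2_even_iff (a := a) (S := insert x (insert y S)) (S' := S) hs hd hxX hyX hxy
        htw hEX hTX (by simp [ht]) (by simp [ht])
        (fun v hv => by
          have hvx : v ≠ x := fun h => hxX (h ▸ hv)
          have hvy : v ≠ y := fun h => hyX (h ▸ hv)
          simp [hvx, hvy])
      simp only [sw, n2, if_neg n1, zero_add]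
      rw [← add_assoc, CharTwo.add_self_eq_zero, zero_add]
    · have n1 := r2_even_not (a := a) (S := insert x (insert y S)) (T := T) hs hd hxX hyX hxy
        htw hEX (by simp [ht]) (by simp [ht])
      have n2 := r2_even_iff (a := a) (S := S) (S' := S) hs hd hxX hyX hxy
        htw hEX hTX (by simp [hxS, ht]) (by simp [hyS, ht]) (fun v hv => Iff.rfl)
      simp only [sw, n2, if_neg n1, add_zero]
      rw [add_assoc, CharTwo.add_self_eq_zero, add_zero]
  · -- both odd
    have o1 : odds (insert x (insert y X)) A = insert x (insert y (odds X A)) := by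
      ext v
      simp only [odds, mem_filter, mem_insert]
      constructor
      · rintro ⟨rfl | rfl | hv, h⟩
        · exact Or.inl rfl
        · exact Or.inr (Or.inl rfl)
        · exact Or.inr (Or.inr ⟨hv, by rw [← d1 v hv]; exact h⟩)
      · rintro (rfl | rfl | ⟨hv, h⟩)
        · exact ⟨Or.inl rfl, h0⟩
        · exact ⟨Or.inr (Or.inl rfl), by rw [← d2]; exact h0⟩
        · exact ⟨Or.inr (Or.inr hv), by rw [d1 v hv]; exact h⟩
    have e1 : evens (insert x (insert y X)) A = evens X A := by
      ext v
      simp only [evens, mem_filter, mem_insert]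
      constructor
      · rintro ⟨rfl | rfl | hv, h⟩
        · rw [h0] at h; exact absurd h (by decide)
        · rw [← d2, h0] at h; exact absurd h (by decide)
        · exact ⟨hv, by rw [← d1 v hv]; exact h⟩
      · rintro ⟨hv, h⟩
        exact ⟨Or.inr (Or.inr hv), by rw [d1 v hv]; exact h⟩
    have hxyO : x ∉ insert y (odds X A) := by simp [hxO, hxy]
    unfold bracket
    rw [e1, o1]
    refine sum_congr rfl fun S hS => ?_
    rw [sum_powerset_insert hxyO, sum_powerset_insert hyO, sum_powerset_insert hyO,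
      ← sum_add_distrib, ← sum_add_distrib, ← sum_add_distrib]
    refine sum_congr rfl fun T hT => ?_
    have hSX := (mem_powerset.1 hS).trans hEX
    have hTX := (mem_powerset.1 hT).trans hOX
    have hxS : x ∉ S := fun h => hxX (hSX h)
    have hyS : y ∉ S := fun h => hyX (hSX h)
    have hxT : x ∉ T := fun h => hxX (hTX h)
    have hyT : y ∉ T := fun h => hyX (hTX h)
    have hE2 : evens X A ⊆ insert x (insert y X) :=
      hEX.trans ((subset_insert _ _).trans (subset_insert _ _))
    have hT2 : insert x T ⊆ insert x (insert y X) :=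
      insert_subset_insert _ (hTX.trans (subset_insert _ _))
    have sw : Good a (insert x (insert y X)) A (evens X A) S (insert x T) ↔
        Good a (insert x (insert y X)) A (evens X A) S (insert y T) :=
      good_swap_iff hs hd htw hE2 hT2 (by simp [hxE, hyE]) (map_swap_self (by simp [hxS, hyS]))
        (map_swap_insert hxT hyT)
    have n1 := r2_odd_not (a := a) (S := S) (T := insert x (insert y T)) ha hs hxX hyX hxy htw
      hEX (by simp) (by simp)
    have n2 := r2_odd_iff (a := a) (A := A) (S := S) hxX hyX hxy hEX hTX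
    simp only [sw, n2, if_neg n1, add_zero]
    rw [add_assoc, CharTwo.add_self_eq_zero, add_zero]

end R2

end Pool.Agent.MP_ea99c2_gt
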