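import Pool.Agent.MP_ea99c2_gt.GraphR12

/-!
# The parity bracket: the third move
-/

set_option linter.unusedSectionVars false
set_option linter.unusedVariables false

namespace Pool.Agent.MP_ea99c2_gt

open Finset

variable {α : Type*} [DecidableEq α]

/-- `A` and `B` are related by the third move at the triangle `x`, `y`, `w` (if `ε = 1`; for
`ε = 0` they are equal). -/
structure R3Rel (ε : ZMod 2) (X : Finset α) (x y w : α) (A B : α → α → ZMod 2) : Prop where
  hx : x ∉ X
  hy : y ∉ X
  hw : w ∉ X
  hxy : x ≠ y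
  hxw : x ≠ w
  hyw : y ≠ w
  sA : ∀ u v, A u v = A v u
  dA : ∀ u, A u u = 0
  sB : ∀ u v, B u v = B v u
  dB : ∀ u, B u u = 0
  sum : ∀ v ∈ X, A v x + A v y + A v w = 0
  xy : B x y = A x y + ε
  xw : B x w = A x w + ε
  yw : B y w = A y w + ε
  off : ∀ v ∈ X, ∀ u, B v u = A v u

variable {a : Fin 8 → Fin 8 → ZMod 2} {X : Finset α} {A B : α → α → ZMod 2} {x y w : α}
  {ε : ZMod 2}

theorem add_eps_cancel (t e : ZMod 2) : t = t + e + e := by
  revert t e; decide

theorem R3Rel.symm (h : R3Rel ε X x y w A B) : R3Rel ε X x y w B A where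
  hx := h.hx
  hy := h.hy
  hw := h.hw
  hxy := h.hxy
  hxw := h.hxw
  hyw := h.hyw
  sA := h.sB
  dA := h.dB
  sB := h.sA
  dB := h.dA
  sum v hv := by rw [h.off v hv, h.off v hv, h.off v hv]; exact h.sum v hv
  xy := by rw [h.xy]; exact add_eps_cancel _ _
  xw := by rw [h.xw]; exact add_eps_cancel _ _
  yw := by rw [h.yw]; exact add_eps_cancel _ _
  off v hv u := (h.off v hv u).symm

theorem R3Rel.swap (h : R3Rel ε X x y w A B) : R3Rel ε X y x w A B where
  hx := h.hy
  hy := h.hx
  hw := h.hw
  hxy := h.hxy.symm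
  hxw := h.hyw
  hyw := h.hxw
  sA := h.sA
  dA := h.dA
  sB := h.sB
  dB := h.dB
  sum v hv := by rw [← h.sum v hv]; ring
  xy := by rw [h.sB, h.sA y, h.xy]
  xw := h.yw
  yw := h.xw
  off := h.off

theorem R3Rel.swap' (h : R3Rel ε X x y w A B) : R3Rel ε X x w y A B where
  hx := h.hx
  hy := h.hw
  hw := h.hy
  hxy := h.hxw
  hxw := h.hxy
  hyw := h.hyw.symm
  sA := h.sA
  dA := h.dA
  sB := h.sB
  dB := h.dB
  sum v hv := by rw [← h.sum v hv]; ring
  xy := h.xw
  xw := h.xy
  yw := by rw [h.sB, h.sA w, h.yw]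
  off := h.off

theorem R3Rel.rfl' (h : R3Rel ε X x y w A B) : R3Rel 0 X x y w A A where
  hx := h.hx
  hy := h.hy
  hw := h.hw
  hxy := h.hxy
  hxw := h.hxw
  hyw := h.hyw
  sA := h.sA
  dA := h.dA
  sB := h.sA
  dB := h.dA
  sum := h.sum
  xy := by ring
  xw := by ring
  yw := by ring
  off _ _ _ := rfl

theorem r3_mv (hx : x ∉ X) (hy : y ∉ X) (hw : w ∉ X) (hxy : x ≠ y) (hxw : x ≠ w) (hyw : y ≠ w)
    (A : α → α → ZMod 2) (z : α → ZMod 2) (v : α) :
    mv (insert x (insert y (insert w X))) A z v =
      A v x * z x + (A v y * z y + (A v w * z w + mv X A z v)) := by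
  rw [mv_insert (by simp [hx, hxy, hxw]), mv_insert (by simp [hy, hyw]), mv_insert hw]

theorem R3Rel.mvA (h : R3Rel ε X x y w A B) (z : α → ZMod 2) (v : α) :
    mv (insert x (insert y (insert w X))) A z v =
      A v x * z x + (A v y * z y + (A v w * z w + mv X A z v)) :=
  r3_mv h.hx h.hy h.hw h.hxy h.hxw h.hyw A z v

/-- The sum of the three rows vanishes outside of the triangle. -/
theorem R3Rel.mv_sum (h : R3Rel ε X x y w A B) (z : α → ZMod 2) :
    mv X A z x + mv X A z y + mv X A z w = 0 := by
  unfold mv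
  rw [← sum_add_distrib, ← sum_add_distrib]
  refine sum_eq_zero fun u hu => ?_
  rw [← add_mul, ← add_mul, h.sA x, h.sA y, h.sA w, h.sum u hu, zero_mul]

theorem R3Rel.mv_eq (h : R3Rel ε X x y w A B) (z : α → ZMod 2) (v : α)
    (hv : v ∈ X ∨ v = x ∨ v = y ∨ v = w) : mv X B z v = mv X A z v := by
  unfold mv
  refine sum_congr rfl fun u hu => ?_
  rw [h.sB, h.sA, h.off u hu]

theorem R3Rel.ne (h : R3Rel ε X x y w A B) {v : α} (hv : v ∈ X) : v ≠ x ∧ v ≠ y ∧ v ≠ w :=
  ⟨fun e => h.hx (e ▸ hv), fun e => h.hy (e ▸ hv), fun e => h.hw (e ▸ hv)⟩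

/-- The change of solutions. -/
def tr (x y w : α) (m : ZMod 2) (z : α → ZMod 2) (v : α) : ZMod 2 :=
  if v = x ∨ v = y ∨ v = w then z v + m else z v

theorem tr_x (m : ZMod 2) (z : α → ZMod 2) : tr x y w m z x = z x + m := by simp [tr]

theorem tr_y (m : ZMod 2) (z : α → ZMod 2) : tr x y w m z y = z y + m := by simp [tr]

theorem tr_w (m : ZMod 2) (z : α → ZMod 2) : tr x y w m z w = z w + m := by simp [tr]

theorem tr_off (m : ZMod 2) (z : α → ZMod 2) {v : α} (h1 : v ≠ x) (h2 : v ≠ y) (h3 : v ≠ w) :
    tr x y w m z v = z v := by simp [tr, h1, h2, h3]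

theorem R3Rel.mv_tr (h : R3Rel ε X x y w A B) (m : ZMod 2) (z : α → ZMod 2) (v : α) :
    mv X A (tr x y w m z) v = mv X A z v := by
  unfold mv
  refine sum_congr rfl fun u hu => ?_
  rw [tr_off m z (h.ne hu).1 (h.ne hu).2.1 (h.ne hu).2.2]

/-- Outside of the triangle the products do not change. -/
theorem R3Rel.mv_off (h : R3Rel ε X x y w A B) (m : ZMod 2) (z : α → ZMod 2) {v : α}
    (hv : v ∈ X) :
    mv (insert x (insert y (insert w X))) B (tr x y w m z) v =
      mv (insert x (insert y (insert w X))) A z v := by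
  rw [h.mvA, h.symm.mvA, h.mv_eq _ v (Or.inl hv), h.mv_tr, tr_x, tr_y, tr_w, h.off v hv,
    h.off v hv, h.off v hv]
  have := h.sum v hv
  revert this
  generalize A v x = p
  generalize A v y = q
  generalize A v w = r
  generalize mv X A z v = t
  generalize z x = zx
  generalize z y = zy
  generalize z w = zw
  intro h0
  have : r = p + q := by
    revert p q r; decide
  subst this
  clear h0
  revert m p q t zx zy zw
  decide

/-! ### All three vertices even -/

/-- The equations at the three vertices of the triangle. -/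
def Eqs (α β γ sx sy sw zx zy zw mx my mw : ZMod 2) : Prop :=
  α * zy + β * zw + mx = sx * zx ∧ α * zx + γ * zw + my = sy * zy ∧
    β * zx + γ * zy + mw = sw * zw

instance (α β γ sx sy sw zx zy zw mx my mw : ZMod 2) :
    Decidable (Eqs α β γ sx sy sw zx zy zw mx my mw) := by
  unfold Eqs; infer_instance

/-- A transition between choices of loops. -/
def Trans (p q r p' q' r' : ZMod 2) (m : ZMod 2 → ZMod 2 → ZMod 2 → ZMod 2) : Prop :=
  ∀ α β γ zx zy zw mx my : ZMod 2,
    Eqs α β γ (p + α + β) (q + α + γ) (r + β + γ) zx zy zw mx my (mx + my) →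
    Eqs (α + 1) (β + 1) (γ + 1) (p' + α + β) (q' + α + γ) (r' + β + γ)
      (zx + m zx zy zw) (zy + m zx zy zw) (zw + m zx zy zw) mx my (mx + my)

instance (p q r p' q' r' : ZMod 2) (m : ZMod 2 → ZMod 2 → ZMod 2 → ZMod 2) :
    Decidable (Trans p q r p' q' r' m) := by
  unfold Trans; infer_instance

theorem R3Rel.eqsA (h : R3Rel ε X x y w A B) {E S : Finset α}
    (z : α → ZMod 2) (hs : Sol (insert x (insert y (insert w X))) A
      (insert x (insert y (insert w E))) S z) :
    Eqs (A x y) (A x w) (A y w) (if x ∈ S then 1 else 0) (if y ∈ S then 1 else 0)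
      (if w ∈ S then 1 else 0) (z x) (z y) (z w) (mv X A z x) (mv X A z y) (mv X A z w) := by
  have e1 := hs x (by simp)
  have e2 := hs y (by simp)
  have e3 := hs w (by simp)
  rw [h.mvA, h.dA, zero_mul, zero_add] at e1
  rw [h.mvA, h.dA, zero_mul, zero_add, h.sA y x] at e2
  rw [h.mvA, h.dA, zero_mul, zero_add, h.sA w x, h.sA w y] at e3
  refine ⟨?_, ?_, ?_⟩
  · rw [add_assoc, e1]; split_ifs <;> simp
  · rw [add_assoc, e2]; split_ifs <;> simp
  · rw [add_assoc, e3]; split_ifs <;> simp

theorem R3Rel.solA (h : R3Rel ε X x y w A B) {E S : Finset α}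
    (z : α → ZMod 2)
    (he : Eqs (A x y) (A x w) (A y w) (if x ∈ S then 1 else 0) (if y ∈ S then 1 else 0)
      (if w ∈ S then 1 else 0) (z x) (z y) (z w) (mv X A z x) (mv X A z y) (mv X A z w))
    (hE : ∀ v ∈ E, mv (insert x (insert y (insert w X))) A z v = if v ∈ S then z v else 0) :
    Sol (insert x (insert y (insert w X))) A (insert x (insert y (insert w E))) S z := by
  obtain ⟨e1, e2, e3⟩ := he
  intro v hv
  rcases mem_insert.1 hv with rfl | hv
  · rw [h.mvA, h.dA, zero_mul, zero_add, ← add_assoc, e1]; split_ifs <;> simp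
  rcases mem_insert.1 hv with rfl | hv
  · rw [h.mvA, h.dA, zero_mul, zero_add, h.sA v x, ← add_assoc, e2]; split_ifs <;> simp
  rcases mem_insert.1 hv with rfl | hv
  · rw [h.mvA, h.dA, zero_mul, zero_add, h.sA v x, h.sA v y, ← add_assoc, e3]
    split_ifs <;> simp
  exact hE v hv

theorem eq_add_of_sum {p q r : ZMod 2} (h : p + q + r = 0) : r = p + q := by
  revert p q r; decide

/-- Transport of solutions when all three vertices are even. -/
theorem R3Rel.sol_even (h : R3Rel 1 X x y w A B) {p q r p' q' r' : ZMod 2}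
    {m : ZMod 2 → ZMod 2 → ZMod 2 → ZMod 2} (ht : Trans p q r p' q' r' m)
    {E S S' : Finset α} (hE : E ⊆ X) (hSS : ∀ v ∈ E, v ∈ S ↔ v ∈ S')
    (hSx : (if x ∈ S then (1 : ZMod 2) else 0) = p + A x y + A x w)
    (hSy : (if y ∈ S then (1 : ZMod 2) else 0) = q + A x y + A y w)
    (hSw : (if w ∈ S then (1 : ZMod 2) else 0) = r + A x w + A y w)
    (hSx' : (if x ∈ S' then (1 : ZMod 2) else 0) = p' + A x y + A x w)
    (hSy' : (if y ∈ S' then (1 : ZMod 2) else 0) = q' + A x y + A y w)
    (hSw' : (if w ∈ S' then (1 : ZMod 2) else 0) = r' + A x w + A y w)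
    {z : α → ZMod 2} (hs : Sol (insert x (insert y (insert w X))) A
      (insert x (insert y (insert w E))) S z) :
    Sol (insert x (insert y (insert w X))) B (insert x (insert y (insert w E))) S'
      (tr x y w (m (z x) (z y) (z w)) z) := by
  have he := h.eqsA z hs
  rw [hSx, hSy, hSw, eq_add_of_sum (h.mv_sum z)] at he
  have he' := ht _ _ _ _ _ _ _ _ he
  refine h.symm.solA _ ?_ ?_
  · rw [hSx', hSy', hSw', h.xy, h.xw, h.yw, tr_x, tr_y, tr_w, h.mv_eq _ x (by simp),
      h.mv_eq _ y (by simp), h.mv_eq _ w (by simp), h.mv_tr, h.mv_tr, h.mv_tr,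
      eq_add_of_sum (h.mv_sum z)]
    exact he'
  · intro v hv
    rw [h.mv_off _ _ (hE hv), hs v (by simp [hv])]
    have h1 : v ≠ x := fun e => h.hx (e ▸ hE hv)
    have h2 : v ≠ y := fun e => h.hy (e ▸ hE hv)
    have h3 : v ≠ w := fun e => h.hw (e ▸ hE hv)
    rw [tr_off _ _ h1 h2 h3]
    simp only [hSS v hv]

theorem R3Rel.good_even (h : R3Rel 1 X x y w A B) {p q r p' q' r' : ZMod 2}
    {m : ZMod 2 → ZMod 2 → ZMod 2 → ZMod 2} (ht : Trans p q r p' q' r' m)
    (ht' : Trans p' q' r' p q r m) (hm : ∀ t, m t t t = 0)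
    {E S S' T : Finset α} (hE : E ⊆ X) (hT : T ⊆ X) (hSS : ∀ v ∈ E, v ∈ S ↔ v ∈ S')
    (hSx : (if x ∈ S then (1 : ZMod 2) else 0) = p + A x y + A x w)
    (hSy : (if y ∈ S then (1 : ZMod 2) else 0) = q + A x y + A y w)
    (hSw : (if w ∈ S then (1 : ZMod 2) else 0) = r + A x w + A y w)
    (hSx' : (if x ∈ S' then (1 : ZMod 2) else 0) = p' + A x y + A x w)
    (hSy' : (if y ∈ S' then (1 : ZMod 2) else 0) = q' + A x y + A y w)
    (hSw' : (if w ∈ S' then (1 : ZMod 2) else 0) = r' + A x w + A y w)
    (g : Good a (insert x (insert y (insert w X))) A (insert x (insert y (insert w E))) S T) :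
    Good a (insert x (insert y (insert w X))) B (insert x (insert y (insert w E))) S' T := by
  have hxE : x ∉ E := fun e => h.hx (hE e)
  have hyE : y ∉ E := fun e => h.hy (hE e)
  have hwE : w ∉ E := fun e => h.hw (hE e)
  obtain ⟨nd, f, hf, hfT, hz⟩ := g
  have cc : ∀ t : ZMod 2, t + 1 + (1 : ZMod 2) = t := by decide
  have c2 : ∀ t u v : ZMod 2, t + (u + 1) + (v + 1) = t + u + v := by decide
  refine ⟨fun z h0 hs => ?_, f, hf, hfT, fun i => ?_⟩
  · have s1 := h.symm.sol_even (p := p') (q := q') (r := r') (p' := p) (q' := q) (r' := r)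
      ht' hE (fun v hv => (hSS v hv).symm)
      (by rw [h.xy, h.xw, c2]; exact hSx') (by rw [h.xy, h.yw, c2]; exact hSy')
      (by rw [h.xw, h.yw, c2]; exact hSw') (by rw [h.xy, h.xw, c2]; exact hSx)
      (by rw [h.xy, h.yw, c2]; exact hSy) (by rw [h.xw, h.yw, c2]; exact hSw) hs
    have s2 := nd _ ?_ s1
    · have tx := s2 x
      have ty := s2 y
      have tw := s2 w
      rw [tr_x] at tx
      rw [tr_y] at ty
      rw [tr_w] at tw
      have hx1 : z x = m (z x) (z y) (z w) := CharTwo.add_eq_zero.1 tx
      have hy1 : z y = m (z x) (z y) (z w) := CharTwo.add_eq_zero.1 ty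
      have hw1 : z w = m (z x) (z y) (z w) := CharTwo.add_eq_zero.1 tw
      have hyx : z y = z x := hy1.trans hx1.symm
      have hwx : z w = z x := hw1.trans hx1.symm
      rw [hyx, hwx, hm] at hx1
      intro v
      by_cases h1 : v = x
      · rw [h1]; exact hx1
      by_cases h2 : v = y
      · rw [h2, hyx]; exact hx1
      by_cases h3 : v = w
      · rw [h3, hwx]; exact hx1
      rw [← tr_off (m (z x) (z y) (z w)) z h1 h2 h3]
      exact s2 v
    · intro v hv
      simp only [mem_insert, not_or] at hv
      rw [tr_off _ _ hv.1 hv.2.1 hv.2.2.1]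
      exact h0 v (by simp [hv])
  · obtain ⟨z, z1, z2, z3, z4⟩ := hz i
    have hTf : ∀ j, f j ∈ X := fun j => hT ((hfT _).2 ⟨j, rfl⟩)
    refine ⟨tr x y w (m (z x) (z y) (z w)) z, fun v hv hvi => ?_, ?_,
      h.sol_even ht hE hSS hSx hSy hSw hSx' hSy' hSw' z3, fun j hj => ?_⟩
    · have hv' := hv
      simp only [mem_insert, not_or] at hv
      rw [tr_off _ _ hv.1 hv.2.1 hv.2.2.1]
      exact z1 v hv' hvi
    · rw [tr_off _ _ (h.ne (hTf i)).1 (h.ne (hTf i)).2.1 (h.ne (hTf i)).2.2]
      exact z2
    · rw [h.mv_off _ _ (hTf j)]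
      exact z4 j hj

theorem R3Rel.not_good_even (h : R3Rel ε X x y w A B) {E S T : Finset α} (hE : E ⊆ X)
    (hSx : (if x ∈ S then (1 : ZMod 2) else 0) = A x y + A x w)
    (hSy : (if y ∈ S then (1 : ZMod 2) else 0) = A x y + A y w)
    (hSw : (if w ∈ S then (1 : ZMod 2) else 0) = A x w + A y w) :
    ¬ Good a (insert x (insert y (insert w X))) A (insert x (insert y (insert w E))) S T := by
  rintro ⟨nd, -⟩
  have h0 : ∀ v, mv X A (tr x y w 1 fun _ => 0) v = 0 := by
    intro v
    rw [h.mv_tr]
    unfold mv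
    exact sum_eq_zero fun u _ => mul_zero _
  have key := nd (tr x y w 1 fun _ => 0) ?_ ?_ x
  · rw [tr_x] at key; exact absurd key (by decide)
  · intro v hv
    simp only [mem_insert, not_or] at hv
    rw [tr_off _ _ hv.1 hv.2.1 hv.2.2.1]
  · refine h.solA _ ?_ ?_
    · rw [hSx, hSy, hSw, h0, h0, h0, tr_x, tr_y, tr_w]
      generalize A x y = p
      generalize A x w = q
      generalize A y w = r
      revert p q r
      decide
    · intro v hv
      have hv1 := hE hv
      rw [h.mvA, h0, tr_x, tr_y, tr_w, tr_off _ _ (h.ne hv1).1 (h.ne hv1).2.1 (h.ne hv1).2.2]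
      have := h.sum v hv1
      simp only [zero_add, mul_one, add_zero, ite_self]
      rw [← add_assoc]; exact this

/-! ### Two odd vertices `x`, `y` and an even vertex `w` -/

/-- Equations of the even vertices for vectors vanishing at `x`, `y`. -/
theorem R3Rel.sol_odd0 (h : R3Rel ε X x y w A B) {E S : Finset α} (hE : E ⊆ X) {z : α → ZMod 2}
    (hx0 : z x = 0) (hy0 : z y = 0)
    (hs : Sol (insert x (insert y (insert w X))) A (insert w E) S z) :
    Sol (insert x (insert y (insert w X))) B (insert w E) S z := by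
  intro v hv
  rcases mem_insert.1 hv with rfl | hv
  · rw [← hs v (by simp), h.mvA, h.symm.mvA, h.dA, h.dB, hx0, hy0, h.mv_eq _ v (by simp)]
    ring
  · have := h.mv_off 0 z (hE hv)
    have tr0 : tr x y w 0 z = z := by
      ext v; unfold tr; split_ifs <;> simp
    rw [tr0] at this
    rw [this, hs v (by simp [hv])]

theorem tr_zero (x y w : α) (z : α → ZMod 2) : tr x y w 0 z = z := by
  ext v; unfold tr; split_ifs <;> simp

theorem R3Rel.nd_odd (h : R3Rel ε X x y w A B) {E S : Finset α} (hE : E ⊆ X)
    (nd : ∀ z : α → ZMod 2, (∀ v, v ∉ insert w E → z v = 0) →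
      Sol (insert x (insert y (insert w X))) A (insert w E) S z → ∀ v, z v = 0) :
    ∀ z : α → ZMod 2, (∀ v, v ∉ insert w E → z v = 0) →
      Sol (insert x (insert y (insert w X))) B (insert w E) S z → ∀ v, z v = 0 := by
  have hxE : x ∉ insert w E := by
    simp only [mem_insert, not_or]; exact ⟨h.hxw, fun e => h.hx (hE e)⟩
  have hyE : y ∉ insert w E := by
    simp only [mem_insert, not_or]; exact ⟨h.hyw, fun e => h.hy (hE e)⟩
  intro z h0 hs
  exact nd z h0 (h.symm.sol_odd0 hE (h0 x hxE) (h0 y hyE) hs)

/-- `T` contains neither of the odd vertices. -/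
theorem R3Rel.good_odd0 (h : R3Rel ε X x y w A B) {E S T : Finset α} (hE : E ⊆ X) (hT : T ⊆ X)
    (g : Good a (insert x (insert y (insert w X))) A (insert w E) S T) :
    Good a (insert x (insert y (insert w X))) B (insert w E) S T := by
  have hxE : x ∉ insert w E := by
    simp only [mem_insert, not_or]; exact ⟨h.hxw, fun e => h.hx (hE e)⟩
  have hyE : y ∉ insert w E := by
    simp only [mem_insert, not_or]; exact ⟨h.hyw, fun e => h.hy (hE e)⟩
  obtain ⟨nd, f, hf, hfT, hz⟩ := g
  refine ⟨h.nd_odd hE nd, f, hf, hfT, fun i => ?_⟩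
  obtain ⟨z, z1, z2, z3, z4⟩ := hz i
  have hTf : ∀ j, f j ∈ X := fun j => hT ((hfT _).2 ⟨j, rfl⟩)
  have hx0 := z1 x hxE (fun e => h.hx (e ▸ hTf i))
  have hy0 := z1 y hyE (fun e => h.hy (e ▸ hTf i))
  refine ⟨z, z1, z2, h.sol_odd0 hE hx0 hy0 z3, fun j hj => ?_⟩
  have := h.mv_off 0 z (hTf j)
  rw [tr_zero] at this
  rw [this]
  exact z4 j hj

/-- `T` contains exactly one of the odd vertices. -/
theorem R3Rel.good_odd1 (h : R3Rel ε X x y w A B) {E S T : Finset α} (hE : E ⊆ X) (hT : T ⊆ X)
    (hε : (if w ∈ S then (1 : ZMod 2) else 0) = ε + A x w + A y w)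
    (g : Good a (insert x (insert y (insert w X))) A (insert w E) S (insert x T)) :
    Good a (insert x (insert y (insert w X))) B (insert w E) S (insert y T) := by
  have hxE : x ∉ insert w E := by
    simp only [mem_insert, not_or]; exact ⟨h.hxw, fun e => h.hx (hE e)⟩
  have hyE : y ∉ insert w E := by
    simp only [mem_insert, not_or]; exact ⟨h.hyw, fun e => h.hy (hE e)⟩
  obtain ⟨nd, f, hf, hfT, hz⟩ := g
  have hxT : x ∉ T := fun e => h.hx (hT e)
  have hyT : y ∉ T := fun e => h.hy (hT e)
  obtain ⟨i0, hi0⟩ := (hfT x).1 (by simp)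
  have hfi : ∀ i, i ≠ i0 → f i ∈ T := by
    intro i hi
    have h1 := (hfT (f i)).2 ⟨i, rfl⟩
    rcases mem_insert.1 h1 with h2 | h2
    · exact absurd (hf (h2.trans hi0.symm)) hi
    · exact h2
  refine ⟨h.nd_odd hE nd, fun i => if i = i0 then y else f i, ?_, ?_, fun i => ?_⟩
  · intro i j hij
    by_cases hi : i = i0
    · by_cases hj : j = i0
      · rw [hi, hj]
      · simp only [hi, hj, if_true, if_false] at hij
        exact absurd (hij ▸ hfi j hj) hyT
    · by_cases hj : j = i0
      · simp only [hi, hj, if_true, if_false] at hij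
        exact absurd (hij.symm ▸ hfi i hi) hyT
      · simp only [hi, hj, if_false] at hij
        exact hf hij
  · intro v
    constructor
    · intro hv
      rcases mem_insert.1 hv with rfl | hv
      · exact ⟨i0, by simp⟩
      · obtain ⟨i, hi⟩ := (hfT v).1 (mem_insert_of_mem hv)
        have : i ≠ i0 := by rintro rfl; exact hxT (by rw [← hi0, hi]; exact hv)
        exact ⟨i, by simp [this, hi]⟩
    · rintro ⟨i, hi⟩
      by_cases h1 : i = i0
      · simp only [h1, if_true] at hi
        rw [← hi]; simp
      · simp only [h1, if_false] at hi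
        rw [← hi]; exact mem_insert_of_mem (hfi i h1)
  · obtain ⟨z, z1, z2, z3, z4⟩ := hz i
    have ew := z3 w (by simp)
    rw [h.mvA, h.dA, zero_mul, zero_add] at ew
    have hy0 : z y = 0 := z1 y hyE (by
      intro e
      by_cases h1 : i = i0
      · rw [h1, hi0] at e; exact h.hxy e.symm
      · exact hyT (e ▸ hfi i h1))
    by_cases hi : i = i0
    · -- the vector of `x` becomes the vector of `y`
      subst hi
      have hx1 : z x = 1 := by rw [← hi0]; exact z2
      refine ⟨tr x y w 1 z, fun v hv hvi => ?_, ?_, fun v hv => ?_, fun j hj => ?_⟩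
      · simp only [if_true] at hvi
        have hvw : v ≠ w := fun e => hv (by simp [e])
        by_cases hvx : v = x
        · rw [hvx, tr_x, hx1]; decide
        · rw [tr_off _ _ hvx hvi hvw]
          exact z1 v hv (by rw [hi0]; exact hvx)
      · simp only [if_true]
        rw [tr_y, hy0]; decide
      · rcases mem_insert.1 hv with rfl | hv
        · rw [h.symm.mvA, h.dB, h.mv_eq _ v (by simp), h.mv_tr, h.sB v x, h.sB v y, h.xw, h.yw,
            tr_x, tr_y, tr_w, hx1, hy0]
          rw [h.sA v x, h.sA v y, hx1, hy0] at ew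
          have hm : mv X A z v = (ε + A x v + A y v) * z v + A x v := by
            have e2 : (if v ∈ S then z v else 0) = (ε + A x v + A y v) * z v := by
              rw [← hε]; split_ifs <;> simp
            rw [e2] at ew
            revert ew
            generalize mv X A z v = t
            generalize A x v = p
            generalize A y v = q
            generalize z v = r
            clear * -
            revert ε p q r t
            decide
          have e3 : (if v ∈ S then z v + 1 else 0) = (ε + A x v + A y v) * (z v + 1) := by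
            rw [← hε]; split_ifs <;> simp
          rw [e3, hm]
          generalize A x v = p
          generalize A y v = q
          generalize z v = r
          clear * -
          revert ε p q r
          decide
        · have hvX := hE hv
          rw [h.mv_off 1 z hvX, z3 v (by simp [hv]), tr_off _ _ (h.ne hvX).1 (h.ne hvX).2.1
            (h.ne hvX).2.2]
      · simp only [hj, if_false]
        rw [h.mv_off 1 z (hT (hfi j hj))]
        exact z4 j hj
    · -- the other vectors do not change
      have hx0 : z x = 0 := z1 x hxE (fun e => hxT (e ▸ hfi i hi))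
      refine ⟨z, fun v hv hvi => ?_, ?_, h.sol_odd0 hE hx0 hy0 z3, fun j hj => ?_⟩
      · simp only [hi, if_false] at hvi
        exact z1 v hv hvi
      · simp only [hi, if_false]; exact z2
      · by_cases hj0 : j = i0
        · subst hj0
          simp only [if_true]
          rw [← z4 j hj, hi0, h.mvA, h.symm.mvA, h.dA, h.dB, h.mv_eq _ y (by simp), hx0, hy0,
            h.yw]
          rw [h.sA w x, h.sA w y, hx0, hy0] at ew
          have hm := h.mv_sum z
          have e2 : (if w ∈ S then z w else 0) = (ε + A x w + A y w) * z w := by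
            rw [← hε]; split_ifs <;> simp
          rw [e2] at ew
          revert ew hm
          generalize mv X A z w = t
          generalize mv X A z x = tx
          generalize mv X A z y = ty
          generalize A x w = p
          generalize A y w = q
          generalize z w = r
          intro h1 h2
          have h3 : t = tx + ty := eq_add_of_sum h2
          subst h3
          clear h2
          simp only [mul_zero, zero_add] at *
          revert h1
          clear * -
          revert ε p q r tx ty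
          decide
        · simp only [hj0, if_false]
          have := h.mv_off 0 z (hT (hfi j hj0))
          rw [tr_zero] at this
          rw [this]
          exact z4 j hj

/-- `T` contains both odd vertices: the first case. -/
theorem R3Rel.not_good_odd2 (ha : TwinFree a) (h : R3Rel ε X x y w A B) {E S T : Finset α}
    (hE : E ⊆ X) (hε : (if w ∈ S then (1 : ZMod 2) else 0) = A x w + A y w)
    (hx : x ∈ T) (hy : y ∈ T) :
    ¬ Good a (insert x (insert y (insert w X))) A (insert w E) S T := by
  have hxE : x ∉ insert w E := by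
    simp only [mem_insert, not_or]; exact ⟨h.hxw, fun e => h.hx (hE e)⟩
  have hyE : y ∉ insert w E := by
    simp only [mem_insert, not_or]; exact ⟨h.hyw, fun e => h.hy (hE e)⟩
  rintro ⟨-, f, hf, hfT, hz⟩
  obtain ⟨i, hi⟩ := (hfT x).1 hx
  obtain ⟨j, hj⟩ := (hfT y).1 hy
  have hij : i ≠ j := fun e => h.hxy (by rw [← hi, ← hj, e])
  obtain ⟨k, hki, hkj, hk⟩ := ha i j hij
  obtain ⟨z, z1, z2, z3, z4⟩ := hz k
  have hx0 := z1 x hxE (fun e => hki (hf (by rw [← e, hi])))
  have hy0 := z1 y hyE (fun e => hkj (hf (by rw [← e, hj])))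
  apply hk
  rw [← z4 i hki.symm, ← z4 j hkj.symm, hi, hj, h.mvA, h.mvA, h.dA, h.dA, hx0, hy0]
  have ew := z3 w (by simp)
  rw [h.mvA, h.dA, h.sA w x, h.sA w y, hx0, hy0] at ew
  have e2 : (if w ∈ S then z w else 0) = (A x w + A y w) * z w := by
    rw [← hε]; split_ifs <;> simp
  rw [e2] at ew
  have hm := h.mv_sum z
  revert ew hm
  generalize mv X A z w = t
  generalize mv X A z x = tx
  generalize mv X A z y = ty
  generalize A x w = p
  generalize A y w = q
  generalize z w = r
  intro h1 h2
  have h3 : t = tx + ty := eq_add_of_sum h2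
  subst h3
  clear h2
  simp only [mul_zero, zero_mul, zero_add] at *
  revert p q r tx ty
  decide

/-- `T` contains both odd vertices: the second case. -/
theorem R3Rel.good_odd2 (h : R3Rel 1 X x y w A B) {E S T : Finset α} (hE : E ⊆ X) (hT : T ⊆ X)
    (hε : (if w ∈ S then (1 : ZMod 2) else 0) = 1 + A x w + A y w)
    (g : Good a (insert x (insert y (insert w X))) A (insert w E) S (insert x (insert y T))) :
    Good a (insert x (insert y (insert w X))) B (insert w E) S (insert x (insert y T)) := by
  have hxE : x ∉ insert w E := by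
    simp only [mem_insert, not_or]; exact ⟨h.hxw, fun e => h.hx (hE e)⟩
  have hyE : y ∉ insert w E := by
    simp only [mem_insert, not_or]; exact ⟨h.hyw, fun e => h.hy (hE e)⟩
  obtain ⟨nd, f, hf, hfT, hz⟩ := g
  have hxT : x ∉ T := fun e => h.hx (hT e)
  have hyT : y ∉ T := fun e => h.hy (hT e)
  obtain ⟨i0, hi0⟩ := (hfT x).1 (by simp)
  obtain ⟨i1, hi1⟩ := (hfT y).1 (by simp)
  have hi01 : i0 ≠ i1 := fun e => h.hxy (by rw [← hi0, ← hi1, e])
  have hfi : ∀ i, i ≠ i0 → i ≠ i1 → f i ∈ T := by
    intro i hi hi'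
    have h1 := (hfT (f i)).2 ⟨i, rfl⟩
    rcases mem_insert.1 h1 with h2 | h2
    · exact absurd (hf (h2.trans hi0.symm)) hi
    · rcases mem_insert.1 h2 with h3 | h3
      · exact absurd (hf (h3.trans hi1.symm)) hi'
      · exact h3
  -- the new numbering
  have hsw : ∀ i, Equiv.swap x y (f i) = if i = i0 then y else if i = i1 then x else f i := by
    intro i
    by_cases h1 : i = i0
    · subst h1; rw [hi0, Equiv.swap_apply_left, if_pos rfl]
    · by_cases h2 : i = i1
      · subst h2; rw [hi1, Equiv.swap_apply_right, if_neg h1, if_pos rfl]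
      · rw [if_neg h1, if_neg h2]
        have := hfi i h1 h2
        exact Equiv.swap_apply_of_ne_of_ne (fun e => hxT (e ▸ this)) (fun e => hyT (e ▸ this))
  refine ⟨h.nd_odd hE nd, fun i => Equiv.swap x y (f i), ?_, ?_, fun i => ?_⟩
  · exact (Equiv.swap x y).injective.comp hf
  · intro v
    have hmem : v ∈ insert x (insert y T) ↔ Equiv.swap x y v ∈ insert x (insert y T) := by
      by_cases h1 : v = x
      · subst h1; simp
      · by_cases h2 : v = y
        · subst h2; simp
        · rw [Equiv.swap_apply_of_ne_of_ne h1 h2]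
    rw [hmem, hfT]
    constructor
    · rintro ⟨i, hi⟩
      exact ⟨i, by simp only [hi, Equiv.swap_apply_self]⟩
    · rintro ⟨i, hi⟩
      exact ⟨i, by rw [← hi, Equiv.swap_apply_self]⟩
  · obtain ⟨z, z1, z2, z3, z4⟩ := hz i
    have ew := z3 w (by simp)
    rw [h.mvA, h.dA, zero_mul, zero_add, h.sA w x, h.sA w y] at ew
    have e2 : (if w ∈ S then z w else 0) = (1 + A x w + A y w) * z w := by
      rw [← hε]; split_ifs <;> simp
    rw [e2] at ew
    have hm := eq_add_of_sum (h.mv_sum z)
    have hzx : i ≠ i0 → z x = 0 := fun hi => z1 x hxE (fun e => hi (hf (e.symm.trans hi0.symm)))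
    have hzy : i ≠ i1 → z y = 0 := fun hi => z1 y hyE (fun e => hi (hf (e.symm.trans hi1.symm)))
    have hzx1 : i = i0 → z x = 1 := fun hi => by rw [← hi0, ← hi]; exact z2
    have hzy1 : i = i1 → z y = 1 := fun hi => by rw [← hi1, ← hi]; exact z2
    refine ⟨tr x y w (z x + z y) z, fun v hv hvi => ?_, ?_, fun v hv => ?_, fun j hj => ?_⟩
    all_goals try beta_reduce at *
    · have hvw : v ≠ w := fun e => hv (by simp [e])
      by_cases hvx : v = x
      · have hii : i ≠ i1 := by
          rintro rfl
          apply hvi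
          rw [hvx, hi1, Equiv.swap_apply_right]
        rw [hvx, tr_x, hzy hii]
        generalize z x = t
        revert t; decide
      · by_cases hvy : v = y
        · have hii : i ≠ i0 := by
            rintro rfl
            apply hvi
            rw [hvy, hi0, Equiv.swap_apply_left]
          rw [hvy, tr_y, hzx hii]
          generalize z y = t
          revert t; decide
        · rw [tr_off _ _ hvx hvy hvw]
          refine z1 v hv fun e => hvi ?_
          rw [← e, Equiv.swap_apply_of_ne_of_ne hvx hvy]
    · rw [hsw]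
      by_cases h1 : i = i0
      · rw [if_pos h1, tr_y, hzx1 h1, hzy (fun e => hi01 (h1.symm.trans e))]; decide
      · by_cases h2 : i = i1
        · rw [if_neg h1, if_pos h2, tr_x, hzy1 h2, hzx h1]; decide
        · rw [if_neg h1, if_neg h2]
          have := hfi i h1 h2
          rw [tr_off _ _ (h.ne (hT this)).1 (h.ne (hT this)).2.1 (h.ne (hT this)).2.2]
          exact z2
    · rcases mem_insert.1 hv with rfl | hv
      · rw [h.symm.mvA, h.dB, h.mv_eq _ v (by simp), h.mv_tr, h.sB v x, h.sB v y, h.xw, h.yw,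
          tr_x, tr_y, tr_w, hm]
        rw [hm] at ew
        have e3 : (if v ∈ S then z v + (z x + z y) else 0) =
            (1 + A x v + A y v) * (z v + (z x + z y)) := by
          rw [← hε]; split_ifs <;> simp
        rw [e3]
        revert ew
        generalize mv X A z x = tx
        generalize mv X A z y = ty
        generalize A x v = p
        generalize A y v = q
        generalize z v = r
        generalize z x = zx
        generalize z y = zy
        clear * -
        revert p q r tx ty zx zy
        decide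
      · have hvX := hE hv
        rw [h.mv_off _ z hvX, z3 v (by simp [hv]), tr_off _ _ (h.ne hvX).1 (h.ne hvX).2.1
          (h.ne hvX).2.2]
    · rw [hsw]
      by_cases h1 : j = i0
      · -- output at `y`
        subst h1
        have hzx0 : z x = 0 := hzx (fun e => hj e.symm)
        rw [if_pos rfl, ← z4 j hj, hi0, h.symm.mvA, h.mvA, h.dA, h.dB, h.mv_eq _ y (by simp),
          h.mv_tr, tr_x, tr_y, tr_w, h.sB y x, h.xy, h.yw]
        rw [hm] at ew
        rw [hzx0] at ew ⊢
        revert ew
        generalize mv X A z x = tx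
        generalize mv X A z y = ty
        generalize A x w = p
        generalize A y w = q
        generalize A x y = s
        generalize z w = r
        generalize z y = zy
        clear * -
        revert p q r s tx ty zy
        decide
      · by_cases h2 : j = i1
        · -- output at `x`
          subst h2
          have hzy0 : z y = 0 := hzy (fun e => hj e.symm)
          rw [if_neg h1, if_pos rfl, ← z4 j hj, hi1, h.symm.mvA, h.mvA, h.dA, h.dB,
            h.mv_eq _ x (by simp), h.mv_tr, tr_x, tr_y, tr_w, h.sA y x, h.xy, h.xw]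
          rw [hm] at ew
          rw [hzy0] at ew ⊢
          revert ew
          generalize mv X A z x = tx
          generalize mv X A z y = ty
          generalize A x w = p
          generalize A y w = q
          generalize A x y = s
          generalize z w = r
          generalize z x = zx
          clear * -
          revert p q r s tx ty zx
          decide
        · rw [if_neg h1, if_neg h2, h.mv_off _ z (hT (hfi j h1 h2))]
          exact z4 j hj

end Pool.Agent.MP_ea99c2_gt
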