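import Pool.Agent.MP_ea99c2_gt.GraphR3

/-!
# The parity bracket is invariant under the third move
-/

set_option linter.unusedSectionVars false
set_option linter.unusedVariables false

namespace Pool.Agent.MP_ea99c2_gt

open Finset

variable {α : Type*} [DecidableEq α]
variable {a : Fin 8 → Fin 8 → ZMod 2} {X : Finset α} {A B : α → α → ZMod 2} {x y w : α}
  {ε : ZMod 2}

theorem R3Rel.deg_exp (h : R3Rel ε X x y w A B) (v : α) :
    deg (insert x (insert y (insert w X))) A v = A v x + (A v y + (A v w + deg X A v)) := by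
  rw [deg_insert (by simp [h.hx, h.hxy, h.hxw]), deg_insert (by simp [h.hy, h.hyw]),
    deg_insert h.hw]

theorem R3Rel.deg_tri (h : R3Rel ε X x y w A B) (v : α) (hv : v ∈ X ∨ v = x ∨ v = y ∨ v = w) :
    deg X B v = deg X A v := by
  unfold deg
  refine sum_congr rfl fun u hu => ?_
  rw [h.sB, h.sA, h.off u hu]

theorem R3Rel.deg_eq (h : R3Rel 1 X x y w A B) {v : α}
    (hv : v ∈ insert x (insert y (insert w X))) :
    deg (insert x (insert y (insert w X))) B v = deg (insert x (insert y (insert w X))) A v := by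
  have cc : ∀ p q r : ZMod 2, p + 1 + (q + 1 + r) = p + (q + r) := by decide
  rw [h.deg_exp, h.symm.deg_exp]
  rcases mem_insert.1 hv with rfl | hv
  · rw [h.deg_tri v (by simp), h.dA, h.dB, h.xy, h.xw, cc]
  rcases mem_insert.1 hv with rfl | hv
  · rw [h.deg_tri v (by simp), h.dA, h.dB, h.sB v x, h.sA v x, h.xy, h.yw]
    generalize A x v = p
    generalize A v w = q
    generalize deg X A v = r
    clear * -
    revert p q r
    decide
  rcases mem_insert.1 hv with rfl | hv
  · rw [h.deg_tri v (by simp), h.dA, h.dB, h.sB v x, h.sA v x, h.sB v y, h.sA v y, h.xw, h.yw,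
      cc]
  rw [h.deg_tri v (Or.inl hv), h.off v hv, h.off v hv, h.off v hv]

theorem R3Rel.deg_sum (h : R3Rel 1 X x y w A B) :
    deg (insert x (insert y (insert w X))) A x + deg (insert x (insert y (insert w X))) A y +
      deg (insert x (insert y (insert w X))) A w = 0 := by
  have h0 : deg X A x + deg X A y + deg X A w = 0 := by
    unfold deg
    rw [← sum_add_distrib, ← sum_add_distrib]
    refine sum_eq_zero fun u hu => ?_
    rw [h.sA x, h.sA y, h.sA w, h.sum u hu]
  rw [h.deg_exp, h.deg_exp, h.deg_exp, h.dA, h.dA, h.dA, h.sA y x, h.sA w x, h.sA w y]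
  have := eq_add_of_sum h0
  rw [this]
  generalize A x y = p
  generalize A x w = q
  generalize A y w = r
  generalize deg X A x = s
  generalize deg X A y = t
  clear * -
  revert p q r s t
  decide

theorem R3Rel.evens_eq (h : R3Rel 1 X x y w A B) :
    evens (insert x (insert y (insert w X))) B = evens (insert x (insert y (insert w X))) A :=
  filter_congr fun v hv => by rw [h.deg_eq hv]

theorem R3Rel.odds_eq (h : R3Rel 1 X x y w A B) :
    odds (insert x (insert y (insert w X))) B = odds (insert x (insert y (insert w X))) A :=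
  filter_congr fun v hv => by rw [h.deg_eq hv]

/-! ### All three even -/

/-- Sum of the eight values of a function of three bits. -/
def total (g : ZMod 2 → ZMod 2 → ZMod 2 → ZMod 2) : ZMod 2 :=
  g 0 0 0 + g 0 0 1 + (g 0 1 0 + g 0 1 1) + (g 1 0 0 + g 1 0 1 + (g 1 1 0 + g 1 1 1))

theorem total_eq (g g' : ZMod 2 → ZMod 2 → ZMod 2 → ZMod 2) (c1 c2 c3 : ZMod 2)
    (h0 : g (0 + c1) (0 + c2) (0 + c3) = 0) (h0' : g' (0 + c1) (0 + c2) (0 + c3) = 0)
    (h1 : g (1 + c1) (1 + c2) (0 + c3) = g' (1 + c1) (1 + c2) (0 + c3))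
    (h2 : g (1 + c1) (0 + c2) (1 + c3) = g' (1 + c1) (0 + c2) (1 + c3))
    (h3 : g (0 + c1) (1 + c2) (1 + c3) = g' (0 + c1) (1 + c2) (1 + c3))
    (h4 : g (1 + c1) (0 + c2) (0 + c3) = g' (1 + c1) (1 + c2) (1 + c3))
    (h5 : g (0 + c1) (1 + c2) (0 + c3) = g' (1 + c1) (1 + c2) (1 + c3))
    (h6 : g (0 + c1) (0 + c2) (1 + c3) = g' (1 + c1) (1 + c2) (1 + c3))
    (h7 : g' (1 + c1) (0 + c2) (0 + c3) = g (1 + c1) (1 + c2) (1 + c3))
    (h8 : g' (0 + c1) (1 + c2) (0 + c3) = g (1 + c1) (1 + c2) (1 + c3))
    (h9 : g' (0 + c1) (0 + c2) (1 + c3) = g (1 + c1) (1 + c2) (1 + c3)) :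
    total g = total g' := by
  have e1 : (1 : ZMod 2) + 1 = 0 := by decide
  have e2 : (2 : ZMod 2) = 0 := by decide
  unfold total
  rcases zmod2_cases c1 with rfl | rfl <;> rcases zmod2_cases c2 with rfl | rfl <;>
    rcases zmod2_cases c3 with rfl | rfl <;>
    simp only [e1, add_zero, zero_add] at h0 h0' h1 h2 h3 h4 h5 h6 h7 h8 h9
  · linear_combination h0 - h0' + h1 + h2 + h3 + h4 + h5 + h6 - h7 - h8 - h9 +
      (g' 1 1 1 - g 1 1 1) * e2
  · linear_combination h0 - h0' + h1 + h2 + h3 + h4 + h5 + h6 - h7 - h8 - h9 +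
      (g' 1 1 0 - g 1 1 0) * e2
  · linear_combination h0 - h0' + h1 + h2 + h3 + h4 + h5 + h6 - h7 - h8 - h9 +
      (g' 1 0 1 - g 1 0 1) * e2
  · linear_combination h0 - h0' + h1 + h2 + h3 + h4 + h5 + h6 - h7 - h8 - h9 +
      (g' 1 0 0 - g 1 0 0) * e2
  · linear_combination h0 - h0' + h1 + h2 + h3 + h4 + h5 + h6 - h7 - h8 - h9 +
      (g' 0 1 1 - g 0 1 1) * e2
  · linear_combination h0 - h0' + h1 + h2 + h3 + h4 + h5 + h6 - h7 - h8 - h9 +
      (g' 0 1 0 - g 0 1 0) * e2
  · linear_combination h0 - h0' + h1 + h2 + h3 + h4 + h5 + h6 - h7 - h8 - h9 +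
      (g' 0 0 1 - g 0 0 1) * e2
  · linear_combination h0 - h0' + h1 + h2 + h3 + h4 + h5 + h6 - h7 - h8 - h9 +
      (g' 0 0 0 - g 0 0 0) * e2

/-- Insert those of `x`, `y`, `w` whose bit is `1`. -/
def sub3 (x y w : α) (S : Finset α) (sx sy sw : ZMod 2) : Finset α :=
  if sx = 1 then
    (if sy = 1 then (if sw = 1 then insert x (insert y (insert w S)) else insert x (insert y S))
      else (if sw = 1 then insert x (insert w S) else insert x S))
  else
    (if sy = 1 then (if sw = 1 then insert y (insert w S) else insert y S)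
      else (if sw = 1 then insert w S else S))

theorem ite_eq_self (s : ZMod 2) : (if s = 1 then (1 : ZMod 2) else 0) = s := by
  revert s; decide

theorem sub3_x {S : Finset α} (hxy : x ≠ y) (hxw : x ≠ w) (hx : x ∉ S) (sx sy sw : ZMod 2) :
    (if x ∈ sub3 x y w S sx sy sw then (1 : ZMod 2) else 0) = sx := by
  have : x ∈ sub3 x y w S sx sy sw ↔ sx = 1 := by
    unfold sub3
    split_ifs <;> simp_all
  simp only [this, ite_eq_self]

theorem sub3_y {S : Finset α} (hxy : x ≠ y) (hyw : y ≠ w) (hy : y ∉ S) (sx sy sw : ZMod 2) :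
    (if y ∈ sub3 x y w S sx sy sw then (1 : ZMod 2) else 0) = sy := by
  have : y ∈ sub3 x y w S sx sy sw ↔ sy = 1 := by
    have := hxy.symm
    unfold sub3
    split_ifs <;> simp_all
  simp only [this, ite_eq_self]

theorem sub3_w {S : Finset α} (hxw : x ≠ w) (hyw : y ≠ w) (hw : w ∉ S) (sx sy sw : ZMod 2) :
    (if w ∈ sub3 x y w S sx sy sw then (1 : ZMod 2) else 0) = sw := by
  have : w ∈ sub3 x y w S sx sy sw ↔ sw = 1 := by
    have := hxw.symm
    have := hyw.symm
    unfold sub3
    split_ifs <;> simp_all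
  simp only [this, ite_eq_self]

theorem sub3_off {S : Finset α} {v : α} (hx : v ≠ x) (hy : v ≠ y) (hw : v ≠ w)
    (sx sy sw : ZMod 2) : v ∈ sub3 x y w S sx sy sw ↔ v ∈ S := by
  unfold sub3
  split_ifs <;> simp_all

theorem sum_total (hxy : x ≠ y) (hxw : x ≠ w) (hyw : y ≠ w) {E : Finset α} (hx : x ∉ E)
    (hy : y ∉ E) (hw : w ∉ E) (F : Finset α → ZMod 2) :
    ∑ S ∈ (insert x (insert y (insert w E))).powerset, F S =
      ∑ S ∈ E.powerset, total fun sx sy sw => F (sub3 x y w S sx sy sw) := by
  have h01 : (0 : ZMod 2) ≠ 1 := by decide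
  have hx' : x ∉ insert y (insert w E) := by simp [hx, hxy, hxw]
  have hy' : y ∉ insert w E := by simp [hy, hyw]
  rw [sum_powerset_insert hx', sum_powerset_insert hy', sum_powerset_insert hy',
    sum_powerset_insert hw, sum_powerset_insert hw, sum_powerset_insert hw,
    sum_powerset_insert hw, ← sum_add_distrib, ← sum_add_distrib, ← sum_add_distrib,
    ← sum_add_distrib, ← sum_add_distrib, ← sum_add_distrib, ← sum_add_distrib]
  refine sum_congr rfl fun S hS => ?_
  simp only [total, sub3, h01, if_true, if_false]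

theorem bracket_r3_even (h : R3Rel 1 X x y w A B)
    (dx : deg (insert x (insert y (insert w X))) A x = 0)
    (dy : deg (insert x (insert y (insert w X))) A y = 0)
    (dw : deg (insert x (insert y (insert w X))) A w = 0) :
    bracket a (insert x (insert y (insert w X))) A =
      bracket a (insert x (insert y (insert w X))) B := by
  classical
  have h10 : (1 : ZMod 2) ≠ 0 := by decide
  have h01 : (0 : ZMod 2) ≠ 1 := by decide
  set X' := insert x (insert y (insert w X)) with hX'
  have e1 : evens X' A = insert x (insert y (insert w (X.filter fun v => deg X' A v = 0))) := by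
    conv_lhs => rw [evens, hX']
    rw [filter_insert, filter_insert, filter_insert, if_pos dx, if_pos dy, if_pos dw]
  have o1 : odds X' A = X.filter fun v => deg X' A v = 1 := by
    conv_lhs => rw [odds, hX']
    rw [filter_insert, filter_insert, filter_insert, if_neg (by rw [dx]; exact h01),
      if_neg (by rw [dy]; exact h01), if_neg (by rw [dw]; exact h01)]
  unfold bracket
  rw [h.evens_eq, h.odds_eq, e1, o1]
  set E := X.filter fun v => deg X' A v = 0 with hE
  set O := X.filter fun v => deg X' A v = 1 with hO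
  have hEX : E ⊆ X := filter_subset _ _
  have hOX : O ⊆ X := filter_subset _ _
  have hxE : x ∉ E := fun e => h.hx (hEX e)
  have hyE : y ∉ E := fun e => h.hy (hEX e)
  have hwE : w ∉ E := fun e => h.hw (hEX e)
  rw [sum_comm, sum_comm (s := (insert x (insert y (insert w E))).powerset)]
  refine sum_congr rfl fun T hT => ?_
  have hTX := (mem_powerset.1 hT).trans hOX
  rw [sum_total h.hxy h.hxw h.hyw hxE hyE hwE, sum_total h.hxy h.hxw h.hyw hxE hyE hwE]
  refine sum_congr rfl fun S hS => ?_
  have hSX := (mem_powerset.1 hS).trans hEX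
  have hxS : x ∉ S := fun e => h.hx (hSX e)
  have hyS : y ∉ S := fun e => h.hy (hSX e)
  have hwS : w ∉ S := fun e => h.hw (hSX e)
  have cA : ∀ p q : ZMod 2, p + 1 + (q + 1) = p + q := by decide
  -- transitions
  have key : ∀ {A' B' : α → α → ZMod 2}, R3Rel 1 X x y w A' B' →
      A' x y + A' x w = A x y + A x w → A' x y + A' y w = A x y + A y w →
      A' x w + A' y w = A x w + A y w →
      ∀ (p q r p' q' r' : ZMod 2) (m : ZMod 2 → ZMod 2 → ZMod 2 → ZMod 2),
      Trans p q r p' q' r' m → Trans p' q' r' p q r m → (∀ t, m t t t = 0) →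
      (if Good a X' A' (insert x (insert y (insert w E)))
        (sub3 x y w S (p + (A x y + A x w)) (q + (A x y + A y w)) (r + (A x w + A y w))) T
        then (1 : ZMod 2) else 0) =
      (if Good a X' B' (insert x (insert y (insert w E)))
        (sub3 x y w S (p' + (A x y + A x w)) (q' + (A x y + A y w)) (r' + (A x w + A y w))) T
        then (1 : ZMod 2) else 0) := by
    intro A' B' h' c1 c2 c3 p q r p' q' r' m t1 t2 hm
    have hoff : ∀ sx sy sw sx' sy' sw', ∀ v ∈ E, v ∈ sub3 x y w S sx sy sw ↔
        v ∈ sub3 x y w S sx' sy' sw' := by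
      intro sx sy sw sx' sy' sw' v hv
      have hne := h.ne (hEX hv)
      rw [sub3_off hne.1 hne.2.1 hne.2.2, sub3_off hne.1 hne.2.1 hne.2.2]
    have b1 : B' x y + B' x w = A' x y + A' x w := by rw [h'.xy, h'.xw, cA]
    have b2 : B' x y + B' y w = A' x y + A' y w := by rw [h'.xy, h'.yw, cA]
    have b3 : B' x w + B' y w = A' x w + A' y w := by rw [h'.xw, h'.yw, cA]
    have iff : Good a X' A' (insert x (insert y (insert w E)))
        (sub3 x y w S (p + (A x y + A x w)) (q + (A x y + A y w)) (r + (A x w + A y w))) T ↔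
      Good a X' B' (insert x (insert y (insert w E)))
        (sub3 x y w S (p' + (A x y + A x w)) (q' + (A x y + A y w)) (r' + (A x w + A y w)))
        T := by
      constructor
      · intro g
        refine h'.good_even t1 t2 hm hEX hTX (hoff _ _ _ _ _ _) ?_ ?_ ?_ ?_ ?_ ?_ g
        · rw [sub3_x h.hxy h.hxw hxS, add_assoc, c1]
        · rw [sub3_y h.hxy h.hyw hyS, add_assoc, c2]
        · rw [sub3_w h.hxw h.hyw hwS, add_assoc, c3]
        · rw [sub3_x h.hxy h.hxw hxS, add_assoc, c1]
        · rw [sub3_y h.hxy h.hyw hyS, add_assoc, c2]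
        · rw [sub3_w h.hxw h.hyw hwS, add_assoc, c3]
      · intro g
        refine h'.symm.good_even t2 t1 hm hEX hTX (hoff _ _ _ _ _ _) ?_ ?_ ?_ ?_ ?_ ?_ g
        · rw [sub3_x h.hxy h.hxw hxS, add_assoc, b1, c1]
        · rw [sub3_y h.hxy h.hyw hyS, add_assoc, b2, c2]
        · rw [sub3_w h.hxw h.hyw hwS, add_assoc, b3, c3]
        · rw [sub3_x h.hxy h.hxw hxS, add_assoc, b1, c1]
        · rw [sub3_y h.hxy h.hyw hyS, add_assoc, b2, c2]
        · rw [sub3_w h.hxw h.hyw hwS, add_assoc, b3, c3]
    simp only [iff]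
  have d1 : B x y + B x w = A x y + A x w := by rw [h.xy, h.xw, cA]
  have d2 : B x y + B y w = A x y + A y w := by rw [h.xy, h.yw, cA]
  have d3 : B x w + B y w = A x w + A y w := by rw [h.xw, h.yw, cA]
  have kA := key h rfl rfl rfl
  have kB := key h.symm d1 d2 d3
  refine total_eq _ _ (A x y + A x w) (A x y + A y w) (A x w + A y w) ?_ ?_ ?_ ?_ ?_ ?_ ?_ ?_
    ?_ ?_ ?_
  · rw [if_neg]
    refine h.not_good_even hEX ?_ ?_ ?_
    · rw [sub3_x h.hxy h.hxw hxS, zero_add]
    · rw [sub3_y h.hxy h.hyw hyS, zero_add]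
    · rw [sub3_w h.hxw h.hyw hwS, zero_add]
  · rw [if_neg]
    refine h.symm.not_good_even hEX ?_ ?_ ?_
    · rw [sub3_x h.hxy h.hxw hxS, zero_add, d1]
    · rw [sub3_y h.hxy h.hyw hyS, zero_add, d2]
    · rw [sub3_w h.hxw h.hyw hwS, zero_add, d3]
  · exact kA 1 1 0 1 1 0 (fun _ p q => p + q) (by decide) (by decide) (by decide)
  · exact kA 1 0 1 1 0 1 (fun _ p q => p + q) (by decide) (by decide) (by decide)
  · exact kA 0 1 1 0 1 1 (fun p _ q => p + q) (by decide) (by decide) (by decide)
  · exact kA 1 0 0 1 1 1 (fun _ p q => p + q) (by decide) (by decide) (by decide)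
  · exact kA 0 1 0 1 1 1 (fun p _ q => p + q) (by decide) (by decide) (by decide)
  · exact kA 0 0 1 1 1 1 (fun p q _ => p + q) (by decide) (by decide) (by decide)
  · exact kB 1 0 0 1 1 1 (fun _ p q => p + q) (by decide) (by decide) (by decide)
  · exact kB 0 1 0 1 1 1 (fun p _ q => p + q) (by decide) (by decide) (by decide)
  · exact kB 0 0 1 1 1 1 (fun p q _ => p + q) (by decide) (by decide) (by decide)

/-! ### Two odd vertices -/

theorem bracket_r3_odd (ha : TwinFree a) (h : R3Rel 1 X x y w A B)
    (dx : deg (insert x (insert y (insert w X))) A x = 1)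
    (dy : deg (insert x (insert y (insert w X))) A y = 1)
    (dw : deg (insert x (insert y (insert w X))) A w = 0) :
    bracket a (insert x (insert y (insert w X))) A =
      bracket a (insert x (insert y (insert w X))) B := by
  classical
  have h10 : (1 : ZMod 2) ≠ 0 := by decide
  have h01 : (0 : ZMod 2) ≠ 1 := by decide
  set X' := insert x (insert y (insert w X)) with hX'
  have e1 : evens X' A = insert w (X.filter fun v => deg X' A v = 0) := by
    conv_lhs => rw [evens, hX']
    rw [filter_insert, filter_insert, filter_insert, if_neg (by rw [dx]; exact h10),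
      if_neg (by rw [dy]; exact h10), if_pos dw]
  have o1 : odds X' A = insert x (insert y (X.filter fun v => deg X' A v = 1)) := by
    conv_lhs => rw [odds, hX']
    rw [filter_insert, filter_insert, filter_insert, if_pos dx,
      if_pos dy, if_neg (by rw [dw]; exact h01)]
  unfold bracket
  rw [h.evens_eq, h.odds_eq, e1, o1]
  set E := X.filter fun v => deg X' A v = 0 with hE
  set O := X.filter fun v => deg X' A v = 1 with hO
  have hEX : E ⊆ X := filter_subset _ _
  have hOX : O ⊆ X := filter_subset _ _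
  have hxO : x ∉ O := fun e => h.hx (hOX e)
  have hyO : y ∉ O := fun e => h.hy (hOX e)
  have hxyO : x ∉ insert y O := by simp [hxO, h.hxy]
  refine sum_congr rfl fun S hS => ?_
  rw [sum_powerset_insert hxyO, sum_powerset_insert hyO, sum_powerset_insert hyO,
    sum_powerset_insert hxyO, sum_powerset_insert hyO, sum_powerset_insert hyO,
    ← sum_add_distrib, ← sum_add_distrib, ← sum_add_distrib, ← sum_add_distrib,
    ← sum_add_distrib, ← sum_add_distrib]
  refine sum_congr rfl fun T hT => ?_
  have hTX := (mem_powerset.1 hT).trans hOX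
  have cA : ∀ p q : ZMod 2, p + 1 + (q + 1) = p + q := by decide
  have cA' : ∀ p q : ZMod 2, 1 + (p + 1) + (q + 1) = 1 + p + q := by decide
  have g0 : Good a X' A (insert w E) S T ↔ Good a X' B (insert w E) S T :=
    ⟨h.good_odd0 hEX hTX, h.symm.good_odd0 hEX hTX⟩
  have dich : (if w ∈ S then (1 : ZMod 2) else 0) = A x w + A y w ∨
      (if w ∈ S then (1 : ZMod 2) else 0) = 1 + A x w + A y w := by
    generalize (if w ∈ S then (1 : ZMod 2) else 0) = s
    generalize A x w = p
    generalize A y w = q
    clear * -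
    revert s p q
    decide
  have cm : insert y (insert x (insert w X)) = X' := Finset.insert_comm _ _ _
  rcases dich with hδ | hδ
  · -- `δ = 0`
    have hδB : (if w ∈ S then (1 : ZMod 2) else 0) = B x w + B y w := by
      rw [h.xw, h.yw, cA]; exact hδ
    have gA : Good a X' A (insert w E) S (insert x T) ↔ Good a X' A (insert w E) S (insert y T) := by
      constructor
      · exact h.rfl'.good_odd1 hEX hTX (by rw [hδ]; ring)
      · intro g
        have := h.rfl'.swap.good_odd1 (a := a) (E := E) (S := S) (T := T) hEX hTX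
          (by rw [hδ]; ring)
        rw [cm] at this
        exact this g
    have gB : Good a X' B (insert w E) S (insert x T) ↔ Good a X' B (insert w E) S (insert y T) := by
      constructor
      · exact h.symm.rfl'.good_odd1 hEX hTX (by rw [hδB]; ring)
      · intro g
        have := h.symm.rfl'.swap.good_odd1 (a := a) (E := E) (S := S) (T := T) hEX hTX
          (by rw [hδB]; ring)
        rw [cm] at this
        exact this g
    have nA : ¬ Good a X' A (insert w E) S (insert x (insert y T)) :=
      h.not_good_odd2 ha hEX hδ (by simp) (by simp)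
    have nB : ¬ Good a X' B (insert w E) S (insert x (insert y T)) :=
      h.symm.not_good_odd2 ha hEX hδB (by simp) (by simp)
    simp only [g0, gA, gB, if_neg nA, if_neg nB, add_zero]
    rw [add_assoc, CharTwo.add_self_eq_zero, add_assoc, CharTwo.add_self_eq_zero]
  · -- `δ = 1`
    have hδB : (if w ∈ S then (1 : ZMod 2) else 0) = 1 + B x w + B y w := by
      rw [h.xw, h.yw, cA']; exact hδ
    have sAB : ∀ {A' B' : α → α → ZMod 2}, R3Rel 1 X x y w A' B' →
        (if w ∈ S then (1 : ZMod 2) else 0) = 1 + A' x w + A' y w →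
        Good a X' A' (insert w E) S (insert x T) → Good a X' B' (insert w E) S (insert y T) :=
      fun h' hh => h'.good_odd1 hEX hTX hh
    have sBA : ∀ {A' B' : α → α → ZMod 2}, R3Rel 1 X x y w A' B' →
        (if w ∈ S then (1 : ZMod 2) else 0) = 1 + A' x w + A' y w →
        Good a X' A' (insert w E) S (insert y T) → Good a X' B' (insert w E) S (insert x T) := by
      intro A' B' h' hh g
      have := h'.swap.good_odd1 (a := a) (E := E) (S := S) (T := T) hEX hTX
        (by rw [hh]; ring)
      rw [cm] at this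
      exact this g
    have g1 : Good a X' A (insert w E) S (insert x T) ↔ Good a X' B (insert w E) S (insert y T) :=
      ⟨sAB h hδ, sBA h.symm hδB⟩
    have g2 : Good a X' A (insert w E) S (insert y T) ↔ Good a X' B (insert w E) S (insert x T) :=
      ⟨sBA h hδ, sAB h.symm hδB⟩
    have g3 : Good a X' A (insert w E) S (insert x (insert y T)) ↔
        Good a X' B (insert w E) S (insert x (insert y T)) :=
      ⟨h.good_odd2 hEX hTX hδ, h.symm.good_odd2 hEX hTX hδB⟩
    simp only [g0, g1, g2, g3]
    ring

theorem bracket_r3 (ha : TwinFree a) (h : R3Rel 1 X x y w A B) :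
    bracket a (insert x (insert y (insert w X))) A =
      bracket a (insert x (insert y (insert w X))) B := by
  have hs := h.deg_sum
  have c1 : insert x (insert w (insert y X)) = insert x (insert y (insert w X)) := by
    rw [Finset.insert_comm w y]
  have c2 : insert w (insert y (insert x X)) = insert x (insert y (insert w X)) := by
    ext v; simp only [mem_insert]; tauto
  rcases zmod2_cases (deg (insert x (insert y (insert w X))) A x) with dx | dx <;>
    rcases zmod2_cases (deg (insert x (insert y (insert w X))) A y) with dy | dy <;>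
    rcases zmod2_cases (deg (insert x (insert y (insert w X))) A w) with dw | dw <;>
    rw [dx, dy, dw] at hs
  · exact bracket_r3_even h dx dy dw
  · exact absurd hs (by decide)
  · exact absurd hs (by decide)
  · have h' := h.swap.swap'.swap
    have := bracket_r3_odd (a := a) ha h' (by rw [c2]; exact dw) (by rw [c2]; exact dy)
      (by rw [c2]; exact dx)
    rw [c2] at this
    exact this
  · exact absurd hs (by decide)
  · have h' := h.swap'
    have := bracket_r3_odd (a := a) ha h' (by rw [c1]; exact dx) (by rw [c1]; exact dw)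
      (by rw [c1]; exact dy)
    rw [c1] at this
    exact this
  · exact bracket_r3_odd ha h dx dy dw
  · exact absurd hs (by decide)

end Pool.Agent.MP_ea99c2_gt
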