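import Pool.Agent.MP_ea99c2_gt.Core

/-!
# The lower bounds
-/

set_option linter.unusedVariables false

namespace Pool.Agent.MP_ea99c2_gt

open Finset
open Mosaic (isX isX_conn)

/-- The number of vertices depends only on the size of the array and on the gluing. -/
noncomputable def vc (m n : ℕ) (pair : CellSide → CellSide) : ℕ :=
  Nat.card (Quot fun v w : {v : ℕ × ℕ // ∃ e, OnBoundary m n e ∧ v = tail e} =>
    ∃ e, OnBoundary m n e ∧ v.1 = tail e ∧ w.1 = head (pair e))

theorem genus_congr {D D' : Mosaic} (h1 : D'.rows = D.rows) (h2 : D'.cols = D.cols)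
    (h3 : D'.pair = D.pair) : D'.genus = D.genus := by
  have e : ∀ D : Mosaic, D.genus = (1 + D.rows + D.cols - vc D.rows D.cols D.pair) / 2 :=
    fun D => rfl
  rw [e, e, h1, h2, h3]

/-- The grid as a finite set. -/
def cells (m n : ℕ) : Finset (ℕ × ℕ) := range m ×ˢ range n

theorem mem_cells {m n : ℕ} {p : ℕ × ℕ} : p ∈ cells m n ↔ p.1 < m ∧ p.2 < n := by
  unfold cells
  rw [mem_product, mem_range, mem_range]

theorem card_cells (m n : ℕ) : (cells m n).card = m * n := by
  unfold cells
  rw [card_product, card_range, card_range]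

theorem mem_cw_iff {D : Mosaic} {l : List CellSide} (hl : D.IsTrace l) {p : ℕ × ℕ} :
    p ∈ D.cw l ↔ (p.1 < D.rows ∧ p.2 < D.cols) ∧ isX (D.tile p.1 p.2) = true := by
  rw [Mosaic.mem_cw]
  constructor
  · rintro ⟨h1, s, h2⟩
    exact ⟨hl.2.2.1 _ h2, h1⟩
  · rintro ⟨h1, h2⟩
    refine ⟨h2, ?_⟩
    have hex : D.exit (p.1, p.2, .west) = some (p.1, p.2, .east) := by
      unfold Mosaic.exit
      rw [isX_conn h2]; rfl
    rcases hl.2.2.2.2 (p.1, p.2, .west) h1 _ hex with h | h
    · exact ⟨.west, h.1⟩
    · exact ⟨.east, h.1⟩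

/-- Removing a crossing from a double occurrence word. -/
theorem Dbl.smooth {α : Type*} [DecidableEq α] {e : α} {B C : List α}
    (hd : Dbl (e :: B ++ e :: C)) : e ∉ B ∧ e ∉ C ∧ Dbl (B ++ C.reverse) := by
  have hcount := hd e (by simp)
  have heB : e ∉ B := by
    intro h
    have := List.count_pos_iff.2 h
    simp only [List.cons_append, List.count_cons_self, List.count_append] at hcount
    omega
  have heC : e ∉ C := by
    intro h
    have := List.count_pos_iff.2 h
    simp only [List.cons_append, List.count_cons_self, List.count_append] at hcount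
    omega
  refine ⟨heB, heC, ?_⟩
  intro x hx
  rw [List.mem_append, List.mem_reverse] at hx
  have hxe : x ≠ e := by
    rintro rfl
    exact hx.elim heB heC
  have := hd x (by
    rw [List.cons_append, List.mem_cons, List.mem_append, List.mem_cons]
    exact hx.elim (fun h => Or.inr (Or.inl h)) (fun h => Or.inr (Or.inr (Or.inr h))))
  rw [List.cons_append, List.count_cons_of_ne (Ne.symm hxe), List.count_append,
    List.count_cons_of_ne (Ne.symm hxe)] at this
  rw [List.count_append, List.count_reverse, this]

/-- Smoothing an even crossing. -/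
theorem inter_smooth {α : Type*} [DecidableEq α] {e x y : α} {B C : List α}
    (hd : Dbl (e :: B ++ e :: C)) (hx : x ≠ e) (hy : y ≠ e) (hxy : x ≠ y) :
    inter x y (B ++ C.reverse) = inter x y (e :: B ++ e :: C) +
      inter x e (e :: B ++ e :: C) * inter y e (e :: B ++ e :: C) := by
  have hx' : ¬ e = x := fun h => hx h.symm
  have hy' : ¬ e = y := fun h => hy h.symm
  obtain ⟨heB, heC, -⟩ := hd.smooth
  have key : ∀ z, z ≠ e → inter z e (e :: B ++ e :: C) = cnt z B := by
    intro z hz
    have hz' : ¬ e = z := fun h => hz h.symm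
    rw [List.cons_append, inter_cons, if_neg hz', zero_add, inter_append, inter_cons, if_neg hz',
      inter_eq_zero_right heB, inter_eq_zero_right heC, cnt_cons, if_pos rfl, cnt_eq_zero heC]
    ring
  have hcnt : ∀ z, z ≠ e → cnt z B = cnt z C := by
    intro z hz
    have hz' : ¬ e = z := fun h => hz h.symm
    have := hd.cnt_eq z
    rw [List.cons_append, cnt_cons, if_neg hz', cnt_append, cnt_cons, if_neg hz', zero_add,
      zero_add] at this
    exact CharTwo.add_eq_zero.1 this
  have h1 : inter x y (e :: B ++ e :: C) = inter x y B + inter x y C + cnt x B * cnt y C := by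
    rw [List.cons_append, inter_cons, if_neg hx', zero_add, inter_append, inter_cons, if_neg hx',
      cnt_cons, if_neg hy', zero_add, zero_add]
  rw [key x hx, key y hy, h1, inter_append, inter_reverse, cnt_reverse, hcnt x hx, hcnt y hy]
  have h2 := inter_add_inter hxy C
  have h3 : inter y x C = inter x y C + cnt x C * cnt y C := by
    rw [← h2, ← add_assoc, CharTwo.add_self_eq_zero, zero_add]
  rw [h3]
  ring_nf

theorem lower {D : Mosaic} {l : List CellSide} (hl : D.IsTrace l) (hd : Dbl (D.cw l))
    (hb : bw gmat (D.cw l) ≠ 0) (h9 : D.rows * D.cols ≤ 9) :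
    D.rows * D.cols = 9 ∧ 3 ≤ D.genus := by
  have hsub : (D.cw l).toFinset ⊆ cells D.rows D.cols := by
    intro p hp
    rw [List.mem_toFinset, mem_cw_iff hl] at hp
    exact mem_cells.2 hp.1
  have h8 := card_ge hb
  have hle := card_le_card hsub
  rw [card_cells] at hle
  have hX : ∀ i < D.rows, ∀ j < D.cols, isX (D.tile i j) = true ↔ (i, j) ∈ (D.cw l).toFinset := by
    intro i hi j hj
    rw [List.mem_toFinset, mem_cw_iff hl]
    exact ⟨fun h => ⟨⟨hi, hj⟩, h⟩, fun h => h.2⟩
  rcases Nat.lt_or_ge (D.rows * D.cols) 9 with hlt | hge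
  · -- eight tiles
    exfalso
    have h8' : D.rows * D.cols = 8 := by omega
    have hc : (D.cw l).toFinset.card = 8 := by omega
    have heq : (D.cw l).toFinset = cells D.rows D.cols :=
      eq_of_subset_of_card_le hsub (by rw [card_cells]; omega)
    refine eight h8' (l := l) ⟨hl, hd, extract8 hd hb hc⟩ ?_
    intro i hi j hj
    rw [hX i hi j hj, heq, mem_cells]
    exact ⟨hi, hj⟩
  · have h9' : D.rows * D.cols = 9 := by omega
    refine ⟨h9', ?_⟩
    rcases Nat.lt_or_ge (D.cw l).toFinset.card 9 with hc | hc
    · have hc' : (D.cw l).toFinset.card = 8 := by omega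
      obtain ⟨p, hp⟩ : ∃ p, cells D.rows D.cols \ (D.cw l).toFinset = {p} := by
        rw [← card_eq_one, card_sdiff_of_subset hsub, card_cells]; omega
      have hpm : ∀ q, q ∈ cells D.rows D.cols → (q ∈ (D.cw l).toFinset ↔ q ≠ p) := by
        intro q hq
        have : q ∈ cells D.rows D.cols \ (D.cw l).toFinset ↔ q = p := by
          rw [hp, mem_singleton]
        rw [mem_sdiff] at this
        constructor
        · intro h e
          exact (this.2 e).2 h
        · intro h
          by_contra h2
          exact h (this.1 ⟨hq, h2⟩)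
      have hpc : p ∈ cells D.rows D.cols := by
        have : p ∈ cells D.rows D.cols \ (D.cw l).toFinset := by rw [hp, mem_singleton]
        exact (mem_sdiff.1 this).1
      rw [mem_cells] at hpc
      refine nine h9' (l := l) ⟨hl, hd, extract8 hd hb hc'⟩ hpc.1 hpc.2 ?_
      intro i hi j hj
      rw [hX i hi j hj, hpm _ (mem_cells.2 ⟨hi, hj⟩)]
      obtain ⟨p1, p2⟩ := p
      simp
    · have hc' : (D.cw l).toFinset.card = 9 := by omega
      have heq : (D.cw l).toFinset = cells D.rows D.cols :=
        eq_of_subset_of_card_le hsub (by rw [card_cells]; omega)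
      obtain ⟨f, ⟨i0, j0⟩, hf, hew, hfe, hm, hi⟩ := extract9 hd hb hc'
      have hin := (mem_cw_iff hl).1 hew
      obtain ⟨u, v, rfl, D', l', e1, e2, e3, hl', ht, ht', B, C, hBC, hcw⟩ :=
        Mosaic.surgery hl hin.1.1 hin.1.2 hin.2
      have hd1 : Dbl (D.cw u ++ D.cw v) := by rwa [Mosaic.cw_append] at hd
      have hd2 : Dbl ((i0, j0) :: B ++ (i0, j0) :: C) := by
        rw [← hBC, Mosaic.cw_append]
        exact hd1.perm List.perm_append_comm
      have hrot : ∀ x y, x ≠ y → inter x y (D.cw (u ++ v)) =
          inter x y ((i0, j0) :: B ++ (i0, j0) :: C) := by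
        intro x y hxy
        have := imat_rotate hd1 x y
        rw [imat_of_ne _ hxy, imat_of_ne _ hxy] at this
        rw [← hBC, Mosaic.cw_append, Mosaic.cw_append, this]
      have hmem : ∀ x, x ∈ D.cw (u ++ v) ↔ x = (i0, j0) ∨ x ∈ B ∨ x ∈ C := by
        intro x
        have : x ∈ D.cw (u ++ v) ↔ x ∈ D.cw (v ++ u) := by
          rw [Mosaic.cw_append, Mosaic.cw_append, List.mem_append, List.mem_append, or_comm]
        rw [this, hBC]
        simp only [List.cons_append, List.mem_cons, List.mem_append]
        tauto
      obtain ⟨heB, heC, hd3⟩ := hd2.smooth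
      have H : Lab D' l' := by
        refine ⟨hl', ?_, f, hf, ?_, ?_⟩
        · rw [hcw]; exact hd3
        · intro x
          rw [hcw, List.mem_append, List.mem_reverse]
          have h1 := hm x
          rw [hmem] at h1
          constructor
          · intro hx
            rcases h1.1 (Or.inr hx) with h | h
            · rw [h] at hx
              exact absurd hx (by rintro (h | h); exacts [heB h, heC h])
            · exact h
          · rintro ⟨i, rfl⟩
            rcases h1.2 (Or.inr ⟨i, rfl⟩) with h | h
            · exact absurd h (hfe i)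
            · exact h
        · intro i j hij
          rw [hcw, inter_smooth hd2 (hfe i) (hfe j) (fun e => hij (hf e)),
            ← hrot _ _ (fun e => hij (hf e)), ← hrot _ _ (hfe i), ← hrot _ _ (hfe j)]
          exact hi i j hij
      rw [← genus_congr e1 e2 e3]
      refine nine (by rw [e1, e2]; exact h9') H (i0 := i0) (j0 := j0) (by rw [e1]; exact hin.1.1)
        (by rw [e2]; exact hin.1.2) ?_
      intro i hi j hj
      rw [e1] at hi
      rw [e2] at hj
      by_cases hc : i = i0 ∧ j = j0
      · obtain ⟨rfl, rfl⟩ := hc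
        constructor
        · intro h
          rcases ht' with h' | h' <;> rw [h'] at h <;> exact absurd h (by decide)
        · intro h; exact absurd ⟨rfl, rfl⟩ h
      · rw [ht i j hc]
        constructor
        · intro _; exact hc
        · intro _
          rw [hX i hi j hj, heq, mem_cells]
          exact ⟨hi, hj⟩

end Pool.Agent.MP_ea99c2_gt
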