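import Pool.Agent.MP_ea99c2_gt.Board

/-!
# Words of crossings of row mosaics
-/

set_option linter.unusedVariables false

namespace Pool.Agent.MP_ea99c2_gt

open Equiv Equiv.Perm
open Mosaic (isX isX_conn)

/-- Deterministic step. -/
def Det (out nx : ℕ) (d d' : ℕ) : Prop := g7 nx (g7 out d) = d' ∧ d' < 64

instance (out nx d d' : ℕ) : Decidable (Det out nx d d') := by unfold Det; infer_instance

theorem Det.eq {n : ℕ} {τ : Perm (Fin n)} {out nx ent d d' x : ℕ} (h : Det out nx d d')
    (hx : StepR τ out nx ent d x) : x = d' := by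
  obtain ⟨h1, h2⟩ := h
  rcases hx.2 with ⟨h3, h4⟩ | ⟨b, h3, h4⟩
  · rw [h4, h1]
  · omega

theorem run_lemma {n : ℕ} {τ : Perm (Fin n)} {out nx ent s : ℕ} :
    ∀ (r : List ℕ) (d : ℕ) (C : List ℕ), (d :: (C ++ [s])).IsChain (StepR τ out nx ent) →
      (d :: r).IsChain (Det out nx) → s ∉ r → ∃ C', C = r ++ C' := by
  intro r
  induction r with
  | nil => intro d C _ _ _; exact ⟨C, rfl⟩
  | cons d1 r ih =>
    intro d C hc hr hs
    rw [List.isChain_cons_cons] at hr
    rw [List.mem_cons, not_or] at hs
    cases C with
    | nil =>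
      rw [List.nil_append, List.isChain_cons_cons] at hc
      exact absurd (hr.1.eq hc.1) hs.1
    | cons c C =>
      rw [List.cons_append, List.isChain_cons_cons] at hc
      have := hr.1.eq hc.1
      subst this
      obtain ⟨C', rfl⟩ := ih c C hc.2 hr.2 hs.2
      exact ⟨C', rfl⟩

theorem Loop.mem_step {α : Type*} {R : α → α → Prop} {l : List α} (h : Loop R l) {x : α}
    (hx : x ∈ l) : ∃ y ∈ l, R x y := by
  obtain ⟨u, v, rfl⟩ := List.append_of_mem hx
  have h1 : Loop R (x :: (v ++ u)) := by simpa using h.rotate
  rw [loop_cons, List.cons_append] at h1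
  cases hvu : v ++ u with
  | nil =>
    rw [hvu, List.nil_append, List.isChain_cons_cons] at h1
    exact ⟨x, hx, h1.1⟩
  | cons y t =>
    rw [hvu, List.cons_append, List.isChain_cons_cons] at h1
    refine ⟨y, ?_, h1.1⟩
    have : y ∈ v ++ u := by rw [hvu]; simp
    rw [List.mem_append] at this ⊢
    rcases this with h | h
    · right; exact List.mem_cons_of_mem _ h
    · left; exact h

theorem Loop.mem_run {n : ℕ} {τ : Perm (Fin n)} {out nx ent : ℕ} {L : List ℕ}
    (h : Loop (StepR τ out nx ent) L) : ∀ (r : List ℕ) (d : ℕ), d ∈ L →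
      (d :: r).IsChain (Det out nx) → ∀ x ∈ r, x ∈ L := by
  intro r
  induction r with
  | nil => intro d _ _ x hx; simp at hx
  | cons d1 r ih =>
    intro d hd hr x hx
    rw [List.isChain_cons_cons] at hr
    obtain ⟨y, hy, hdy⟩ := h.mem_step hd
    have := hr.1.eq hdy
    subst this
    rcases List.mem_cons.1 hx with rfl | hx
    · exact hy
    · exact ih y hy hr.2 x hx

/-! ### Checking words -/

def lk : List ℕ → List ℕ → ℕ → ℕ
  | [], _, _ => 0
  | _, [], _ => 0
  | k :: ks, v :: vs, x => cond (Nat.beq k x) v (lk ks vs x)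

theorem lk_eq {g : ℕ → ℕ} : ∀ {keys vals : List ℕ}, keys.map g = vals → ∀ {x : ℕ}, x ∈ keys →
    lk keys vals x = g x := by
  intro keys
  induction keys with
  | nil => intro vals _ x hx; simp at hx
  | cons k ks ih =>
    intro vals h x hx
    cases vals with
    | nil => simp at h
    | cons v vs =>
      rw [List.map_cons, List.cons.injEq] at h
      unfold lk
      rw [cond_beq]
      split_ifs with hk
      · rw [← h.1, hk]
      · exact ih h.2 ((List.mem_cons.1 hx).resolve_left (Ne.symm hk))

def memN (x : ℕ) : List ℕ → Bool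
  | [] => false
  | y :: l => cond (Nat.beq x y) true (memN x l)

def nodupN : List ℕ → Bool
  | [] => true
  | x :: l => cond (memN x l) false (nodupN l)

theorem memN_iff {x : ℕ} {l : List ℕ} : memN x l = true ↔ x ∈ l := by
  induction l with
  | nil => simp [memN]
  | cons y l ih =>
    unfold memN
    rw [cond_beq]
    split_ifs with h
    · simp [h]
    · rw [ih, List.mem_cons]; simp [h]

theorem nodupN_of {l : List ℕ} (h : l.Nodup) : nodupN l = true := by
  induction l with
  | nil => rfl
  | cons x l ih =>
    rw [List.nodup_cons] at h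
    unfold nodupN
    have : memN x l = false := by
      rw [Bool.eq_false_iff]
      intro e
      exact h.1 (memN_iff.1 e)
    rw [this]
    exact ih h.2

/-- All words that start with `0, ..., p - 1` and contain `p + 1, ..., 8` (or the reversed word)
as a contiguous subword are in the list. -/
def rowCheck (p : ℕ) (ws : List (List ℕ)) : Bool :=
  (lev 8).all fun v => cond (nodupN (v.take p)) ((List.range (9 + p)).all fun q =>
    (fun keys => cond (nodupN keys)
      (cond (memL (v.map (lk keys (List.range p ++ (List.range (8 - p)).map (p + 1 + ·)))) ws)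
        (memL (v.map (lk keys (List.range p ++ (List.range (8 - p)).map (8 - ·)))) ws) false)
      true)
      (v.take p ++ (v.drop q).take (8 - p))) true

theorem rowCheck_spec {p : ℕ} {ws : List (List ℕ)} (h : rowCheck p ws = true) (hp : p ≤ 8)
    {v : List ℕ} (hv : v ∈ lev 8) (h8 : ∀ x ∈ v, x < 8) {g : ℕ → ℕ} {q : ℕ} (hq : q < 9 + p)
    {R : List ℕ} (hR : R = (List.range (8 - p)).map (p + 1 + ·) ∨
      R = (List.range (8 - p)).map (8 - ·))
    (h1 : (v.map g).take p = List.range p) (h2 : ((v.map g).drop q).take (8 - p) = R) :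
    v.map g ∈ ws := by
  have h3 := List.all_eq_true.1 h v hv
  set keys := v.take p ++ (v.drop q).take (8 - p) with hk
  have hkv : keys.map g = List.range p ++ R := by
    rw [hk, List.map_append, List.map_take, List.map_take, List.map_drop, h1, h2]
  have hlen : (List.range p ++ R).length = 8 := by
    rcases hR with rfl | rfl <;> simp <;> omega
  have hnd : (List.range p ++ R).Nodup := by
    rw [List.nodup_append]
    refine ⟨List.nodup_range, ?_, ?_⟩
    · rcases hR with rfl | rfl
      · refine List.Nodup.map_on ?_ List.nodup_range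
        intro x hx y hy hxy
        omega
      · refine List.Nodup.map_on ?_ List.nodup_range
        intro x hx y hy hxy
        rw [List.mem_range] at hx hy
        omega
    · intro a ha b hb
      rw [List.mem_range] at ha
      rcases hR with rfl | rfl
      · obtain ⟨c, hc, rfl⟩ := List.mem_map.1 hb
        omega
      · obtain ⟨c, hc, rfl⟩ := List.mem_map.1 hb
        rw [List.mem_range] at hc
        omega
  have hkn : keys.Nodup := by
    rw [← hkv] at hnd
    exact List.Nodup.of_map _ hnd
  have hkl : keys.length = 8 := by rw [← hlen, ← hkv, List.length_map]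
  have hks : ∀ x ∈ keys, x ∈ v := by
    intro x hx
    rw [hk, List.mem_append] at hx
    rcases hx with hx | hx
    · exact List.mem_of_mem_take hx
    · exact List.mem_of_mem_drop (List.mem_of_mem_take hx)
  have hall : ∀ x < 8, x ∈ keys := by
    have hsub : keys ⊆ List.range 8 := fun x hx => List.mem_range.2 (h8 x (hks x hx))
    have hperm := (List.subperm_of_subset hkn hsub).perm_of_length_le (by simp [hkl])
    intro x hx
    rw [hperm.mem_iff]
    exact List.mem_range.2 hx
  have hvg : v.map g = v.map (lk keys (List.range p ++ R)) := by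
    refine List.map_congr_left fun x hx => ?_
    exact (lk_eq hkv (hall x (h8 x hx))).symm
  have hkp : (v.take p).Nodup := (List.nodup_append.1 (hk ▸ hkn)).1
  rw [nodupN_of hkp, cond_true] at h3
  have h4 := List.all_eq_true.1 h3 q (List.mem_range.2 hq)
  beta_reduce at h4
  rw [← hk, nodupN_of hkn, cond_true] at h4
  rw [hvg]
  rcases hR with rfl | rfl
  · cases h5 : memL (v.map (lk keys (List.range p ++ (List.range (8 - p)).map (p + 1 + ·)))) ws
    · rw [h5] at h4; simp at h4
    · exact mem_of_memL h5
  · cases h5 : memL (v.map (lk keys (List.range p ++ (List.range (8 - p)).map (p + 1 + ·)))) ws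
    · rw [h5] at h4; simp at h4
    · rw [h5, cond_true] at h4
      exact mem_of_memL h4

theorem canF_self : ∀ (W : List ℕ) (lab : ℕ → ℕ) (nl : ℕ), (∀ x ∈ W, lab x = x + 1) →
    canF lab nl W = W := by
  intro W
  induction W with
  | nil => intros; rfl
  | cons c W ih =>
    intro lab nl h
    have hc := h c (by simp)
    unfold canF
    rw [if_neg (by omega), hc, ih lab nl fun x hx => h x (List.mem_cons_of_mem _ hx)]
    simp

theorem cellsOf_append (hole : ℕ) (u v : List ℕ) :
    cellsOf hole (u ++ v) = cellsOf hole u ++ cellsOf hole v := by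
  unfold cellsOf; rw [List.filter_append, List.map_append]

/-! ### The search on rows -/

section search

variable {D : Mosaic} {N : ℕ} [NeZero N] {idx : ℕ → ℕ → ℕ} {sc : Side → ℕ}
  {bs : Fin N → CellSide} {nx ent : ℕ}

theorem Frame.row (F : Frame D.rows D.cols N idx sc bs nx ent) (h9 : D.rows * D.cols = 9)
    {R0 out p lim : ℕ} (hT : TabOK (rot N) R0 ent)
    (hout : ∀ e, InGrid D.rows D.cols e → ∀ e', D.exit e = some e' →
      g7 out (enc idx sc e) = enc idx sc e')
    (hlim : N + 2 < 2 * D.vertexCount + 4 * lim)
    (hhole : ∀ i < D.rows, ∀ j < D.cols, isX (D.tile i j) = true ↔ idx i j ≠ p)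
    (hp0 : 0 < p) (hp : p < 8)
    (hrl : (3 :: (List.range p).map fun c => 4 * (c + 1) + 3).IsChain (Det out nx))
    (hrr : ((List.range (8 - p)).map fun c => 4 * (p + 1 + c) + 3).IsChain (Det out nx))
    (hrr' : ((List.range (8 - p)).map fun c => 4 * (8 - c) + 1).IsChain (Det out nx))
    (ho1 : g7 out (4 * (p + 1) + 3) = 4 * (p + 1) + 1)
    (ho2 : g7 out (4 * (p + 1) + 1) = 4 * (p + 1) + 3)
    (ho3 : g7 out 35 = 33)
    {ws : List (List ℕ)} (hws : rowCheck p ws = true) {Q : ℕ} (hQ : ∀ c < 9, g5 Q c = c + 1)
    {l : List CellSide} (H : Lab D l) :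
    dfs R0 out nx ent 3 p lim 24 3 ws Q 8 R0 (List.range N) 0 = false := by
  have hexit : ∀ e, InGrid D.rows D.cols e → idx e.1 e.2.1 ≠ p →
      D.exit e = some (e.1, e.2.1, e.2.2.opp) := by
    intro e he hne
    have hx : isX (D.tile e.1 e.2.1) = true := (hhole _ he.1 _ he.2).2 hne
    unfold Mosaic.exit
    rw [isX_conn hx]; rfl
  obtain ⟨e0, he0, hes0⟩ := F.enc_surj (d := 3) (by omega)
  obtain ⟨l', H'⟩ := H.start he0 (hexit e0 he0 (by rw [← F.enc_div e0, hes0]; omega))
  have hlen := F.length_le hhole H'
  refine F.dfs_false hT hout hlim H'.tr hes0 ?_ (by omega) (by omega)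
  obtain ⟨τ, hτ, -, -⟩ := F.exists_tau
  have hL := F.chain hτ hout H'.tr
  obtain ⟨v, hv, g, h8, hg, hw⟩ := H'.word
  have hcell := F.cellsOf_eq hhole H'.tr.2.2.1
  rw [hw, List.map_map] at hcell
  set g' : ℕ → ℕ := (fun p : ℕ × ℕ => idx p.1 p.2) ∘ g with hg'
  -- letters are cells
  have hlt : ∀ x ∈ v.map g', x < 9 := by
    intro x hx
    obtain ⟨y, hy, rfl⟩ := List.mem_map.1 hx
    have : g y ∈ D.cw (e0 :: l') := by rw [hw]; exact List.mem_map_of_mem hy
    rw [Mosaic.mem_cw] at this
    obtain ⟨-, s, hs⟩ := this
    have h1 := H'.tr.2.2.1 _ hs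
    have := F.idx_lt _ h1.1 _ h1.2
    rw [h9] at this
    exact this
  have h16 : v.length = 16 := Nat.eq_of_beq_eq_true (List.all_eq_true.1 lev_length v hv)
  rw [hcell, canF_self _ _ _ (fun x hx => hQ x (hlt x hx))]
  -- the left run
  obtain ⟨C, hC⟩ : ∃ C, l'.map (enc idx sc) =
      ((List.range p).map fun c => 4 * (c + 1) + 3) ++ C := by
    have h1 := hL
    rw [List.map_cons, loop_cons, hes0] at h1
    refine run_lemma _ _ _ h1 hrl ?_
    intro h
    obtain ⟨c, -, hc⟩ := List.mem_map.1 h
    omega
  have hleft : (v.map g').take p = List.range p := by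
    rw [← hcell, List.map_cons, hes0, hC, ← List.cons_append, cellsOf_append]
    have : cellsOf p (3 :: (List.range p).map fun c => 4 * (c + 1) + 3) = List.range p := by
      have e1 : (3 :: (List.range p).map fun c => 4 * (c + 1) + 3) =
          (List.range (p + 1)).map fun c => 4 * c + 3 := by
        rw [List.range_succ_eq_map, List.map_cons, List.map_map]
        rfl
      rw [e1, List.range_succ, List.map_append, cellsOf_append]
      have e2 : cellsOf p ([p].map fun c => 4 * c + 3) = [] := by
        unfold cellsOf
        rw [List.map_cons, List.map_nil, List.filter_cons_of_neg]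
        · rfl
        · simp only [ne_eq, decide_eq_true_eq]; omega
      have e3 : cellsOf p ((List.range p).map fun c => 4 * c + 3) = List.range p := by
        unfold cellsOf
        rw [List.filter_eq_self.2]
        · rw [List.map_map]
          conv_rhs => rw [← List.map_id (List.range p)]
          refine List.map_congr_left fun c _ => ?_
          simp only [Function.comp, id]
          omega
        · intro d hd
          obtain ⟨c, hc, rfl⟩ := List.mem_map.1 hd
          rw [List.mem_range] at hc
          simp only [ne_eq, decide_eq_true_eq]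
          omega
      rw [e2, e3, List.append_nil]
    rw [this, List.take_append_of_le_length (by simp)]
    simp
  -- one of the two ends of the right run
  have hends : 4 * (p + 1) + 3 ∈ (e0 :: l').map (enc idx sc) ∨
      33 ∈ (e0 :: l').map (enc idx sc) := by
    obtain ⟨e, he, hes⟩ := F.enc_surj (d := 4 * (p + 1) + 3) (by omega)
    have hne : idx e.1 e.2.1 ≠ p := by rw [← F.enc_div e, hes]; omega
    have hee := hexit e he hne
    have ho := hout e he _ hee
    rw [hes, ho1] at ho
    rcases H'.tr.2.2.2.2 e he _ hee with h1 | h1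
    · left
      rw [← hes]; exact List.mem_map_of_mem h1.1
    · right
      -- the reversed trace
      have H2 := H'.tr.reverse
      have hL2 := F.chain hτ hout H2
      have hmem : 4 * (p + 1) + 3 ∈ ((((e0 :: l').map D.ex).reverse).map (enc idx sc)) := by
        rw [← hes]
        apply List.mem_map_of_mem
        rw [List.mem_reverse, List.mem_map]
        refine ⟨_, h1.1, ?_⟩
        unfold Mosaic.ex
        rw [Mosaic.exit_symm hee]; rfl
      have h35 : 35 ∈ ((((e0 :: l').map D.ex).reverse).map (enc idx sc)) := by
        have h3 : ((List.range (8 - p)).map fun c => 4 * (p + 1 + c) + 3) =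
            (4 * (p + 1) + 3) :: (List.range (8 - p - 1)).map
              fun c => 4 * (p + 1 + (c + 1)) + 3 := by
          obtain ⟨k, hk⟩ : ∃ k, 8 - p = k + 1 := ⟨7 - p, by omega⟩
          rw [hk, List.range_succ_eq_map, List.map_cons, List.map_map]
          rfl
        rw [h3] at hrr
        rcases Nat.eq_or_lt_of_le (show p ≤ 7 by omega) with h7 | h7
        · subst h7; exact hmem
        · refine hL2.mem_run _ _ hmem hrr 35 ?_
          rw [List.mem_map]
          exact ⟨6 - p, List.mem_range.2 (by omega), by omega⟩
      obtain ⟨e', he', hes'⟩ := List.mem_map.1 h35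
      rw [List.mem_reverse, List.mem_map] at he'
      obtain ⟨e'', he'', rfl⟩ := he'
      have h4 := H'.tr.exit_mem he''
      have h5 := hout _ (Mosaic.exit_inGrid h4.1 (H'.tr.2.2.1 _ he'')) _ h4.2.1
      rw [hes', ho3] at h5
      rw [h5]
      exact List.mem_map_of_mem he''
  -- the right run
  obtain ⟨A, R, C', hLR, hRR⟩ : ∃ A R C', (e0 :: l').map (enc idx sc) = A ++ R ++ C' ∧
      (R = ((List.range (8 - p)).map fun c => 4 * (p + 1 + c) + 3) ∨
        R = ((List.range (8 - p)).map fun c => 4 * (8 - c) + 1)) := by
    have hrun : ∀ (d : ℕ) (r : List ℕ), d ∈ (e0 :: l').map (enc idx sc) →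
        (d :: r).IsChain (Det out nx) → 3 ∉ r →
        ∃ A C', (e0 :: l').map (enc idx sc) = A ++ (d :: r) ++ C' := by
      intro d r hd hr hs
      obtain ⟨A, B, hAB⟩ := List.append_of_mem hd
      have h1 := hL
      rw [List.map_cons, loop_cons, ← List.map_cons, hes0, hAB] at h1
      have h2 : (A ++ (d :: (B ++ [3]))).IsChain (StepR τ out nx ent) := by simpa using h1
      have h3 := (List.isChain_append.1 h2).2.1
      obtain ⟨C', rfl⟩ := run_lemma r d B h3 hr hs
      exact ⟨A, C', by rw [hAB]; simp⟩
    obtain ⟨k, hk⟩ : ∃ k, 8 - p = k + 1 := ⟨7 - p, by omega⟩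
    rcases hends with h | h
    · have h3 : ((List.range (8 - p)).map fun c => 4 * (p + 1 + c) + 3) =
          (4 * (p + 1) + 3) :: (List.range k).map fun c => 4 * (p + 1 + (c + 1)) + 3 := by
        rw [hk, List.range_succ_eq_map, List.map_cons, List.map_map]
        rfl
      rw [h3] at hrr
      obtain ⟨A, C', hAC⟩ := hrun _ _ h hrr (by
        intro h; obtain ⟨c, -, hc⟩ := List.mem_map.1 h; omega)
      exact ⟨A, _, C', hAC, Or.inl h3.symm⟩
    · have h3 : ((List.range (8 - p)).map fun c => 4 * (8 - c) + 1) =
          33 :: (List.range k).map fun c => 4 * (8 - (c + 1)) + 1 := by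
        rw [hk, List.range_succ_eq_map, List.map_cons, List.map_map]
        rfl
      rw [h3] at hrr'
      obtain ⟨A, C', hAC⟩ := hrun _ _ h hrr' (by
        intro h
        obtain ⟨c, hc, hc'⟩ := List.mem_map.1 h
        omega)
      exact ⟨A, _, C', hAC, Or.inr h3.symm⟩
  have hWR : v.map g' = cellsOf p A ++ cellsOf p R ++ cellsOf p C' := by
    rw [← hcell, hLR, cellsOf_append, cellsOf_append]
  have hR' : cellsOf p R = (List.range (8 - p)).map (p + 1 + ·) ∨
      cellsOf p R = (List.range (8 - p)).map (8 - ·) := by
    rcases hRR with rfl | rfl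
    · left
      unfold cellsOf
      rw [List.filter_eq_self.2, List.map_map]
      · refine List.map_congr_left fun c _ => ?_
        simp only [Function.comp]
        omega
      · intro d hd
        obtain ⟨c, hc, rfl⟩ := List.mem_map.1 hd
        simp only [ne_eq, decide_eq_true_eq]
        omega
    · right
      unfold cellsOf
      rw [List.filter_eq_self.2, List.map_map]
      · refine List.map_congr_left fun c _ => ?_
        simp only [Function.comp]
        omega
      · intro d hd
        obtain ⟨c, hc, rfl⟩ := List.mem_map.1 hd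
        rw [List.mem_range] at hc
        simp only [ne_eq, decide_eq_true_eq]
        omega
  have hRl : (cellsOf p R).length = 8 - p := by
    rcases hR' with h | h <;> rw [h] <;> simp
  refine rowCheck_spec hws (by omega) hv h8 (q := (cellsOf p A).length) (R := cellsOf p R)
    ?_ hR' hleft ?_
  · have : (v.map g').length = 16 := by rw [List.length_map, h16]
    rw [hWR, List.length_append, List.length_append, hRl] at this
    omega
  · rw [hWR, List.append_assoc, List.drop_left, List.take_append_of_le_length (by omega),
      List.take_of_length_le (by omega)]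

end search

end Pool.Agent.MP_ea99c2_gt
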