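import Pool.Agent.MP_ea99c2_gt.GraphR3b

/-!
# Interlacement in double occurrence words and the parity bracket of a word
-/

set_option linter.unusedSectionVars false
set_option linter.unusedVariables false
set_option linter.unusedSimpArgs false
set_option linter.unnecessarySeqFocus false

namespace Pool.Agent.MP_ea99c2_gt

variable {α : Type*} [DecidableEq α]

/-- Number of occurrences, mod 2. -/
def cnt (x : α) (l : List α) : ZMod 2 := (l.count x : ZMod 2)

/-- Number of pairs of an `x` and a later `y`, mod 2. -/
def inter (x y : α) : List α → ZMod 2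
  | [] => 0
  | a :: l => (if a = x then cnt y l else 0) + inter x y l

@[simp] theorem cnt_nil (x : α) : cnt x [] = 0 := rfl

theorem cnt_cons (x a : α) (l : List α) : cnt x (a :: l) = (if a = x then 1 else 0) + cnt x l := by
  unfold cnt
  rw [List.count_cons]
  by_cases h : a = x
  · simp [h, add_comm]
  · simp [h]

theorem cnt_append (x : α) (u v : List α) : cnt x (u ++ v) = cnt x u + cnt x v := by
  unfold cnt; rw [List.count_append]; push_cast; rfl

theorem cnt_reverse (x : α) (u : List α) : cnt x u.reverse = cnt x u := by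
  unfold cnt; rw [List.count_reverse]

theorem cnt_eq_zero {x : α} {u : List α} (h : x ∉ u) : cnt x u = 0 := by
  unfold cnt; rw [List.count_eq_zero_of_not_mem h]; rfl

@[simp] theorem inter_nil (x y : α) : inter x y [] = 0 := rfl

theorem inter_cons (x y a : α) (l : List α) :
    inter x y (a :: l) = (if a = x then cnt y l else 0) + inter x y l := rfl

theorem inter_append (x y : α) (u v : List α) :
    inter x y (u ++ v) = inter x y u + inter x y v + cnt x u * cnt y v := by
  induction u with
  | nil => simp
  | cons a u ih =>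
    rw [List.cons_append, inter_cons, inter_cons, ih, cnt_append, cnt_cons]
    split_ifs <;> ring

theorem inter_eq_zero_left {x y : α} {u : List α} (h : x ∉ u) : inter x y u = 0 := by
  induction u with
  | nil => rfl
  | cons a u ih =>
    rw [List.mem_cons, not_or] at h
    rw [inter_cons, if_neg (fun e => h.1 e.symm), ih h.2, add_zero]

theorem inter_eq_zero_right {x y : α} {u : List α} (h : y ∉ u) : inter x y u = 0 := by
  induction u with
  | nil => rfl
  | cons a u ih =>
    rw [List.mem_cons, not_or] at h
    rw [inter_cons, ih h.2, cnt_eq_zero h.2]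
    simp

theorem inter_add_inter {x y : α} (hxy : x ≠ y) (w : List α) :
    inter x y w + inter y x w = cnt x w * cnt y w := by
  induction w with
  | nil => simp
  | cons a w ih =>
    rw [inter_cons, inter_cons, cnt_cons, cnt_cons]
    have e : inter x y w + inter y x w = cnt x w * cnt y w := ih
    by_cases h1 : a = x
    · have h2 : a ≠ y := fun e => hxy (h1.symm.trans e)
      simp only [h1, h2, if_true, if_false, hxy]
      linear_combination e
    · by_cases h2 : a = y
      · simp only [h2, if_true, if_false, hxy.symm]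
        linear_combination e
      · simp only [h1, h2, if_false]
        linear_combination e

theorem inter_reverse (x y : α) (w : List α) : inter x y w.reverse = inter y x w := by
  induction w with
  | nil => rfl
  | cons a w ih =>
    rw [List.reverse_cons, inter_append, ih, inter_cons y x a w, inter_cons x y a [], cnt_reverse,
      cnt_cons]
    by_cases h : a = y
    · simp [h]; ring
    · simp [h]

theorem inter_map {β : Type*} [DecidableEq β] {f : α → β} (hf : Function.Injective f)
    (x y : α) (w : List α) : inter (f x) (f y) (w.map f) = inter x y w := by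
  induction w with
  | nil => rfl
  | cons a w ih =>
    rw [List.map_cons, inter_cons, inter_cons, ih]
    unfold cnt
    rw [List.count_map_of_injective _ _ hf]
    simp [hf.eq_iff]

/-- Every letter that occurs, occurs exactly twice. -/
def Dbl (w : List α) : Prop := ∀ x ∈ w, w.count x = 2

theorem Dbl.cnt_eq {w : List α} (h : Dbl w) (x : α) : cnt x w = 0 := by
  by_cases hx : x ∈ w
  · unfold cnt; rw [h x hx]; decide
  · exact cnt_eq_zero hx

/-- The interlacement matrix. -/
def imat (w : List α) (x y : α) : ZMod 2 := if x = y then 0 else inter x y w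

theorem imat_self (w : List α) (x : α) : imat w x x = 0 := by simp [imat]

theorem imat_of_ne (w : List α) {x y : α} (h : x ≠ y) : imat w x y = inter x y w := by
  simp [imat, h]

theorem imat_symm {w : List α} (h : Dbl w) (x y : α) : imat w x y = imat w y x := by
  by_cases hxy : x = y
  · rw [hxy]
  · rw [imat_of_ne w hxy, imat_of_ne w (Ne.symm hxy)]
    have := inter_add_inter hxy w
    rw [h.cnt_eq x, zero_mul] at this
    exact CharTwo.add_eq_zero.1 this

/-- The parity bracket of a word. -/
noncomputable def bw (a : Fin 8 → Fin 8 → ZMod 2) (w : List α) : ZMod 2 :=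
  bracket a w.toFinset (imat w)

variable {a : Fin 8 → Fin 8 → ZMod 2}

theorem imat_rotate {u v : List α} (h : Dbl (u ++ v)) (x y : α) :
    imat (v ++ u) x y = imat (u ++ v) x y := by
  by_cases hxy : x = y
  · rw [hxy, imat_self, imat_self]
  · rw [imat_of_ne _ hxy, imat_of_ne _ hxy, inter_append, inter_append]
    have h1 := h.cnt_eq x
    have h2 := h.cnt_eq y
    rw [cnt_append] at h1 h2
    rw [CharTwo.add_eq_zero.1 h1, CharTwo.add_eq_zero.1 h2]
    ring

theorem bw_rotate {u v : List α} (h : Dbl (u ++ v)) : bw a (v ++ u) = bw a (u ++ v) := by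
  unfold bw
  have e : (v ++ u).toFinset = (u ++ v).toFinset := by
    rw [List.toFinset_append, List.toFinset_append, Finset.union_comm]
  rw [e]
  exact bracket_congr fun x _ y _ => imat_rotate h x y

theorem imat_reverse {w : List α} (h : Dbl w) (x y : α) :
    imat w.reverse x y = imat w x y := by
  by_cases hxy : x = y
  · rw [hxy, imat_self, imat_self]
  · rw [imat_symm h, imat_of_ne _ hxy, imat_of_ne _ (Ne.symm hxy), inter_reverse]

theorem bw_reverse {w : List α} (h : Dbl w) : bw a w.reverse = bw a w := by
  unfold bw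
  rw [List.toFinset_reverse]
  exact bracket_congr fun x _ y _ => imat_reverse h x y

theorem bw_map (w : List α) (e : Equiv.Perm α) : bw a (w.map e) = bw a w := by
  unfold bw
  have h1 : (w.map e).toFinset = w.toFinset.map e.toEmbedding := by
    ext x
    simp only [List.mem_toFinset, List.mem_map, Finset.mem_map, Equiv.coe_toEmbedding]
  rw [h1]
  refine bracket_map e fun x _ y _ => ?_
  unfold imat
  rw [inter_map e.injective]
  simp

theorem bw_r1 {x : α} {w : List α} (h : Dbl (x :: x :: w)) : bw a (x :: x :: w) = bw a w := by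
  have hx : x ∉ w := by
    have := h x (by simp)
    simp only [List.count_cons_self] at this
    exact List.count_eq_zero.1 (by omega)
  unfold bw
  have e : (x :: x :: w).toFinset = insert x w.toFinset := by
    ext y; simp
  have hc : ∀ u ∈ w.toFinset, ∀ v ∈ w.toFinset, imat (x :: x :: w) u v = imat w u v := by
    intro u hu v hv
    have hux : x ≠ u := by rintro rfl; exact hx (List.mem_toFinset.1 hu)
    unfold imat
    rw [inter_cons, inter_cons, if_neg hux, if_neg hux, zero_add, zero_add]
  rw [e, ← bracket_congr hc]
  refine bracket_r1 (by simpa using hx) ?_ ?_ (imat_self _ _)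
  · intro v hv
    have hvx : x ≠ v := by rintro rfl; exact hx (List.mem_toFinset.1 hv)
    rw [imat_of_ne _ hvx, inter_cons, inter_cons, cnt_cons, inter_eq_zero_left hx]
    simp only [if_true, if_neg hvx, zero_add, add_zero]
    exact CharTwo.add_self_eq_zero _
  · intro v hv
    have hvx : x ≠ v := by rintro rfl; exact hx (List.mem_toFinset.1 hv)
    rw [imat_of_ne _ hvx.symm, inter_cons, inter_cons, if_neg hvx, if_neg hvx,
      inter_eq_zero_right hx]
    simp

theorem bw_r2 (ha : TwinFree a) {x y : α} {u v s : List α} (hs : s = [x, y] ∨ s = [y, x])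
    (h : Dbl ([x, y] ++ u ++ s ++ v)) :
    bw a ([x, y] ++ u ++ s ++ v) = bw a (u ++ v) := by
  have hx2 := h x (by simp)
  have hy2 := h y (by simp)
  have hcs : ∀ z, s.count z = [x, y].count z := by
    rcases hs with rfl | rfl
    · intro z; rfl
    · intro z; rw [List.count_cons, List.count_cons, List.count_cons, List.count_cons]; ring
  simp only [List.count_append, hcs] at hx2 hy2
  have hxy : x ≠ y := by
    rintro rfl
    simp only [List.count_cons_self] at hx2
    omega
  have c1 : [x, y].count x = 1 := by
    rw [List.count_cons_self, List.count_cons_of_ne hxy.symm]; rfl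
  have c2 : [x, y].count y = 1 := by
    rw [List.count_cons_of_ne hxy, List.count_cons_self]; rfl
  rw [c1] at hx2
  rw [c2] at hy2
  have hxu : x ∉ u := List.count_eq_zero.1 (by omega)
  have hxv : x ∉ v := List.count_eq_zero.1 (by omega)
  have hyu : y ∉ u := List.count_eq_zero.1 (by omega)
  have hyv : y ∉ v := List.count_eq_zero.1 (by omega)
  have hX : ([x, y] ++ u ++ s ++ v).toFinset = insert x (insert y (u ++ v).toFinset) := by
    ext z
    rcases hs with rfl | rfl <;> simp <;> tauto
  have hcnt : ∀ z, cnt z s = cnt z [x, y] := by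
    intro z; unfold cnt; rw [hcs]
  have cx : cnt x [x, y] = 1 := by unfold cnt; rw [c1]; rfl
  have cy : cnt y [x, y] = 1 := by unfold cnt; rw [c2]; rfl
  have c0 : ∀ z, z ≠ x → z ≠ y → cnt z [x, y] = 0 := by
    intro z h1 h2; exact cnt_eq_zero (by simp [h1, h2])
  have hns : ∀ z, z ≠ x → z ≠ y → z ∉ s := by
    intro z h1 h2; rcases hs with rfl | rfl <;> simp [h1, h2]
  unfold bw
  have hc : ∀ p ∈ (u ++ v).toFinset, ∀ q ∈ (u ++ v).toFinset,
      imat ([x, y] ++ u ++ s ++ v) p q = imat (u ++ v) p q := by
    intro p hp q hq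
    have hp' := List.mem_toFinset.1 hp
    have hpx : p ≠ x := by
      rintro rfl; exact (List.mem_append.1 hp').elim hxu hxv
    have hpy : p ≠ y := by
      rintro rfl; exact (List.mem_append.1 hp').elim hyu hyv
    have hq' := List.mem_toFinset.1 hq
    have hqx : q ≠ x := by
      rintro rfl; exact (List.mem_append.1 hq').elim hxu hxv
    have hqy : q ≠ y := by
      rintro rfl; exact (List.mem_append.1 hq').elim hyu hyv
    by_cases hpq : p = q
    · rw [hpq, imat_self, imat_self]
    rw [imat_of_ne _ hpq, imat_of_ne _ hpq]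
    simp only [inter_append, cnt_append, hcnt, c0 p hpx hpy, c0 q hqx hqy,
      inter_eq_zero_left (hns p hpx hpy)]
    rw [inter_eq_zero_left (u := [x, y]) (by simp [hpx, hpy])]
    ring
  rw [hX, ← bracket_congr hc]
  refine bracket_r2 ha (imat_symm h) (imat_self _) ?_ ?_ hxy ?_
  · simp [hxu, hxv]
  · simp [hyu, hyv]
  · intro p hp
    have hp' := List.mem_toFinset.1 hp
    have hpx : p ≠ x := by
      rintro rfl; exact (List.mem_append.1 hp').elim hxu hxv
    have hpy : p ≠ y := by
      rintro rfl; exact (List.mem_append.1 hp').elim hyu hyv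
    rw [imat_of_ne _ hpx.symm, imat_of_ne _ hpy.symm]
    simp only [inter_append, cnt_append, hcnt, c0 p hpx hpy, cx, cy,
      inter_eq_zero_right (hns p hpx hpy), inter_eq_zero_left hxu, inter_eq_zero_left hxv,
      inter_eq_zero_left hyu, inter_eq_zero_left hyv, cnt_eq_zero hxu, cnt_eq_zero hyu]
    rw [inter_eq_zero_right (u := [x, y]) (by simp [hpx, hpy]),
      inter_eq_zero_right (u := [x, y]) (by simp [hpx, hpy])]

/-- Reversing three subwords. -/
theorem inter_triple {x y : α} (hxy : x ≠ y) (s1 s2 s3 u v z : List α) :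
    inter x y (s1.reverse ++ u ++ s2.reverse ++ v ++ s3.reverse ++ z) =
      inter x y (s1 ++ u ++ s2 ++ v ++ s3 ++ z) +
        (cnt x s1 * cnt y s1 + cnt x s2 * cnt y s2 + cnt x s3 * cnt y s3) := by
  have e : ∀ s : List α, inter x y s.reverse = inter x y s + cnt x s * cnt y s := by
    intro s
    rw [inter_reverse, ← inter_add_inter hxy, ← add_assoc, CharTwo.add_self_eq_zero, zero_add]
  simp only [inter_append, cnt_append, cnt_reverse, e]
  ring

theorem Dbl.not_mem {w : List α} (h : Dbl w) {x : α} {l : List α}
    (hc : w.count x = 2 + l.count x) (hx : x ∈ w) : x ∉ l := by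
  have := h x hx
  exact List.count_eq_zero.1 (by omega)

theorem bw_r3 (ha : TwinFree a) {x y w : α} {s1 s2 s3 u v z : List α}
    (h1 : s1 = [x, y] ∨ s1 = [y, x]) (h2 : s2 = [x, w] ∨ s2 = [w, x])
    (h3 : s3 = [y, w] ∨ s3 = [w, y])
    (h : Dbl (s1 ++ u ++ s2 ++ v ++ s3 ++ z)) :
    bw a (s1 ++ u ++ s2 ++ v ++ s3 ++ z) =
      bw a (s1.reverse ++ u ++ s2.reverse ++ v ++ s3.reverse ++ z) := by
  have k1 : ∀ t, s1.count t = [x, y].count t := by
    rcases h1 with rfl | rfl
    · intro t; rfl
    · intro t; simp only [List.count_cons]; ring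
  have k2 : ∀ t, s2.count t = [x, w].count t := by
    rcases h2 with rfl | rfl
    · intro t; rfl
    · intro t; simp only [List.count_cons]; ring
  have k3 : ∀ t, s3.count t = [y, w].count t := by
    rcases h3 with rfl | rfl
    · intro t; rfl
    · intro t; simp only [List.count_cons]; ring
  have hx := h x (by rcases h1 with rfl | rfl <;> simp)
  have hy := h y (by rcases h1 with rfl | rfl <;> simp)
  have hw := h w (by rcases h2 with rfl | rfl <;> simp)
  simp only [List.count_append, k1, k2, k3, List.count_cons, List.count_nil, beq_iff_eq,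
    if_true] at hx hy hw
  have hxy : x ≠ y := by
    rintro rfl; simp at hx hy hw; omega
  have hxw : x ≠ w := by
    rintro rfl; simp at hx hy hw; omega
  have hyw : y ≠ w := by
    rintro rfl; simp at hx hy hw; omega
  simp only [hxy, hxw, hyw, hxy.symm, hxw.symm, hyw.symm, if_false] at hx hy hw
  have hxX : x ∉ u ++ v ++ z := by
    simp only [List.mem_append, not_or]
    exact ⟨⟨List.count_eq_zero.1 (by omega), List.count_eq_zero.1 (by omega)⟩,
      List.count_eq_zero.1 (by omega)⟩
  have hyX : y ∉ u ++ v ++ z := by
    simp only [List.mem_append, not_or]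
    exact ⟨⟨List.count_eq_zero.1 (by omega), List.count_eq_zero.1 (by omega)⟩,
      List.count_eq_zero.1 (by omega)⟩
  have hwX : w ∉ u ++ v ++ z := by
    simp only [List.mem_append, not_or]
    exact ⟨⟨List.count_eq_zero.1 (by omega), List.count_eq_zero.1 (by omega)⟩,
      List.count_eq_zero.1 (by omega)⟩
  have hX : (s1 ++ u ++ s2 ++ v ++ s3 ++ z).toFinset =
      insert x (insert y (insert w (u ++ v ++ z).toFinset)) := by
    ext t
    rcases h1 with rfl | rfl <;> rcases h2 with rfl | rfl <;> rcases h3 with rfl | rfl <;>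
      simp <;> tauto
  have hX' : (s1.reverse ++ u ++ s2.reverse ++ v ++ s3.reverse ++ z).toFinset =
      insert x (insert y (insert w (u ++ v ++ z).toFinset)) := by
    ext t
    rcases h1 with rfl | rfl <;> rcases h2 with rfl | rfl <;> rcases h3 with rfl | rfl <;>
      simp <;> tauto
  have hB : Dbl (s1.reverse ++ u ++ s2.reverse ++ v ++ s3.reverse ++ z) := by
    intro t ht
    have : (s1.reverse ++ u ++ s2.reverse ++ v ++ s3.reverse ++ z).count t =
        (s1 ++ u ++ s2 ++ v ++ s3 ++ z).count t := by
      simp only [List.count_append, List.count_reverse]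
    rw [this]
    apply h
    simpa only [List.mem_append, List.mem_reverse] using ht
  -- values of `cnt`
  have m1 : ∀ t, cnt t s1 = (if x = t then 1 else 0) + (if y = t then 1 else 0) := by
    intro t; unfold cnt; rw [k1]
    simp only [List.count_cons, List.count_nil, beq_iff_eq]; push_cast; ring
  have m2 : ∀ t, cnt t s2 = (if x = t then 1 else 0) + (if w = t then 1 else 0) := by
    intro t; unfold cnt; rw [k2]
    simp only [List.count_cons, List.count_nil, beq_iff_eq]; push_cast; ring
  have m3 : ∀ t, cnt t s3 = (if y = t then 1 else 0) + (if w = t then 1 else 0) := by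
    intro t; unfold cnt; rw [k3]
    simp only [List.count_cons, List.count_nil, beq_iff_eq]; push_cast; ring
  unfold bw
  rw [hX, hX']
  apply bracket_r3 ha
  refine ⟨by simpa using hxX, by simpa using hyX, by simpa using hwX, hxy, hxw, hyw,
    imat_symm h, imat_self _, imat_symm hB, imat_self _, ?_, ?_, ?_, ?_, ?_⟩
  · intro p hp
    have hp' := List.mem_toFinset.1 hp
    have hpx : p ≠ x := by rintro rfl; exact hxX hp'
    have hpy : p ≠ y := by rintro rfl; exact hyX hp'
    have hpw : p ≠ w := by rintro rfl; exact hwX hp'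
    rw [imat_of_ne _ hpx, imat_of_ne _ hpy, imat_of_ne _ hpw]
    have n1 : p ∉ s1 := by rcases h1 with rfl | rfl <;> simp [hpx, hpy]
    have n2 : p ∉ s2 := by rcases h2 with rfl | rfl <;> simp [hpx, hpw]
    have n3 : p ∉ s3 := by rcases h3 with rfl | rfl <;> simp [hpy, hpw]
    simp only [List.mem_append, not_or] at hxX hyX hwX
    simp only [inter_append, cnt_append, inter_eq_zero_left n1, inter_eq_zero_left n2,
      inter_eq_zero_left n3, cnt_eq_zero n1, cnt_eq_zero n2, cnt_eq_zero n3,
      inter_eq_zero_right hxX.1.1, inter_eq_zero_right hxX.1.2, inter_eq_zero_right hxX.2,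
      inter_eq_zero_right hyX.1.1, inter_eq_zero_right hyX.1.2, inter_eq_zero_right hyX.2,
      inter_eq_zero_right hwX.1.1, inter_eq_zero_right hwX.1.2, inter_eq_zero_right hwX.2,
      cnt_eq_zero hxX.1.1, cnt_eq_zero hxX.1.2, cnt_eq_zero hxX.2,
      cnt_eq_zero hyX.1.1, cnt_eq_zero hyX.1.2, cnt_eq_zero hyX.2,
      cnt_eq_zero hwX.1.1, cnt_eq_zero hwX.1.2, cnt_eq_zero hwX.2, m2, m3]
    simp only [hxy, hxw, hyw, hxy.symm, hxw.symm, hyw.symm, if_true, if_false]
    generalize cnt p u = r1
    generalize cnt p v = r2
    clear * -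
    revert r1 r2
    decide
  · rw [imat_of_ne _ hxy, imat_of_ne _ hxy, inter_triple hxy, m1, m1, m2, m2, m3, m3]
    simp only [hxy, hxw, hyw, hxy.symm, hxw.symm, hyw.symm, if_true, if_false]
    ring
  · rw [imat_of_ne _ hxw, imat_of_ne _ hxw, inter_triple hxw, m1, m1, m2, m2, m3, m3]
    simp only [hxy, hxw, hyw, hxy.symm, hxw.symm, hyw.symm, if_true, if_false]
    ring
  · rw [imat_of_ne _ hyw, imat_of_ne _ hyw, inter_triple hyw, m1, m1, m2, m2, m3, m3]
    simp only [hxy, hxw, hyw, hxy.symm, hxw.symm, hyw.symm, if_true, if_false]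
    ring
  · intro p hp q
    have hp' := List.mem_toFinset.1 hp
    have hpx : x ≠ p := by rintro rfl; exact hxX hp'
    have hpy : y ≠ p := by rintro rfl; exact hyX hp'
    have hpw : w ≠ p := by rintro rfl; exact hwX hp'
    by_cases hpq : p = q
    · rw [hpq, imat_self, imat_self]
    · rw [imat_of_ne _ hpq, imat_of_ne _ hpq, inter_triple hpq, m1 p, m2 p, m3 p]
      simp only [hpx, hpy, hpw, if_false]
      ring

end Pool.Agent.MP_ea99c2_gt
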