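import Pool.Agent.MP_ea99c2_gt.Trace
import Pool.Agent.MP_ea99c2_gt.Words

/-!
# Smoothing a crossing of a mosaic
-/

set_option linter.unusedVariables false

namespace Pool.Agent.MP_ea99c2_gt

theorem chain_transf {α : Type*} {R S : α → α → Prop} {φ : α → α} {b b' : α} :
    ∀ (C : List α) (a a' : α), (a :: C ++ [b]).IsChain R →
      (∀ x ∈ C, ∀ y ∈ C, R x y → S (φ y) (φ x)) → (∀ y ∈ C, R a y → S (φ y) a') →
      (∀ x ∈ C, R x b → S b' (φ x)) → (R a b → S b' a') →
      (b' :: (C.map φ).reverse ++ [a']).IsChain S := by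
  intro C
  induction C with
  | nil =>
    intro a a' h h1 h2 h3 h4
    simp only [List.cons_append, List.nil_append, List.isChain_pair] at h
    simpa using h4 h
  | cons c C ih =>
    intro a a' h h1 h2 h3 h4
    rw [List.cons_append, List.cons_append, List.isChain_cons_cons] at h
    have := ih c (φ c) h.2 (fun x hx y hy => h1 x (List.mem_cons_of_mem _ hx) y
      (List.mem_cons_of_mem _ hy)) (fun y hy => h1 c (by simp) y (List.mem_cons_of_mem _ hy))
      (fun x hx => h3 x (List.mem_cons_of_mem _ hx)) (h3 c (by simp))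
    have h5 := h2 c (by simp) h.1
    have e : b' :: ((c :: C).map φ).reverse ++ [a'] =
        (b' :: (C.map φ).reverse) ++ φ c :: [a'] := by simp
    rw [e, List.isChain_split]
    exact ⟨by simpa using this, by simpa using h5⟩

namespace Mosaic

variable {D : Mosaic}

theorem setTile_exit_of_ne {i j : ℕ} {t : Tile} {h1 h2} {e : CellSide}
    (he : ¬ (e.1 = i ∧ e.2.1 = j)) : (D.setTile i j t h1 h2).exit e = D.exit e := by
  unfold exit setTile
  simp only [if_neg he]

theorem setTile_exit_self {i j : ℕ} {t : Tile} {h1 h2} {s s' : Side} (h : t.conn s = some s') :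
    (D.setTile i j t h1 h2).exit (i, j, s) = some (i, j, s') := by
  unfold exit setTile
  simp [h]

theorem smoothTile {s s' : Side} (h1 : s' ≠ s) (h2 : s' ≠ s.opp) :
    ∃ t : Tile, (t = .t7 ∨ t = .t8) ∧ t.conn s = some s' ∧ t.conn s.opp = some s'.opp := by
  cases s <;> cases s' <;> simp [Side.opp, Tile.conn] at *

theorem surgery {l : List CellSide} (h : D.IsTrace l) {i j : ℕ} (hi : i < D.rows)
    (hj : j < D.cols) (hx : isX (D.tile i j) = true) :
    ∃ (u v : List CellSide), l = u ++ v ∧ ∃ (D' : Mosaic) (l' : List CellSide),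
      D'.rows = D.rows ∧ D'.cols = D.cols ∧ D'.pair = D.pair ∧ D'.IsTrace l' ∧
      (∀ i' j', ¬ (i' = i ∧ j' = j) → D'.tile i' j' = D.tile i' j') ∧
      (D'.tile i j = .t7 ∨ D'.tile i j = .t8) ∧
      ∃ B C : List (ℕ × ℕ), D.cw (v ++ u) = (i, j) :: B ++ (i, j) :: C ∧
        D'.cw l' = B ++ C.reverse := by
  have hex : ∀ s, D.exit (i, j, s) = some (i, j, s.opp) := by
    intro s; unfold exit; simp [isX_conn hx s]
  have hX := h.2.2.2.2
  obtain ⟨s, hs, hsl, hsl'⟩ : ∃ s : Side, (s = .west ∨ s = .east) ∧ (i, j, s) ∈ l ∧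
      (i, j, s.opp) ∉ l := by
    rcases hX (i, j, .west) ⟨hi, hj⟩ _ (hex _) with h1 | h1
    · exact ⟨.west, Or.inl rfl, h1.1, h1.2⟩
    · exact ⟨.east, Or.inr rfl, h1.1, h1.2⟩
  obtain ⟨s', hs', htl, htl'⟩ : ∃ s : Side, (s = .north ∨ s = .south) ∧ (i, j, s) ∈ l ∧
      (i, j, s.opp) ∉ l := by
    rcases hX (i, j, .north) ⟨hi, hj⟩ _ (hex _) with h1 | h1
    · exact ⟨.north, Or.inl rfl, h1.1, h1.2⟩
    · exact ⟨.south, Or.inr rfl, h1.1, h1.2⟩
  have hne : s' ≠ s := by rcases hs with rfl | rfl <;> rcases hs' with rfl | rfl <;> decide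
  have hne' : s' ≠ s.opp := by rcases hs with rfl | rfl <;> rcases hs' with rfl | rfl <;> decide
  have hall : ∀ r : Side, r = s ∨ r = s.opp ∨ r = s' ∨ r = s'.opp := by
    intro r
    rcases hs with rfl | rfl <;> rcases hs' with rfl | rfl <;> cases r <;> simp [Side.opp]
  have hs'ne : s'.opp ≠ s' := by rcases hs' with rfl | rfl <;> decide
  have hsne : s.opp ≠ s := by rcases hs with rfl | rfl <;> decide
  have hne2 : s ≠ s'.opp := by rcases hs with rfl | rfl <;> rcases hs' with rfl | rfl <;> decide
  have hne3 : s.opp ≠ s'.opp := by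
    rcases hs with rfl | rfl <;> rcases hs' with rfl | rfl <;> decide
  obtain ⟨u, v, rfl⟩ := List.append_of_mem hsl
  refine ⟨u, (i, j, s) :: v, rfl, ?_⟩
  have hr := IsTrace.rotate h
  have hm : ∀ e, e ∈ u ++ (i, j, s) :: v ↔ e ∈ ((i, j, s) :: v) ++ u := by
    intro e; rw [List.mem_append, List.mem_append, or_comm]
  simp only [hm] at hsl hsl' htl htl'
  have htM : (i, j, s') ∈ v ++ u := by
    rw [List.cons_append, List.mem_cons] at htl
    rcases htl with h1 | h1
    · exact absurd (by simpa using h1) hne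
    · exact h1
  obtain ⟨B, C, hBC⟩ := List.append_of_mem htM
  rw [List.cons_append, hBC] at hr hsl' htl'
  rw [List.cons_append, hBC]
  clear hm hsl htl htM h hX hBC
  obtain ⟨h1, h2, h3, h4, h5⟩ := id hr
  obtain ⟨t, ht, ht1, ht2⟩ := smoothTile hne hne'
  have ht3 := conn_symm ht1
  have ht4 := conn_symm ht2
  have hts : ∀ r, (t.conn r).isSome := by
    intro r
    rcases ht with rfl | rfl <;> cases r <;> rfl
  have hDs : ∀ r, ((D.tile i j).conn r).isSome := by
    intro r; rw [isX_conn hx]; rfl
  set D' := D.setTile i j t hts hDs with hD'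
  -- elements of `B` and `C` are outside of the cell
  have hmem : ∀ e, e ∈ (i, j, s) :: (B ++ (i, j, s') :: C) ↔
      e = (i, j, s) ∨ e ∈ B ∨ e = (i, j, s') ∨ e ∈ C := by
    intro e; simp [List.mem_append]
  have hnd := h2
  rw [List.nodup_cons, List.nodup_append, List.nodup_cons] at hnd
  obtain ⟨n1, n2, ⟨n3, n4⟩, n5⟩ := hnd
  have n1' : (i, j, s) ∉ B ∧ (i, j, s) ≠ (i, j, s') ∧ (i, j, s) ∉ C := by
    simpa [List.mem_append, not_or] using n1
  have n6 : ∀ e ∈ B, e ≠ (i, j, s') := fun e he => n5 e he _ (by simp)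
  have n7 : ∀ e ∈ B, e ∉ C := fun e he hc => n5 e he _ (List.mem_cons_of_mem _ hc) rfl
  rw [hmem] at hsl' htl'
  simp only [not_or] at hsl' htl'
  have hBn : ∀ e ∈ B, ¬ (e.1 = i ∧ e.2.1 = j) := by
    rintro ⟨i', j', r⟩ he ⟨rfl, rfl⟩
    rcases hall r with rfl | rfl | rfl | rfl
    · exact n1'.1 he
    · exact hsl'.2.1 he
    · exact n6 _ he rfl
    · exact htl'.2.1 he
  have hCn : ∀ e ∈ C, ¬ (e.1 = i ∧ e.2.1 = j) := by
    rintro ⟨i', j', r⟩ he ⟨rfl, rfl⟩
    rcases hall r with rfl | rfl | rfl | rfl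
    · exact n1'.2.2 he
    · exact hsl'.2.2.2 he
    · exact n3 he
    · exact htl'.2.2.2 he
  have hexC : ∀ e ∈ C, D.exit e = some (D.ex e) ∧ D.exit (D.ex e) = some e ∧
      D.ex (D.ex e) = e := fun e he => hr.exit_mem ((hmem e).2 (by simp [he]))
  have hCn' : ∀ e ∈ C, ¬ ((D.ex e).1 = i ∧ (D.ex e).2.1 = j) := by
    intro e he
    have := exit_cell (hexC e he).1
    rw [this.1, this.2]
    exact hCn e he
  have hnextC : ∀ e, ¬ (e.1 = i ∧ e.2.1 = j) → D'.next e = D.next e := by
    intro e he
    unfold next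
    rw [hD', setTile_exit_of_ne he]
    rfl
  have hg : glue D'.rows D'.cols D'.pair = glue D.rows D.cols D.pair := rfl
  have hch : ((i, j, s) :: B ++ (i, j, s') :: (C ++ [(i, j, s)])).IsChain
      (fun e e' => D.next e = some e') := by
    have := h4
    simpa using this
  rw [List.isChain_split] at hch
  obtain ⟨hc1, hc2⟩ := hch
  have hch1 : ((i, j, s'.opp) :: B ++ [(i, j, s')]).IsChain
      (fun e e' => D'.next e = some e') := by
    rw [List.cons_append, List.isChain_cons] at hc1 ⊢
    refine ⟨fun y hy => ?_, ?_⟩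
    · have := hc1.1 y hy
      unfold next at this ⊢
      rw [hex] at this
      rw [hD', setTile_exit_self ht4, ← hD', hg]
      exact this
    · clear hc2
      have h6 : ∀ x ∈ B, D'.next x = D.next x := fun x hx => hnextC x (hBn x hx)
      revert h6
      have h7 := hc1.2
      revert h7
      generalize (i, j, s') = z
      generalize hBB : B = B0
      clear hBB
      intro h7 h6
      induction B0 with
      | nil => simp
      | cons b B0 ih =>
        rw [List.cons_append, List.isChain_cons] at h7 ⊢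
        refine ⟨fun y hy => ?_, ih h7.2 fun x hx => h6 x (List.mem_cons_of_mem _ hx)⟩
        rw [h6 b (by simp)]
        exact h7.1 y hy
  have hch2 : ((i, j, s') :: (C.map D.ex).reverse ++ [(i, j, s'.opp)]).IsChain
      (fun e e' => D'.next e = some e') := by
    have hgl : ∀ x y, InGrid D.rows D.cols x → D.next x = some y → D.exit x = some (D.ex x) →
        glue D.rows D.cols D.pair y = D.ex x := by
      intro x y hxg hxy hxx
      rw [next_eq] at hxy
      obtain ⟨z, hz, hzy⟩ := hxy
      rw [hxx] at hz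
      rw [← hzy, ← Option.some.inj hz]
      exact D.glue_glue (exit_inGrid hxx hxg)
    have hCg : ∀ e ∈ C, InGrid D.rows D.cols e := fun e he => h3 e ((hmem e).2 (by simp [he]))
    have hsx : D.ex (i, j, s') = (i, j, s'.opp) := by unfold ex; rw [hex]; rfl
    refine chain_transf (R := fun e e' => D.next e = some e') C (i, j, s') (i, j, s'.opp)
      hc2 ?_ ?_ ?_ ?_
    · intro x hx y hy hxy
      rw [hnextC _ (hCn' y hy)]
      rw [next_eq]
      exact ⟨y, (hexC y hy).2.1, hgl x y (hCg x hx) hxy (hexC x hx).1⟩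
    · intro y hy hxy
      rw [hnextC _ (hCn' y hy)]
      rw [next_eq]
      refine ⟨y, (hexC y hy).2.1, ?_⟩
      rw [← hsx]
      exact hgl _ y ⟨hi, hj⟩ hxy (by rw [hsx]; exact hex _)
    · intro x hx hxy
      have : D'.exit (i, j, s') = some (i, j, s) := setTile_exit_self ht3
      unfold next
      rw [this, hg]
      have := hgl x _ (hCg x hx) hxy (hexC x hx).1
      rw [← this]; rfl
    · intro hxy
      have : D'.exit (i, j, s') = some (i, j, s) := setTile_exit_self ht3
      unfold next
      rw [this, hg]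
      have := hgl (i, j, s') _ ⟨hi, hj⟩ hxy (by rw [hsx]; exact hex _)
      rw [← hsx, ← this]; rfl
  have hmem' : ∀ e, e ∈ (i, j, s'.opp) :: (B ++ (i, j, s') :: (C.map D.ex).reverse) ↔
      e = (i, j, s'.opp) ∨ e ∈ B ∨ e = (i, j, s') ∨ ∃ c ∈ C, D.ex c = e := by
    intro e; simp [List.mem_append]
  refine ⟨D', (i, j, s'.opp) :: (B ++ (i, j, s') :: (C.map D.ex).reverse), rfl, rfl, rfl,
    ⟨by simp, ?_, ?_, ?_, ?_⟩, ?_, ?_, ?_⟩
  · -- nodup
    rw [List.nodup_cons, List.nodup_append, List.nodup_cons]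
    refine ⟨?_, n2, ⟨?_, ?_⟩, ?_⟩
    · simp only [List.mem_append, List.mem_cons, not_or, List.mem_reverse, List.mem_map, not_exists,
        not_and]
      refine ⟨fun hb => hBn _ hb ⟨rfl, rfl⟩, ?_, ?_⟩
      · intro e; simp only [Prod.mk.injEq, true_and] at e; exact hs'ne e
      · intro c hc e
        exact hCn' c hc (by rw [e]; exact ⟨rfl, rfl⟩)
    · simp only [List.mem_reverse, List.mem_map, not_exists, not_and]
      intro c hc e
      exact hCn' c hc (by rw [e]; exact ⟨rfl, rfl⟩)
    · rw [List.nodup_reverse]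
      refine List.Nodup.map_on ?_ n4
      intro x hx y hy hxy
      rw [← (hexC x hx).2.2, hxy, (hexC y hy).2.2]
    · intro b hb c hc
      rw [List.mem_cons] at hc
      rcases hc with rfl | hc
      · exact n6 b hb
      · simp only [List.mem_reverse, List.mem_map] at hc
        obtain ⟨c, hc, rfl⟩ := hc
        rintro rfl
        have := h5 c (h3 c ((hmem c).2 (by simp [hc]))) _ (hexC c hc).1
        rcases this with h6 | h6
        · exact h6.2 ((hmem _).2 (Or.inr (Or.inl hb)))
        · exact h6.2 ((hmem _).2 (by simp [hc]))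
  · intro e he
    rw [hmem'] at he
    change InGrid D.rows D.cols e
    rcases he with rfl | he | rfl | ⟨c, hc, rfl⟩
    · exact ⟨hi, hj⟩
    · exact h3 e ((hmem e).2 (by simp [he]))
    · exact ⟨hi, hj⟩
    · exact exit_inGrid (hexC c hc).1 (h3 c ((hmem c).2 (by simp [hc])))
  · -- chain
    have : ((i, j, s'.opp) :: B ++ (i, j, s') :: ((C.map D.ex).reverse ++ [(i, j, s'.opp)])).IsChain
        (fun e e' => D'.next e = some e') := by
      rw [List.isChain_split]
      exact ⟨hch1, by simpa using hch2⟩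
    simpa using this
  · intro e he e' hee
    rw [hmem', hmem']
    by_cases hcell : e.1 = i ∧ e.2.1 = j
    · obtain ⟨i', j', r⟩ := e
      obtain ⟨rfl, rfl⟩ : i' = i ∧ j' = j := hcell
      have hno : ∀ r', ¬ ((i', j', r') ∈ B) := fun r' hb => hBn _ hb ⟨rfl, rfl⟩
      have hno' : ∀ r', ¬ (∃ c ∈ C, D.ex c = (i', j', r')) := by
        rintro r' ⟨c, hc, e⟩
        exact hCn' c hc (by rw [e]; exact ⟨rfl, rfl⟩)
      have hform : ∀ r', ((i', j', r') = (i', j', s'.opp) ∨ (i', j', r') ∈ B ∨
          (i', j', r') = (i', j', s') ∨ ∃ c ∈ C, D.ex c = (i', j', r')) ↔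
          (r' = s'.opp ∨ r' = s') := by
        intro r'
        have a1 := hno r'
        have a2 := hno' r'
        constructor
        · rintro (h | h | h | h)
          · left; simpa using h
          · exact absurd h a1
          · right; simpa using h
          · exact absurd h a2
        · rintro (rfl | rfl)
          · exact Or.inl rfl
          · exact Or.inr (Or.inr (Or.inl rfl))
      rcases hall r with rfl | rfl | rfl | rfl
      · rw [setTile_exit_self ht1] at hee
        obtain rfl := Option.some.inj hee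
        rw [hform, hform]
        right
        exact ⟨Or.inr rfl, by rintro (h | h); exacts [hne2 h, hne h.symm]⟩
      · rw [setTile_exit_self ht2] at hee
        obtain rfl := Option.some.inj hee
        rw [hform, hform]
        right
        exact ⟨Or.inl rfl, by rintro (h | h); exacts [hne3 h, hne' h.symm]⟩
      · rw [setTile_exit_self ht3] at hee
        obtain rfl := Option.some.inj hee
        rw [hform, hform]
        left
        exact ⟨Or.inr rfl, by rintro (h | h); exacts [hne2 h, hne h.symm]⟩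
      · rw [setTile_exit_self ht4] at hee
        obtain rfl := Option.some.inj hee
        rw [hform, hform]
        left
        exact ⟨Or.inl rfl, by rintro (h | h); exacts [hne3 h, hne' h.symm]⟩
    · have hee' : D.exit e = some e' := by rwa [hD', setTile_exit_of_ne hcell] at hee
      have hc' : ¬ (e'.1 = i ∧ e'.2.1 = j) := by
        rw [(exit_cell hee').1, (exit_cell hee').2]; exact hcell
      have e1 : ∀ x : CellSide, ∀ r, ¬ (x.1 = i ∧ x.2.1 = j) → x ≠ (i, j, r) := by
        rintro x r h rfl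
        exact h ⟨rfl, rfl⟩
      have f1 : ∀ x y, D.exit x = some y → ((∃ c ∈ C, D.ex c = x) ↔ y ∈ C) := by
        intro x y hxy
        constructor
        · rintro ⟨c, hc, rfl⟩
          have := (hexC c hc).2.1
          rw [this] at hxy
          rw [← Option.some.inj hxy]; exact hc
        · intro hy
          refine ⟨y, hy, ?_⟩
          unfold ex; rw [exit_symm hxy]; rfl
      have key := h5 e he e' hee'
      rw [hmem, hmem] at key
      rw [f1 e e' hee', f1 e' e (exit_symm hee')]
      have a1 := e1 e s hcell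
      have a2 := e1 e s' hcell
      have a3 := e1 e s'.opp hcell
      have a4 := e1 e' s hc'
      have a5 := e1 e' s' hc'
      have a6 := e1 e' s'.opp hc'
      have a7 := n7 e
      have a8 := n7 e'
      have g1 : (e = (i, j, s'.opp) ∨ e ∈ B ∨ e = (i, j, s') ∨ e' ∈ C) ↔ (e ∈ B ∨ e' ∈ C) := by
        simp only [a2, a3, false_or]
      have g2 : (e' = (i, j, s'.opp) ∨ e' ∈ B ∨ e' = (i, j, s') ∨ e ∈ C) ↔ (e' ∈ B ∨ e ∈ C) := by
        simp only [a5, a6, false_or]
      have g3 : (e = (i, j, s) ∨ e ∈ B ∨ e = (i, j, s') ∨ e ∈ C) ↔ (e ∈ B ∨ e ∈ C) := by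
        simp only [a1, a2, false_or]
      have g4 : (e' = (i, j, s) ∨ e' ∈ B ∨ e' = (i, j, s') ∨ e' ∈ C) ↔ (e' ∈ B ∨ e' ∈ C) := by
        simp only [a4, a5, false_or]
      rw [g1, g2]
      rw [g3, g4] at key
      clear g1 g2 g3 g4 a1 a2 a3 a4 a5 a6 hee hee' hc' hcell
      rcases key with ⟨h | h, h'⟩ | ⟨h | h, h'⟩
      · exact Or.inl ⟨Or.inl h, fun h2 => h2.elim (fun h3 => h' (Or.inl h3)) (a7 h)⟩
      · exact Or.inr ⟨Or.inr h, fun h2 => h2.elim (fun h3 => a7 h3 h) (fun h3 => h' (Or.inr h3))⟩
      · exact Or.inr ⟨Or.inl h, fun h2 => h2.elim (fun h3 => h' (Or.inl h3)) (a8 h)⟩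
      · exact Or.inl ⟨Or.inr h, fun h2 => h2.elim (fun h3 => a8 h3 h) (fun h3 => h' (Or.inr h3))⟩
  · intro i' j' hij
    change (if i' = i ∧ j' = j then t else D.tile i' j') = _
    rw [if_neg hij]
  · change (if i = i ∧ j = j then t else D.tile i j) = _ ∨
      (if i = i ∧ j = j then t else D.tile i j) = _
    simpa using ht
  · refine ⟨D.cw B, D.cw C, ?_, ?_⟩
    · have e1 : ∀ (s : Side) (L : List CellSide), D.cw ((i, j, s) :: L) = (i, j) :: D.cw L := by
        intro s L
        unfold cw
        rw [List.filter_cons_of_pos (by simpa using hx)]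
        rfl
      rw [e1, cw_append, e1]
      rfl
    · have htX : isX t = false := by rcases ht with rfl | rfl <;> rfl
      have e1 : ∀ (s : Side) (L : List CellSide), D'.cw ((i, j, s) :: L) = D'.cw L := by
        intro s L
        unfold cw
        rw [List.filter_cons_of_neg]
        simp [hD', setTile, htX]
      have e2 : ∀ L : List CellSide, (∀ e ∈ L, ¬ (e.1 = i ∧ e.2.1 = j)) → D'.cw L = D.cw L := by
        intro L hL
        have : ∀ e ∈ L, D'.tile e.1 e.2.1 = D.tile e.1 e.2.1 := by
          intro e he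
          change (if e.1 = i ∧ e.2.1 = j then t else D.tile e.1 e.2.1) = _
          rw [if_neg (hL e he)]
        unfold cw
        congr 1
        apply List.filter_congr
        intro e he
        rw [this e he]
      rw [e1, cw_append, e1, e2 B hBn, cw_reverse, e2 (C.map D.ex), cw_map_ex]
      · exact fun e he => (hexC e he).1
      · intro e he
        rw [List.mem_map] at he
        obtain ⟨c, hc, rfl⟩ := he
        exact hCn' c hc

end Mosaic

end Pool.Agent.MP_ea99c2_gt
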