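import Pool.Agent.MP_ea99c2_gt.Rows

/-!
# The boards
-/

set_option linter.style.longLine false

namespace Pool.Agent.MP_ea99c2_gt

/-- A board with a hole (a cell without crossing): the number of the hole, the table of exits and
the cell side where the search starts. -/
structure Bd where
  hole : ℕ
  out : ℕ
  start : ℕ

/-! ### Symmetries -/

def tp : Side → Side
  | .north => .west
  | .west => .north
  | .east => .south
  | .south => .east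

def vp : Side → Side
  | .north => .south
  | .south => .north
  | .east => .east
  | .west => .west

def hp : Side → Side
  | .north => .north
  | .south => .south
  | .east => .west
  | .west => .east

def scode : Side → ℕ
  | .north => 0
  | .east => 1
  | .south => 2
  | .west => 3

def sdecode (k : ℕ) : Side :=
  if k = 0 then .north else if k = 1 then .east else if k = 2 then .south else .west

def fside (tr v h : Bool) (s : Side) : Side :=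
  let s1 := cond tr (tp s) s
  let s2 := cond v (vp s1) s1
  cond h (hp s2) s2

def fidx (tr v h : Bool) (m n i j : ℕ) : ℕ :=
  (cond v (m - 1 - cond tr j i) (cond tr j i)) * n + (cond h (n - 1 - cond tr i j) (cond tr i j))

def fsc (tr v h : Bool) (s : Side) : ℕ := scode (fside tr v h s)

def fdec (tr v h : Bool) (m n d : ℕ) : CellSide :=
  let a := cond v (m - 1 - d / 4 / n) (d / 4 / n)
  let b := cond h (n - 1 - d / 4 % n) (d / 4 % n)
  let s := sdecode (d % 4)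
  let s1 := cond h (hp s) s
  let s2 := cond v (vp s1) s1
  let s3 := cond tr (tp s2) s2
  cond tr (b, a, s3) (a, b, s3)

/-! ### Tables -/

def nx9 : ℕ := 1671691237440965699591529452969080193275922435768320045428006202040638243794

def ent9 : ℕ := 9319035606517783186826460718828267330558776634040700731925747798384492053477281705711679641168199427457794

def rt9 : ℕ := 24238376461179724508326661185

def nx8 : ℕ := 5383378351873988223777124603440055474974551482760806196449121403856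

def ent8 : ℕ := 568788794343125663276341836646249968501450306865759960910485351498799212682476389063750082310858507010

def rt8 : ℕ := 21174442659472880612543553

def nx24 : ℕ := 5376738986018705032904926722173209512425017355883706033729167426505

def ent24 : ℕ := 12223226229524589189484227876035302539654390573310882938611280351172066860211825321032715026

def rt24 : ℕ := 12746920901610561

def nx33 : ℕ := 1669018859677652349845446593947424755839067364478217419099495115857158407112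

def ent33 : ℕ := 61206573244604470012629991882535705596880525271298179785513993233074731634304049041914760986

def rt33 : ℕ := 12746920901610561

def dyn9 : List Bd := [
  ⟨4, 1880046980278045042454146808269182509734792696479710654229537798437180801410, 3⟩,
  ⟨4, 1880046980278045042454146808269183698157100927541864845124806359184970875266, 3⟩,
  ⟨5, 1880046980278045042454146810712776898844359727652239904758082546465373159810, 3⟩,
  ⟨5, 1880046980278045042454147118126083834447987191701030250364226221936402760066, 3⟩,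
  ⟨6, 1880046980278045043085572759692263537760883103727050092774059360237203227010, 3⟩,
  ⟨6, 1880046980278045122491982983014568141880076034423679518413223094778991739266, 3⟩,
  ⟨7, 1880046980440959735690839526571069922509753572357656638462756832758804251010, 3⟩,
  ⟨7, 1880047000920488337909346305592732153177713801448263747316233608848190996866, 3⟩,
  ⟨8, 1922012105341571715291251027944229907867946444871315243438011508022180839810, 3⟩,
  ⟨8, 7195040431463377471774927689273546139071275366880669660720711547708222996866, 3⟩,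
  ⟨8, 1937900842070070276251678854617704579126931801388161839667459996308115292546, 3⟩]

def dyn33 : List Bd := [
  ⟨0, 1880046980278045042454146808269182500291391054066087996909382618105730023935, 15⟩,
  ⟨0, 1880046980278045042454146808269182500291391054066087996909382618105730088961, 15⟩,
  ⟨0, 1880046980278045042454146808269182500291391054066087996909382618105725862147, 15⟩,
  ⟨1, 1880046980278045042454146808269182500291391054066087996909383159097929499010, 15⟩,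
  ⟨1, 1880046980278045042454146808269182500291391054066087996909451302123213947266, 15⟩,
  ⟨1, 1880046980278045042454146808269182500291391054066087996909383194146473247106, 15⟩,
  ⟨4, 1880046980278045042454146808269182509734792696479710654229537798437180801410, 3⟩,
  ⟨4, 1880046980278045042454146808269182511433639536436286766697916770409387131266, 3⟩]

def dyn8 : List Bd := [
  ⟨31, 6154588597789485140572614392838087389720506077323813918233715540354, 3⟩]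

def dyn24 : List Bd := [
  ⟨31, 6154588597789485140572614392838087389720506077323813918233715540354, 3⟩]

def row9 : List Bd := [
  ⟨4, 1880046980278045042454146808269182511433639536436286766697916770409387131266, 3⟩,
  ⟨5, 1880046980278045042454146811260157052521743321644912185654588822765227213186, 3⟩,
  ⟨6, 1880046980278045043257030426081532928279546741115737492271184629418499768706, 3⟩,
  ⟨7, 1880046980493567472516534817837978234743557010993703204797843681751796285826, 3⟩]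

def rw4 : List (List ℕ) := [
  [0, 1, 2, 3, 0, 3, 6, 1, 8, 5, 2, 5, 6, 7, 8, 7],
  [0, 1, 2, 3, 0, 3, 6, 5, 6, 7, 8, 1, 8, 5, 2, 7],
  [0, 1, 2, 3, 0, 3, 7, 1, 5, 8, 2, 8, 7, 6, 5, 6],
  [0, 1, 2, 3, 0, 3, 7, 8, 7, 6, 5, 1, 5, 8, 2, 6],
  [0, 1, 2, 3, 0, 6, 2, 8, 5, 3, 5, 6, 7, 8, 7, 1],
  [0, 1, 2, 3, 0, 6, 5, 6, 7, 8, 2, 8, 5, 3, 7, 1],
  [0, 1, 2, 3, 0, 7, 2, 5, 8, 3, 8, 7, 6, 5, 6, 1],
  [0, 1, 2, 3, 0, 7, 8, 7, 6, 5, 2, 5, 8, 3, 6, 1],
  [0, 1, 2, 3, 2, 5, 0, 3, 8, 1, 6, 5, 6, 7, 8, 7],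
  [0, 1, 2, 3, 2, 5, 6, 7, 8, 5, 8, 1, 6, 3, 0, 7],
  [0, 1, 2, 3, 2, 5, 6, 7, 8, 7, 0, 5, 8, 3, 6, 1],
  [0, 1, 2, 3, 2, 5, 8, 5, 6, 7, 8, 1, 6, 3, 0, 7],
  [0, 1, 2, 3, 2, 5, 8, 7, 6, 5, 6, 1, 8, 3, 0, 7],
  [0, 1, 2, 3, 2, 6, 0, 8, 5, 1, 5, 6, 7, 8, 7, 3],
  [0, 1, 2, 3, 2, 6, 0, 8, 5, 3, 7, 8, 7, 6, 5, 1],
  [0, 1, 2, 3, 2, 6, 5, 6, 7, 8, 0, 8, 5, 1, 7, 3],
  [0, 1, 2, 3, 2, 6, 5, 6, 7, 8, 5, 1, 7, 3, 0, 8],
  [0, 1, 2, 3, 2, 7, 0, 5, 8, 1, 8, 7, 6, 5, 6, 3],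
  [0, 1, 2, 3, 2, 7, 0, 5, 8, 3, 6, 5, 6, 7, 8, 1],
  [0, 1, 2, 3, 2, 7, 8, 7, 6, 5, 0, 5, 8, 1, 6, 3],
  [0, 1, 2, 3, 2, 7, 8, 7, 6, 5, 8, 1, 6, 3, 0, 5],
  [0, 1, 2, 3, 2, 8, 0, 3, 5, 1, 7, 8, 7, 6, 5, 6],
  [0, 1, 2, 3, 2, 8, 5, 6, 7, 8, 7, 1, 5, 3, 0, 6],
  [0, 1, 2, 3, 2, 8, 5, 8, 7, 6, 5, 1, 7, 3, 0, 6],
  [0, 1, 2, 3, 2, 8, 7, 6, 5, 6, 0, 8, 5, 3, 7, 1],
  [0, 1, 2, 3, 2, 8, 7, 6, 5, 8, 5, 1, 7, 3, 0, 6],
  [0, 1, 2, 3, 5, 3, 0, 6, 2, 8, 5, 6, 7, 8, 7, 1],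
  [0, 1, 2, 3, 6, 1, 8, 5, 2, 5, 6, 7, 8, 7, 0, 3],
  [0, 1, 2, 3, 6, 3, 0, 5, 2, 7, 8, 7, 6, 5, 8, 1],
  [0, 1, 2, 3, 6, 3, 0, 7, 2, 5, 6, 7, 8, 5, 8, 1],
  [0, 1, 2, 3, 6, 3, 0, 7, 2, 5, 8, 5, 6, 7, 8, 1],
  [0, 1, 2, 3, 6, 5, 6, 7, 8, 1, 8, 5, 2, 7, 0, 3],
  [0, 1, 2, 3, 6, 5, 6, 7, 8, 7, 2, 5, 0, 3, 8, 1],
  [0, 1, 2, 3, 7, 1, 5, 8, 2, 8, 7, 6, 5, 6, 0, 3],
  [0, 1, 2, 3, 7, 3, 0, 6, 2, 8, 5, 8, 7, 6, 5, 1],
  [0, 1, 2, 3, 7, 3, 0, 6, 2, 8, 7, 6, 5, 8, 5, 1],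
  [0, 1, 2, 3, 7, 3, 0, 8, 2, 6, 5, 6, 7, 8, 5, 1],
  [0, 1, 2, 3, 7, 8, 7, 6, 5, 1, 5, 8, 2, 6, 0, 3],
  [0, 1, 2, 3, 7, 8, 7, 6, 5, 6, 2, 8, 0, 3, 5, 1],
  [0, 1, 2, 3, 8, 3, 0, 7, 2, 5, 8, 7, 6, 5, 6, 1]]

def rw5 : List (List ℕ) := [
  [0, 1, 2, 3, 4, 1, 4, 6, 0, 8, 2, 8, 7, 6, 7, 3],
  [0, 1, 2, 3, 4, 1, 4, 8, 0, 6, 2, 6, 7, 8, 7, 3],
  [0, 1, 2, 3, 4, 1, 7, 6, 7, 8, 2, 8, 4, 6, 0, 3],
  [0, 1, 2, 3, 4, 1, 7, 8, 7, 6, 2, 6, 4, 8, 0, 3],
  [0, 1, 2, 3, 4, 3, 0, 6, 2, 6, 7, 8, 7, 1, 4, 8],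
  [0, 1, 2, 3, 4, 3, 0, 6, 2, 8, 4, 6, 7, 8, 7, 1],
  [0, 1, 2, 3, 4, 3, 0, 8, 2, 6, 4, 8, 7, 6, 7, 1],
  [0, 1, 2, 3, 4, 3, 0, 8, 2, 8, 7, 6, 7, 1, 4, 6],
  [0, 1, 2, 3, 4, 3, 7, 6, 7, 8, 0, 6, 2, 8, 4, 1],
  [0, 1, 2, 3, 4, 3, 7, 8, 7, 6, 0, 8, 2, 6, 4, 1],
  [0, 1, 2, 3, 4, 6, 0, 3, 7, 6, 7, 8, 2, 8, 4, 1],
  [0, 1, 2, 3, 4, 8, 0, 3, 7, 8, 7, 6, 2, 6, 4, 1]]

def rw6 : List (List ℕ) := [
  [0, 1, 2, 3, 4, 5, 0, 3, 7, 5, 7, 8, 2, 8, 4, 1],
  [0, 1, 2, 3, 4, 5, 0, 3, 8, 5, 8, 7, 2, 7, 4, 1],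
  [0, 1, 2, 3, 4, 5, 0, 5, 2, 7, 4, 7, 8, 1, 8, 3],
  [0, 1, 2, 3, 4, 5, 0, 5, 2, 8, 4, 8, 7, 1, 7, 3],
  [0, 1, 2, 3, 4, 5, 2, 5, 0, 3, 7, 1, 7, 8, 4, 8],
  [0, 1, 2, 3, 4, 5, 2, 5, 0, 3, 8, 1, 8, 7, 4, 7],
  [0, 1, 2, 3, 4, 5, 2, 5, 7, 3, 0, 8, 4, 8, 7, 1],
  [0, 1, 2, 3, 4, 5, 2, 5, 8, 3, 0, 7, 4, 7, 8, 1],
  [0, 1, 2, 3, 4, 5, 2, 7, 4, 7, 8, 1, 8, 3, 0, 5],
  [0, 1, 2, 3, 4, 5, 2, 8, 4, 8, 7, 1, 7, 3, 0, 5],
  [0, 1, 2, 3, 4, 5, 4, 1, 7, 3, 7, 8, 0, 8, 2, 5],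
  [0, 1, 2, 3, 4, 5, 4, 1, 7, 3, 7, 8, 2, 5, 0, 8],
  [0, 1, 2, 3, 4, 5, 4, 1, 8, 3, 8, 7, 0, 7, 2, 5],
  [0, 1, 2, 3, 4, 5, 4, 1, 8, 3, 8, 7, 2, 5, 0, 7],
  [0, 1, 2, 3, 4, 5, 4, 7, 0, 5, 2, 7, 8, 3, 8, 1],
  [0, 1, 2, 3, 4, 5, 4, 7, 2, 5, 0, 3, 8, 7, 8, 1],
  [0, 1, 2, 3, 4, 5, 4, 7, 2, 7, 8, 3, 0, 5, 8, 1],
  [0, 1, 2, 3, 4, 5, 4, 7, 8, 1, 8, 5, 2, 7, 0, 3],
  [0, 1, 2, 3, 4, 5, 4, 7, 8, 7, 2, 5, 0, 3, 8, 1],
  [0, 1, 2, 3, 4, 5, 4, 8, 0, 5, 2, 8, 7, 3, 7, 1],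
  [0, 1, 2, 3, 4, 5, 4, 8, 2, 5, 0, 3, 7, 8, 7, 1],
  [0, 1, 2, 3, 4, 5, 4, 8, 2, 8, 7, 3, 0, 5, 7, 1],
  [0, 1, 2, 3, 4, 5, 4, 8, 7, 1, 7, 5, 2, 8, 0, 3],
  [0, 1, 2, 3, 4, 5, 4, 8, 7, 8, 2, 5, 0, 3, 7, 1],
  [0, 1, 2, 3, 4, 5, 7, 1, 7, 8, 4, 8, 2, 5, 0, 3],
  [0, 1, 2, 3, 4, 5, 7, 5, 0, 3, 7, 8, 2, 8, 4, 1],
  [0, 1, 2, 3, 4, 5, 8, 1, 8, 7, 4, 7, 2, 5, 0, 3],
  [0, 1, 2, 3, 4, 5, 8, 5, 0, 3, 8, 7, 2, 7, 4, 1]]

def rw7 : List (List ℕ) := [
  [0, 1, 2, 3, 4, 5, 6, 1, 6, 8, 4, 8, 2, 5, 0, 3],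
  [0, 1, 2, 3, 4, 5, 6, 3, 6, 1, 4, 8, 2, 8, 0, 5],
  [0, 1, 2, 3, 4, 5, 6, 5, 0, 3, 6, 8, 2, 8, 4, 1],
  [0, 1, 2, 3, 4, 5, 6, 5, 2, 8, 4, 8, 0, 3, 6, 1]]

theorem tab9 : TabOK (rot 20) rt9 ent9 :=
  ⟨by decide, by unfold Rep; decide +kernel, by decide +kernel⟩

theorem tab8 : TabOK (rot 18) rt8 ent8 :=
  ⟨by decide, by unfold Rep; decide +kernel, by decide +kernel⟩

theorem tab24 : TabOK (rot 12) rt24 ent24 :=
  ⟨by decide, by unfold Rep; decide +kernel, by decide +kernel⟩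

theorem tab33 : TabOK (rot 12) rt33 ent33 :=
  ⟨by decide, by unfold Rep; decide +kernel, by decide +kernel⟩

section frameP

variable (tr v h : Bool) (m n N M K : ℕ) [NeZero N] (nx ent : ℕ)

def FP1 : Prop := ∀ b : Fin N, OnBoundary m n (fdec tr v h M K (g7 ent b.val))

def FP2 : Prop := ∀ i < m, ∀ j < n, ∀ s, OnBoundary m n (i, j, s) →
  ∃ b : Fin N, fdec tr v h M K (g7 ent b.val) = (i, j, s)

def FP3 : Prop := ∀ b b' : Fin N,
  fdec tr v h M K (g7 ent b.val) = fdec tr v h M K (g7 ent b'.val) → b = b'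

def FP4 : Prop := ∀ b : Fin N, g7 ent b.val =
  enc (fidx tr v h M K) (fsc tr v h) (fdec tr v h M K (g7 ent b.val))

def FP5 : Prop := ∀ b : Fin N,
  g7 nx (enc (fidx tr v h M K) (fsc tr v h) (fdec tr v h M K (g7 ent b.val))) = 64 + b.val

def FP6 : Prop := ∀ i < m, ∀ j < n, ∀ s, ¬ OnBoundary m n (i, j, s) →
  g7 nx (enc (fidx tr v h M K) (fsc tr v h) (i, j, s)) =
    enc (fidx tr v h M K) (fsc tr v h) (neighbour (i, j, s))

def FP7 : Prop := ∀ i < m, ∀ j < n, fidx tr v h M K i j < m * n ∧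
  (fdec tr v h M K (4 * fidx tr v h M K i j)).1 = i ∧
  (fdec tr v h M K (4 * fidx tr v h M K i j)).2.1 = j

def FP8 : Prop := ∀ c < m * n, ∃ i < m, ∃ j < n, fidx tr v h M K i j = c

def FP9 : Prop :=
  (∀ b : Fin N, head (fdec tr v h M K (g7 ent b.val)) =
      tail (fdec tr v h M K (g7 ent (rot N b).val))) ∨
    (∀ b : Fin N, tail (fdec tr v h M K (g7 ent b.val)) =
      head (fdec tr v h M K (g7 ent (rot N b).val)))

instance : Decidable (FP1 tr v h m n N M K ent) := by unfold FP1; infer_instance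
instance : Decidable (FP2 tr v h m n N M K ent) := by unfold FP2; infer_instance
instance : Decidable (FP3 tr v h N M K ent) := by unfold FP3; infer_instance
instance : Decidable (FP4 tr v h N M K ent) := by unfold FP4; infer_instance
instance : Decidable (FP5 tr v h N M K nx ent) := by unfold FP5; infer_instance
instance : Decidable (FP6 tr v h m n M K nx) := by unfold FP6; infer_instance
instance : Decidable (FP7 tr v h m n M K) := by unfold FP7; infer_instance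
instance : Decidable (FP8 tr v h m n M K) := by unfold FP8; infer_instance
instance : Decidable (FP9 tr v h N M K ent) := by unfold FP9; infer_instance

/-- The conditions that make the coding a frame. The array has `m` rows and `n` columns, the
standard board `M` rows and `K` columns. -/
def FrameP : Prop :=
  FP1 tr v h m n N M K ent ∧ FP2 tr v h m n N M K ent ∧ FP3 tr v h N M K ent ∧
  FP4 tr v h N M K ent ∧ FP5 tr v h N M K nx ent ∧ FP6 tr v h m n M K nx ∧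
  FP7 tr v h m n M K ∧ FP8 tr v h m n M K ∧ m * n < 16 ∧ FP9 tr v h N M K ent

instance : Decidable (FrameP tr v h m n N M K nx ent) := by
  unfold FrameP; infer_instance

end frameP

theorem fsc_spec (tr v h : Bool) : (∀ s, fsc tr v h s < 4) ∧
    (∀ s s', fsc tr v h s = fsc tr v h s' → s = s') ∧ (∀ k < 4, ∃ s, fsc tr v h s = k) ∧
    (∀ s, fsc tr v h s.opp = (fsc tr v h s + 2) % 4) := by
  revert tr v h
  decide +kernel

theorem FrameP.frame {tr v h : Bool} {m n N M K : ℕ} [NeZero N] {nx ent : ℕ}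
    (H : FrameP tr v h m n N M K nx ent) : Frame m n N (fidx tr v h M K) (fsc tr v h)
      (fun b => fdec tr v h M K (g7 ent b.val)) nx ent := by
  obtain ⟨h1, h2, h3, h4, h5, h6, h7, h8, h9, h10⟩ := H
  obtain ⟨g1, g2, g3, -⟩ := fsc_spec tr v h
  refine ⟨h1, h2, h3, h4, h5, h6, fun i hi j hj => (h7 i hi j hj).1, ?_, h8, g1, g2, g3, h9, h10⟩
  intro i hi j hj i' hi' j' hj' e
  have e1 := (h7 i hi j hj).2
  have e2 := (h7 i' hi' j' hj').2
  rw [e] at e1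
  exact ⟨e1.1.symm.trans e2.1, e1.2.symm.trans e2.2⟩

theorem frame9 : ∀ v h : Bool, FrameP false v h 1 9 20 1 9 nx9 ent9 := by decide +kernel

theorem frame9t : ∀ v h : Bool, FrameP true v h 9 1 20 1 9 nx9 ent9 := by decide +kernel

theorem frame8 : FrameP false false false 1 8 18 1 8 nx8 ent8 := by decide +kernel

theorem frame8t : FrameP true false false 8 1 18 1 8 nx8 ent8 := by decide +kernel

theorem frame24 : FrameP false false false 2 4 12 2 4 nx24 ent24 := by decide +kernel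

theorem frame24t : FrameP true false false 4 2 12 2 4 nx24 ent24 := by decide +kernel

theorem frame33 : ∀ tr v h : Bool, FrameP tr v h 3 3 12 3 3 nx33 ent33 := by decide +kernel

theorem rowCheck4 : rowCheck 4 rw4 = true := by decide +kernel

theorem rowCheck5 : rowCheck 5 rw5 = true := by decide +kernel

theorem rowCheck6 : rowCheck 6 rw6 = true := by decide +kernel

theorem rowCheck7 : rowCheck 7 rw7 = true := by decide +kernel

end Pool.Agent.MP_ea99c2_gt
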