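import Pool.Agent.MP_ea99c2_gt.Defs

/-!
# Traces of mosaics: rotation, reversal, and smoothing of a crossing
-/

set_option linter.unusedVariables false

namespace Pool.Agent.MP_ea99c2_gt

/-! ### Cyclic chains -/

section Loop

variable {α : Type*} {R : α → α → Prop}

def Loop (R : α → α → Prop) (l : List α) : Prop := (l ++ l.take 1).IsChain R

theorem loop_cons {a : α} {l : List α} : Loop R (a :: l) ↔ (a :: l ++ [a]).IsChain R := by
  unfold Loop; simp

theorem Loop.rotate {u v : List α} (h : Loop R (u ++ v)) : Loop R (v ++ u) := by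
  cases u with
  | nil => simpa using h
  | cons a u =>
    cases v with
    | nil => simpa using h
    | cons b v =>
      rw [List.cons_append, loop_cons] at h ⊢
      have h1 : (a :: u ++ b :: (v ++ [a])).IsChain R := by simpa using h
      have h2 : (b :: v ++ a :: (u ++ [b])).IsChain R := by
        rw [List.isChain_split] at h1 ⊢
        exact ⟨by simpa using h1.2, by simpa using h1.1⟩
      simpa using h2

theorem Loop.mono {S : α → α → Prop} {l : List α} (h : Loop R l)
    (hRS : ∀ x ∈ l, ∀ y ∈ l, R x y → S x y) : Loop S l := by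
  have hm : ∀ x ∈ l ++ l.take 1, x ∈ l := by
    intro x hx
    rcases List.mem_append.1 hx with h | h
    · exact h
    · exact List.mem_of_mem_take h
  exact List.IsChain.imp_of_mem_imp (fun x y hx hy hxy => hRS x (hm x hx) y (hm y hy) hxy) h

theorem Loop.map_reverse {β : Type*} {S : β → β → Prop} {l : List α} (φ : α → β) (h : Loop R l)
    (hRS : ∀ x ∈ l, ∀ y ∈ l, R x y → S (φ y) (φ x)) : Loop S (l.map φ).reverse := by
  have h1 : Loop (fun x y => S (φ y) (φ x)) l := h.mono hRS
  cases l with
  | nil => simp [Loop]
  | cons a t =>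
    rw [loop_cons] at h1
    have h2 : ((a :: t ++ [a]).map φ).reverse.IsChain S := by
      rw [List.isChain_reverse, List.isChain_map]
      exact h1
    have h3 : Loop S (φ a :: (t.map φ).reverse) := by
      rw [loop_cons]
      simpa using h2
    have h4 : Loop S ((t.map φ).reverse ++ [φ a]) :=
      Loop.rotate (u := [φ a]) (by simpa using h3)
    simpa using h4

end Loop

/-! ### Tiles and gluing -/

theorem conn_symm {t : Tile} {s s' : Side} (h : t.conn s = some s') : t.conn s' = some s := by
  revert h
  cases t <;> cases s <;> cases s' <;> simp [Tile.conn, Side.opp]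

theorem opp_opp (s : Side) : s.opp.opp = s := by cases s <;> rfl

theorem onBoundary_iff (m n i j : ℕ) (s : Side) : OnBoundary m n (i, j, s) ↔
    (i < m ∧ j < n) ∧ ((s = .north ∧ i = 0) ∨ (s = .east ∧ j + 1 = n) ∨
      (s = .south ∧ i + 1 = m) ∨ (s = .west ∧ j = 0)) := by
  unfold OnBoundary InGrid
  cases s <;> simp

theorem neighbour_spec {m n : ℕ} {e : CellSide} (h : InGrid m n e) (hb : ¬ OnBoundary m n e) :
    InGrid m n (neighbour e) ∧ ¬ OnBoundary m n (neighbour e) ∧
      neighbour (neighbour e) = e := by
  obtain ⟨i, j, s⟩ := e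
  rw [onBoundary_iff] at hb
  unfold InGrid at h
  simp only at h
  cases s <;> simp only [neighbour, onBoundary_iff] <;> unfold InGrid <;>
    simp_all <;> omega

namespace Mosaic

variable (D : Mosaic)

theorem glue_inGrid {e : CellSide} (h : InGrid D.rows D.cols e) :
    InGrid D.rows D.cols (glue D.rows D.cols D.pair e) := by
  unfold glue
  split_ifs with hb
  · exact (D.pair_boundary e hb).1
  · exact (neighbour_spec h hb).1

theorem glue_glue {e : CellSide} (h : InGrid D.rows D.cols e) :
    glue D.rows D.cols D.pair (glue D.rows D.cols D.pair e) = e := by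
  by_cases hb : OnBoundary D.rows D.cols e
  · have h1 : glue D.rows D.cols D.pair e = D.pair e := if_pos hb
    rw [h1]
    unfold glue
    rw [if_pos (D.pair_boundary e hb), D.pair_pair e hb]
  · have h1 : glue D.rows D.cols D.pair e = neighbour e := if_neg hb
    obtain ⟨h2, h3, h4⟩ := neighbour_spec h hb
    rw [h1]
    unfold glue
    rw [if_neg h3, h4]

variable {D}

theorem exit_symm {e e' : CellSide} (h : D.exit e = some e') : D.exit e' = some e := by
  obtain ⟨i, j, s⟩ := e
  unfold exit at *
  simp only [Option.map_eq_some_iff] at h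
  obtain ⟨s', h1, rfl⟩ := h
  simp only [conn_symm h1, Option.map_some]

theorem exit_inGrid {e e' : CellSide} (h : D.exit e = some e') (hg : InGrid D.rows D.cols e) :
    InGrid D.rows D.cols e' := by
  unfold exit at h
  simp only [Option.map_eq_some_iff] at h
  obtain ⟨s', h1, rfl⟩ := h
  exact hg

theorem exit_cell {e e' : CellSide} (h : D.exit e = some e') : e'.1 = e.1 ∧ e'.2.1 = e.2.1 := by
  unfold exit at h
  simp only [Option.map_eq_some_iff] at h
  obtain ⟨s', h1, rfl⟩ := h
  exact ⟨rfl, rfl⟩

theorem next_eq {e e' : CellSide} : D.next e = some e' ↔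
    ∃ x, D.exit e = some x ∧ glue D.rows D.cols D.pair x = e' := by
  unfold next; rw [Option.map_eq_some_iff]

/-- The exit, as a total function. -/
def ex (D : Mosaic) (e : CellSide) : CellSide := (D.exit e).getD e

theorem IsTrace.loop {l : List CellSide} (h : D.IsTrace l) :
    Loop (fun e e' => D.next e = some e') l := h.2.2.2.1

theorem IsTrace.rotate {u v : List CellSide} (h : D.IsTrace (u ++ v)) : D.IsTrace (v ++ u) := by
  obtain ⟨h1, h2, h3, h4, h5⟩ := h
  refine ⟨?_, ?_, ?_, Loop.rotate h4, ?_⟩
  · intro h; apply h1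
    rw [List.append_eq_nil_iff] at *
    exact ⟨h.2, h.1⟩
  · rw [List.nodup_append_comm]; exact h2
  · intro e he
    exact h3 e (by rw [List.mem_append] at *; exact he.symm)
  · intro e he e' hee
    have := h5 e he e' hee
    rw [List.mem_append, List.mem_append] at *
    rwa [or_comm, or_comm (a := e' ∈ v)]

theorem loop_exit {l : List CellSide} (h : Loop (fun e e' => D.next e = some e') l) :
    ∀ e ∈ l, ∃ x, D.exit e = some x := by
  intro e he
  obtain ⟨u, v, rfl⟩ := List.append_of_mem he
  have h1 : Loop (fun e e' => D.next e = some e') (e :: (v ++ u)) := by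
    have := h.rotate
    simpa using this
  rw [loop_cons] at h1
  rw [List.cons_append, List.isChain_cons] at h1
  obtain ⟨y, hy⟩ : ∃ y, (v ++ u ++ [e]).head? = some y := by
    cases hvu : v ++ u <;> simp
  have := h1.1 y (by rw [hy]; rfl)
  rw [next_eq] at this
  obtain ⟨x, hx, _⟩ := this
  exact ⟨x, hx⟩

theorem IsTrace.exit_mem {l : List CellSide} (h : D.IsTrace l) {e : CellSide} (he : e ∈ l) :
    D.exit e = some (D.ex e) ∧ D.exit (D.ex e) = some e ∧ D.ex (D.ex e) = e := by
  obtain ⟨x, hx⟩ := loop_exit h.loop e he
  have h1 : D.ex e = x := by unfold ex; rw [hx]; rfl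
  have h2 := exit_symm hx
  rw [h1]
  exact ⟨hx, h2, by unfold ex; rw [h2]; rfl⟩

/-- The reversed trace. -/
theorem IsTrace.reverse {l : List CellSide} (h : D.IsTrace l) :
    D.IsTrace (l.map D.ex).reverse := by
  have hx := fun e he => h.exit_mem (e := e) he
  obtain ⟨h1, h2, h3, h4, h5⟩ := h
  refine ⟨?_, ?_, ?_, ?_, ?_⟩
  · simpa using h1
  · rw [List.nodup_reverse]
    refine List.Nodup.map_on ?_ h2
    intro x hx' y hy' hxy
    rw [← (hx x hx').2.2, hxy, (hx y hy').2.2]
  · intro e he
    rw [List.mem_reverse, List.mem_map] at he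
    obtain ⟨x, hx', rfl⟩ := he
    exact exit_inGrid (hx x hx').1 (h3 x hx')
  · refine Loop.map_reverse (R := fun e e' => D.next e = some e') D.ex h4 ?_
    intro x hx' y hy' hxy
    rw [next_eq] at hxy ⊢
    obtain ⟨z, hz, hzy⟩ := hxy
    refine ⟨y, (hx y hy').2.1, ?_⟩
    rw [(hx x hx').1] at hz
    rw [← hzy, ← Option.some.inj hz]
    exact D.glue_glue (exit_inGrid (hx x hx').1 (h3 x hx'))
  · intro e he e' hee
    have key : ∀ a b, D.exit a = some b → (a ∈ (l.map D.ex).reverse ↔ b ∈ l) := by
      intro a b hab
      rw [List.mem_reverse, List.mem_map]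
      constructor
      · rintro ⟨x, hx', rfl⟩
        have := (hx x hx').2.1
        rw [this] at hab
        rw [← Option.some.inj hab]
        exact hx'
      · intro hb
        refine ⟨b, hb, ?_⟩
        unfold ex; rw [exit_symm hab]; rfl
    rw [key e e' hee, key e' e (exit_symm hee)]
    exact (h5 e he e' hee).symm

/-! ### The word of crossings -/

def isX (t : Tile) : Bool := decide (t = .t9 ∨ t = .t10)

theorem isX_conn {t : Tile} (h : isX t = true) (s : Side) : t.conn s = some s.opp := by
  simp only [isX, decide_eq_true_eq] at h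
  rcases h with rfl | rfl <;> cases s <;> rfl

/-- The crossings met along a trace. -/
def cw (D : Mosaic) (l : List CellSide) : List (ℕ × ℕ) :=
  (l.filter fun e => isX (D.tile e.1 e.2.1)).map fun e => (e.1, e.2.1)

theorem cw_append (u v : List CellSide) : D.cw (u ++ v) = D.cw u ++ D.cw v := by
  unfold cw; rw [List.filter_append, List.map_append]

theorem cw_reverse (l : List CellSide) : D.cw l.reverse = (D.cw l).reverse := by
  unfold cw; rw [List.filter_reverse, List.map_reverse]

theorem cw_map_ex {l : List CellSide} (h : ∀ e ∈ l, D.exit e = some (D.ex e)) :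
    D.cw (l.map D.ex) = D.cw l := by
  induction l with
  | nil => rfl
  | cons e l ih =>
    have h1 := exit_cell (h e (by simp))
    have ih' := ih fun e' he' => h e' (List.mem_cons_of_mem _ he')
    rw [List.map_cons]
    unfold cw at *
    have h2 : isX (D.tile (D.ex e).1 (D.ex e).2.1) = isX (D.tile e.1 e.2.1) := by
      rw [h1.1, h1.2]
    cases hx : isX (D.tile e.1 e.2.1)
    · simp only [List.filter_cons, h2, hx, Bool.false_eq_true, if_false, ih']
    · simp only [List.filter_cons, h2, hx, if_true, List.map_cons, ih', h1.1, h1.2]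

theorem labels_code (l0 l : List CellSide) :
    (D.code l0 : List Letter) = l0.filterMap (D.letter l0) := rfl

theorem letter_cases (L : List CellSide) (e : CellSide) :
    (isX (D.tile e.1 e.2.1) = true ∧ ∃ a, D.letter L e = some a ∧ a.label = (e.1, e.2.1)) ∨
    (isX (D.tile e.1 e.2.1) = false ∧ D.letter L e = none) := by
  unfold letter isX
  cases D.tile e.1 e.2.1 <;> simp

theorem map_label_letter (L l : List CellSide) :
    (l.filterMap (D.letter L)).map Letter.label = D.cw l := by
  induction l with
  | nil => rfl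
  | cons e l ih =>
    rcases D.letter_cases L e with ⟨h1, a, h2, h3⟩ | ⟨h1, h2⟩
    · rw [List.filterMap_cons_some h2, List.map_cons, ih, h3]
      unfold cw
      simp only [List.filter_cons, h1, if_true, List.map_cons]
    · rw [List.filterMap_cons_none h2, ih]
      unfold cw
      simp only [List.filter_cons, h1, Bool.false_eq_true, if_false]

/-- The values of the second component. -/
theorem mem_cw {l : List CellSide} {p : ℕ × ℕ} : p ∈ D.cw l ↔
    isX (D.tile p.1 p.2) = true ∧ ∃ s, (p.1, p.2, s) ∈ l := by
  unfold cw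
  simp only [List.mem_map, List.mem_filter]
  constructor
  · rintro ⟨⟨i, j, s⟩, ⟨h1, h2⟩, rfl⟩
    exact ⟨h2, s, h1⟩
  · rintro ⟨h1, s, h2⟩
    exact ⟨(p.1, p.2, s), ⟨h2, h1⟩, rfl⟩

/-! ### Smoothing a crossing -/

/-- Replace a tile by another one, both with arcs on all sides. -/
def setTile (D : Mosaic) (i j : ℕ) (t : Tile) (h1 : ∀ s, (t.conn s).isSome)
    (h2 : ∀ s, ((D.tile i j).conn s).isSome) : Mosaic where
  rows := D.rows
  cols := D.cols
  rows_pos := D.rows_pos
  cols_pos := D.cols_pos
  tile i' j' := if i' = i ∧ j' = j then t else D.tile i' j'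
  pair := D.pair
  pair_boundary := D.pair_boundary
  pair_pair := D.pair_pair
  pair_ne := D.pair_ne
  suitably_connected := by
    have key : ∀ i' j' s, ((if i' = i ∧ j' = j then t else D.tile i' j').conn s).isSome ↔
        ((D.tile i' j').conn s).isSome := by
      intro i' j' s
      split_ifs with h
      · rw [h.1, h.2]; simp [h1 s, h2 s]
      · exact Iff.rfl
    intro e he
    rw [key, key]
    exact D.suitably_connected e he

end Mosaic

end Pool.Agent.MP_ea99c2_gt
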